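import Mathlib
import Pool.Agent.Lib_helper94.MDSStage

/-!
Base definitions for the full determination of the multiplicative Dirichlet spectrum
(problem MP_85fa44_nt): constants in `ℚ(√D)`, `D = 654739973030`, the integer matrix `A`
and its eigenforms.  See `PAPER.md` in this folder.
-/

namespace Pool.Agent.MDX

open Pool.Agent.Lib_helper94.MDS

noncomputable section

/-- the square root of `D = 654739973030` -/
def sD : ℝ := Real.sqrt 654739973030

/-- the dilation `λ = 19419841 + 24 √D` (about `3.88e7`) -/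
def lam : ℝ := 19419841 + 24 * sD

/-- its inverse -/
def laI : ℝ := 19419841 - 24 * sD

/-- `β* = s*`, about `0.3932037850769830` -/
def bS : ℝ := 1461589 / 3296404 - 537649 / 8668784347080 * sD

/-- `γ*`, about `-0.0119009871976613` -/
def gS : ℝ := -(1766685 / 26371232) + 2360867 / 34675137388320 * sD

/-- `p* = β* + γ*`, about `0.3813027978793217` -/
def pS : ℝ := bS + gS

/-- the supremum of the spectrum, about `0.3819828783029565` -/
def FS : ℝ := 6209318411912960898313 / 16362765653983676769060 +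
  8878546621181637349 / 2868687348925110243798061080 * sD

/-- `t*`, about `0.0303206985789036` -/
def tS : ℝ := 1722262022763209 / 12244096480030887 - 8348240116 / 61220482400154435 * sD

/-- coefficient of `x₀` in `b = H + cX x₀ + cT V*` -/
def cX : ℝ := -(40134739 / 1213740)

/-- coefficient of `V*` in `b = H + cX x₀ + cT V*`, about `300.1076` -/
def cT : ℝ := 28019434 / 75546919965 * sD

/-- integer vectors `v = (b, a, n)` -/
abbrev V3 : Type := ℤ × ℤ × ℤ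

/-- `x₀(v) = a - 16 b / 17` -/
def x0 (v : V3) : ℝ := v.2.1 - 16 * v.1 / 17

/-- `V*(v) = b β* + a γ* - n` -/
def Vs (v : V3) : ℝ := v.1 * bS + v.2.1 * gS - v.2.2

/-- the expanded eigenform `H(v)` (`= - cT` times the conjugate of `V*(v)`) -/
def Hs (v : V3) : ℝ :=
  v.1 * (-(9140033 / 606870) - 24847013 / 151093839930 * sD) +
  v.2.1 * (40134739 / 2427480 + 2002243 / 80583381296 * sD) +
  v.2.2 * (28019434 / 75546919965 * sD)

/-- the integer matrix `A`, of determinant `1` -/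
def AV (v : V3) : V3 :=
  (-5753140815 * v.1 + 1423030594 * v.2.1 + 11656084544 * v.2.2,
   -5414720768 * v.1 + 1339322913 * v.2.1 + 10970432512 * v.2.2,
   -2197716222 * v.1 + 543601751 * v.2.1 + 4452657585 * v.2.2)

/-- the inverse matrix -/
def AI (v : V3) : V3 :=
  (4583216593 * v.1 - 138718946 * v.2.1 - 11656084544 * v.2.2,
   4313615616 * v.1 - 130559007 * v.2.1 - 10970432512 * v.2.2,
   1735529918 * v.1 - 52528803 * v.2.1 - 4413817903 * v.2.2)

/-- coefficients of the first order (Jensen) inequality -/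
def LAs : ℝ := 16 / 289 * (1 / pS ^ 2 - 1 / bS ^ 2)

/-- see `LAs` -/
def LBs : ℝ := 16 / 17 / pS ^ 2 + 1 / 17 / bS ^ 2

/-- the golden ratio `(1 + √5) / 2` -/
def ph : ℝ := Real.goldenRatio

/-- the form `θ₁`: it vanishes on `(34,31,13)`, has values `-φ/μ₁` on `(34,32,13)` and `1/μ₁` on
`(55,52,21)`, where `μ₁ = 34 + 63 φ`; its coefficient of `n` is `-1` -/
def th1 (v : V3) : ℝ :=
  (13 * v.1 - 34 * v.2.2 - ph * (v.2.1 - 25 * v.1 + 63 * v.2.2)) / (34 + 63 * ph)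

/-- A limiting configuration: `z` (= `1 - θ` in helper94's files), `κ`, `ε`, `β = s`,
`γ = p - s`.  The last field is the family of all inequalities of the points of the window. -/
structure Cfg (c z κ ε β γ : ℝ) : Prop where
  hz1 : z ≤ 1
  h89 : κ ≤ 89 * z
  h34 : 34 * z < κ → 89 * c ≤ 34 * (κ - ε * z)
  hκ0 : 3 / 4 ≤ κ
  hκ1 : κ ≤ 1
  hzκ : z ≤ κ
  hwκ : 1 - z ≤ κ
  hε0 : 0 ≤ ε
  hε1 : ε ≤ 1
  hs0 : 0 ≤ β
  hs1 : β ≤ 1 / 2
  hp0 : 0 ≤ β + γ
  hp1 : β + γ ≤ 1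
  h11 : ∀ n : ℤ, c ≤ (κ + ε * (1 - z)) * |β + γ - n|
  h10 : ∀ n : ℤ, c ≤ (κ - ε * z) * |β - n|
  hpt : ∀ v : V3, 1 ≤ v.1 → |v.2.1 - v.1 * z| < κ →
    c ≤ (κ * v.1 + ε * (v.2.1 - v.1 * z)) * |v.1 * β + v.2.1 * γ - v.2.2|

/-- the small region around the optimum which survives the global certificate -/
structure Ropt (z κ ε β γ : ℝ) : Prop where
  hz : |z - 16 / 17| ≤ 1 / 1000
  hκ : 9998 / 10000 ≤ κ
  hε : ε ≤ 36 / 1000
  ha : |γ - gS| ≤ 2 / 1000
  hb : |(β - bS) + 16 / 17 * (γ - gS)| ≤ 5 / 100000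

/-- the linear functional of the first order inequality -/
def TT (β γ : ℝ) : ℝ := LAs * (γ - gS) + LBs * ((β - bS) + 16 / 17 * (γ - gS))

/-- End data for the lower bound: all products of the three dimensional lattice are `≥ c`. -/
def EndGood (ρ α Y c : ℝ) : Prop :=
  ∀ B m n : ℤ, B ≠ 0 → |ρ * B - m| < 1 → c ≤ |B + (ρ * B - m) * Y| * |α * B - n|

/-- `α` is a number equivalent to the golden ratio, with positive denominators. -/
def GoldenNum (α : ℝ) : Prop :=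
  ∃ B0 B1 i k : ℤ, 0 < B0 ∧ 0 < B1 ∧ i * B0 + k * B1 = 1 ∧
    α = (k - i * ph) / (B0 + B1 * ph)

/-- The pairs with a large value of `(k+1) m_k`, for some large `k`, are dense. -/
def LowHyp (c : ℝ) : Prop :=
  ∀ x y δ : ℝ, 0 < δ → ∀ N0 : ℕ, ∃ k : ℕ, N0 ≤ k ∧
    ∃ p : ℝ × ℝ, |p.1 - x| < δ ∧ |p.2 - y| < δ ∧ c ≤ g k p

/-- Generalised Fibonacci numbers, with `GF B0 B1 0 = B0`, `GF B0 B1 1 = B1`. -/
def GF (B0 B1 : ℤ) : ℕ → ℤ
  | 0 => B0
  | 1 => B1
  | (n + 2) => GF B0 B1 n + GF B0 B1 (n + 1)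

/-- the modulus `N = B0 B_ℓ + B1 B_{ℓ+1}` -/
def GN (B0 B1 : ℤ) (l : ℕ) : ℤ := B0 * GF B0 B1 l + B1 * GF B0 B1 (l + 1)

/-- the multiplier `j = k B_ℓ - i B_{ℓ+1}` -/
def GJ (B0 B1 i k : ℤ) (l : ℕ) : ℤ := k * GF B0 B1 l - i * GF B0 B1 (l + 1)

/-- Kloosterman sums to arbitrary moduli -/
def KS (N : ℕ) [NeZero N] (a b : ZMod N) : ℂ :=
  ∑ u : (ZMod N)ˣ, ZMod.stdAddChar (a * (u : ZMod N) + b * ((u⁻¹ : (ZMod N)ˣ) : ZMod N))

/-- the expanding coordinate of `A^n v`, rescaled: `U = μ b(A^n v)` if `μ = λ^{-n}` -/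
def UU (μ : ℝ) (v : V3) : ℝ := Hs v + cX * x0 v * μ + cT * Vs v * μ ^ 2

/-- The form `r θ₁(A^{-n} v)`, where `r = μ₁ / μ_n`, `μ_n = B0 + B1 φ` for the data of level `n`:
`B0 = b(A^n (34,32,13))`, `B1 = b(A^n (55,52,21)) + 4 b(A^n (34,31,13)) / 17`. -/
def muN (n : ℕ) : ℝ :=
  ((AV^[n] (34, 32, 13)).1 : ℝ) +
    ((AV^[n] (55, 52, 21)).1 + 4 * (AV^[n] (34, 31, 13)).1 / 17 : ℝ) * ph

/-- see `muN` -/
def thN (n : ℕ) (v : V3) : ℝ := (34 + 63 * ph) / muN n * th1 (AI^[n] v)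

end

end Pool.Agent.MDX
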