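import Mathlib
import Pool.Agent.MDX.Defs

/-!
Numerical and algebraic facts about the constants and eigenforms of `Defs.lean`.
-/

namespace Pool.Agent.MDX

open Pool.Agent.Lib_helper94.MDS

noncomputable section

lemma sD_sq : sD ^ 2 = 654739973030 := by
  unfold sD
  rw [Real.sq_sqrt (by norm_num)]

lemma sD_mul : sD * sD = 654739973030 := by
  rw [← pow_two]; exact sD_sq

lemma sD_pos : 0 < sD := by
  unfold sD; positivity

/-- lower bound of `√D`, 60 decimal places -/
lemma sD_lo : 809160041666665593880677670497895574736945347699292217002676081320 / 10 ^ 60 < sD := by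
  unfold sD
  apply Real.lt_sqrt_of_sq_lt
  norm_num

/-- upper bound of `√D`, 60 decimal places -/
lemma sD_hi : sD < 809160041666665593880677670497895574736945347699292217002676081321 / 10 ^ 60 := by
  unfold sD
  rw [Real.sqrt_lt' (by norm_num)]
  norm_num

lemma lam_mul_laI : lam * laI = 1 := by
  unfold lam laI
  nlinarith [sD_sq]

lemma laI_pos : 0 < laI := by
  unfold laI
  have := sD_hi
  norm_num at this
  linarith

lemma lam_pos : 0 < lam := by
  unfold lam
  have := sD_pos
  linarith

lemma laI_eq : laI = lam⁻¹ := by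
  have := lam_mul_laI
  have h := lam_pos
  field_simp
  linarith

/-- `λ` is between these bounds -/
lemma lam_bounds : (388396819999 / 10 ^ 4 : ℝ) < lam ∧ lam < 38839682 := by
  unfold lam
  have h1 := sD_lo
  have h2 := sD_hi
  norm_num at h1 h2 ⊢
  constructor <;> linarith

lemma laI_bounds : (2574686 / 10 ^ 14 : ℝ) < laI ∧ laI < 2574687 / 10 ^ 14 := by
  unfold laI
  have h1 := sD_lo
  have h2 := sD_hi
  norm_num at h1 h2 ⊢
  constructor <;> linarith

lemma bS_bounds : (39320378507698302156292974967109797940444 / 10 ^ 41 : ℝ) < bS ∧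
    bS < 39320378507698302156292974967109797940445 / 10 ^ 41 := by
  unfold bS
  have h1 := sD_lo
  have h2 := sD_hi
  norm_num at h1 h2 ⊢
  constructor <;> linarith

lemma gS_bounds : (-1190098719766133442460102656043072401448 / 10 ^ 41 : ℝ) < gS ∧
    gS < -1190098719766133442460102656043072401447 / 10 ^ 41 := by
  unfold gS
  have h1 := sD_lo
  have h2 := sD_hi
  norm_num at h1 h2 ⊢
  constructor <;> linarith

lemma pS_bounds : (38130279787932168713832872311066725538996 / 10 ^ 41 : ℝ) < pS ∧
    pS < 38130279787932168713832872311066725538998 / 10 ^ 41 := by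
  unfold pS
  have h1 := bS_bounds
  have h2 := gS_bounds
  norm_num at h1 h2 ⊢
  constructor <;> linarith [h1.1, h1.2, h2.1, h2.2]

lemma FS_bounds : (3819828783029564823104858892 / 10 ^ 28 : ℝ) < FS ∧
    FS < 3819828783029564823104858893 / 10 ^ 28 := by
  unfold FS
  have h1 := sD_lo
  have h2 := sD_hi
  norm_num at h1 h2 ⊢
  constructor <;> linarith

lemma tS_bounds : (303206985789036058318176463 / 10 ^ 28 : ℝ) < tS ∧
    tS < 303206985789036058318176464 / 10 ^ 28 := by
  unfold tS
  have h1 := sD_lo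
  have h2 := sD_hi
  norm_num at h1 h2 ⊢
  constructor <;> linarith

lemma cT_bounds : (3001076204485921242522021574 / 10 ^ 25 : ℝ) < cT ∧
    cT < 3001076204485921242522021575 / 10 ^ 25 := by
  unfold cT
  have h1 := sD_lo
  have h2 := sD_hi
  norm_num at h1 h2 ⊢
  constructor <;> linarith

lemma cX_bounds : (-330669987 / 10 ^ 7 : ℝ) < cX ∧ cX < -330669986 / 10 ^ 7 := by
  unfold cX
  norm_num

lemma x0_AV (v : V3) : x0 (AV v) = x0 v := by
  unfold x0 AV
  push_cast
  ring

lemma Vs_AV (v : V3) : Vs (AV v) = laI * Vs v := by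
  unfold Vs AV laI bS gS
  push_cast
  have h := sD_sq
  linear_combination ((24 : ℝ) * (-(537649 / 8668784347080) * v.1 +
    2360867 / 34675137388320 * v.2.1)) * h

lemma Hs_AV (v : V3) : Hs (AV v) = lam * Hs v := by
  unfold Hs AV lam
  push_cast
  have h := sD_sq
  linear_combination (-(24 : ℝ) * (v.1 * (- 24847013 / 151093839930) +
    v.2.1 * (2002243 / 80583381296) + v.2.2 * (28019434 / 75546919965))) * h

lemma AI_AV (v : V3) : AI (AV v) = v := by
  unfold AI AV
  ext <;> simp only <;> ring

lemma AV_AI (v : V3) : AV (AI v) = v := by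
  unfold AI AV
  ext <;> simp only <;> ring

/-- the decomposition of the coordinate `b` -/
lemma b_eq (v : V3) : (v.1 : ℝ) = Hs v + cX * x0 v + cT * Vs v := by
  unfold Hs cX x0 cT Vs bS gS
  have h := sD_sq
  linear_combination (-(28019434 / 75546919965 : ℝ) * (-(537649 / 8668784347080) * v.1 +
    2360867 / 34675137388320 * v.2.1)) * h

lemma pS_pos : 0 < pS := by
  have := pS_bounds.1
  norm_num at this
  linarith

lemma bS_pos : 0 < bS := by
  have := bS_bounds.1
  norm_num at this
  linarith

lemma FS_pos : 0 < FS := by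
  have := FS_bounds.1
  norm_num at this
  linarith

/-- `F (16 s* + p*) = 17 p* s*` -/
lemma FS_eq : FS * (16 * bS + pS) = 17 * pS * bS := by
  unfold FS pS bS gS
  have h := sD_sq
  ring_nf
  rw [h]
  ring

lemma FS_inv : 16 / 17 / pS + 1 / 17 / bS = 1 / FS := by
  have h1 := pS_pos
  have h2 := bS_pos
  have h3 := FS_pos
  have h := FS_eq
  field_simp
  linarith

lemma tS_p : (1 + tS / 17) * pS = FS := by
  unfold FS tS pS bS gS
  have h := sD_sq
  ring_nf
  rw [h]
  ring

lemma tS_b : (1 - 16 * tS / 17) * bS = FS := by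
  unfold FS tS bS
  have h := sD_sq
  ring_nf
  rw [h]
  ring

/-- the general identity for forms `b β + a γ - n` -/
lemma form_eq (β γ : ℝ) (v : V3) : v.1 * β + v.2.1 * γ - v.2.2 =
    Vs v + (γ - gS) * x0 v + ((β - bS) + 16 / 17 * (γ - gS)) * v.1 := by
  unfold Vs x0
  ring

lemma LA_bounds : (2270151691 / 10 ^ 11 : ℝ) < LAs ∧ LAs < 2270151692 / 10 ^ 11 := by
  unfold LAs
  have h1 := pS_bounds
  have h2 := bS_bounds
  have p1 : (1 : ℝ) / (38130279787932168713832872311066725538998 / 10 ^ 41) ^ 2 < 1 / pS ^ 2 := by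
    apply one_div_lt_one_div_of_lt (by have := pS_pos; positivity)
    exact pow_lt_pow_left₀ h1.2 pS_pos.le (by norm_num)
  have p2 : 1 / pS ^ 2 < (1 : ℝ) / (38130279787932168713832872311066725538996 / 10 ^ 41) ^ 2 := by
    apply one_div_lt_one_div_of_lt (by positivity)
    exact pow_lt_pow_left₀ h1.1 (by positivity) (by norm_num)
  have q1 : (1 : ℝ) / (39320378507698302156292974967109797940445 / 10 ^ 41) ^ 2 < 1 / bS ^ 2 := by
    apply one_div_lt_one_div_of_lt (by have := bS_pos; positivity)
    exact pow_lt_pow_left₀ h2.2 bS_pos.le (by norm_num)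
  have q2 : 1 / bS ^ 2 < (1 : ℝ) / (39320378507698302156292974967109797940444 / 10 ^ 41) ^ 2 := by
    apply one_div_lt_one_div_of_lt (by positivity)
    exact pow_lt_pow_left₀ h2.1 (by positivity) (by norm_num)
  norm_num at p1 p2 q1 q2 ⊢
  constructor <;> linarith

lemma LB_bounds : (68538455015 / 10 ^ 10 : ℝ) < LBs ∧ LBs < 68538455016 / 10 ^ 10 := by
  have e : LBs = 16 / 17 * (1 / pS ^ 2) + 1 / 17 * (1 / bS ^ 2) := by unfold LBs; ring
  rw [e]
  have h1 := pS_bounds
  have h2 := bS_bounds
  have p1 : (1 : ℝ) / (38130279787932168713832872311066725538998 / 10 ^ 41) ^ 2 < 1 / pS ^ 2 := by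
    apply one_div_lt_one_div_of_lt (by have := pS_pos; positivity)
    exact pow_lt_pow_left₀ h1.2 pS_pos.le (by norm_num)
  have p2 : 1 / pS ^ 2 < (1 : ℝ) / (38130279787932168713832872311066725538996 / 10 ^ 41) ^ 2 := by
    apply one_div_lt_one_div_of_lt (by positivity)
    exact pow_lt_pow_left₀ h1.1 (by positivity) (by norm_num)
  have q1 : (1 : ℝ) / (39320378507698302156292974967109797940445 / 10 ^ 41) ^ 2 < 1 / bS ^ 2 := by
    apply one_div_lt_one_div_of_lt (by have := bS_pos; positivity)
    exact pow_lt_pow_left₀ h2.2 bS_pos.le (by norm_num)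
  have q2 : 1 / bS ^ 2 < (1 : ℝ) / (39320378507698302156292974967109797940444 / 10 ^ 41) ^ 2 := by
    apply one_div_lt_one_div_of_lt (by positivity)
    exact pow_lt_pow_left₀ h2.1 (by positivity) (by norm_num)
  norm_num at p1 p2 q1 q2 ⊢
  constructor <;> linarith

end

end Pool.Agent.MDX
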