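import Mathlib
import Pool.Agent.MDX.Num

/-!
Statements of the modules of the proof of `mulDirichletSpectrum = [0, FS]` (MP_85fa44_nt).
Proof sketches: `PAPER.md` in this folder.
-/

namespace Pool.Agent.MDX

open Pool.Agent.Lib_helper94.MDS

/-! ### Upper bound -/

/-- U1: from a pair with `L ξ ζ > c` to a limiting configuration. -/
def S_U1 : Prop :=
  ∀ ξ ζ c : ℝ, 3819828 / 10000000 ≤ c → c < L ξ ζ → ∃ z κ ε β γ : ℝ, Cfg c z κ ε β γ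

/-- U2: the global certificate: every configuration is near the optimum. -/
def S_U2 : Prop :=
  ∀ c z κ ε β γ : ℝ, 3819828 / 10000000 ≤ c → Cfg c z κ ε β γ → Ropt z κ ε β γ

/-- OBJ: the first order inequality. -/
def S_OBJ : Prop :=
  ∀ c z κ ε β γ : ℝ, FS ≤ c → Cfg c z κ ε β γ → Ropt z κ ε β γ →
    (1 - κ) / FS + min (65 / 1000 * (z - 16 / 17)) (94 / 1000 * (z - 16 / 17)) ≤ TT β γ

/-- U3: rigidity of `z`. -/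
def S_U3 : Prop :=
  ∀ c z κ ε β γ : ℝ, FS ≤ c → Cfg c z κ ε β γ → Ropt z κ ε β γ →
    (1 - κ) / FS + min (65 / 1000 * (z - 16 / 17)) (94 / 1000 * (z - 16 / 17)) ≤ TT β γ →
    34 * |z - 16 / 17| ≤ 1 - κ

/-- C1: the first two dimensional certificate. -/
def S_C1 : Prop :=
  ∀ a b : ℝ, |a| ≤ 2 / 1000 → |b| ≤ 5 / 100000 → 0 ≤ LAs * a + LBs * b →
    (∀ v : V3, 2 ≤ v.1 → |x0 v| < 1 → (LAs * a + LBs * b) * (v.1 + 34) ≤ 5 →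
      FS ≤ (v.1 + 36 / 1000) * |Vs v + a * x0 v + b * v.1|) →
    |a| ≤ laI / 10000 ∧ |b| ≤ laI ^ 2 / 1000000

/-- C2: the second two dimensional certificate (all higher levels at once). -/
def S_C2 : Prop :=
  ∀ μ a b : ℝ, 0 < μ → μ ≤ laI → |a| ≤ 1 / 10000 → |b| ≤ 1 / 1000000 →
    0 ≤ LAs * a + LBs * b * μ →
    (∀ v : V3, 1 ≤ Hs v → |x0 v| < 1 → |Vs v| ≤ 1 →
      (LAs * a + LBs * b * μ) * (UU μ v + 34 * μ) ≤ 5 →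
      FS ≤ (UU μ v + 36 / 1000 * μ) * |Vs v + a * x0 v + b * UU μ v|) →
    |a| ≤ laI / 10000 ∧ |b| ≤ laI ^ 2 / 1000000

/-- U4: the renormalisation induction. -/
def S_U4 : Prop :=
  ∀ c z κ ε β γ : ℝ, FS ≤ c → Cfg c z κ ε β γ → Ropt z κ ε β γ → c = FS

/-- the upper bound -/
def S_UP : Prop := ∀ ξ ζ : ℝ, L ξ ζ ≤ FS

/-! ### Lower bound -/

/-- SOFT: from dense large values to an interval of the spectrum. -/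
def S_SOFT : Prop :=
  ∀ F : ℝ, 0 < F → (∀ c : ℝ, 0 < c → c < F → LowHyp c) →
    ∀ l : ℝ, 0 ≤ l → l ≤ F → ∃ ξ ζ : ℝ, L ξ ζ = l

/-- K4: the fourth moment bound for Kloosterman sums. -/
def S_K4 : Prop :=
  ∀ (N : ℕ) [NeZero N] (a b : ℤ),
    ‖KS N (a : ZMod N) (b : ZMod N)‖ ^ 4 * (Nat.totient N : ℝ) ≤
      (Int.gcd a N : ℝ) * (2 * (N : ℝ) ^ 4 * ((Nat.divisors N).card : ℝ) ^ 2)

/-- DIV: divisor bound. -/
def S_DIV : Prop :=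
  ∃ C : ℝ, 0 < C ∧ ∀ N : ℕ, 1 ≤ N → ((Nat.divisors N).card : ℝ) ≤ C * (N : ℝ) ^ (1 / 8 : ℝ)

/-- KL: joint equidistribution of `p/N, jp/N, c/N, jc/N` (`c` the inverse of `p` mod `N`). -/
def S_KL : Prop :=
  ∀ a1 a2 a3 a4 δ : ℝ, 0 < δ → ∃ N0 : ℕ, ∀ N : ℕ, N0 ≤ N → 1 ≤ N → ∀ j : ℤ,
    (N : ℤ) ∣ j ^ 2 + 1 → ∃ p c : ℤ, (N : ℤ) ∣ c * p - 1 ∧
      distInt ((p : ℝ) / N - a1) < δ ∧ distInt ((j : ℝ) * p / N - a2) < δ ∧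
      distInt ((c : ℝ) / N - a3) < δ ∧ distInt ((j : ℝ) * c / N - a4) < δ

/-- GF: congruences. -/
def S_GF : Prop :=
  ∀ B0 B1 i k : ℤ, 0 < B0 → 0 < B1 → i * B0 + k * B1 = 1 → ∀ l : ℕ, Even l →
    GN B0 B1 l ∣ GJ B0 B1 i k l ^ 2 + 1 ∧
    ∀ m : ℕ, m ≤ l + 1 →
      GN B0 B1 l ∣ GJ B0 B1 i k l * GF B0 B1 m - (-1) ^ (m + 1) * GF B0 B1 (l + 1 - m)

/-- GLIM: `j / N → α` and `N → ∞`. -/
def S_GLIM : Prop :=
  ∀ B0 B1 i k : ℤ, 0 < B0 → 0 < B1 → i * B0 + k * B1 = 1 →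
    (∀ l : ℕ, (l : ℤ) ≤ GN B0 B1 l) ∧
    ∀ δ : ℝ, 0 < δ → ∃ l0 : ℕ, ∀ l : ℕ, l0 ≤ l →
      |(GJ B0 B1 i k l : ℝ) / GN B0 B1 l - (k - i * ph) / (B0 + B1 * ph)| < δ

/-- GOLD: the middle of the lattice `{(B, B') : B' ≡ jB mod N}` is golden. -/
def S_GOLD : Prop :=
  ∀ B0 B1 i k : ℤ, 0 < B0 → 0 < B1 → i * B0 + k * B1 = 1 → ∀ δ : ℝ, 0 < δ →
    ∃ K l0 : ℕ, ∀ l : ℕ, l0 ≤ l → Even l → ∀ B B' : ℤ, (K : ℤ) < |B| → (K : ℤ) < |B'| →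
      GN B0 B1 l ∣ GJ B0 B1 i k l * B - B' →
      (1 / Real.sqrt 5 - δ) * GN B0 B1 l ≤ |(B : ℝ)| * |(B' : ℝ)|

/-- CC: golden gluing of two copies of the same end. -/
def S_CC : Prop :=
  ∀ ρ α Y c : ℝ, GoldenNum α → EndGood ρ α Y c → 0 < c → c < 1 / Real.sqrt 5 →
    ∀ c' : ℝ, c' < c → LowHyp c'

/-- S0: scan of the optimal lattice, level 0. -/
def S_S0 : Prop :=
  ∀ v : V3, 2 ≤ v.1 → v.1 ≤ 1340000000 → |x0 v| < 1 →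
    3841 / 10000 ≤ (v.1 + x0 v * tS) * |Vs v|

/-- S1: scan of the optimal lattice, limit shape. -/
def S_S1 : Prop :=
  ∀ v : V3, 33 ≤ Hs v → Hs v ≤ 1340000000 → |x0 v| < 1 →
    3841 / 10000 ≤ (Hs v - 1 / 100000) * |Vs v|

/-- I1: the golden tail. -/
def S_I1 : Prop :=
  ∀ v : V3, 33 ≤ Hs v → |x0 v| < 1 → 3841 / 10000 ≤ (Hs v - 1 / 100000) * |th1 v|

/-- LAM: the lattices of level `n` have all products `≥ c`, for every `c < FS`, if `n` is large. -/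
def S_LAM : Prop :=
  ∀ c : ℝ, c < FS → ∃ n0 : ℕ, ∀ n : ℕ, n0 ≤ n → ∀ v : V3, 1 ≤ v.1 → |x0 v| < 1 →
    c ≤ (v.1 + x0 v * tS) * |thN n v|

/-- END: end data with constants arbitrarily close to `FS`. -/
def S_END : Prop :=
  ∀ c : ℝ, c < FS → ∃ ρ α Y : ℝ, GoldenNum α ∧ EndGood ρ α Y c

/-- the lower bound -/
def S_LOW : Prop := ∀ l : ℝ, 0 ≤ l → l ≤ FS → ∃ ξ ζ : ℝ, L ξ ζ = l

end Pool.Agent.MDX
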