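import Mathlib
import Pool.Agent.MDX.Stmts

/-!
MDX_C2: the second two dimensional certificate.

A box is given by bounds of `a·10⁴·2⁴⁰` and `b·10⁶·2⁶⁰`; the values `V*`, `H`, `U` are scaled by
`10⁴¹`.  The tree is read in preorder by a stack machine.
-/

set_option autoImplicit false

namespace Pool.Agent.MDX

open Pool.Agent.Lib_helper94.MDS

namespace C2m

/-- tokens of the tree in preorder: bisection of `a`, of `b`, the three kinds of leaves -/
inductive Tok
  | S0 | S1 | O | F
  | P (b a n : ℤ)

/-- a box: bounds of `a·10⁴·2⁴⁰` and of `b·10⁶·2⁶⁰` -/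
structure Bx where
  A0 : ℤ
  A1 : ℤ
  B0 : ℤ
  B1 : ℤ

/-- upper bound of `T·10³⁰·2⁶⁰` -/
def Thi (x : Bx) : ℤ :=
  (if 0 ≤ x.A1 then 2270151692 * x.A1 else 2270151691 * x.A1) * 1048576000000000000000 +
    (if 0 ≤ x.B1 then 68538455016 * x.B1 * 2574687 else 0)

/-- `V* · 10⁴¹` from below -/
def Vlo (b a n : ℤ) : ℤ :=
  b * 39320378507698302156292974967109797940444 - a * 1190098719766133442460102656043072401448 -
    n * 100000000000000000000000000000000000000000

/-- `V* · 10⁴¹` from above -/
def Vhi (b a n : ℤ) : ℤ :=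
  b * 39320378507698302156292974967109797940445 - a * 1190098719766133442460102656043072401447 -
    n * 100000000000000000000000000000000000000000

/-- `U · 10⁴¹` from below -/
def Ulo (b a n : ℤ) : ℤ :=
  a * 3663857564711780424782628676375072288940390 +
    n * 30010762044859212425220215744886234549263013 -
    b * 14812533341858689728035019828711818009851555 - 86000000000000000000000000000000000

/-- `U · 10⁴¹` from above -/
def Uhi (b a n : ℤ) : ℤ :=
  a * 3663857564711780424782628676375072288940391 +
    n * 30010762044859212425220215744886234549263014 -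
    b * 14812533341858689728035019828711818009851554 + 86000000000000000000000000000000000

/-- scaled value of the perturbed form from below -/
def Wlo (x : Bx) (b a n : ℤ) : ℤ :=
  Vlo b a n * 19599665578316398592000000 +
    (if 0 ≤ 17 * a - 16 * b then x.A0 * (17 * a - 16 * b) else x.A1 * (17 * a - 16 * b)) *
      10485760000000000000000000000000000000000000000000 +
    17 * (if 0 ≤ x.B0 then x.B0 * Ulo b a n else x.B0 * Uhi b a n)

/-- scaled value of the perturbed form from above -/
def Whi (x : Bx) (b a n : ℤ) : ℤ :=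
  Vhi b a n * 19599665578316398592000000 +
    (if 0 ≤ 17 * a - 16 * b then x.A1 * (17 * a - 16 * b) else x.A0 * (17 * a - 16 * b)) *
      10485760000000000000000000000000000000000000000000 +
    17 * (if 0 ≤ x.B1 then x.B1 * Uhi b a n else x.B1 * Ulo b a n)

/-- `F` in the scale of the products -/
def Fsc : ℤ :=
  74867366713806780668359589714482725997787480064000000000000000000000000000000000000000000000000000000000000

/-- a leaf with a vector -/
def chkP (x : Bx) (b a n : ℤ) : Bool :=
  decide (0 < b) && decide (0 < a) && decide (0 < n) && decide (-17 < 17 * a - 16 * b) &&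
  decide (17 * a - 16 * b < 17) &&
  decide (100000086000000000000000000000000000000000 ≤ Ulo b a n) &&
  decide (-100000000000000000000000000000000000000000 ≤ Vlo b a n) &&
  decide (Vhi b a n ≤ 100000000000000000000000000000000000000000) &&
  decide (Thi x * (Uhi b a n + 87539358000000000000000000000000000) ≤
    576460752303423488000000000000000000000000000000000000000000000000000000000000000000000000) &&
  decide ((Uhi b a n + 100000000000000000000000000000000) * Whi x b a n < Fsc) &&
  decide (-Fsc < (Uhi b a n + 100000000000000000000000000000000) * Wlo x b a n)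

/-- a leaf of type `F` -/
def chkF (x : Bx) : Bool :=
  decide (x.A1 * 100000000000000 ≤ 2830897194872078336) &&
  decide (-2830897194872078336 ≤ x.A0 * 100000000000000) &&
  decide (x.B1 * 10000000000000000000000000000 ≤ 7642725875792123666211794845696) &&
  decide (-7642725875792123666211794845696 ≤ x.B0 * 10000000000000000000000000000)

/-- the stack machine -/
def run : List Tok → List Bx → Bool
  | [], [] => true
  | [], _ :: _ => false
  | _ :: _, [] => false
  | .S0 :: ts, x :: st =>
      run ts (⟨x.A0, (x.A0 + x.A1) / 2, x.B0, x.B1⟩ :: ⟨(x.A0 + x.A1) / 2, x.A1, x.B0, x.B1⟩ :: st)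
  | .S1 :: ts, x :: st =>
      run ts (⟨x.A0, x.A1, x.B0, (x.B0 + x.B1) / 2⟩ :: ⟨x.A0, x.A1, (x.B0 + x.B1) / 2, x.B1⟩ :: st)
  | .O :: ts, x :: st => decide (Thi x < 0) && run ts st
  | .F :: ts, x :: st => chkF x && run ts st
  | .P b a n :: ts, x :: st => chkP x b a n && run ts st

/-! ### Soundness -/

/-- membership in a box -/
def InB (x : Bx) (a b : ℝ) : Prop :=
  (x.A0 : ℝ) ≤ a * 10995116277760000 ∧ a * 10995116277760000 ≤ x.A1 ∧
    (x.B0 : ℝ) ≤ b * 1152921504606846976000000 ∧ b * 1152921504606846976000000 ≤ x.B1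

/-- the hypotheses of `S_C2` -/
structure Hyp (μ a b : ℝ) : Prop where
  h0 : 0 < μ
  h1 : μ ≤ laI
  hT : 0 ≤ LAs * a + LBs * b * μ
  hv : ∀ v : V3, 1 ≤ Hs v → |x0 v| < 1 → |Vs v| ≤ 1 →
      (LAs * a + LBs * b * μ) * (UU μ v + 34 * μ) ≤ 5 →
      FS ≤ (UU μ v + 36 / 1000 * μ) * |Vs v + a * x0 v + b * UU μ v|

/-- the conclusion of `S_C2` -/
def Concl (a b : ℝ) : Prop := |a| ≤ laI / 10000 ∧ |b| ≤ laI ^ 2 / 1000000

lemma T_le {x : Bx} {μ a b : ℝ} (h0 : 0 < μ) (h1 : μ ≤ laI) (hx : InB x a b) :
    (LAs * a + LBs * b * μ) * 1152921504606846976000000000000000000000000000000 ≤ (Thi x : ℝ) := by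
  obtain ⟨-, hA, -, hB⟩ := hx
  have hla := laI_bounds
  have hLA := LA_bounds
  have hLB := LB_bounds
  have hLA0 : 0 < LAs := lt_trans (by norm_num) hLA.1
  have hLB0 : 0 < LBs := lt_trans (by norm_num) hLB.1
  have p1 : LAs * (a * 10995116277760000) ≤
      ((if 0 ≤ x.A1 then 2270151692 * x.A1 else 2270151691 * x.A1 : ℤ) : ℝ) / 100000000000 := by
    refine (mul_le_mul_of_nonneg_left hA hLA0.le).trans ?_
    split_ifs with h
    · have h' : (0 : ℝ) ≤ x.A1 := by exact_mod_cast h
      have := mul_le_mul_of_nonneg_right hLA.2.le h'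
      push_cast
      norm_num at this ⊢
      linarith
    · have h' : (x.A1 : ℝ) ≤ 0 := by
        push Not at h
        exact_mod_cast h.le
      have := mul_le_mul_of_nonpos_right hLA.1.le h'
      push_cast
      norm_num at this ⊢
      linarith
  have p2 : LBs * μ * (b * 1152921504606846976000000) ≤
      ((if 0 ≤ x.B1 then 68538455016 * x.B1 * 2574687 else 0 : ℤ) : ℝ) /
        1000000000000000000000000 := by
    have q1 : LBs * μ ≤ 68538455016 / 10 ^ 10 * (2574687 / 10 ^ 14) :=
      mul_le_mul hLB.2.le (h1.trans hla.2.le) h0.le (by norm_num)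
    have q0 : 0 ≤ LBs * μ := by positivity
    refine (mul_le_mul_of_nonneg_left hB q0).trans ?_
    split_ifs with h
    · have h' : (0 : ℝ) ≤ x.B1 := by exact_mod_cast h
      have := mul_le_mul_of_nonneg_right q1 h'
      push_cast
      norm_num at this ⊢
      linarith
    · have h' : (x.B1 : ℝ) ≤ 0 := by
        push Not at h
        exact_mod_cast h.le
      have := mul_nonpos_of_nonneg_of_nonpos q0 h'
      push_cast
      norm_num at this ⊢
      linarith
  unfold Thi
  push_cast [Int.cast_add, Int.cast_mul] at p1 p2 ⊢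
  linarith

lemma V_bd {b a n : ℤ} (hb : 0 < b) (ha : 0 < a) :
    (Vlo b a n : ℝ) ≤ Vs (b, a, n) * 100000000000000000000000000000000000000000 ∧
      Vs (b, a, n) * 100000000000000000000000000000000000000000 ≤ (Vhi b a n : ℝ) := by
  have hb' : (0 : ℝ) < b := by exact_mod_cast hb
  have ha' : (0 : ℝ) < a := by exact_mod_cast ha
  have h1 := bS_bounds
  have h2 := gS_bounds
  have p1 := mul_lt_mul_of_pos_left h1.1 hb'
  have p2 := mul_lt_mul_of_pos_left h1.2 hb'
  have p3 := mul_lt_mul_of_pos_left h2.1 ha'
  have p4 := mul_lt_mul_of_pos_left h2.2 ha'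
  unfold Vs Vlo Vhi
  push_cast
  norm_num at p1 p2 p3 p4
  constructor <;> linarith

lemma hb_bd : (-(14812533341858689728035019828711818009851555 / 10 ^ 41) : ℝ) <
      -(9140033 / 606870) - 24847013 / 151093839930 * sD ∧
    -(9140033 / 606870) - 24847013 / 151093839930 * sD <
      (-(14812533341858689728035019828711818009851554 / 10 ^ 41) : ℝ) := by
  have h1 := sD_lo
  have h2 := sD_hi
  norm_num at h1 h2 ⊢
  constructor <;> linarith

lemma ha_bd : (3663857564711780424782628676375072288940390 / 10 ^ 41 : ℝ) <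
      40134739 / 2427480 + 2002243 / 80583381296 * sD ∧
    40134739 / 2427480 + 2002243 / 80583381296 * sD <
      (3663857564711780424782628676375072288940391 / 10 ^ 41 : ℝ) := by
  have h1 := sD_lo
  have h2 := sD_hi
  norm_num at h1 h2 ⊢
  constructor <;> linarith

lemma hn_bd : (30010762044859212425220215744886234549263013 / 10 ^ 41 : ℝ) <
      28019434 / 75546919965 * sD ∧
    28019434 / 75546919965 * sD <
      (30010762044859212425220215744886234549263014 / 10 ^ 41 : ℝ) := by
  have h1 := sD_lo
  have h2 := sD_hi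
  norm_num at h1 h2 ⊢
  constructor <;> linarith

lemma H_bd {b a n : ℤ} (hb : 0 < b) (ha : 0 < a) (hn : 0 < n) :
    (Ulo b a n : ℝ) + 86000000000000000000000000000000000 ≤
        Hs (b, a, n) * 100000000000000000000000000000000000000000 ∧
      Hs (b, a, n) * 100000000000000000000000000000000000000000 ≤
        (Uhi b a n : ℝ) - 86000000000000000000000000000000000 := by
  have hb' : (0 : ℝ) < b := by exact_mod_cast hb
  have ha' : (0 : ℝ) < a := by exact_mod_cast ha
  have hn' : (0 : ℝ) < n := by exact_mod_cast hn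
  have p1 := mul_lt_mul_of_pos_left hb_bd.1 hb'
  have p2 := mul_lt_mul_of_pos_left hb_bd.2 hb'
  have p3 := mul_lt_mul_of_pos_left ha_bd.1 ha'
  have p4 := mul_lt_mul_of_pos_left ha_bd.2 ha'
  have p5 := mul_lt_mul_of_pos_left hn_bd.1 hn'
  have p6 := mul_lt_mul_of_pos_left hn_bd.2 hn'
  unfold Hs Ulo Uhi
  push_cast
  norm_num at p1 p2 p3 p4 p5 p6
  constructor <;> linarith

lemma U_bd {b a n : ℤ} (hb : 0 < b) (ha : 0 < a) (hn : 0 < n) {μ : ℝ} (h0 : 0 < μ)
    (h1 : μ ≤ laI) (hx : |x0 (b, a, n)| < 1) (hV : |Vs (b, a, n)| ≤ 1) :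
    (Ulo b a n : ℝ) ≤ UU μ (b, a, n) * 100000000000000000000000000000000000000000 ∧
      UU μ (b, a, n) * 100000000000000000000000000000000000000000 ≤ (Uhi b a n : ℝ) := by
  have hH := H_bd hb ha hn
  have hla := laI_bounds
  have hμ : μ ≤ 2574687 / 10 ^ 14 := h1.trans hla.2.le
  have hμ2 : μ ^ 2 ≤ (2574687 / 10 ^ 14) ^ 2 := pow_le_pow_left₀ h0.le hμ 2
  have hcX : |cX| ≤ 330669987 / 10 ^ 7 := by
    have := cX_bounds
    rw [abs_le]
    constructor
    · have := this.1
      norm_num at this ⊢
      linarith
    · have := this.2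
      norm_num at this ⊢
      linarith
  have hcT : |cT| ≤ 3001076204485921242522021575 / 10 ^ 25 := by
    have := cT_bounds
    rw [abs_le]
    constructor
    · have := this.1
      norm_num at this ⊢
      linarith
    · exact this.2.le
  have e1 : |cX * x0 (b, a, n) * μ| ≤ 330669987 / 10 ^ 7 * 1 * (2574687 / 10 ^ 14) := by
    rw [abs_mul, abs_mul, abs_of_pos h0]
    gcongr
  have e2 : |cT * Vs (b, a, n) * μ ^ 2| ≤
      3001076204485921242522021575 / 10 ^ 25 * 1 * (2574687 / 10 ^ 14) ^ 2 := by
    rw [abs_mul, abs_mul, abs_of_pos (pow_pos h0 2)]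
    gcongr
  have e3 := abs_le.mp e1
  have e4 := abs_le.mp e2
  have e5 := e3.1
  have e6 := e3.2
  have e7 := e4.1
  have e8 := e4.2
  norm_num at e5 e6 e7 e8
  unfold UU
  constructor <;> linarith [hH.1, hH.2]

lemma prod_le {A0 A1 X : ℤ} {y : ℝ} (h0 : (A0 : ℝ) ≤ y) (h1 : y ≤ A1) :
    ((if 0 ≤ X then A0 * X else A1 * X : ℤ) : ℝ) ≤ y * X ∧
      y * X ≤ ((if 0 ≤ X then A1 * X else A0 * X : ℤ) : ℝ) := by
  split_ifs with h
  · have h' : (0 : ℝ) ≤ X := by exact_mod_cast h
    push_cast
    exact ⟨mul_le_mul_of_nonneg_right h0 h', mul_le_mul_of_nonneg_right h1 h'⟩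
  · have h' : (X : ℝ) ≤ 0 := by
      push Not at h
      exact_mod_cast h.le
    push_cast
    exact ⟨mul_le_mul_of_nonpos_right h1 h', mul_le_mul_of_nonpos_right h0 h'⟩

lemma prod_lo {B0 L H : ℤ} {y u : ℝ} (h0 : (B0 : ℝ) ≤ y) (hL : (L : ℝ) ≤ u) (hH : u ≤ H)
    (hu : 0 < u) : ((if 0 ≤ B0 then B0 * L else B0 * H : ℤ) : ℝ) ≤ y * u := by
  refine le_trans ?_ (mul_le_mul_of_nonneg_right h0 hu.le)
  split_ifs with h
  · have h' : (0 : ℝ) ≤ B0 := by exact_mod_cast h
    push_cast
    exact mul_le_mul_of_nonneg_left hL h'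
  · have h' : (B0 : ℝ) ≤ 0 := by
      push Not at h
      exact_mod_cast h.le
    push_cast
    exact mul_le_mul_of_nonpos_left hH h'

lemma prod_hi {B1 L H : ℤ} {y u : ℝ} (h1 : y ≤ (B1 : ℝ)) (hL : (L : ℝ) ≤ u) (hH : u ≤ H)
    (hu : 0 < u) : y * u ≤ ((if 0 ≤ B1 then B1 * H else B1 * L : ℤ) : ℝ) := by
  refine (mul_le_mul_of_nonneg_right h1 hu.le).trans ?_
  split_ifs with h
  · have h' : (0 : ℝ) ≤ B1 := by exact_mod_cast h
    push_cast
    exact mul_le_mul_of_nonneg_left hH h'
  · have h' : (B1 : ℝ) ≤ 0 := by
      push Not at h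
      exact_mod_cast h.le
    push_cast
    exact mul_le_mul_of_nonpos_left hL h'

lemma P_sound {x : Bx} {b a n : ℤ} (hc : chkP x b a n = true) {μ α β : ℝ} (hy : Hyp μ α β)
    (hx : InB x α β) : False := by
  unfold chkP at hc
  simp only [Bool.and_eq_true, decide_eq_true_eq] at hc
  obtain ⟨⟨⟨⟨⟨⟨⟨⟨⟨⟨c1, c2⟩, c3⟩, c4⟩, c5⟩, c6⟩, c7⟩, c8⟩, c9⟩, c10⟩, c11⟩ := hc
  have hx0 : x0 (b, a, n) = ((17 * a - 16 * b : ℤ) : ℝ) / 17 := by
    unfold x0
    push_cast
    ring
  have hxa : |x0 (b, a, n)| < 1 := by
    rw [hx0, abs_lt]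
    have d4 : (-17 : ℝ) < ((17 * a - 16 * b : ℤ) : ℝ) := by exact_mod_cast c4
    have d5 : ((17 * a - 16 * b : ℤ) : ℝ) < 17 := by exact_mod_cast c5
    constructor <;> linarith
  have hV := V_bd (n := n) c1 c2
  have hVa : |Vs (b, a, n)| ≤ 1 := by
    rw [abs_le]
    have d7 : (-100000000000000000000000000000000000000000 : ℝ) ≤ (Vlo b a n : ℝ) := by
      exact_mod_cast c7
    have d8 : (Vhi b a n : ℝ) ≤ 100000000000000000000000000000000000000000 := by
      exact_mod_cast c8
    constructor <;> linarith [hV.1, hV.2]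
  have hH := H_bd c1 c2 c3
  have d6 : (100000086000000000000000000000000000000000 : ℝ) ≤ (Ulo b a n : ℝ) := by
    exact_mod_cast c6
  have hHa : 1 ≤ Hs (b, a, n) := by linarith [hH.1]
  have hU := U_bd c1 c2 c3 hy.h0 hy.h1 hxa hVa
  have hla := laI_bounds
  have hμ : μ ≤ 2574687 / 10 ^ 14 := hy.h1.trans hla.2.le
  set u : ℝ := UU μ (b, a, n) with hu
  have hu0 : 0 < u := by linarith [hU.1]
  have hT := T_le hy.h0 hy.h1 hx
  set T : ℝ := LAs * α + LBs * β * μ with hTdef
  have hT0 : 0 ≤ T := hy.hT
  have hT5 : T * (u + 34 * μ) ≤ 5 := by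
    have d9 : (Thi x : ℝ) * ((Uhi b a n : ℝ) + 87539358000000000000000000000000000) ≤
        576460752303423488000000000000000000000000000000000000000000000000000000000000000000000000 := by
      exact_mod_cast c9
    have q1 : (u + 34 * μ) * 100000000000000000000000000000000000000000 ≤
        (Uhi b a n : ℝ) + 87539358000000000000000000000000000 := by
      norm_num at hμ
      linarith [hU.2]
    have q2 : 0 ≤ u + 34 * μ := by linarith [hy.h0]
    have q3 : T * 1152921504606846976000000000000000000000000000000 *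
        ((u + 34 * μ) * 100000000000000000000000000000000000000000) ≤
        (Thi x : ℝ) * ((Uhi b a n : ℝ) + 87539358000000000000000000000000000) :=
      mul_le_mul hT q1 (by positivity) ((by positivity : (0 : ℝ) ≤
        T * 1152921504606846976000000000000000000000000000000).trans hT)
    nlinarith
  have hF := hy.hv (b, a, n) hHa hxa hVa hT5
  rw [← hu] at hF
  set W : ℝ := Vs (b, a, n) + α * x0 (b, a, n) + β * u with hW
  obtain ⟨hA0, hA1, hB0, hB1⟩ := hx
  have r1 := prod_le (X := 17 * a - 16 * b) hA0 hA1
  have hu' : 0 < u * 100000000000000000000000000000000000000000 := by positivity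
  have r2 := prod_lo hB0 hU.1 hU.2 hu'
  have r3 := prod_hi hB1 hU.1 hU.2 hu'
  have eW : W * (17 * 115292150460684697600000000000000000000000000000000000000000000000) =
      Vs (b, a, n) * 100000000000000000000000000000000000000000 * 19599665578316398592000000 +
      α * 10995116277760000 * ((17 * a - 16 * b : ℤ) : ℝ) *
        10485760000000000000000000000000000000000000000000 +
      17 * (β * 1152921504606846976000000 *
        (u * 100000000000000000000000000000000000000000)) := by
    rw [hW, hx0]
    ring
  have wl : (Wlo x b a n : ℝ) ≤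
      W * (17 * 115292150460684697600000000000000000000000000000000000000000000000) := by
    rw [eW]
    unfold Wlo
    rw [Int.cast_add, Int.cast_add, Int.cast_mul, Int.cast_mul, Int.cast_mul 17]
    have s1 := hV.1
    have s2 := r1.1
    push_cast at s1 s2 r2 ⊢
    linarith
  have wh : W * (17 * 115292150460684697600000000000000000000000000000000000000000000000) ≤
      (Whi x b a n : ℝ) := by
    rw [eW]
    unfold Whi
    rw [Int.cast_add, Int.cast_add, Int.cast_mul, Int.cast_mul, Int.cast_mul 17]
    have s1 := hV.2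
    have s2 := r1.2
    push_cast at s1 s2 r3 ⊢
    linarith
  have d10 : ((Uhi b a n : ℝ) + 100000000000000000000000000000000) * (Whi x b a n : ℝ) <
      (Fsc : ℝ) := by exact_mod_cast c10
  have d11 : -(Fsc : ℝ) < ((Uhi b a n : ℝ) + 100000000000000000000000000000000) *
      (Wlo x b a n : ℝ) := by exact_mod_cast c11
  set K : ℝ := 17 * 115292150460684697600000000000000000000000000000000000000000000000 with hK
  have hK0 : 0 < K := by rw [hK]; norm_num
  set P : ℝ := (Uhi b a n : ℝ) + 100000000000000000000000000000000 with hP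
  have hP0 : 0 < P := by linarith [hU.2, hU.1]
  have hPu : (u + 36 / 1000 * μ) * 100000000000000000000000000000000000000000 ≤ P := by
    norm_num at hμ
    linarith [hU.2]
  have hFs : (Fsc : ℝ) ≤ FS * 100000000000000000000000000000000000000000 * K := by
    have := FS_bounds.1
    unfold Fsc
    rw [hK]
    norm_num at this ⊢
    linarith
  have hfin : FS * 100000000000000000000000000000000000000000 * K ≤ P * |W * K| := by
    rw [abs_mul, abs_of_pos hK0]
    calc FS * 100000000000000000000000000000000000000000 * K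
        ≤ (u + 36 / 1000 * μ) * |W| * 100000000000000000000000000000000000000000 * K := by
          gcongr
      _ = (u + 36 / 1000 * μ) * 100000000000000000000000000000000000000000 * (|W| * K) := by ring
      _ ≤ P * (|W| * K) := by gcongr
  have hlt : P * |W * K| < (Fsc : ℝ) := by
    rcases abs_cases (W * K) with ⟨h, -⟩ | ⟨h, -⟩
    · rw [h]
      exact (mul_le_mul_of_nonneg_left wh hP0.le).trans_lt d10
    · rw [h]
      have := mul_le_mul_of_nonneg_left wl hP0.le
      nlinarith
  linarith

lemma F_sound {x : Bx} (hc : chkF x = true) {a b : ℝ} (hx : InB x a b) : Concl a b := by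
  unfold chkF at hc
  simp only [Bool.and_eq_true, decide_eq_true_eq] at hc
  obtain ⟨⟨⟨c1, c2⟩, c3⟩, c4⟩ := hc
  obtain ⟨hA0, hA1, hB0, hB1⟩ := hx
  have d1 : (x.A1 : ℝ) * 100000000000000 ≤ 2830897194872078336 := by exact_mod_cast c1
  have d2 : (-2830897194872078336 : ℝ) ≤ x.A0 * 100000000000000 := by exact_mod_cast c2
  have d3 : (x.B1 : ℝ) * 10000000000000000000000000000 ≤ 7642725875792123666211794845696 := by
    exact_mod_cast c3
  have d4 : (-7642725875792123666211794845696 : ℝ) ≤ x.B0 * 10000000000000000000000000000 := by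
    exact_mod_cast c4
  have hla := laI_bounds.1
  have hla2 : (2574686 / 10 ^ 14) ^ 2 < laI ^ 2 := pow_lt_pow_left₀ hla (by norm_num) (by norm_num)
  norm_num at hla hla2
  constructor
  · rw [abs_le]
    constructor <;> linarith
  · rw [abs_le]
    constructor <;> linarith

lemma run_sound : ∀ (ts : List Tok) (st : List Bx), run ts st = true → ∀ x ∈ st,
    ∀ μ a b : ℝ, Hyp μ a b → InB x a b → Concl a b := by
  intro ts
  induction ts with
  | nil =>
    intro st h x hx
    cases st with
    | nil => simp at hx
    | cons y st => simp [run] at h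
  | cons t ts ih =>
    intro st h x hx μ a b hy hxb
    cases st with
    | nil => simp at hx
    | cons y st =>
      cases t with
      | S0 =>
        have h' := ih _ h
        rcases List.mem_cons.mp hx with rfl | hx
        · obtain ⟨h1, h2, h3, h4⟩ := hxb
          rcases le_total (a * 10995116277760000) (((x.A0 + x.A1) / 2 : ℤ) : ℝ) with h5 | h5
          · exact h' ⟨x.A0, (x.A0 + x.A1) / 2, x.B0, x.B1⟩ (by simp) μ a b hy ⟨h1, h5, h3, h4⟩
          · exact h' ⟨(x.A0 + x.A1) / 2, x.A1, x.B0, x.B1⟩ (by simp) μ a b hy ⟨h5, h2, h3, h4⟩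
        · exact h' x (by simp [hx]) μ a b hy hxb
      | S1 =>
        have h' := ih _ h
        rcases List.mem_cons.mp hx with rfl | hx
        · obtain ⟨h1, h2, h3, h4⟩ := hxb
          rcases le_total (b * 1152921504606846976000000) (((x.B0 + x.B1) / 2 : ℤ) : ℝ) with
            h5 | h5
          · exact h' ⟨x.A0, x.A1, x.B0, (x.B0 + x.B1) / 2⟩ (by simp) μ a b hy ⟨h1, h2, h3, h5⟩
          · exact h' ⟨x.A0, x.A1, (x.B0 + x.B1) / 2, x.B1⟩ (by simp) μ a b hy ⟨h1, h2, h5, h4⟩
        · exact h' x (by simp [hx]) μ a b hy hxb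
      | O =>
        simp only [run, Bool.and_eq_true, decide_eq_true_eq] at h
        rcases List.mem_cons.mp hx with rfl | hx
        · exfalso
          have h1 := T_le hy.h0 hy.h1 hxb
          have h2 : (Thi x : ℝ) < 0 := by exact_mod_cast h.1
          have h3 := hy.hT
          nlinarith
        · exact ih _ h.2 x hx μ a b hy hxb
      | F =>
        simp only [run, Bool.and_eq_true] at h
        rcases List.mem_cons.mp hx with rfl | hx
        · exact F_sound h.1 hxb
        · exact ih _ h.2 x hx μ a b hy hxb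
      | P vb va vn =>
        simp only [run, Bool.and_eq_true] at h
        rcases List.mem_cons.mp hx with rfl | hx
        · exact (P_sound h.1 hy hxb).elim
        · exact ih _ h.2 x hx μ a b hy hxb

/-- the certificate -/
def toks : List Tok :=
  [.S1, .S1, .P 411 387 157, .S1, .P 1089 1025 416, .S1, .P 1089 1025 416, .S1, .P 1089 1025 416,
   .S0, .S1, .P 2856 2688 1091, .S1, .P 2856 2688 1091, .S0, .O, .S1, .S1, .P 2856 2688 1091,
   .P 7479 7039 2857, .S1, .P 7479 7039 2857, .S0, .O, .S1, .P 7479 7039 2857, .S1,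
   .P 19581 18429 7480, .S0, .O, .S1, .P 19547 18398 7467, .S1, .S0, .O, .P 19581 18429 7480, .S0,
   .O, .S1, .P 51264 48248 19583, .S1, .P 51230 48217 19570, .S0, .O, .S1, .S1,
   .P 51264 48248 19583, .S0, .O, .P 134143 126253 51243, .S1, .P 134177 126284 51256, .S0, .O, .S1,
   .P 134177 126284 51256, .S1, .S0, .O, .P 134177 126284 51256, .S0, .O, .S1,
   .P 351267 330604 134185, .S1, .P 351267 330604 134185, .S0, .O, .S1, .P 351267 330604 134185,
   .S1, .P 1136680 1069817 434215, .S0, .O, .S1, .P 919624 865528 351299, .S1, .S0, .O,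
   .P 919624 865528 351299, .S0, .O, .S1, .P 2624661 2470269 1002628, .S1,
   .P 2624661 2470269 1002628, .S0, .O, .S1, .P 6954359 6545279 2656585, .S1,
   .P 6954359 6545279 2656585, .S0, .O, .S1, .P 6954359 6545279 2656585, .S1,
   .P 18238416 17165568 6967127, .S0, .O, .S1, .P 18238416 17165568 6967127, .S1,
   .P 18238416 17165568 6967127, .S0, .O, .S1, .P 47760889 44951425 18244796, .S1,
   .P 47760889 44951425 18244796, .S0, .O, .S1, .P 47760889 44951425 18244796, .S1,
   .P 125044251 117688707 47767261, .S0, .O, .S1, .P 125044251 117688707 47767261, .S1,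
   .P 125044251 117688707 47767261, .S0, .O, .S1, .P 327371864 308114696 125056987, .S1,
   .P 327371864 308114696 125056987, .S0, .O, .S1, .P 929590893 874909075 355106376, .S1,
   .P 893331117 840782228 341255038, .S0, .O, .S1, .P 893331117 840782228 341255038, .S1,
   .P 2352621487 2214231988 898708127, .S0, .O, .S1, .P 2352621487 2214231988 898708127, .S1,
   .P 2352621487 2214231988 898708127, .S0, .O, .S1, .P 6164533344 5801913736 2354869343, .S1,
   .P 6164533344 5801913736 2354869343, .S0, .O, .S1, .P 6164533344 5801913736 2354869343, .S1,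
   .P 16177238321 15225636067 6179751240, .S0, .O, .S1, .P 16177238321 15225636067 6179751240, .S1,
   .P 42367181619 39874994465 16184384377, .S0, .O, .S1, .P 42367181619 39874994465 16184384377,
   .S1, .P 42367181619 39874994465 16184384377, .S0, .O, .S1,
   .P 110924306536 104399347328 42373401891, .S1, .P 110924306536 104399347328 42373401891, .S0, .O,
   .F, .S1, .P 2856 2688 1091, .S1, .P 2856 2688 1091, .S0, .S1, .S1, .P 2856 2688 1091,
   .P 7479 7039 2857, .S1, .P 7479 7039 2857, .S0, .S1, .P 7479 7039 2857, .S1, .S0,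
   .P 19547 18398 7467, .S1, .P 19547 18398 7467, .P 19581 18429 7480, .S0, .S1,
   .P 19581 18429 7480, .S1, .P 19581 18429 7480, .S0, .S1, .P 51230 48217 19570, .S1,
   .P 51264 48248 19583, .S0, .S1, .P 51264 48248 19583, .S1, .P 134177 126284 51256, .S0, .S1,
   .P 134177 126284 51256, .S1, .P 134177 126284 51256, .S0, .S1, .P 351267 330604 134185, .S1,
   .P 351267 330604 134185, .S0, .S1, .P 351267 330604 134185, .S1, .P 919624 865528 351299, .S0,
   .S1, .P 919624 865528 351299, .S1, .P 919624 865528 351299, .S0, .S1, .P 2624661 2470269 1002628,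
   .S1, .P 2624661 2470269 1002628, .S0, .S1, .P 6954359 6545279 2656585, .S1,
   .P 6954359 6545279 2656585, .S0, .S1, .P 6954359 6545279 2656585, .S1,
   .P 18238416 17165568 6967127, .S0, .S1, .P 18238416 17165568 6967127, .S1,
   .P 18238416 17165568 6967127, .S0, .S1, .P 47760889 44951425 18244796, .S1,
   .P 47760889 44951425 18244796, .S0, .S1, .P 47760889 44951425 18244796, .S1,
   .P 125044251 117688707 47767261, .S0, .S1, .P 125044251 117688707 47767261, .S1,
   .P 327371864 308114696 125056987, .S0, .S1, .P 363631640 342241543 138908325, .S1,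
   .P 363631640 342241543 138908325, .S0, .S1, .P 893331117 840782228 341255038, .S1,
   .P 929590893 874909075 355106376, .S0, .S1, .P 929590893 874909075 355106376, .S1,
   .P 2352621487 2214231988 898708127, .S0, .S1, .P 2388881263 2248358835 912559465, .S1,
   .P 2388881263 2248358835 912559465, .S0, .S1, .P 6200793120 5836040583 2368720681, .S1,
   .P 6200793120 5836040583 2368720681, .S0, .S1, .P 6200793120 5836040583 2368720681, .S1,
   .P 16177238321 15225636067 6179751240, .S0, .S1, .P 16213498097 15259762914 6193602578, .S1,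
   .P 42367181619 39874994465 16184384377, .S0, .S1, .P 42403441395 39909121312 16198235715, .S1,
   .P 42403441395 39909121312 16198235715, .S0, .S1, .P 110924306536 104399347328 42373401891, .S1,
   .P 110924306536 104399347328 42373401891, .S0, .F, .S1, .P 110924306536 104399347328 42373401891,
   .P 68520865141 64490226016 26175166176, .P 42403441395 39909121312 16198235715,
   .P 16213498097 15259762914 6193602578, .P 16213498097 15259762914 6193602578,
   .P 6200793120 5836040583 2368720681, .P 2388881263 2248358835 912559465,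
   .P 2388881263 2248358835 912559465, .P 929590893 874909075 355106376, .S1,
   .P 893331117 840782228 341255038, .S1, .P 363631640 342241543 138908325,
   .P 929590893 874909075 355106376, .P 363631640 342241543 138908325,
   .P 161304027 151815554 61618599, .S1, .P 84020665 79078272 32096134, .S1,
   .P 125044251 117688707 47767261, .S0, .S1, .S1, .P 125044251 117688707 47767261,
   .P 161304027 151815554 61618599, .P 161304027 151815554 61618599, .S1,
   .P 84020665 79078272 32096134, .S1, .P 84020665 79078272 32096134,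
   .P 202327613 190425989 77289726, .P 919624 865528 351299, .P 919624 865528 351299,
   .P 919624 865528 351299, .P 919624 865528 351299, .P 919624 865528 351299,
   .P 919624 865528 351299, .P 351267 330604 134185, .P 351267 330604 134185,
   .P 134177 126284 51256, .P 51264 48248 19583, .S1, .P 19581 18429 7480, .P 51264 48248 19583,
   .S1, .P 19581 18429 7480, .P 12068 11359 4610, .S1, .P 7479 7039 2857, .P 4589 4320 1753, .S1,
   .S1, .P 2856 2688 1091, .P 7479 7039 2857, .S1, .P 7479 7039 2857, .P 4589 4320 1753, .S1, .S1,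
   .S1, .S1, .S0, .S1, .S1, .S0, .O, .S1, .S1, .S0, .O, .S1, .S1, .S0, .O, .S1, .S1, .S0, .O, .S1,
   .S1, .S0, .O, .S1, .S1, .S0, .O, .S1, .S1, .S0, .O, .S1, .S1, .S0, .O, .S1, .S1, .S0, .O, .S1,
   .S1, .S0, .O, .S1, .S1, .S0, .O, .S1, .S1, .S0, .O, .S1, .S1, .S0, .O, .S1, .S1, .S0, .O, .S1,
   .S1, .S0, .O, .S1, .S1, .S0, .O, .S1, .S1, .S0, .O, .S1, .S1, .S0, .O, .S1, .S1, .S0, .O, .S1,
   .S1, .S0, .O, .S1, .S1, .S0, .O, .S1, .S1, .S0, .O, .S1, .S1, .S0, .O, .S1, .S1, .S0, .O, .S1,
   .S1, .S0, .O, .S1, .S1, .S0, .O, .F, .S0, .O, .F, .P 68557124917 64524352863 26189017514,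
   .P 68557124917 64524352863 26189017514, .P 26189943298 24649358398 10004633137,
   .P 26189943298 24649358398 10004633137, .P 26189943298 24649358398 10004633137,
   .P 10012704977 9423722331 3824881897, .P 10012704977 9423722331 3824881897, .S0, .O,
   .P 9976445201 9389595484 3811030559, .P 3848171633 3621808595 1470012554,
   .P 3848171633 3621808595 1470012554, .P 3811911857 3587681748 1456161216,
   .P 1459290370 1373449760 557453089, .P 1459290370 1373449760 557453089,
   .P 565959253 532667532 216198051, .P 565959253 532667532 216198051,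
   .P 565959253 532667532 216198051, .S1, .P 529699477 498540685 202346713,
   .P 238587389 224552836 91141064, .P 238587389 224552836 91141064,
   .P 202327613 190425989 77289726, .P 77283362 72737282 29522465, .P 77283362 72737282 29522465,
   .P 77283362 72737282 29522465, .P 29522473 27785857 11277669, .P 29522473 27785857 11277669,
   .P 11284057 10620289 4310542, .P 11284057 10620289 4310542, .P 11284057 10620289 4310542, .S0,
   .O, .P 4329698 4075010 1653957, .P 4329698 4075010 1653957, .P 4329698 4075010 1653957, .S1, .S0,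
   .O, .P 4112642 3870721 1571041, .P 1487981 1400452 568413, .P 1487981 1400452 568413,
   .P 1705037 1604741 651329, .P 568357 534924 217114, .P 568357 534924 217114,
   .P 568357 534924 217114, .P 217090 204320 82929, .P 217090 204320 82929, .P 217090 204320 82929,
   .P 82913 78036 31673, .P 82913 78036 31673, .S0, .O, .S1, .P 82913 78036 31673,
   .P 31683 29819 12103, .P 31683 29819 12103, .P 31683 29819 12103, .P 12102 11390 4623,
   .P 12102 11390 4623, .P 12102 11390 4623, .P 4623 4351 1766, .P 4623 4351 1766,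
   .P 4623 4351 1766, .P 1767 1663 675, .S1, .S1, .S0, .S1, .S1, .S0, .S1, .S1, .S0, .S1, .S1, .S0,
   .S1, .S1, .S0, .S1, .S1, .S0, .S1, .S1, .S0, .S1, .S1, .S0, .S1, .S1, .S0, .S1, .S1, .S0, .S1,
   .S1, .S0, .S1, .S1, .S0, .S1, .S1, .S0, .S1, .S1, .S0, .S1, .S1, .S0, .S1, .S1, .S0, .S1, .S1,
   .S0, .S1, .S1, .S0, .S1, .S1, .S0, .S1, .S1, .S0, .S1, .S1, .S0, .S1, .S1, .S0, .S1, .S1, .S0,
   .S1, .S1, .S0, .S1, .S1, .S0, .S1, .S1, .S0, .F, .P 68520865141 64490226016 26175166176,
   .P 68520865141 64490226016 26175166176, .P 68520865141 64490226016 26175166176,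
   .P 68520865141 64490226016 26175166176, .P 68557124917 64524352863 26189017514,
   .P 26153683522 24615231551 9990781799, .P 26153683522 24615231551 9990781799,
   .P 26153683522 24615231551 9990781799, .P 26189943298 24649358398 10004633137,
   .P 9976445201 9389595484 3811030559, .P 9976445201 9389595484 3811030559,
   .P 9976445201 9389595484 3811030559, .P 9976445201 9389595484 3811030559,
   .P 10012704977 9423722331 3824881897, .P 3811911857 3587681748 1456161216, .S1, .S1, .S0, .S1,
   .P 9976445201 9389595484 3811030559, .P 3811911857 3587681748 1456161216,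
   .P 2388881263 2248358835 912559465, .P 3811911857 3587681748 1456161216,
   .P 3811911857 3587681748 1456161216, .P 3811911857 3587681748 1456161216, .S1,
   .P 3811911857 3587681748 1456161216, .P 1459290370 1373449760 557453089, .S1,
   .P 3811911857 3587681748 1456161216, .P 529699477 498540685 202346713,
   .P 1459290370 1373449760 557453089, .P 1459290370 1373449760 557453089,
   .P 529699477 498540685 202346713, .P 529699477 498540685 202346713,
   .P 529699477 498540685 202346713, .P 529699477 498540685 202346713,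
   .P 565959253 532667532 216198051, .P 202327613 190425989 77289726,
   .P 202327613 190425989 77289726, .P 202327613 190425989 77289726,
   .P 202327613 190425989 77289726, .P 202327613 190425989 77289726, .P 77283362 72737282 29522465,
   .P 77283362 72737282 29522465, .S1, .S1, .S0, .S1, .P 202327613 190425989 77289726,
   .P 77283362 72737282 29522465, .P 161304027 151815554 61618599, .P 77283362 72737282 29522465,
   .P 77283362 72737282 29522465, .P 77283362 72737282 29522465, .P 29522473 27785857 11277669, .S1,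
   .P 77283362 72737282 29522465, .P 29522473 27785857 11277669, .P 29522473 27785857 11277669,
   .P 11284057 10620289 4310542, .P 919624 865528 351299, .P 11284057 10620289 4310542,
   .P 11284057 10620289 4310542, .P 919624 865528 351299, .P 4329698 4075010 1653957,
   .P 4329698 4075010 1653957, .P 919624 865528 351299, .P 4329698 4075010 1653957,
   .P 1705037 1604741 651329, .S1, .P 919624 865528 351299, .P 1705037 1604741 651329,
   .P 1705037 1604741 651329, .P 1705037 1604741 651329, .S1, .P 1705037 1604741 651329,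
   .P 785413 739213 300030, .S0, .P 568357 534924 217114, .P 785413 739213 300030,
   .P 785413 739213 300030, .S1, .P 785413 739213 300030, .P 568357 534924 217114,
   .P 568357 534924 217114, .P 217090 204320 82929, .S1, .S1, .S0, .S1, .S1,
   .P 919624 865528 351299, .S0, .P 785413 739213 300030, .P 919624 865528 351299, .S1, .S0, .S1,
   .S1, .S0, .P 1487981 1400452 568413, .S1, .P 785413 739213 300030, .P 1353770 1274137 517144,
   .P 1487981 1400452 568413, .P 1353770 1274137 517144, .P 1353770 1274137 517144,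
   .P 568357 534924 217114, .P 31649 29788 12090, .P 568357 534924 217114, .P 217090 204320 82929,
   .P 217090 204320 82929, .P 217090 204320 82929, .P 31649 29788 12090, .P 82913 78036 31673,
   .P 82913 78036 31673, .P 31649 29788 12090, .P 31649 29788 12090, .P 31649 29788 12090,
   .P 31649 29788 12090, .P 31683 29819 12103, .P 12068 11359 4610, .P 12068 11359 4610,
   .P 12068 11359 4610, .P 12102 11390 4623, .P 4589 4320 1753, .P 4589 4320 1753,
   .P 4589 4320 1753, .P 4589 4320 1753, .P 4623 4351 1766, .P 1733 1632 662, .P 1767 1663 675,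
   .P 1767 1663 675, .P 678 638 259, .P 678 638 259]

set_option maxRecDepth 100000 in
theorem run_toks : run toks [⟨-1099511627776, 1099511627776, -1152921504606846976,
    1152921504606846976⟩] = true := by
  decide +kernel

end C2m

open C2m in
theorem stmtC2 : S_C2 := by
  intro μ a b h0 h1 ha hb hT hv
  have ha' := abs_le.mp ha
  have hb' := abs_le.mp hb
  refine run_sound toks _ run_toks _ (List.mem_singleton.mpr rfl) μ a b ⟨h0, h1, hT, hv⟩ ?_
  refine ⟨?_, ?_, ?_, ?_⟩
  · push_cast
    linarith [ha'.1]
  · push_cast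
    linarith [ha'.2]
  · push_cast
    linarith [hb'.1]
  · push_cast
    linarith [hb'.2]

end Pool.Agent.MDX
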