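import Mathlib
import Pool.Agent.MDX.Stmts

/-!
CC: golden gluing of two copies of the same end (see `PAPER.md`, section CC).
-/

namespace Pool.Agent.MDX

open Pool.Agent.Lib_helper94.MDS

namespace CCm

lemma distInt_small {z : ℝ} (h : |z| ≤ 1 / 2) : distInt z = |z| := by
  apply le_antisymm
  · simpa using distInt_le z 0
  · unfold distInt
    by_cases h0 : round z = 0
    · rw [h0]; simp
    · have h1 : (1 : ℝ) ≤ |(round z : ℝ)| := by
        have : (1 : ℤ) ≤ |round z| := Int.one_le_abs h0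
        exact_mod_cast this
      have h2 : |(round z : ℝ)| ≤ |z| + |z - round z| := by
        have := abs_sub_abs_le_abs_sub (round z : ℝ) z
        rw [abs_sub_comm] at this
        linarith
      linarith

lemma exists_int {z d : ℝ} (h : distInt z < d) : ∃ n : ℤ, |z - n| < d := ⟨round z, h⟩

lemma distInt_le_add {x y : ℝ} : distInt x ≤ distInt y + |x - y| := by
  have := distInt_lipschitz x y
  have := le_abs_self (distInt x - distInt y)
  linarith

/-- the estimate near one of the two axes -/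
lemma key {ρ α Y c : ℝ} (hE : EndGood ρ α Y c) {N j C B m1 q r n1 n2 s : ℤ} {K δ₁ δ₂ η : ℝ}
    (hs : |(s : ℝ)| = 1) (hsZ : distInt ((s : ℝ) * (α * B)) = distInt (α * B))
    (hN : 0 < (N : ℝ)) (hq1 : 1 ≤ q) (hqN : (q : ℝ) ≤ (1 - η) * N)
    (hq : q = C * B - N * m1)
    (hr : |(C : ℝ) / N - ρ - r| ≤ δ₁) (hB : |(B : ℝ)| ≤ K) (hKδ : K * δ₁ < η)
    (hη1 : η ≤ 1 / 2)
    (hj : |(j : ℝ) / N - α| ≤ δ₂) (hN2 : K + |Y| ≤ N / 2) {w1 w2 : ℝ}
    (hw1 : w1 = (B + q / N * Y) / N + n1) (hw2 : w2 = (s * j * B + q / N * Y) / N + n2) :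
    c - (K + |Y| + K * δ₁ * |Y|) * (K * δ₂ + |Y| / N) - K * δ₁ * |Y| / 2 ≤
      N * (distInt w1 * distInt w2) := by
  have hq1' : (1 : ℝ) ≤ q := by exact_mod_cast hq1
  have hK0 : 0 ≤ K := (abs_nonneg _).trans hB
  have hδ10 : 0 ≤ δ₁ := (abs_nonneg _).trans hr
  have hδ20 : 0 ≤ δ₂ := (abs_nonneg _).trans hj
  have hY0 : 0 ≤ |Y| := abs_nonneg _
  have ht0 : 0 ≤ (q : ℝ) / N := by positivity
  have ht1 : (q : ℝ) / N ≤ 1 - η := by rwa [div_le_iff₀ hN]
  -- `B` is not zero
  have hB0 : B ≠ 0 := by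
    rintro rfl
    have h1 : q = N * (-m1) := by rw [hq]; ring
    have h2 : (q : ℝ) = N * (-m1 : ℤ) := by rw [h1]; push_cast; ring
    have h3 : (0 : ℝ) < (-m1 : ℤ) := by
      by_contra hcon
      push Not at hcon
      have := mul_nonpos_of_nonneg_of_nonpos hN.le hcon
      linarith
    have h4 : (1 : ℝ) ≤ (-m1 : ℤ) := by
      have : (0 : ℤ) < -m1 := by exact_mod_cast h3
      exact_mod_cast this
    have hη0 : 0 < η := lt_of_le_of_lt (by positivity) hKδ
    have h5 := mul_le_mul_of_nonneg_left h4 hN.le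
    have h6 := mul_pos hη0 hN
    linarith
  -- the integer `m`
  set e : ℝ := (C : ℝ) / N - ρ - r with he
  have hid : ρ * B - ((m1 - r * B : ℤ) : ℝ) = q / N - e * B := by
    rw [he, hq]
    push_cast
    field_simp
    ring
  have heB : |e * B| ≤ K * δ₁ := by
    rw [abs_mul, mul_comm K]
    exact mul_le_mul hr hB (abs_nonneg _) hδ10
  have heB' := abs_le.1 heB
  have hlt : |ρ * B - ((m1 - r * B : ℤ) : ℝ)| < 1 := by
    rw [hid, abs_lt]
    constructor <;> linarith [heB'.1, heB'.2]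
  have hend := hE B (m1 - r * B) (round (α * B)) hB0 hlt
  rw [hid] at hend
  -- first factor
  set u : ℝ := |(B : ℝ) + q / N * Y| with hu
  have hu1 : u ≤ K + |Y| := by
    have h1 := abs_add_le (B : ℝ) (q / N * Y)
    rw [abs_mul, abs_of_nonneg ht0] at h1
    have h2 : (q : ℝ) / N * |Y| ≤ 1 * |Y| := mul_le_mul_of_nonneg_right (by linarith) hY0
    linarith
  have hu0 : 0 ≤ u := abs_nonneg _
  have hU : distInt w1 = u / N := by
    rw [hw1, distInt_add_int, distInt_small, abs_div, abs_of_pos hN]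
    rw [abs_div, abs_of_pos hN, div_le_iff₀ hN]
    linarith
  have hX : |(B : ℝ) + (q / N - e * B) * Y| ≤ u + K * δ₁ * |Y| := by
    have h1 : (B : ℝ) + (q / N - e * B) * Y = ((B : ℝ) + q / N * Y) + (-(e * B * Y)) := by ring
    rw [h1]
    refine (abs_add_le _ _).trans ?_
    rw [abs_neg, abs_mul (e * B)]
    have := mul_le_mul_of_nonneg_right heB hY0
    linarith
  -- second factor
  have hZ : |α * B - (round (α * B) : ℝ)| ≤ distInt w2 + (K * δ₂ + |Y| / N) := by
    have h0 : |α * B - (round (α * B) : ℝ)| = distInt (α * B) := rfl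
    rw [h0, ← hsZ, hw2, distInt_add_int]
    refine (distInt_le_add (y := (s * j * B + q / N * Y) / N)).trans ?_
    have h1 : (s : ℝ) * (α * B) - (s * j * B + q / N * Y) / N =
        -(s * (((j : ℝ) / N - α) * B)) + (-(q / N * (Y / N))) := by
      field_simp
      ring
    have h2 : |(s : ℝ) * (α * B) - (s * j * B + q / N * Y) / N| ≤ K * δ₂ + |Y| / N := by
      rw [h1]
      refine (abs_add_le _ _).trans ?_
      rw [abs_neg, abs_neg, abs_mul, hs, one_mul, abs_mul, abs_mul, abs_of_nonneg ht0, abs_div,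
        abs_of_pos hN]
      have h3 : |(j : ℝ) / N - α| * |(B : ℝ)| ≤ δ₂ * K := mul_le_mul hj hB (abs_nonneg _) hδ20
      have h4 : (q : ℝ) / N * (|Y| / N) ≤ 1 * (|Y| / N) :=
        mul_le_mul_of_nonneg_right (by linarith) (by positivity)
      linarith
    linarith
  set v : ℝ := distInt w2 with hv
  have hv0 : 0 ≤ v := distInt_nonneg _
  have hv1 : v ≤ 1 / 2 := distInt_le_half _
  set a : ℝ := K * δ₁ * |Y| with ha
  set b : ℝ := K * δ₂ + |Y| / N with hb
  have ha0 : 0 ≤ a := by positivity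
  have hb0 : 0 ≤ b := by positivity
  have hfin : c ≤ (u + a) * (v + b) :=
    hend.trans (mul_le_mul hX hZ (abs_nonneg _) (by linarith))
  have hgoal : (N : ℝ) * (distInt w1 * v) = u * v := by
    rw [hU]
    field_simp
  rw [hgoal]
  have h1 : u * b ≤ (K + |Y|) * b := mul_le_mul_of_nonneg_right hu1 hb0
  have h2 : a * v ≤ a * (1 / 2) := mul_le_mul_of_nonneg_left hv1 ha0
  have h3 : (u + a) * (v + b) = u * v + u * b + a * v + a * b := by ring
  have h4 : (K + |Y| + a) * b = (K + |Y|) * b + a * b := by ring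
  rw [h3] at hfin
  rw [h4]
  linarith

lemma sqrt5 : 1 / Real.sqrt 5 < 1 / 2 := by
  apply one_div_lt_one_div_of_lt (by norm_num)
  apply Real.lt_sqrt_of_sq_lt
  norm_num

end CCm

open CCm

/-- CC: golden gluing. -/
theorem stmtCC (hKL : S_KL) (hGF : S_GF) (hGL : S_GLIM) (hG : S_GOLD) : S_CC := by
  intro ρ α Y c hα hE hc hc5 c₀ hc₀ x y δ hδ N0
  obtain ⟨B0, B1, i, k0, hB0, hB1, hik, hαeq⟩ := hα
  -- a positive constant below `c`
  set c' : ℝ := max c₀ (c / 2) with hc'
  have hc'0 : 0 < c' := lt_of_lt_of_le (by linarith) (le_max_right _ _)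
  have hc'c : c' < c := max_lt hc₀ (by linarith)
  have hc₀' : c₀ ≤ c' := le_max_left _ _
  have hc2 : c < 1 / 2 := hc5.trans sqrt5
  set τ : ℝ := (c - c') / 4 with hτ
  have hτ0 : 0 < τ := by rw [hτ]; linarith
  have hτ1 : τ < 1 / 8 := by rw [hτ]; linarith
  have hY0 : 0 ≤ |Y| := abs_nonneg _
  obtain ⟨K1, l1, hgold⟩ := hG B0 B1 i k0 hB0 hB1 hik τ hτ0
  obtain ⟨hGN, hlim⟩ := hGL B0 B1 i k0 hB0 hB1 hik
  set K : ℝ := K1 + 2 * |Y| / τ + 1 with hK
  have hK1 : (K1 : ℝ) ≤ K := by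
    have : 0 ≤ 2 * |Y| / τ := by positivity
    rw [hK]; linarith
  have hK1' : 1 ≤ K := by
    have : 0 ≤ 2 * |Y| / τ := by positivity
    have : (0 : ℝ) ≤ K1 := Nat.cast_nonneg _
    rw [hK]; linarith
  have hKY : 2 * |Y| ≤ τ * K := by
    have h1 : 2 * |Y| / τ ≤ K := by
      have : (0 : ℝ) ≤ K1 := Nat.cast_nonneg _
      rw [hK]; linarith
    rw [div_le_iff₀ hτ0] at h1
    linarith
  set δ₁ : ℝ := min (δ / 2) (τ / (2 * K * (|Y| + 1))) with hδ₁
  have hδ₁0 : 0 < δ₁ := lt_min (by linarith) (by positivity)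
  have hδ₁a : δ₁ ≤ δ / 2 := min_le_left _ _
  have hδ₁b : K * δ₁ * (|Y| + 1) ≤ τ / 2 := by
    have h1 : δ₁ ≤ τ / (2 * K * (|Y| + 1)) := min_le_right _ _
    have h2 : K * δ₁ * (|Y| + 1) ≤ K * (τ / (2 * K * (|Y| + 1))) * (|Y| + 1) := by gcongr
    have h3 : K * (τ / (2 * K * (|Y| + 1))) * (|Y| + 1) = τ / 2 := by
      field_simp
    linarith
  have hKδ0 : 0 ≤ K * δ₁ := by positivity
  have hKδ3 : 0 ≤ K * δ₁ * |Y| := mul_nonneg hKδ0 hY0
  rw [mul_add, mul_one] at hδ₁b
  have hKδ1 : K * δ₁ ≤ τ / 2 := by linarith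
  have hKδ2 : K * δ₁ * |Y| ≤ τ / 2 := by linarith
  set δ₂ : ℝ := τ / (4 * (K + |Y| + 1) * K) with hδ₂
  have hδ₂0 : 0 < δ₂ := by positivity
  have hδ₂a : (K + |Y| + 1) * (K * δ₂) = τ / 4 := by
    rw [hδ₂]
    field_simp
  obtain ⟨Nk, hkl⟩ := hKL x y ρ (-ρ) δ₁ hδ₁0
  obtain ⟨l2, hl2⟩ := hlim δ₂ hδ₂0
  obtain ⟨l3, hl3⟩ := exists_nat_ge (4 * (K + |Y| + 1) * |Y| / τ + 2 * (K + |Y|) + 2 * |Y| / δ +
    2 * (N0 + 2))
  set l : ℕ := 2 * (l1 + l2 + l3 + Nk + 1) with hl
  have hle : Even l := ⟨l1 + l2 + l3 + Nk + 1, by omega⟩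
  -- the modulus
  have hNl := hGN l
  obtain ⟨N, hN⟩ : ∃ N : ℕ, (N : ℤ) = GN B0 B1 l := ⟨(GN B0 B1 l).toNat, by omega⟩
  have hNl' : l ≤ N := by
    rw [← hN] at hNl
    exact_mod_cast hNl
  set j : ℤ := GJ B0 B1 i k0 l with hj
  have hdvd : (N : ℤ) ∣ j ^ 2 + 1 := by
    rw [hN]
    exact (hGF B0 B1 i k0 hB0 hB1 hik l hle).1
  have hNpos : 0 < N := by omega
  have hNR : (0 : ℝ) < N := by exact_mod_cast hNpos
  have hN1 : (1 : ℝ) ≤ N := by exact_mod_cast hNpos
  have hNl3 : (l3 : ℝ) ≤ N := by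
    have : l3 ≤ N := by omega
    exact_mod_cast this
  have hb1 : 0 ≤ 4 * (K + |Y| + 1) * |Y| / τ := by positivity
  have hb2 : 0 ≤ 2 * (K + |Y|) := by positivity
  have hb3 : 0 ≤ 2 * |Y| / δ := by positivity
  have hb4 : (0 : ℝ) ≤ N0 := Nat.cast_nonneg _
  have hNa : (K + |Y| + 1) * (|Y| / N) ≤ τ / 4 := by
    have h1 : 4 * (K + |Y| + 1) * |Y| / τ ≤ N := by linarith
    rw [div_le_iff₀ hτ0] at h1
    have h2 : (K + |Y| + 1) * (|Y| / N) = (K + |Y| + 1) * |Y| / N := by ring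
    rw [h2, div_le_iff₀ hNR]
    linarith
  have hNb : K + |Y| ≤ (N : ℝ) / 2 := by linarith
  have hNc : |Y| / N ≤ δ / 2 := by
    have h1 : 2 * |Y| / δ ≤ N := by linarith
    rw [div_le_iff₀ hδ] at h1
    rw [div_le_iff₀ hNR]
    linarith
  have hNd : 2 * ((N0 : ℝ) + 2) ≤ N := by linarith
  have hNY : |Y| / (N : ℝ) ^ 2 ≤ δ / 2 := by
    refine le_trans ?_ hNc
    apply div_le_div_of_nonneg_left hY0 hNR
    exact le_self_pow₀ hN1 (by norm_num)
  have hjα : |(j : ℝ) / N - α| < δ₂ := by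
    have := hl2 l (by omega)
    rw [← hN, ← hj] at this
    rw [hαeq]
    exact_mod_cast this
  -- the points
  obtain ⟨p, c1, hc1, ha1, ha2, ha3, ha4⟩ := hkl N (by omega) hNpos j hdvd
  obtain ⟨n1, hn1⟩ := exists_int ha1
  obtain ⟨n2, hn2⟩ := exists_int ha2
  obtain ⟨r1, hr1⟩ := exists_int ha3
  obtain ⟨r2, hr2⟩ := exists_int ha4
  obtain ⟨m0, hm0⟩ := hc1
  obtain ⟨d0, hd0⟩ := hdvd
  set ξ : ℝ := (p : ℝ) / N - n1 + Y / (N : ℝ) ^ 2 with hξ
  set ζ : ℝ := (j : ℝ) * p / N - n2 + Y / (N : ℝ) ^ 2 with hζ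
  have hYN : |Y / (N : ℝ) ^ 2| ≤ δ / 2 := by
    rw [abs_div, abs_of_pos (by positivity : (0 : ℝ) < (N : ℝ) ^ 2)]
    exact hNY
  set k : ℕ := ⌊(1 - τ) * N⌋₊ with hk
  have hk1 : (k : ℝ) ≤ (1 - τ) * N := Nat.floor_le (mul_nonneg (by linarith) hNR.le)
  have hk2 : (1 - τ) * N < k + 1 := Nat.lt_floor_add_one _
  have hkN0 : N0 + 1 ≤ k := by
    apply Nat.le_floor
    push_cast
    have : 1 / 2 * (N : ℝ) ≤ (1 - τ) * N := mul_le_mul_of_nonneg_right (by linarith) hNR.le
    linarith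
  refine ⟨k, by omega, (ξ, ζ), ?_, ?_, ?_⟩
  · simp only
    have h1 : ξ - x = ((p : ℝ) / N - x - n1) + Y / (N : ℝ) ^ 2 := by rw [hξ]; ring
    rw [h1]
    refine lt_of_le_of_lt (abs_add_le _ _) ?_
    linarith
  · simp only
    have h1 : ζ - y = ((j : ℝ) * p / N - y - n2) + Y / (N : ℝ) ^ 2 := by rw [hζ]; ring
    rw [h1]
    refine lt_of_le_of_lt (abs_add_le _ _) ?_
    linarith
  -- the product
  have main : ∀ q : ℤ, 1 ≤ q → (q : ℝ) ≤ (1 - τ) * N →
      (1 - τ) * (c - τ) ≤ N * (distInt (q * ξ) * distInt (q * ζ)) := by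
    intro q hq1 hqN
    have hq1' : (1 : ℝ) ≤ q := by exact_mod_cast hq1
    have ht0 : 0 ≤ (q : ℝ) / N := by positivity
    have ht1 : (q : ℝ) / N ≤ 1 - τ := by rwa [div_le_iff₀ hNR]
    -- residues
    set a : ℤ := round ((q : ℝ) * p / N) with ha
    set a' : ℤ := round ((q : ℝ) * j * p / N) with ha'
    set B : ℤ := q * p - N * a with hB
    set B' : ℤ := q * j * p - N * a' with hB'
    have hBN : distInt ((B : ℝ) / N) = |(B : ℝ)| / N := by
      rw [distInt_small, abs_div, abs_of_pos hNR]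
      have h1 : (B : ℝ) / N = (q : ℝ) * p / N - a := by
        rw [hB]; push_cast; field_simp
      rw [h1]
      exact abs_sub_round _
    have hBN' : distInt ((B' : ℝ) / N) = |(B' : ℝ)| / N := by
      rw [distInt_small, abs_div, abs_of_pos hNR]
      have h1 : (B' : ℝ) / N = (q : ℝ) * j * p / N - a' := by
        rw [hB']; push_cast; field_simp
      rw [h1]
      exact abs_sub_round _
    have hw1 : q * ξ = ((B : ℝ) + q / N * Y) / N + ((a - q * n1 : ℤ) : ℝ) := by
      rw [hξ, hB]; push_cast; field_simp; ring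
    have hw2 : q * ζ = ((B' : ℝ) + q / N * Y) / N + ((a' - q * n2 : ℤ) : ℝ) := by
      rw [hζ, hB']; push_cast; field_simp; ring
    -- the common error bound
    have herr : (K + |Y| + K * δ₁ * |Y|) * (K * δ₂ + |Y| / N) + K * δ₁ * |Y| / 2 ≤ τ := by
      have h1 : (K + |Y| + K * δ₁ * |Y|) * (K * δ₂ + |Y| / N) ≤
          (K + |Y| + 1) * (K * δ₂ + |Y| / N) := by
        apply mul_le_mul_of_nonneg_right _ (by positivity)
        linarith
      have h2 : (K + |Y| + 1) * (K * δ₂ + |Y| / N) ≤ τ / 2 := by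
        rw [mul_add]; linarith
      linarith
    have hcτ0 : 0 < c - τ := by linarith
    have hcτ : (1 - τ) * (c - τ) ≤ c - τ := mul_le_of_le_one_left hcτ0.le (by linarith)
    rcases le_or_gt |(B : ℝ)| K with hBK | hBK
    · -- near the first axis
      have h := key hE (N := N) (j := j) (C := c1) (B := B) (m1 := m0 * q - c1 * a) (q := q)
        (r := r1) (n1 := a - q * n1) (n2 := j * a - q * n2) (s := 1) (K := K)
        (δ₁ := δ₁) (δ₂ := δ₂) (η := τ) (w1 := q * ξ) (w2 := q * ζ) (by simp) (by simp)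
        (by exact_mod_cast hNR) hq1 (by exact_mod_cast hqN)
        (by rw [hB]; linear_combination (-q) * hm0) (by exact_mod_cast hr1.le) hBK (by linarith)
        (by linarith)
        (by exact_mod_cast hjα.le) (by rw [Int.cast_natCast]; exact hNb)
        (by rw [hw1]; push_cast; ring)
        (by rw [hζ, hB]; push_cast; field_simp; ring)
      push_cast at h
      linarith
    rcases le_or_gt |(B' : ℝ)| K with hBK' | hBK'
    · -- near the second axis
      have h := key hE (N := N) (j := j) (C := -(j * c1)) (B := B')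
        (m1 := q * m0 - q * d0 * (1 + N * m0) + j * c1 * a') (q := q)
        (r := -r2) (n1 := a' - q * n2) (n2 := q * d0 * p - j * a' - q * n1) (s := -1) (K := K)
        (δ₁ := δ₁) (δ₂ := δ₂) (η := τ) (w1 := q * ζ) (w2 := q * ξ) (by simp)
        (by push_cast; rw [neg_one_mul, distInt_neg])
        (by exact_mod_cast hNR) hq1 (by exact_mod_cast hqN)
        (by rw [hB']; linear_combination (q * j ^ 2) * hm0 + q * (1 + N * m0) * hd0)
        (by
          have h1 : ((-(j * c1) : ℤ) : ℝ) / ((N : ℤ) : ℝ) - ρ - ((-r2 : ℤ) : ℝ) =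
              -((j : ℝ) * c1 / N - -ρ - r2) := by push_cast; ring
          rw [h1, abs_neg]
          exact hr2.le) hBK' (by linarith)
        (by linarith)
        (by exact_mod_cast hjα.le) (by rw [Int.cast_natCast]; exact hNb)
        (by rw [hw2]; push_cast; ring)
        (by
          have hd0' : (j : ℝ) ^ 2 + 1 = N * d0 := by exact_mod_cast hd0
          rw [hξ, hB']; push_cast; field_simp
          linear_combination ((q * p : ℝ) * N) * hd0')
      push_cast at h
      rw [mul_comm (distInt (q * ξ))]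
      linarith
    · -- the middle
      have hg := hgold l (by omega) hle B B' (by
          have : (K1 : ℝ) < |(B : ℝ)| := by linarith
          exact_mod_cast this) (by
          have : (K1 : ℝ) < |(B' : ℝ)| := by linarith
          exact_mod_cast this) (by
          rw [← hN, ← hj]
          exact ⟨a' - j * a, by rw [hB, hB']; ring⟩)
      have hgen : ∀ (w W : ℝ) (n : ℤ), distInt (W / N) = |W| / N → K < |W| →
          w = (W + q / N * Y) / N + n → |W| / N * (1 - τ / 2) ≤ distInt w := by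
        intro w W n h1 h2 h3
        have h4 : distInt (W / N) ≤ distInt w + |W / N - (W + q / N * Y) / N| := by
          rw [h3, distInt_add_int]
          exact distInt_le_add
        have h5 : W / N - (W + q / N * Y) / N = -(q / N * (Y / N)) := by ring
        rw [h5, abs_neg, abs_mul, abs_of_nonneg ht0, abs_div, abs_of_pos hNR, h1] at h4
        have h6 : (q : ℝ) / N * (|Y| / N) ≤ 1 * (|Y| / N) :=
          mul_le_mul_of_nonneg_right (by linarith) (by positivity)
        have h7 : |Y| / N ≤ τ / 2 * (|W| / N) := by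
          rw [← mul_div_assoc]
          apply div_le_div_of_nonneg_right _ hNR.le
          have := mul_le_mul_of_nonneg_left h2.le hτ0.le
          linarith
        linarith
      have hf1 := hgen _ _ _ hBN hBK hw1
      have hf2 := hgen _ _ _ hBN' hBK' hw2
      have h1 : |(B : ℝ)| / N * (1 - τ / 2) * (|(B' : ℝ)| / N * (1 - τ / 2)) ≤
          distInt (q * ξ) * distInt (q * ζ) :=
        mul_le_mul hf1 hf2 (mul_nonneg (by positivity) (by linarith)) (distInt_nonneg _)
      have h2 : (1 / Real.sqrt 5 - τ) * (N : ℝ) ≤ |(B : ℝ)| * |(B' : ℝ)| := by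
        rw [← hN] at hg
        exact_mod_cast hg
      have h3 : (c - τ) * N ≤ |(B : ℝ)| * |(B' : ℝ)| := by
        refine le_trans (mul_le_mul_of_nonneg_right ?_ hNR.le) h2
        linarith
      have h4 : (N : ℝ) * (|(B : ℝ)| / N * (1 - τ / 2) * (|(B' : ℝ)| / N * (1 - τ / 2))) =
          (1 - τ / 2) ^ 2 * (|(B : ℝ)| * |(B' : ℝ)| / N) := by
        field_simp
      have h5 : c - τ ≤ |(B : ℝ)| * |(B' : ℝ)| / N := by
        rwa [le_div_iff₀ hNR]
      have h6 : (1 - τ) * (c - τ) ≤ (1 - τ / 2) ^ 2 * (|(B : ℝ)| * |(B' : ℝ)| / N) :=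
        mul_le_mul (by
          have h8 : (1 - τ / 2) ^ 2 = 1 - τ + τ ^ 2 / 4 := by ring
          rw [h8]
          have := sq_nonneg τ
          linarith) h5 (by linarith) (by positivity)
      have h7 := mul_le_mul_of_nonneg_left h1 hNR.le
      linarith
  have hk0 : (0 : ℝ) < (k : ℝ) + 1 := by positivity
  have hm : c' / ((k : ℝ) + 1) ≤ mMin ξ ζ k := by
    apply le_mMin
    · have : 1 ≤ k := by omega
      exact_mod_cast this
    · intro q hq1 hqk
      have h1 := main q hq1 (hqk.trans hk1)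
      set W : ℝ := distInt (q * ξ) * distInt (q * ζ) with hW
      have hW0 : 0 ≤ W := mul_nonneg (distInt_nonneg _) (distInt_nonneg _)
      rw [div_le_iff₀ hk0]
      have h2 : (1 - τ) * ((1 - τ) * (c - τ)) ≤ (1 - τ) * (N * W) :=
        mul_le_mul_of_nonneg_left h1 (by linarith)
      have h3 : W * ((1 - τ) * N) ≤ W * (k + 1) := mul_le_mul_of_nonneg_left hk2.le hW0
      have h4 : c' ≤ (1 - τ) * ((1 - τ) * (c - τ)) := by
        have h5 : c' = c - 4 * τ := by rw [hτ]; ring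
        have h6 : 0 < c - τ := by linarith
        have h7 : (1 - τ) * ((1 - τ) * (c - τ)) =
            c - 4 * τ + (2 * (τ * (1 / 2 - c)) + 2 * τ + 2 * τ ^ 2 + τ ^ 2 * (c - τ)) := by ring
        rw [h5, h7]
        have h8 := mul_nonneg (sq_nonneg τ) h6.le
        have h9 := mul_pos hτ0 (by linarith : 0 < 1 / 2 - c)
        have h10 := sq_nonneg τ
        linarith
      linarith
  unfold g
  simp only
  have h1 := mul_le_mul_of_nonneg_left hm hk0.le
  rw [mul_div_cancel₀ _ hk0.ne'] at h1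
  linarith

end Pool.Agent.MDX
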