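import Pool.Agent.MDX.Stmts

set_option autoImplicit false

/-! # The divisor bound (module MDX_DIV, helper33) -/

namespace Pool.Agent.MDX

namespace Divm

open Finset

lemma small_prime (e p : ℕ) (hp : 2 ≤ p) : (e : ℝ) + 1 ≤ 16 * ((p : ℝ) ^ e) ^ (1 / 8 : ℝ) := by
  have h1 : (2 : ℝ) ^ e ≤ (p : ℝ) ^ e := pow_le_pow_left₀ (by norm_num) (by exact_mod_cast hp) e
  have h2 : ((2 : ℝ) ^ e) ^ (1 / 8 : ℝ) ≤ ((p : ℝ) ^ e) ^ (1 / 8 : ℝ) :=
    Real.rpow_le_rpow (by positivity) h1 (by norm_num)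
  have h3 : ((2 : ℝ) ^ e) ^ (1 / 8 : ℝ) = Real.exp (Real.log 2 * (e * (1 / 8))) := by
    rw [← Real.rpow_natCast, ← Real.rpow_mul (by norm_num), Real.rpow_def_of_pos (by norm_num)]
  have h4 := Real.add_one_le_exp (Real.log 2 * ((e : ℝ) * (1 / 8)))
  have h5 := Real.log_two_gt_d9
  have h6 : (0 : ℝ) ≤ e := Nat.cast_nonneg e
  have h7 : (1 / 2 : ℝ) * ((e : ℝ) * (1 / 8)) ≤ Real.log 2 * ((e : ℝ) * (1 / 8)) :=
    mul_le_mul_of_nonneg_right (by linarith) (by positivity)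
  rw [← h3] at h4
  linarith

lemma large_prime (e p : ℕ) (hp : 256 ≤ p) : (e : ℝ) + 1 ≤ ((p : ℝ) ^ e) ^ (1 / 8 : ℝ) := by
  have h1 : ((2 : ℝ) ^ 8) ^ e ≤ (p : ℝ) ^ e :=
    pow_le_pow_left₀ (by norm_num) (by
      norm_num
      exact hp) e
  have h2 : (((2 : ℝ) ^ 8) ^ e) ^ (1 / 8 : ℝ) ≤ ((p : ℝ) ^ e) ^ (1 / 8 : ℝ) :=
    Real.rpow_le_rpow (by positivity) h1 (by norm_num)
  have h3 : (((2 : ℝ) ^ 8) ^ e) ^ (1 / 8 : ℝ) = (2 : ℝ) ^ e := by
    rw [← pow_mul, mul_comm, pow_mul, ← Real.rpow_natCast (((2 : ℝ) ^ e)) 8,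
      ← Real.rpow_mul (by positivity)]
    norm_num
  have h4 : (e : ℝ) + 1 ≤ (2 : ℝ) ^ e := by
    have := Nat.lt_two_pow_self (n := e)
    exact_mod_cast this
  linarith

end Divm

open Divm Finset in
theorem stmtDIV : S_DIV := by
  refine ⟨16 ^ 256, by positivity, fun N hN => ?_⟩
  have hN0 : N ≠ 0 := by omega
  rw [Nat.card_divisors hN0]
  have hprod : (N : ℝ) = ∏ p ∈ N.primeFactors, ((p : ℝ) ^ N.factorization p) := by
    have h := Nat.prod_factorization_pow_eq_self hN0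
    rw [Finsupp.prod, Nat.support_factorization] at h
    exact_mod_cast h.symm
  have hrpow : (N : ℝ) ^ (1 / 8 : ℝ) =
      ∏ p ∈ N.primeFactors, ((p : ℝ) ^ N.factorization p) ^ (1 / 8 : ℝ) := by
    rw [Real.finsetProd_rpow _ _ (fun p _ => by positivity), ← hprod]
  rw [hrpow]
  push_cast
  set c : ℕ → ℝ := fun p => if p < 256 then 16 else 1 with hc
  have h1 : ∏ p ∈ N.primeFactors, ((N.factorization p : ℝ) + 1) ≤
      ∏ p ∈ N.primeFactors, (c p * ((p : ℝ) ^ N.factorization p) ^ (1 / 8 : ℝ)) := by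
    refine Finset.prod_le_prod (fun p _ => by positivity) fun p hp => ?_
    have hpp := Nat.prime_of_mem_primeFactors hp
    by_cases h : p < 256
    · simp only [hc, if_pos h]
      exact small_prime _ _ hpp.two_le
    · simp only [hc, if_neg h, one_mul]
      exact large_prime _ _ (by omega)
  refine h1.trans ?_
  rw [Finset.prod_mul_distrib]
  refine mul_le_mul_of_nonneg_right ?_ (Finset.prod_nonneg fun p _ => by positivity)
  have h2 : ∏ p ∈ N.primeFactors, c p = 16 ^ (N.primeFactors.filter (· < 256)).card := by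
    simp only [hc]
    rw [Finset.prod_ite, Finset.prod_const, Finset.prod_const_one, mul_one]
  rw [h2]
  refine pow_le_pow_right₀ (by norm_num) ?_
  have h3 : (N.primeFactors.filter (· < 256)) ⊆ Finset.range 256 := fun p hp =>
    Finset.mem_range.2 (Finset.mem_filter.1 hp).2
  exact (Finset.card_le_card h3).trans (by rw [Finset.card_range])

end Pool.Agent.MDX
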