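import Mathlib
import Pool.Agent.MDX.Stmts

/-!
Module END of the proof of `mulDirichletSpectrum = [0, FS]` (MP_85fa44_nt): end data with
constants arbitrarily close to `FS`, by a unimodular change of variables (see `PAPER.md`).
-/

namespace Pool.Agent.MDX

open Pool.Agent.Lib_helper94.MDS

namespace Endm

noncomputable section

/-! ### Linearity -/

lemma AV_add (u v : V3) : AV (u + v) = AV u + AV v := by
  unfold AV
  ext <;> simp only [Prod.fst_add, Prod.snd_add] <;> ring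

lemma AV_smul (c : ℤ) (v : V3) : AV (c • v) = c • AV v := by
  unfold AV
  ext <;> simp only [Prod.smul_fst, Prod.smul_snd, smul_eq_mul] <;> ring

lemma AVn_add (n : ℕ) (u v : V3) : AV^[n] (u + v) = AV^[n] u + AV^[n] v := by
  induction n with
  | zero => rfl
  | succ n ih => simp only [Function.iterate_succ_apply', ih, AV_add]

lemma AVn_smul (n : ℕ) (c : ℤ) (v : V3) : AV^[n] (c • v) = c • AV^[n] v := by
  induction n with
  | zero => rfl
  | succ n ih => simp only [Function.iterate_succ_apply', ih, AV_smul]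

lemma AIn_AVn (n : ℕ) (v : V3) : AI^[n] (AV^[n] v) = v :=
  Function.LeftInverse.iterate AI_AV n v

lemma AVn_AIn (n : ℕ) (v : V3) : AV^[n] (AI^[n] v) = v :=
  Function.LeftInverse.iterate AV_AI n v

lemma x0_AVn (n : ℕ) (v : V3) : x0 (AV^[n] v) = x0 v := by
  induction n with
  | zero => rfl
  | succ n ih => rw [Function.iterate_succ_apply', x0_AV, ih]

lemma Hs_AVn (n : ℕ) (v : V3) : Hs (AV^[n] v) = lam ^ n * Hs v := by
  induction n with
  | zero => simp
  | succ n ih => rw [Function.iterate_succ_apply', Hs_AV, ih, pow_succ]; ring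

lemma Vs_AVn (n : ℕ) (v : V3) : Vs (AV^[n] v) = laI ^ n * Vs v := by
  induction n with
  | zero => simp
  | succ n ih => rw [Function.iterate_succ_apply', Vs_AV, ih, pow_succ]; ring

/-- the basis vectors of level `n` -/
def W (n : ℕ) : V3 := AV^[n] (34, 31, 13)
/-- see `W` -/
def G0 (n : ℕ) : V3 := AV^[n] (34, 32, 13)
/-- see `W` -/
def G1 (n : ℕ) : V3 := AV^[n] (55, 52, 21)

lemma decomp (v : V3) : v = (4 * v.1 - v.2.1 - 8 * v.2.2) • ((34, 31, 13) : V3) +
    (v.2.1 - 25 * v.1 + 63 * v.2.2) • ((34, 32, 13) : V3) +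
    (13 * v.1 - 34 * v.2.2) • ((55, 52, 21) : V3) := by
  ext <;> simp only [Prod.fst_add, Prod.snd_add, Prod.smul_fst, Prod.smul_snd, smul_eq_mul] <;>
    ring

lemma comb (n : ℕ) (p q r : ℤ) :
    AV^[n] (p • ((34, 31, 13) : V3) + q • ((34, 32, 13) : V3) + r • ((55, 52, 21) : V3)) =
      p • W n + q • G0 n + r • G1 n := by
  rw [AVn_add, AVn_add, AVn_smul, AVn_smul, AVn_smul]
  rfl

/-- the level `n` basis spans -/
lemma span (n : ℕ) (v : V3) : ∃ p q r : ℤ, v = p • W n + q • G0 n + r • G1 n := by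
  refine ⟨4 * (AI^[n] v).1 - (AI^[n] v).2.1 - 8 * (AI^[n] v).2.2,
    (AI^[n] v).2.1 - 25 * (AI^[n] v).1 + 63 * (AI^[n] v).2.2,
    13 * (AI^[n] v).1 - 34 * (AI^[n] v).2.2, ?_⟩
  rw [← comb, ← decomp (AI^[n] v), AVn_AIn]

lemma x0_W (n : ℕ) : x0 (W n) = -1 := by
  unfold W
  rw [x0_AVn]
  unfold x0
  norm_num

lemma x0_G0 (n : ℕ) : x0 (G0 n) = 0 := by
  unfold G0
  rw [x0_AVn]
  unfold x0
  norm_num

lemma x0_G1 (n : ℕ) : x0 (G1 n) = 4 / 17 := by
  unfold G1
  rw [x0_AVn]
  unfold x0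
  norm_num

lemma W_rel (n : ℕ) : 17 * (W n).2.1 - 16 * (W n).1 = -17 := by
  have h := x0_W n
  unfold x0 at h
  have : (17 * ((W n).2.1 : ℝ) - 16 * ((W n).1 : ℝ)) = -17 := by linarith
  exact_mod_cast this

lemma G0_rel (n : ℕ) : 17 * (G0 n).2.1 - 16 * (G0 n).1 = 0 := by
  have h := x0_G0 n
  unfold x0 at h
  have : (17 * ((G0 n).2.1 : ℝ) - 16 * ((G0 n).1 : ℝ)) = 0 := by linarith
  exact_mod_cast this

lemma G1_rel (n : ℕ) : 17 * (G1 n).2.1 - 16 * (G1 n).1 = 4 := by
  have h := x0_G1 n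
  unfold x0 at h
  have : (17 * ((G1 n).2.1 : ℝ) - 16 * ((G1 n).1 : ℝ)) = 4 := by linarith
  exact_mod_cast this

/-- `b(w) / 17` -/
def tt (n : ℕ) : ℤ := (W n).1 - (W n).2.1 - 1

lemma W_tt (n : ℕ) : (W n).1 = 17 * tt n := by
  unfold tt
  have := W_rel n
  linarith

/-- the first denominator -/
def b0 (n : ℕ) : ℤ := (G0 n).1
/-- the second denominator -/
def b1 (n : ℕ) : ℤ := (G1 n).1 + 4 * tt n
/-- `b0 / 17` -/
def s0 (n : ℕ) : ℤ := (G0 n).1 - (G0 n).2.1

lemma b0_s0 (n : ℕ) : b0 n = 17 * s0 n := by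
  unfold b0 s0
  have := G0_rel n
  linarith

/-! ### Positivity -/

lemma powers (n : ℕ) : 1 ≤ lam ^ n ∧ 0 < laI ^ n ∧ laI ^ n ≤ 1 := by
  have h1 : 1 ≤ lam := by
    have := lam_bounds.1
    norm_num at this
    linarith
  have h2 : laI ≤ 1 := by
    have := laI_bounds.2
    norm_num at this
    linarith
  exact ⟨one_le_pow₀ h1, pow_pos laI_pos n, pow_le_one₀ laI_pos.le h2⟩

lemma pos_aux (n : ℕ) (h v : ℝ) (hh : 30 ≤ h) (hv : |v| ≤ 1 / 50) :
    0 < lam ^ n * h + cT * (laI ^ n * v) := by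
  obtain ⟨h1, h2, h3⟩ := powers n
  have hc := cT_bounds
  have hc1 : cT < 301 := by
    have := hc.2
    norm_num at this
    linarith
  have hc0 : 0 < cT := by
    have := hc.1
    norm_num at this
    linarith
  have e1 : 30 ≤ lam ^ n * h := by nlinarith
  have e2 : |cT * (laI ^ n * v)| ≤ 301 / 50 := by
    rw [abs_mul, abs_mul, abs_of_pos hc0, abs_of_pos h2]
    have h5 : laI ^ n * |v| ≤ 1 * (1 / 50) :=
      mul_le_mul h3 hv (abs_nonneg _) (by norm_num)
    calc cT * (laI ^ n * |v|) ≤ 301 * (1 * (1 / 50)) :=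
          mul_le_mul hc1.le h5 (by positivity) (by norm_num)
      _ = 301 / 50 := by norm_num
  have := (abs_le.mp e2).1
  linarith

lemma b0_pos (n : ℕ) : 0 < b0 n := by
  have h := b_eq (G0 n)
  rw [x0_G0] at h
  unfold G0 at h
  rw [Hs_AVn, Vs_AVn] at h
  have h2 : (0 : ℝ) < ((G0 n).1 : ℝ) := by
    unfold G0
    rw [h]
    have := pos_aux n (Hs (34, 32, 13)) (Vs (34, 32, 13)) ?_ ?_
    · linarith
    · unfold Hs
      have h1 := sD_lo
      have h2 := sD_hi
      norm_num at h1 h2 ⊢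
      linarith
    · unfold Vs
      have h1 := bS_bounds
      have h2 := gS_bounds
      norm_num at h1 h2 ⊢
      rw [abs_le]
      constructor <;> linarith [h1.1, h1.2, h2.1, h2.2]
  unfold b0
  exact_mod_cast h2

lemma b1_pos (n : ℕ) : 0 < b1 n := by
  have h := b_eq (G1 n)
  have h' := b_eq (W n)
  rw [x0_G1] at h
  rw [x0_W] at h'
  unfold G1 at h
  unfold W at h'
  rw [Hs_AVn, Vs_AVn] at h h'
  have hW : ((W n).1 : ℝ) = 17 * (tt n : ℝ) := by exact_mod_cast W_tt n
  have h2 : (0 : ℝ) < ((b1 n : ℤ) : ℝ) := by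
    have e : ((b1 n : ℤ) : ℝ) = ((G1 n).1 : ℝ) + 4 / 17 * ((W n).1 : ℝ) := by
      unfold b1
      push_cast
      rw [hW]
      ring
    rw [e]
    unfold G1 W
    rw [h, h']
    have := pos_aux n (Hs (55, 52, 21) + 4 / 17 * Hs (34, 31, 13))
      (Vs (55, 52, 21) + 4 / 17 * Vs (34, 31, 13)) ?_ ?_
    · linarith
    · unfold Hs
      have h1 := sD_lo
      have h2 := sD_hi
      norm_num at h1 h2 ⊢
      linarith
    · unfold Vs
      have h1 := bS_bounds
      have h2 := gS_bounds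
      norm_num at h1 h2 ⊢
      rw [abs_le]
      constructor <;> linarith [h1.1, h1.2, h2.1, h2.2]
  exact_mod_cast h2

/-! ### Coprimality -/

/-- the reduction of `AV` modulo `289` -/
def AZ (v : ZMod 289 × ZMod 289 × ZMod 289) : ZMod 289 × ZMod 289 × ZMod 289 :=
  (-5753140815 * v.1 + 1423030594 * v.2.1 + 11656084544 * v.2.2,
   -5414720768 * v.1 + 1339322913 * v.2.1 + 10970432512 * v.2.2,
   -2197716222 * v.1 + 543601751 * v.2.1 + 4452657585 * v.2.2)

/-- reduction modulo `289` -/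
def rd (v : V3) : ZMod 289 × ZMod 289 × ZMod 289 := ((v.1 : ZMod 289), (v.2.1 : ZMod 289), (v.2.2 : ZMod 289))

lemma rd_AV (v : V3) : rd (AV v) = AZ (rd v) := by
  unfold rd AV AZ
  ext <;> push_cast <;> ring

lemma rd_AVn (n : ℕ) (v : V3) : rd (AV^[n] v) = AZ^[n] (rd v) := by
  induction n with
  | zero => rfl
  | succ n ih => rw [Function.iterate_succ_apply', rd_AV, ih, Function.iterate_succ_apply']

lemma AZ_306 : AZ^[306] (rd (34, 31, 13)) = rd (34, 31, 13) := by
  decide +kernel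

lemma rd_W (j : ℕ) : rd (W (306 * j)) = rd (34, 31, 13) := by
  unfold W
  rw [rd_AVn, Function.iterate_mul]
  exact Function.iterate_fixed AZ_306 j

lemma W_mod (j : ℕ) : ∃ s : ℤ, (W (306 * j)).1 = 34 + 289 * s := by
  have h := rd_W j
  have h1 : (((W (306 * j)).1 : ℤ) : ZMod 289) = ((34 : ℤ) : ZMod 289) := by
    have := congrArg Prod.fst h
    simpa [rd] using this
  rw [ZMod.intCast_eq_intCast_iff_dvd_sub] at h1
  obtain ⟨s, hs⟩ := h1
  refine ⟨-s, ?_⟩
  push_cast at hs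
  linarith

/-- the integral form `b_v + x₀(v) b(w)` lies in the ideal `(b0, b1)` -/
lemma ideal (n : ℕ) (v : V3) : ∃ p q : ℤ,
    v.1 + (17 * v.2.1 - 16 * v.1) * tt n = p * b0 n + q * b1 n := by
  obtain ⟨x, p, q, h⟩ := span n v
  refine ⟨p, q, ?_⟩
  have e1 : v.1 = x * (W n).1 + p * (G0 n).1 + q * (G1 n).1 := by
    rw [h]
    simp
  have e2 : v.2.1 = x * (W n).2.1 + p * (G0 n).2.1 + q * (G1 n).2.1 := by
    rw [h]
    simp
  have w1 := W_rel n
  have w2 := G0_rel n
  have w3 := G1_rel n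
  have w4 := W_tt n
  unfold b0 b1
  rw [e1, e2]
  linear_combination (x * tt n) * w1 + (p * tt n) * w2 + (q * tt n) * w3 + x * w4

lemma coprime (j : ℕ) : ∃ i k : ℤ, i * b0 (306 * j) + k * b1 (306 * j) = 1 := by
  obtain ⟨s, hs⟩ := W_mod j
  have ht : tt (306 * j) = 2 + 17 * s := by
    have := W_tt (306 * j)
    omega
  obtain ⟨p, q, h1⟩ := ideal (306 * j) (0, 1, 0)
  obtain ⟨p', q', h2⟩ := ideal (306 * j) (1, 0, 0)
  simp only at h1 h2
  rw [ht] at h1 h2
  refine ⟨6 * (p' + (16 * s + 2) * (17 * p' + 16 * p)) - (17 * p' + 16 * p),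
    6 * (q' + (16 * s + 2) * (17 * q' + 16 * q)) - (17 * q' + 16 * q), ?_⟩
  linear_combination (-(6 * (16 * s + 2) * 16 - 16)) * h1 +
    (-(6 * (1 + (16 * s + 2) * 17) - 17)) * h2

end

end Endm

open Endm in
theorem stmtEND (hL : S_LAM) : S_END := by
  intro c hc
  obtain ⟨n0, hn0⟩ := hL c hc
  obtain ⟨i, k, hik⟩ := coprime n0
  have hn : n0 ≤ 306 * n0 := by omega
  have hLn := hn0 (306 * n0) hn
  generalize 306 * n0 = n at *
  have hB0 := b0_pos n
  have hB1 := b1_pos n
  have hB0' : (0 : ℝ) < (b0 n : ℝ) := by exact_mod_cast hB0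
  have hB1' : (0 : ℝ) < (b1 n : ℝ) := by exact_mod_cast hB1
  have hph : 0 < ph := Real.goldenRatio_pos
  have hmu : 0 < (b0 n : ℝ) + b1 n * ph := by positivity
  have hmuN : muN n = (b0 n : ℝ) + b1 n * ph := by
    unfold muN b0 b1
    have hW : ((W n).1 : ℝ) = 17 * (tt n : ℝ) := by exact_mod_cast W_tt n
    have e1 : ((AV^[n] (34, 31, 13)).1 : ℝ) = 17 * (tt n : ℝ) := hW
    rw [e1]
    unfold G0 G1
    push_cast
    ring
  refine ⟨4 * k / 17, (k - i * ph) / (b0 n + b1 n * ph), tS - (W n).1,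
    ⟨b0 n, b1 n, i, k, hB0, hB1, hik, rfl⟩, ?_⟩
  intro B m n' hB hx
  -- the integer vector
  set X0 : ℤ := i * B + b1 n * n' with hX0
  set X1 : ℤ := k * B - b0 n * n' with hX1
  set Xw : ℤ := m - 4 * s0 n * n' with hXw
  set u : V3 := Xw • ((34, 31, 13) : V3) + X0 • ((34, 32, 13) : V3) + X1 • ((55, 52, 21) : V3)
    with hu
  set v : V3 := AV^[n] u with hv
  have hvc : v = Xw • W n + X0 • G0 n + X1 • G1 n := by
    rw [hv, hu, comb]
  have hv1 : v.1 = Xw * (W n).1 + X0 * (G0 n).1 + X1 * (G1 n).1 := by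
    rw [hvc]
    simp
  have hxv : x0 v = -(Xw : ℝ) + 4 / 17 * X1 := by
    rw [hv, x0_AVn, hu]
    unfold x0
    simp only [Prod.fst_add, Prod.snd_add, Prod.smul_fst, Prod.smul_snd, smul_eq_mul]
    push_cast
    ring
  have hs0 : (b0 n : ℝ) = 17 * (s0 n : ℝ) := by exact_mod_cast b0_s0 n
  have hikR : (i : ℝ) * b0 n + k * b1 n = 1 := by exact_mod_cast hik
  have hWR : ((W n).1 : ℝ) = 17 * (tt n : ℝ) := by exact_mod_cast W_tt n
  have hx' : 4 * (k : ℝ) / 17 * B - m = x0 v := by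
    rw [hxv, hXw, hX1]
    push_cast
    rw [hs0]
    ring
  have hbv : (v.1 : ℝ) + x0 v * (W n).1 = B := by
    have e : (v.1 : ℝ) = Xw * (W n).1 + X0 * (G0 n).1 + X1 * (G1 n).1 := by exact_mod_cast hv1
    have e0 : ((G0 n).1 : ℝ) = b0 n := rfl
    have e1 : ((G1 n).1 : ℝ) = b1 n - 4 * tt n := by
      unfold b1
      push_cast
      ring
    rw [e, hxv, e0, e1, hWR, hX0, hX1]
    push_cast
    linear_combination (B : ℝ) * hikR
  have hfst : (B : ℝ) + (4 * (k : ℝ) / 17 * B - m) * (tS - (W n).1) = v.1 + x0 v * tS := by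
    rw [hx', ← hbv]
    ring
  have hth : thN n v = (k - i * ph) / (b0 n + b1 n * ph) * B - n' := by
    unfold thN
    rw [hv, AIn_AVn, hmuN]
    have hden : (0 : ℝ) < 34 + 63 * ph := by positivity
    have e : th1 u = (X1 - ph * X0) / (34 + 63 * ph) := by
      unfold th1
      rw [hu]
      simp only [Prod.fst_add, Prod.snd_add, Prod.smul_fst, Prod.smul_snd, smul_eq_mul]
      congr 1
      push_cast
      ring
    rw [e, hX0, hX1]
    push_cast
    field_simp
    ring
  rw [hfst, ← hth]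
  rw [hx'] at hx
  rcases lt_trichotomy v.1 0 with h | h | h
  · -- negative: pass to `-v`
    have ex : x0 (-v) = -x0 v := by
      unfold x0
      simp only [Prod.fst_neg, Prod.snd_neg]
      push_cast
      ring
    have hneg := hLn (-v) (by simp only [Prod.fst_neg]; omega) (by
      rw [ex, abs_neg]
      exact hx)
    have et : |thN n (-v)| = |thN n v| := by
      have : thN n (-v) = -thN n v := by
        have hA : AI^[n] (-v) = -(AI^[n] v) := by
          have h2 : AV^[n] (-(AI^[n] v)) = -v := by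
            have := AVn_smul n (-1) (AI^[n] v)
            rw [AVn_AIn] at this
            simpa using this
          rw [← h2, AIn_AVn]
        unfold thN
        rw [hA]
        unfold th1
        simp only [Prod.fst_neg, Prod.snd_neg]
        push_cast
        ring
      rw [this, abs_neg]
    rw [ex, et] at hneg
    refine hneg.trans (mul_le_mul_of_nonneg_right ?_ (abs_nonneg _))
    have : ((-v).1 : ℝ) + -x0 v * tS = -(v.1 + x0 v * tS) := by
      simp only [Prod.fst_neg]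
      push_cast
      ring
    rw [this]
    exact neg_le_abs _
  · exfalso
    have hz : x0 v = v.2.1 := by
      unfold x0
      rw [h]
      simp
    have ha : v.2.1 = 0 := by
      rw [hz] at hx
      have : |v.2.1| < 1 := by exact_mod_cast hx
      exact Int.abs_lt_one_iff.mp this
    have : (B : ℝ) = 0 := by
      rw [← hbv, hz, ha, h]
      simp
    exact hB (by exact_mod_cast this)
  · refine (hLn v (by omega) hx).trans
      (mul_le_mul_of_nonneg_right (le_abs_self _) (abs_nonneg _))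

end Pool.Agent.MDX
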