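import Pool.Agent.MDX.Stmts

/-!
Module GF of MP_85fa44_nt: congruences for generalised Fibonacci numbers and the limit `j / N → α`.
-/

namespace Pool.Agent.MDX

namespace GFm

lemma gf_succ (B0 B1 : ℤ) (n : ℕ) : GF B0 B1 (n + 2) = GF B0 B1 n + GF B0 B1 (n + 1) := rfl

lemma gf_ge {B0 B1 : ℤ} (h0 : 0 < B0) (h1 : 0 < B1) (n : ℕ) :
    1 ≤ GF B0 B1 n ∧ (n : ℤ) + 1 ≤ GF B0 B1 (n + 1) := by
  induction n with
  | zero =>
    have e0 : GF B0 B1 0 = B0 := rfl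
    have e1 : GF B0 B1 (0 + 1) = B1 := rfl
    rw [e0, e1]
    push_cast
    omega
  | succ n ih =>
    obtain ⟨a, b⟩ := ih
    have e1 : GF B0 B1 (n + 1 + 1) = GF B0 B1 n + GF B0 B1 (n + 1) := rfl
    rw [e1]
    push_cast
    omega

lemma gn_ge {B0 B1 : ℤ} (h0 : 0 < B0) (h1 : 0 < B1) (l : ℕ) : (l : ℤ) + 1 ≤ GN B0 B1 l := by
  obtain ⟨a, b⟩ := gf_ge h0 h1 l
  unfold GN
  nlinarith

lemma cong (B0 B1 i k : ℤ) (h : i * B0 + k * B1 = 1) (l : ℕ) (m : ℕ) : m + 1 ≤ l + 1 →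
    (GN B0 B1 l ∣ GJ B0 B1 i k l * GF B0 B1 m - (-1) ^ (m + 1) * GF B0 B1 (l + 1 - m)) ∧
    (GN B0 B1 l ∣ GJ B0 B1 i k l * GF B0 B1 (m + 1) - (-1) ^ (m + 2) * GF B0 B1 (l - m)) := by
  induction m with
  | zero =>
    intro _
    constructor
    · refine ⟨k, ?_⟩
      have e0 : GF B0 B1 0 = B0 := rfl
      simp only [e0, zero_add, pow_one, Nat.sub_zero]
      unfold GJ GN
      linear_combination (-GF B0 B1 (l + 1)) * h
    · refine ⟨-i, ?_⟩
      have e1 : GF B0 B1 (0 + 1) = B1 := rfl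
      simp only [e1, zero_add, Nat.sub_zero]
      unfold GJ GN
      linear_combination (GF B0 B1 l) * h
  | succ m ih =>
    intro hm
    obtain ⟨h1, h2⟩ := ih (by omega)
    have e : l + 1 - (m + 1) = l - m := by omega
    refine ⟨?_, ?_⟩
    · rw [e]
      exact h2
    · have e3 : GF B0 B1 (m + 1 + 1) = GF B0 B1 m + GF B0 B1 (m + 1) := rfl
      have e4 : GF B0 B1 (l + 1 - m) = GF B0 B1 (l - (m + 1)) + GF B0 B1 (l - m) := by
        have a1 : l + 1 - m = (l - (m + 1)) + 2 := by omega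
        have a2 : l - m = (l - (m + 1)) + 1 := by omega
        rw [a1, a2, gf_succ]
      have h3 := dvd_add h1 h2
      rw [e4] at h3
      rw [e3]
      obtain ⟨u, hu⟩ := h3
      refine ⟨u, ?_⟩
      linear_combination hu

end GFm

open GFm in
theorem stmtGF : S_GF := by
  intro B0 B1 i k h0 h1 h l hl
  have key : ∀ m : ℕ, m ≤ l + 1 →
      GN B0 B1 l ∣ GJ B0 B1 i k l * GF B0 B1 m - (-1) ^ (m + 1) * GF B0 B1 (l + 1 - m) := by
    intro m hm
    rcases Nat.lt_or_ge m (l + 1) with h' | h'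
    · exact (cong B0 B1 i k h l m (by omega)).1
    · have hm' : m = l + 1 := by omega
      subst hm'
      have := (cong B0 B1 i k h l l le_rfl).2
      have e1 : l - l = l + 1 - (l + 1) := by omega
      rw [e1] at this
      exact this
  refine ⟨?_, key⟩
  have a0 := key 0 (by omega)
  have a1 := key 1 (by omega)
  have al := key l (by omega)
  have al1 := key (l + 1) le_rfl
  have e0 : GF B0 B1 0 = B0 := rfl
  have e1 : GF B0 B1 1 = B1 := rfl
  have hs : (-1 : ℤ) ^ (l + 1) = -1 := Odd.neg_one_pow hl.add_one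
  have hs2 : (-1 : ℤ) ^ (l + 1 + 1) = 1 := by rw [pow_succ, hs]; norm_num
  have s1 : l + 1 - l = 1 := by omega
  have s2 : l + 1 - (l + 1) = 0 := by omega
  have s3 : l + 1 - 0 = l + 1 := by omega
  have s4 : l + 1 - 1 = l := by omega
  rw [hs, s1, e1] at al
  rw [hs2, s2, e0] at al1
  rw [e0, s3] at a0
  rw [e1, s4] at a1
  obtain ⟨x0, hx0⟩ := a0
  obtain ⟨x1, hx1⟩ := a1
  obtain ⟨y0, hy0⟩ := al
  obtain ⟨y1, hy1⟩ := al1
  refine ⟨i * (GJ B0 B1 i k l * x0 - y1) + k * (GJ B0 B1 i k l * x1 + y0), ?_⟩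
  linear_combination (i * GJ B0 B1 i k l) * hx0 + (k * GJ B0 B1 i k l) * hx1 - i * hy1 +
    k * hy0 - (GJ B0 B1 i k l ^ 2 + 1) * h

open GFm in
theorem stmtGLIM : S_GLIM := by
  intro B0 B1 i k h0 h1 h
  refine ⟨fun l => by have := gn_ge h0 h1 l; omega, ?_⟩
  intro δ hδ
  have hph : 0 < ph := Real.goldenRatio_pos
  have hph1 : 1 < ph := Real.one_lt_goldenRatio
  have hph2 : ph ^ 2 = ph + 1 := Real.goldenRatio_sq
  have b0 : (1 : ℝ) ≤ B0 := by exact_mod_cast h0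
  have b1 : (1 : ℝ) ≤ B1 := by exact_mod_cast h1
  have hR : (i : ℝ) * B0 + k * B1 = 1 := by exact_mod_cast h
  set e : ℕ → ℝ := fun l => ph * (GF B0 B1 l : ℝ) - (GF B0 B1 (l + 1) : ℝ) with he
  have hrec : ∀ l, e (l + 1) * ph = -e l := by
    intro l
    have e3 : GF B0 B1 (l + 1 + 1) = GF B0 B1 l + GF B0 B1 (l + 1) := rfl
    simp only [he]
    rw [e3]
    push_cast
    linear_combination ((GF B0 B1 (l + 1) : ℝ)) * hph2
  have hbd : ∀ l, |e l| ≤ |e 0| := by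
    intro l
    induction l with
    | zero => exact le_rfl
    | succ l ih =>
      have h3 : |e (l + 1) * ph| = |e l| := by rw [hrec l, abs_neg]
      rw [abs_mul, abs_of_pos hph] at h3
      have h4 := abs_nonneg (e (l + 1))
      nlinarith
  obtain ⟨l0, hl0⟩ := exists_nat_gt (|e 0| / δ)
  refine ⟨l0, fun l hl => ?_⟩
  have hN : (l : ℝ) + 1 ≤ (GN B0 B1 l : ℝ) := by exact_mod_cast gn_ge h0 h1 l
  have hlR : (l0 : ℝ) ≤ l := by exact_mod_cast hl
  have hNp : (0 : ℝ) < GN B0 B1 l := by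
    have : (0 : ℝ) ≤ l := Nat.cast_nonneg l
    linarith
  have hD : 1 ≤ (B0 : ℝ) + B1 * ph := by nlinarith
  have hDp : 0 < (B0 : ℝ) + B1 * ph := by linarith
  have hid : (GJ B0 B1 i k l : ℝ) / GN B0 B1 l - (k - i * ph) / (B0 + B1 * ph) =
      e l / (GN B0 B1 l * (B0 + B1 * ph)) := by
    rw [div_sub_div _ _ hNp.ne' hDp.ne']
    congr 1
    simp only [he]
    unfold GJ GN
    push_cast
    linear_combination (ph * (GF B0 B1 l : ℝ) - (GF B0 B1 (l + 1) : ℝ)) * hR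
  rw [hid, abs_div, abs_of_pos (mul_pos hNp hDp), div_lt_iff₀ (mul_pos hNp hDp)]
  have h5 : |e 0| < δ * l0 := by
    rw [div_lt_iff₀ hδ] at hl0
    linarith
  have h6 : (GN B0 B1 l : ℝ) ≤ GN B0 B1 l * (B0 + B1 * ph) := le_mul_of_one_le_right hNp.le hD
  have h7 := hbd l
  have h8 : δ * l0 ≤ δ * (GN B0 B1 l * (B0 + B1 * ph)) :=
    mul_le_mul_of_nonneg_left (by linarith) hδ.le
  linarith

end Pool.Agent.MDX
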