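import Pool.Agent.MDX.Stmts

/-!
MP_85fa44_nt, module MDX_GOLD (helper88): the middle of the lattice
`{(B, B') : B' ≡ j B mod N}` is golden.
-/

set_option autoImplicit false

namespace Pool.Agent.MDX

namespace Goldm

variable {B0 B1 : ℤ}

lemma GF_add_two (n : ℕ) : GF B0 B1 (n + 2) = GF B0 B1 n + GF B0 B1 (n + 1) := rfl

lemma GF_pos (h0 : 0 < B0) (h1 : 0 < B1) : ∀ n, 0 < GF B0 B1 n := by
  intro n
  induction n using Nat.strong_induction_on with
  | _ n ih =>
    match n, ih with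
    | 0, _ => exact h0
    | 1, _ => exact h1
    | (k + 2), ih =>
      rw [GF_add_two]
      have a := ih k (by omega)
      have b := ih (k + 1) (by omega)
      omega

lemma GF_le_succ (h0 : 0 < B0) (h1 : 0 < B1) {n : ℕ} (hn : 1 ≤ n) :
    GF B0 B1 n ≤ GF B0 B1 (n + 1) := by
  obtain ⟨k, rfl⟩ : ∃ k, n = k + 1 := ⟨n - 1, by omega⟩
  have h := GF_add_two (B0 := B0) (B1 := B1) k
  have a := GF_pos h0 h1 k
  show GF B0 B1 (k + 1) ≤ GF B0 B1 (k + 2)
  omega

lemma GF_succ_le (h0 : 0 < B0) (h1 : 0 < B1) {n : ℕ} (hn : 2 ≤ n) :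
    GF B0 B1 (n + 1) ≤ 2 * GF B0 B1 n := by
  obtain ⟨k, rfl⟩ : ∃ k, n = k + 1 := ⟨n - 1, by omega⟩
  have h := GF_add_two (B0 := B0) (B1 := B1) k
  have a := GF_le_succ h0 h1 (n := k) (by omega)
  show GF B0 B1 (k + 2) ≤ 2 * GF B0 B1 (k + 1)
  omega

lemma GF_ge (h0 : 0 < B0) (h1 : 0 < B1) (n : ℕ) : (n : ℤ) + 1 ≤ GF B0 B1 (n + 1) := by
  induction n with
  | zero =>
    have : GF B0 B1 1 = B1 := rfl
    simp only [zero_add, this]
    push_cast
    omega
  | succ n ih =>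
    have h := GF_add_two (B0 := B0) (B1 := B1) n
    have a := GF_pos h0 h1 n
    show ((n + 1 : ℕ) : ℤ) + 1 ≤ GF B0 B1 (n + 2)
    push_cast
    omega

lemma GN_eq (m q : ℕ) : GF B0 B1 m * GF B0 B1 q + GF B0 B1 (m + 1) * GF B0 B1 (q + 1) =
    GN B0 B1 (m + q) := by
  induction m generalizing q with
  | zero =>
    have a : GF B0 B1 0 = B0 := rfl
    have b : GF B0 B1 1 = B1 := rfl
    rw [zero_add, zero_add, a, b]
    rfl
  | succ m ih =>
    have h := ih (q + 1)
    have e : m + (q + 1) = m + 1 + q := by omega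
    rw [e] at h
    rw [← h]
    show GF B0 B1 (m + 1) * GF B0 B1 q + GF B0 B1 (m + 2) * GF B0 B1 (q + 1) =
      GF B0 B1 m * GF B0 B1 (q + 1) + GF B0 B1 (m + 1) * GF B0 B1 (q + 2)
    rw [GF_add_two, GF_add_two]
    ring

/-- the constant `|B1 - φ B0|` -/
noncomputable def CC (B0 B1 : ℤ) : ℝ := |(B1 : ℝ) - ph * B0|

lemma CC_nonneg : 0 ≤ CC B0 B1 := abs_nonneg _

lemma ph_sq : ph ^ 2 = ph + 1 := Real.goldenRatio_sq

lemma one_lt_ph : 1 < ph := Real.one_lt_goldenRatio

lemma ph_lt_two : ph < 2 := Real.goldenRatio_lt_two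

lemma sqrt_five : Real.sqrt 5 = 2 * ph - 1 := by
  unfold ph
  rw [Real.goldenRatio]
  ring

lemma GF_diff (n : ℕ) : (GF B0 B1 (n + 1) : ℝ) - ph * GF B0 B1 n =
    (1 - ph) ^ n * ((B1 : ℝ) - ph * B0) := by
  induction n with
  | zero =>
    have a : GF B0 B1 0 = B0 := rfl
    have b : GF B0 B1 1 = B1 := rfl
    rw [zero_add, a, b]
    simp
  | succ n ih =>
    have h := GF_add_two (B0 := B0) (B1 := B1) n
    show (GF B0 B1 (n + 2) : ℝ) - ph * GF B0 B1 (n + 1) = _
    rw [h, pow_succ]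
    push_cast
    have hp := ph_sq
    linear_combination (1 - ph) * ih - (GF B0 B1 n : ℝ) * hp

lemma GF_diff_le (n : ℕ) : |(GF B0 B1 (n + 1) : ℝ) - ph * GF B0 B1 n| ≤ CC B0 B1 := by
  rw [GF_diff, abs_mul, abs_pow]
  have h1 := one_lt_ph
  have h2 := ph_lt_two
  have h3 : |1 - ph| ≤ 1 := by
    rw [abs_le]; constructor <;> linarith
  have h4 : |1 - ph| ^ n ≤ 1 := pow_le_one₀ (abs_nonneg _) h3
  calc |1 - ph| ^ n * |(B1 : ℝ) - ph * B0| ≤ 1 * |(B1 : ℝ) - ph * B0| := by
        apply mul_le_mul_of_nonneg_right h4 (abs_nonneg _)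
    _ = CC B0 B1 := one_mul _

/-- the golden product -/
lemma prod_ge (h0 : 0 < B0) (h1 : 0 < B1) {δ R : ℝ} (hδ : 0 < δ) (hδ1 : δ < 1 / Real.sqrt 5)
    (hR : 0 < R) (hRC : CC B0 B1 ≤ δ * R) {u w : ℕ}
    (hu : R ≤ GF B0 B1 u) (hw : R ≤ GF B0 B1 (w + 1)) :
    (1 / Real.sqrt 5 - δ) * GN B0 B1 (u + w) ≤ (GF B0 B1 u : ℝ) * GF B0 B1 (w + 1) := by
  have hN : (GN B0 B1 (u + w) : ℝ) = (GF B0 B1 u : ℝ) * GF B0 B1 w +
      (GF B0 B1 (u + 1) : ℝ) * GF B0 B1 (w + 1) := by
    rw [← GN_eq u w]; push_cast; ring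
  have d1 := (abs_le.mp (GF_diff_le (B0 := B0) (B1 := B1) u)).2
  have d2 := (abs_le.mp (GF_diff_le (B0 := B0) (B1 := B1) w)).1
  set U : ℝ := (GF B0 B1 u : ℝ) with hU
  set W : ℝ := (GF B0 B1 (w + 1) : ℝ) with hW
  set W' : ℝ := (GF B0 B1 w : ℝ) with hW'
  set U' : ℝ := (GF B0 B1 (u + 1) : ℝ) with hU'
  have hp1 := one_lt_ph
  have hp2 := ph_lt_two
  have hps := ph_sq
  have hC0 : 0 ≤ CC B0 B1 := CC_nonneg
  have hU0 : 0 < U := hR.trans_le hu
  have hW0 : 0 < W := hR.trans_le hw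
  -- `W' ≤ (φ - 1) W + C`
  have e1 : W' ≤ (ph - 1) * W + CC B0 B1 := by
    have h3 : ph * W' ≤ W + CC B0 B1 := by linarith
    have h4 : (ph - 1) * (ph * W') ≤ (ph - 1) * (W + CC B0 B1) :=
      mul_le_mul_of_nonneg_left h3 (by linarith)
    have h5 : (ph - 1) * (ph * W') = W' := by
      linear_combination W' * hps
    nlinarith
  have e2 : U' ≤ ph * U + CC B0 B1 := by linarith
  have e3 : (GN B0 B1 (u + w) : ℝ) ≤ Real.sqrt 5 * (U * W) + 2 * δ * (U * W) := by
    rw [hN, sqrt_five]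
    have a1 : U * W' ≤ U * ((ph - 1) * W + CC B0 B1) := mul_le_mul_of_nonneg_left e1 hU0.le
    have a2 : U' * W ≤ (ph * U + CC B0 B1) * W := mul_le_mul_of_nonneg_right e2 hW0.le
    have a3 : U * CC B0 B1 ≤ δ * (U * W) := by
      calc U * CC B0 B1 ≤ U * (δ * R) := mul_le_mul_of_nonneg_left hRC hU0.le
        _ ≤ U * (δ * W) := by
            apply mul_le_mul_of_nonneg_left _ hU0.le
            exact mul_le_mul_of_nonneg_left hw hδ.le
        _ = δ * (U * W) := by ring
    have a4 : CC B0 B1 * W ≤ δ * (U * W) := by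
      calc CC B0 B1 * W ≤ (δ * R) * W := mul_le_mul_of_nonneg_right hRC hW0.le
        _ ≤ (δ * U) * W := by
            apply mul_le_mul_of_nonneg_right _ hW0.le
            exact mul_le_mul_of_nonneg_left hu hδ.le
        _ = δ * (U * W) := by ring
    nlinarith
  have h5 : 0 < Real.sqrt 5 := Real.sqrt_pos.mpr (by norm_num)
  have h5' : Real.sqrt 5 * Real.sqrt 5 = 5 := Real.mul_self_sqrt (by norm_num)
  have h6 : 1 / Real.sqrt 5 * Real.sqrt 5 = 1 := by field_simp
  have h7 : 0 ≤ 1 / Real.sqrt 5 - δ := by linarith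
  have h8 : 0 < U * W := mul_pos hU0 hW0
  have h9 : 2 < Real.sqrt 5 := by
    rw [Real.lt_sqrt (by norm_num)]; norm_num
  have h10 : 1 / Real.sqrt 5 < 1 / 2 := one_div_lt_one_div_of_lt (by norm_num) h9
  calc (1 / Real.sqrt 5 - δ) * GN B0 B1 (u + w)
      ≤ (1 / Real.sqrt 5 - δ) * (Real.sqrt 5 * (U * W) + 2 * δ * (U * W)) :=
        mul_le_mul_of_nonneg_left e3 h7
    _ = (1 - δ * Real.sqrt 5 + (1 / Real.sqrt 5 - δ) * (2 * δ)) * (U * W) := by
        linear_combination (U * W) * h6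
    _ ≤ 1 * (U * W) := by
        apply mul_le_mul_of_nonneg_right _ h8.le
        nlinarith
    _ = U * W := one_mul _

end Goldm

open Goldm

/-- GOLD -/
theorem stmtGOLD (hGF : S_GF) : S_GOLD := by
  intro B0 B1 i k h0 h1 hik δ hδ
  have h5 : 0 < Real.sqrt 5 := Real.sqrt_pos.mpr (by norm_num)
  have h9 : 2 < Real.sqrt 5 := by
    rw [Real.lt_sqrt (by norm_num)]; norm_num
  have h10 : 1 / Real.sqrt 5 < 1 / 2 := one_div_lt_one_div_of_lt (by norm_num) h9
  have hGNpos : ∀ l, 0 < GN B0 B1 l := by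
    intro l
    have a := GF_pos h0 h1 l
    have b := GF_pos h0 h1 (l + 1)
    unfold GN
    positivity
  rcases le_or_gt (1 / Real.sqrt 5) δ with hδ1 | hδ1
  · refine ⟨0, 0, fun l _ _ B B' _ _ _ => ?_⟩
    have a : (0 : ℝ) < GN B0 B1 l := by exact_mod_cast hGNpos l
    have b : 0 ≤ |(B : ℝ)| * |(B' : ℝ)| := by positivity
    nlinarith
  obtain ⟨R, hR⟩ := exists_nat_gt (CC B0 B1 / δ)
  have hRpos : (0 : ℝ) < R := lt_of_le_of_lt (div_nonneg CC_nonneg hδ.le) hR
  have hRpos' : 0 < R := by exact_mod_cast hRpos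
  have hRC : CC B0 B1 ≤ δ * R := by
    rw [div_lt_iff₀ hδ] at hR
    linarith
  -- the constant `K`
  obtain ⟨K, hK1, hK2, hK3⟩ : ∃ K : ℕ, (∀ n : ℕ, n ≤ 6 → GF B0 B1 n ≤ K) ∧
      8 * (B0 + B1) ≤ K ∧ 6 * (R : ℤ) ≤ K := by
    refine ⟨(∑ n ∈ Finset.range 7, (GF B0 B1 n).toNat) + (8 * (B0 + B1)).toNat + 6 * R, ?_, ?_, ?_⟩
    · intro n hn
      have h := Finset.single_le_sum (f := fun n => (GF B0 B1 n).toNat) (s := Finset.range 7)
        (fun _ _ => Nat.zero_le _) (Finset.mem_range.mpr (by omega : n < 7))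
      have h2 := Int.self_le_toNat (GF B0 B1 n)
      push_cast
      have h3 : ((GF B0 B1 n).toNat : ℤ) ≤ ((∑ n ∈ Finset.range 7, (GF B0 B1 n).toNat : ℕ) : ℤ) := by
        exact_mod_cast h
      push_cast at h3
      have h4 : (0 : ℤ) ≤ ((8 * (B0 + B1)).toNat : ℤ) := Int.natCast_nonneg _
      omega
    · have h2 := Int.self_le_toNat (8 * (B0 + B1))
      have h3 : (0 : ℤ) ≤ ((∑ n ∈ Finset.range 7, (GF B0 B1 n).toNat : ℕ) : ℤ) :=
        Int.natCast_nonneg _
      push_cast at h3 ⊢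
      omega
    · have h2 : (0 : ℤ) ≤ ((8 * (B0 + B1)).toNat : ℤ) := Int.natCast_nonneg _
      have h3 : (0 : ℤ) ≤ ((∑ n ∈ Finset.range 7, (GF B0 B1 n).toNat : ℕ) : ℤ) :=
        Int.natCast_nonneg _
      push_cast at h3 ⊢
      omega
  refine ⟨K, 10, fun l hl hle B B' hB hB' hdvd => ?_⟩
  by_contra hcon
  push Not at hcon
  have hNpos := hGNpos l
  have hNposR : (0 : ℝ) < GN B0 B1 l := by exact_mod_cast hNpos
  -- `2 |B| |B'| < N`
  have hBB : 2 * (|B| * |B'|) < GN B0 B1 l := by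
    have h : 2 * (|(B : ℝ)| * |(B' : ℝ)|) < GN B0 B1 l := by
      have a : (1 / Real.sqrt 5 - δ) * (GN B0 B1 l : ℝ) ≤ 1 / 2 * GN B0 B1 l :=
        mul_le_mul_of_nonneg_right (by linarith) hNposR.le
      linarith
    exact_mod_cast h
  have hpos := GF_pos h0 h1
  -- the index `m`
  have hex : ∃ n : ℕ, |B| < GF B0 B1 (n + 1) := by
    refine ⟨B.natAbs, ?_⟩
    have := GF_ge h0 h1 B.natAbs
    rw [Int.abs_eq_natAbs]
    omega
  obtain ⟨m, hm1, hm2⟩ : ∃ m : ℕ, |B| < GF B0 B1 (m + 1) ∧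
      ∀ n, n < m → GF B0 B1 (n + 1) ≤ |B| := by
    classical
    refine ⟨Nat.find hex, Nat.find_spec hex, fun n hn => ?_⟩
    have := Nat.find_min hex hn
    omega
  have hm6 : 6 ≤ m := by
    by_contra hc
    have := hK1 (m + 1) (by omega)
    omega
  have hmB : GF B0 B1 m ≤ |B| := by
    have := hm2 (m - 1) (by omega)
    rwa [show m - 1 + 1 = m by omega] at this
  -- `m ≤ l - 3`
  have hml : m + 3 ≤ l := by
    by_contra hc
    have e1 : GF B0 B1 (l - 2) ≤ |B| := by
      rcases Nat.lt_or_ge (l - 3) m with h | h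
      · have := hm2 (l - 3) h
        rwa [show l - 3 + 1 = l - 2 by omega] at this
      · omega
    have e2 : GF B0 B1 (l + 1) ≤ 8 * GF B0 B1 (l - 2) := by
      have a1 := GF_succ_le h0 h1 (n := l) (by omega)
      have a2 := GF_succ_le h0 h1 (n := l - 1) (by omega)
      have a3 := GF_succ_le h0 h1 (n := l - 2) (by omega)
      rw [show l - 1 + 1 = l by omega] at a2
      rw [show l - 2 + 1 = l - 1 by omega] at a3
      omega
    have e3 : GF B0 B1 l ≤ GF B0 B1 (l + 1) := GF_le_succ h0 h1 (by omega)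
    have e4 : GN B0 B1 l ≤ (B0 + B1) * GF B0 B1 (l + 1) := by
      unfold GN
      nlinarith
    have e5 : (B0 + B1) * GF B0 B1 (l + 1) ≤ (8 * (B0 + B1)) * |B| := by
      calc (B0 + B1) * GF B0 B1 (l + 1) ≤ (B0 + B1) * (8 * |B|) := by
            apply mul_le_mul_of_nonneg_left _ (by omega)
            omega
        _ = (8 * (B0 + B1)) * |B| := by ring
    have e6 : (8 * (B0 + B1)) * |B| ≤ |B'| * |B| :=
      mul_le_mul_of_nonneg_right (by omega) (abs_nonneg B)
    have e7 : 0 ≤ |B| * |B'| := by positivity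
    have e8 : |B'| * |B| = |B| * |B'| := mul_comm _ _
    omega
  obtain ⟨q, rfl⟩ : ∃ q, l = m + q := ⟨l - m, by omega⟩
  have hq3 : 3 ≤ q := by omega
  -- names
  have hN1 := GN_eq (B0 := B0) (B1 := B1) m q
  obtain ⟨-, hcong⟩ := hGF B0 B1 i k h0 h1 hik (m + q) hle
  have c1 := hcong m (by omega)
  have c2 := hcong (m + 1) (by omega)
  rw [show m + q + 1 - m = q + 1 by omega] at c1
  rw [show m + q + 1 - (m + 1) = q by omega] at c2
  set N := GN B0 B1 (m + q) with hNdef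
  set J := GJ B0 B1 i k (m + q) with hJ
  set a := GF B0 B1 m with ha
  set b := GF B0 B1 (m + 1) with hb
  set d := GF B0 B1 q with hd
  set c := GF B0 B1 (q + 1) with hc
  have pa : 0 < a := hpos m
  have pb : 0 < b := hpos (m + 1)
  have pc : 0 < c := hpos (q + 1)
  have pd : 0 < d := hpos q
  have hdc : d ≤ c := GF_le_succ h0 h1 (by omega)
  have hba : b ≤ 2 * a := GF_succ_le h0 h1 (by omega)
  set s : ℤ := (-1) ^ (m + 1) with hs
  have hs1 : (-1 : ℤ) ^ (m + 1 + 1) = -s := by rw [pow_succ, ← hs]; ring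
  rw [hs1] at c2
  have hss : s * s = 1 := by
    rw [hs, ← pow_add, ← two_mul]
    exact Even.neg_one_pow (by simp)
  -- the coordinates
  obtain ⟨t, ht⟩ := hdvd
  obtain ⟨r1, hr1⟩ := c1
  obtain ⟨r2, hr2⟩ := c2
  have hB'eq : B' = J * B - N * t := by linarith
  obtain ⟨x, hx⟩ : ∃ x : ℤ, B * d + s * B' * b = N * x := by
    refine ⟨s * (r2 * B - t * b), ?_⟩
    have e : J * b = N * r2 - s * d := by linarith
    rw [hB'eq]
    linear_combination (s * B) * e + (-(B * d)) * hss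
  obtain ⟨y, hy⟩ : ∃ y : ℤ, B * c - s * B' * a = N * y := by
    refine ⟨-(s * (r1 * B - t * a)), ?_⟩
    have e : J * a = N * r1 + s * c := by linarith
    rw [hB'eq]
    linear_combination (-(s * B)) * e + (-(B * c)) * hss
  -- `B = x a + y b`, `s B' = x c - y d`
  have hNne : N ≠ 0 := hNpos.ne'
  have f1 : B = x * a + y * b := by
    apply mul_left_cancel₀ hNne
    linear_combination (-B) * hN1 + a * hx + b * hy
  have f2 : s * B' = x * c - y * d := by
    apply mul_left_cancel₀ hNne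
    linear_combination (-(s * B')) * hN1 + c * hx - d * hy
  have hsabs : |s| = 1 := by
    rcases neg_one_pow_eq_or ℤ (m + 1) with h | h
    · rw [hs, h]; norm_num
    · rw [hs, h]; norm_num
  have hsB' : |s * B'| = |B'| := by rw [abs_mul, hsabs, one_mul]
  -- bounds for `x`, `y`
  have hbc : b * c < N := by
    rw [← hN1]
    have := mul_pos pa pd
    linarith
  have hB'a : |B'| * a ≤ |B| * |B'| := by
    rw [mul_comm]
    exact mul_le_mul_of_nonneg_right hmB (abs_nonneg _)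
  have hxN : |x| * N < 2 * N := by
    have e1 : |N * x| ≤ |B| * d + |B'| * b := by
      rw [← hx]
      refine (abs_add_le _ _).trans ?_
      rw [abs_mul, abs_mul, hsB', abs_of_pos pd, abs_of_pos pb]
    rw [abs_mul, abs_of_pos hNpos] at e1
    have e2 : |B| * d ≤ b * c := by
      calc |B| * d ≤ b * d := mul_le_mul_of_nonneg_right hm1.le pd.le
        _ ≤ b * c := mul_le_mul_of_nonneg_left hdc pb.le
    have e3 : |B'| * b ≤ 2 * (|B'| * a) := by
      calc |B'| * b ≤ |B'| * (2 * a) := mul_le_mul_of_nonneg_left hba (abs_nonneg _)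
        _ = 2 * (|B'| * a) := by ring
    nlinarith
  have hyN : |y| * N < 2 * N := by
    have e1 : |N * y| ≤ |B| * c + |B'| * a := by
      rw [← hy]
      refine (abs_sub _ _).trans ?_
      rw [abs_mul, abs_mul, hsB', abs_of_pos pc, abs_of_pos pa]
    rw [abs_mul, abs_of_pos hNpos] at e1
    have e2 : |B| * c ≤ b * c := mul_le_mul_of_nonneg_right hm1.le pc.le
    have e3 : 0 ≤ |B| * |B'| := by positivity
    nlinarith
  have hx1 : |x| < 2 := lt_of_mul_lt_mul_right hxN hNpos.le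
  have hy1 : |y| < 2 := lt_of_mul_lt_mul_right hyN hNpos.le
  rw [abs_lt] at hx1 hy1
  have hprod : |B| * |B'| = |(x * a + y * b) * (x * c - y * d)| := by
    rw [abs_mul, ← f1, ← f2, hsB']
  -- the golden bound for all four vectors
  have key : ∀ u w : ℕ, u + w = m + q → m ≤ u + 1 → u ≤ m + 2 → 1 ≤ w →
      |B| * |B'| ≠ GF B0 B1 u * GF B0 B1 (w + 1) := by
    intro u w huw hmu hum hw hEq
    have g1 : |B| < 4 * GF B0 B1 u := by
      -- `G_(m+1) ≤ 4 G_(m-1)` and monotonicity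
      have a1 := GF_succ_le h0 h1 (n := m) (by omega)
      have a2 := GF_succ_le h0 h1 (n := m - 1) (by omega)
      rw [show m - 1 + 1 = m by omega] at a2
      have a3 : GF B0 B1 (m - 1) ≤ GF B0 B1 u := by
        obtain ⟨e, he⟩ : ∃ e, u = m - 1 + e := ⟨u - (m - 1), by omega⟩
        rw [he]
        clear he
        induction e with
        | zero => exact le_refl _
        | succ e ih =>
          refine ih.trans ?_
          exact GF_le_succ h0 h1 (by omega)
      omega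
    have g2 : GF B0 B1 u ≤ 4 * a := by
      have a1 := GF_succ_le h0 h1 (n := m) (by omega)
      have a2 := GF_succ_le h0 h1 (n := m + 1) (by omega)
      have a3 := GF_le_succ h0 h1 (n := m - 1) (by omega)
      rw [show m - 1 + 1 = m by omega] at a3
      rcases (by omega : u = m - 1 ∨ u = m ∨ u = m + 1 ∨ u = m + 2) with h | h | h | h
      · rw [h]; omega
      · rw [h]; omega
      · rw [h]; omega
      · rw [h]
        show GF B0 B1 (m + 1 + 1) ≤ 4 * a
        omega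
    have g3 : N ≤ 3 * (GF B0 B1 u * GF B0 B1 (w + 1)) := by
      have e := GN_eq (B0 := B0) (B1 := B1) u w
      rw [huw, ← hNdef] at e
      have a1 := GF_succ_le h0 h1 (n := u) (by omega)
      have a2 := GF_le_succ h0 h1 (n := w) hw
      have p1 := hpos u
      have p2 := hpos (w + 1)
      have a3 : GF B0 B1 u * GF B0 B1 w ≤ GF B0 B1 u * GF B0 B1 (w + 1) :=
        mul_le_mul_of_nonneg_left a2 p1.le
      have a4 : GF B0 B1 (u + 1) * GF B0 B1 (w + 1) ≤ (2 * GF B0 B1 u) * GF B0 B1 (w + 1) :=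
        mul_le_mul_of_nonneg_right a1 p2.le
      nlinarith
    -- `R ≤ G_u`, `R ≤ G_(w+1)`
    have g4 : (R : ℤ) ≤ GF B0 B1 u := by omega
    have g5 : (R : ℤ) ≤ GF B0 B1 (w + 1) := by
      have p1 := hpos u
      have a1 : (K : ℤ) * GF B0 B1 u ≤ |B'| * (4 * |B|) := by
        calc (K : ℤ) * GF B0 B1 u ≤ |B'| * GF B0 B1 u :=
              mul_le_mul_of_nonneg_right hB'.le p1.le
          _ ≤ |B'| * (4 * |B|) := by
              apply mul_le_mul_of_nonneg_left _ (abs_nonneg _)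
              omega
      have a2 : (K : ℤ) * GF B0 B1 u < (6 * GF B0 B1 (w + 1)) * GF B0 B1 u := by
        nlinarith
      have a3 := lt_of_mul_lt_mul_right a2 p1.le
      omega
    have fin := prod_ge h0 h1 hδ hδ1 hRpos hRC (u := u) (w := w) (by exact_mod_cast g4)
      (by exact_mod_cast g5)
    rw [huw, ← hNdef] at fin
    have hEq' : |(B : ℝ)| * |(B' : ℝ)| = (GF B0 B1 u : ℝ) * GF B0 B1 (w + 1) := by
      exact_mod_cast hEq
    linarith
  have hab : GF B0 B1 (m + 2) = a + b := GF_add_two m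
  have hcd : GF B0 B1 (q + 2) = d + c := GF_add_two q
  obtain ⟨m', hm'⟩ : ∃ m', m = m' + 1 := ⟨m - 1, by omega⟩
  obtain ⟨q', hq'⟩ : ∃ q', q = q' + 1 := ⟨q - 1, by omega⟩
  have hba2 : b = GF B0 B1 m' + a := by
    rw [hb, ha, hm']; exact GF_add_two m'
  have hcd2 : c = GF B0 B1 q' + d := by
    rw [hc, hd, hq']; exact GF_add_two q'
  have pm' := hpos m'
  have pq' := hpos q'
  -- the four products
  have v1 : |B| * |B'| ≠ a * c := key m q rfl (by omega) (by omega) (by omega)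
  have v2 : |B| * |B'| ≠ b * d := by
    have := key (m + 1) q' (by omega) (by omega) (by omega) (by omega)
    rwa [← hq'] at this
  have v3 : |B| * |B'| ≠ (a + b) * (c - d) := by
    have := key (m + 2) (q' - 1) (by omega) (by omega) (by omega) (by omega)
    rw [show q' - 1 + 1 = q' by omega, hab] at this
    rw [show c - d = GF B0 B1 q' by omega]
    exact this
  have v4 : |B| * |B'| ≠ (b - a) * (c + d) := by
    have := key m' (q + 1) (by omega) (by omega) (by omega) (by omega)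
    rw [show q + 1 + 1 = q + 2 by omega, hcd] at this
    rw [show b - a = GF B0 B1 m' by omega, add_comm c d]
    exact this
  have hB0 : B ≠ 0 := by
    rintro rfl
    simp at hB
    omega
  have w1 : 0 < a * c := mul_pos pa pc
  have w2 : 0 < b * d := mul_pos pb pd
  have w3 : 0 < (a + b) * (c - d) := mul_pos (by omega) (by omega)
  have w4 : 0 < (b - a) * (c + d) := mul_pos (by omega) (by omega)
  obtain ⟨x1, x2⟩ := hx1
  obtain ⟨y1, y2⟩ := hy1
  have hxc : x = -1 ∨ x = 0 ∨ x = 1 := by omega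
  have hyc : y = -1 ∨ y = 0 ∨ y = 1 := by omega
  rcases hxc with h | h | h <;> rcases hyc with h' | h' | h' <;> rw [h, h'] at hprod f1
  · apply v3
    rw [hprod]
    rw [show (-1 * a + -1 * b) * (-1 * c - -1 * d) = (a + b) * (c - d) by ring, abs_of_pos w3]
  · apply v1
    rw [hprod]
    rw [show (-1 * a + 0 * b) * (-1 * c - 0 * d) = a * c by ring, abs_of_pos w1]
  · apply v4
    rw [hprod]
    rw [show (-1 * a + 1 * b) * (-1 * c - 1 * d) = -((b - a) * (c + d)) by ring, abs_neg,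
      abs_of_pos w4]
  · apply v2
    rw [hprod]
    rw [show (0 * a + -1 * b) * (0 * c - -1 * d) = -(b * d) by ring, abs_neg, abs_of_pos w2]
  · apply hB0
    rw [f1]; ring
  · apply v2
    rw [hprod]
    rw [show (0 * a + 1 * b) * (0 * c - 1 * d) = -(b * d) by ring, abs_neg, abs_of_pos w2]
  · apply v4
    rw [hprod]
    rw [show (1 * a + -1 * b) * (1 * c - -1 * d) = -((b - a) * (c + d)) by ring, abs_neg,
      abs_of_pos w4]
  · apply v1
    rw [hprod]
    rw [show (1 * a + 0 * b) * (1 * c - 0 * d) = a * c by ring, abs_of_pos w1]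
  · apply v3
    rw [hprod]
    rw [show (1 * a + 1 * b) * (1 * c - 1 * d) = (a + b) * (c - d) by ring, abs_of_pos w3]

end Pool.Agent.MDX
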