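import Pool.Agent.MDX.Stmts

/-!
I1: the golden tail (helper72).
-/

namespace Pool.Agent.MDX

namespace I1m

lemma ph_sq : ph ^ 2 = ph + 1 := Real.goldenRatio_sq

lemma ph_pos : 0 < ph := Real.goldenRatio_pos

lemma ph_lo : (161803 / 100000 : ℝ) < ph := by
  have h1 := ph_sq
  have h2 := ph_pos
  by_contra h
  rw [not_lt] at h
  nlinarith

lemma ph_hi : ph < (161804 / 100000 : ℝ) := by
  have h1 := ph_sq
  have h2 := ph_pos
  by_contra h
  rw [not_lt] at h
  nlinarith

/-- the form vanishes only at `0` -/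
lemma form_ne {x y : ℤ} (h : (x : ℝ) - ph * y = 0 ∨ (x : ℝ) + (ph - 1) * y = 0) :
    x = 0 ∧ y = 0 := by
  have hirr : Irrational ph := Real.goldenRatio_irrational
  have hy : y = 0 := by
    by_contra hy
    have hyr : (y : ℝ) ≠ 0 := by exact_mod_cast hy
    rcases h with h | h
    · apply hirr
      refine ⟨(x : ℚ) / y, ?_⟩
      push_cast
      field_simp
      linarith
    · apply hirr
      refine ⟨1 - (x : ℚ) / y, ?_⟩
      push_cast
      field_simp
      linarith
  subst hy
  rcases h with h | h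
  · simp at h; exact ⟨h, rfl⟩
  · simp at h; exact ⟨h, rfl⟩

end I1m

open I1m in
theorem stmtI1 : S_I1 := by
  rintro ⟨b, a, n⟩ hH hx
  have hp1 := ph_lo
  have hp2 := ph_hi
  have hps := ph_sq
  have s1 := sD_lo
  have s2 := sD_hi
  norm_num at s1 s2
  set Hw : ℝ := Hs (34, 31, 13) with hHw
  set C0 : ℝ := Hs (34, 32, 13) with hC0
  set C1 : ℝ := Hs (55, 52, 21) + 4 * Hw / 17 with hC1
  have bw1 : (9335 / 10000 : ℝ) < Hw := by
    simp only [hHw, Hs]; norm_num; linarith
  have bw2 : Hw < (9336 / 10000 : ℝ) := by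
    simp only [hHw, Hs]; norm_num; linarith
  have c01 : (375721 / 10000 : ℝ) < C0 := by
    simp only [hC0, Hs]; norm_num; linarith
  have c02 : C0 < (375722 / 10000 : ℝ) := by
    simp only [hC0, Hs]; norm_num; linarith
  have c11 : (607922 / 10000 : ℝ) < C1 := by
    simp only [hC1, hHw, Hs]; norm_num; linarith
  have c12 : C1 < (607923 / 10000 : ℝ) := by
    simp only [hC1, hHw, Hs]; norm_num; linarith
  -- integer coordinates
  set x : ℤ := 13 * b - 34 * n with hxd
  set y : ℤ := a - 25 * b + 63 * n with hyd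
  have hdec : Hs (b, a, n) = -(x0 (b, a, n)) * Hw + y * C0 + x * C1 := by
    simp only [hHw, hC0, hC1, hxd, hyd, Hs, x0]
    push_cast
    ring
  set w : ℝ := x - ph * y with hw
  set w' : ℝ := x + (ph - 1) * y with hw'
  have hth : th1 (b, a, n) = w / (34 + 63 * ph) := by
    simp only [th1, hw, hxd, hyd]
    push_cast
    ring
  have hμ : 0 < 34 + 63 * ph := by linarith
  rw [hth, abs_div, abs_of_pos hμ, ← mul_div_assoc, le_div_iff₀ hμ]
  set X := x0 (b, a, n) with hX
  rw [hdec] at hH ⊢
  have hXa := abs_lt.1 hx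
  by_cases hbig : 8 / 5 ≤ |w|
  · have h1 : (33 - 1 / 100000 : ℝ) * (8 / 5) ≤ (-X * Hw + y * C0 + x * C1 - 1 / 100000) * |w| :=
      mul_le_mul (by linarith) hbig (by norm_num) (by linarith)
    norm_num at h1
    linarith
  · rw [not_le] at hbig
    -- the conjugate form
    have hyw : (2 * ph - 1) * y = w' - w := by rw [hw, hw']; ring
    have hxw : (2 * ph - 1) * x = ph * w' + (ph - 1) * w := by
      rw [hw, hw']; ring
    have hN : w * w' = ((x ^ 2 - x * y - y ^ 2 : ℤ) : ℝ) := by
      rw [hw, hw']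
      push_cast
      linear_combination (-(y : ℝ) ^ 2) * hps
    set K1 : ℝ := C0 + ph * C1 with hK1
    set K2 : ℝ := C0 - (ph - 1) * C1 with hK2
    have pc1 : (161803 / 100000 : ℝ) * (607922 / 10000) < ph * C1 :=
      mul_lt_mul'' hp1 c11 (by norm_num) (by norm_num)
    have pc2 : ph * C1 < (161804 / 100000 : ℝ) * (607923 / 10000) :=
      mul_lt_mul'' hp2 c12 (by linarith) (by linarith)
    norm_num at pc1 pc2
    have k1 : 1359 / 10 < K1 := by rw [hK1]; linarith
    have k2 : |K2| ≤ 2 / 1000 := by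
      rw [hK2, abs_le]
      constructor <;> linarith
    set r : ℝ := 2 * ph - 1 with hr
    have hr1 : 223606 / 100000 < r := by rw [hr]; linarith
    have hr2 : r < 223608 / 100000 := by rw [hr]; linarith
    have hrH : r * (-X * Hw + y * C0 + x * C1) = K1 * w' - K2 * w - r * X * Hw := by
      rw [hK1, hK2]
      linear_combination C0 * hyw + C1 * hxw
    -- `N ≠ 0`
    have hrX : |r * X * Hw| ≤ 2088 / 1000 := by
      rw [abs_mul, abs_mul, abs_of_pos (by linarith : (0 : ℝ) < r),
        abs_of_pos (by linarith : (0 : ℝ) < Hw)]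
      have h1 : r * |X| ≤ 223608 / 100000 := by
        calc r * |X| ≤ r * 1 := mul_le_mul_of_nonneg_left hx.le (by linarith)
          _ ≤ _ := by linarith
      calc r * |X| * Hw ≤ 223608 / 100000 * (9336 / 10000) :=
            mul_le_mul h1 bw2.le (by linarith) (by norm_num)
        _ ≤ _ := by norm_num
    have hK2w : |K2 * w| ≤ 32 / 10000 := by
      rw [abs_mul]
      calc |K2| * |w| ≤ 2 / 1000 * (8 / 5) := mul_le_mul k2 hbig.le (abs_nonneg _) (by norm_num)
        _ ≤ _ := by norm_num
    have hrX' := abs_le.1 hrX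
    have hK2w' := abs_le.1 hK2w
    have hpos : 0 < w' := by
      have h1 : r * 33 ≤ r * (-X * Hw + y * C0 + x * C1) :=
        mul_le_mul_of_nonneg_left hH (by linarith)
      rw [hrH] at h1
      have h2 : 0 < K1 * w' := by linarith
      exact (pos_iff_pos_of_mul_pos h2).1 (by linarith)
    have hN1 : 1 ≤ |w| * w' := by
      have h1 : |w| * w' = |w * w'| := by rw [abs_mul, abs_of_pos hpos]
      rw [h1, hN]
      have h2 : x ^ 2 - x * y - y ^ 2 ≠ 0 := by
        intro h0
        have h3 : w * w' = 0 := by rw [hN, h0]; simp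
        have h4 : (x : ℝ) - ph * y = 0 ∨ (x : ℝ) + (ph - 1) * y = 0 := by
          rcases mul_eq_zero.1 h3 with h | h
          · exact Or.inl (by rw [← hw]; exact h)
          · exact Or.inr (by rw [← hw']; exact h)
        obtain ⟨e1, e2⟩ := form_ne h4
        have : w' = 0 := by rw [hw', e1, e2]; simp
        linarith
      have h3 : 1 ≤ |x ^ 2 - x * y - y ^ 2| := Int.one_le_abs h2
      rw [← Int.cast_abs]
      exact_mod_cast h3
    -- the final estimate, multiplied by `r`
    have hfin : r * (3841 / 10000 * (34 + 63 * ph)) ≤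
        r * ((-X * Hw + y * C0 + x * C1 - 1 / 100000) * |w|) := by
      have e1 : r * ((-X * Hw + y * C0 + x * C1 - 1 / 100000) * |w|) =
          K1 * (|w| * w') - (K2 * w + r * X * Hw + r / 100000) * |w| := by
        linear_combination |w| * hrH
      rw [e1]
      have e2 : (K2 * w + r * X * Hw + r / 100000) * |w| ≤ 21 / 10 * (8 / 5) := by
        have h1 : K2 * w + r * X * Hw + r / 100000 ≤ 21 / 10 := by linarith
        calc (K2 * w + r * X * Hw + r / 100000) * |w| ≤ 21 / 10 * |w| :=
              mul_le_mul_of_nonneg_right h1 (abs_nonneg w)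
          _ ≤ _ := by linarith
      have e3 : K1 * 1 ≤ K1 * (|w| * w') := mul_le_mul_of_nonneg_left hN1 (by linarith)
      have e4 : r * (3841 / 10000 * (34 + 63 * ph)) ≤
          223608 / 100000 * (3841 / 10000 * (34 + 63 * (161804 / 100000))) :=
        mul_le_mul hr2.le (by linarith) (by linarith) (by norm_num)
      norm_num at e4
      linarith
    exact le_of_mul_le_mul_left hfin (by linarith)

end Pool.Agent.MDX
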