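import Mathlib
import Pool.Agent.MDS.Low.Kloo
import Pool.Agent.Lib_helper91.Div
import Pool.Agent.MDX.Stmts

/-!
# Joint equidistribution of `(p, j p, p⁻¹, j p⁻¹) / N` for `j² ≡ -1 (mod N)` (helper93)
-/

set_option autoImplicit false

namespace Pool.Agent.MDX.KLm

open Finset Filter Topology
open Pool.Agent.MDS.Low (kloo kloo_bound)

/-- `n ≤ φ(n) d(n)` -/
theorem le_totient_mul_card_divisors (n : ℕ) : n ≤ n.totient * n.divisors.card := by
  induction n using Nat.recOnPosPrimePosCoprime with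
  | zero => simp
  | one => simp
  | prime_pow p a hp ha =>
    rw [Nat.totient_prime_pow hp ha, Nat.divisors_prime_pow hp, Finset.card_map,
      Finset.card_range]
    obtain ⟨b, rfl⟩ : ∃ b, a = b + 1 := ⟨a - 1, by omega⟩
    have h2 := hp.two_le
    obtain ⟨r, rfl⟩ : ∃ r, p = r + 2 := ⟨p - 2, by omega⟩
    have e1 : b + 1 - 1 = b := by omega
    have e2 : r + 2 - 1 = r + 1 := by omega
    rw [e1, e2, pow_succ, mul_assoc]
    apply Nat.mul_le_mul_left
    nlinarith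
  | coprime a b ha hb hab iha ihb =>
    rw [Nat.totient_mul hab, Nat.Coprime.card_divisors_mul hab]
    calc a * b ≤ (a.totient * a.divisors.card) * (b.totient * b.divisors.card) :=
          Nat.mul_le_mul iha ihb
      _ = _ := by ring

/-- a common divisor of `N` and `k0 + k1 j` divides `k0² + k1²` -/
theorem dvd_sq_add {N g : ℕ} {j : ℤ} (hj : (N : ℤ) ∣ j ^ 2 + 1) (hgN : g ∣ N) (k0 k1 : ℤ)
    (hg : (g : ℤ) ∣ k0 + k1 * j) : (g : ℤ) ∣ k0 ^ 2 + k1 ^ 2 := by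
  have h1 : (g : ℤ) ∣ (k0 + k1 * j) * (k0 - k1 * j) := hg.mul_right _
  have h2 : (g : ℤ) ∣ (j ^ 2 + 1) * k1 ^ 2 :=
    ((Int.natCast_dvd_natCast.mpr hgN).trans hj).mul_right _
  have e : k0 ^ 2 + k1 ^ 2 = (k0 + k1 * j) * (k0 - k1 * j) + (j ^ 2 + 1) * k1 ^ 2 := by ring
  rw [e]
  exact dvd_add h1 h2

/-- the Kloosterman sums are small -/
theorem kloo_small (k : Fin 4 → ℤ) (hk : k ≠ 0) :
    ∃ C : ℝ, 0 ≤ C ∧ ∀ (N : ℕ) [NeZero N] (j : ℤ), (N : ℤ) ∣ j ^ 2 + 1 →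
      (‖kloo N ((k 0 + k 1 * j : ℤ) : ZMod N) ((k 2 + k 3 * j : ℤ) : ZMod N)‖ /
        (N.totient : ℝ)) ^ 4 ≤ C * ((N : ℝ) ^ (-(3 / 4) : ℝ)) := by
  obtain ⟨C1, hC1, hdiv⟩ := Pool.Agent.Lib_helper91.exists_divisor_bound 28 (by norm_num)
  set S : ℤ := (k 0 ^ 2 + k 1 ^ 2) + (k 2 ^ 2 + k 3 ^ 2) with hS
  have hS0 : 0 < S := by
    by_contra hcon
    push Not at hcon
    have h0 : k 0 ^ 2 = 0 := by nlinarith [sq_nonneg (k 0), sq_nonneg (k 1), sq_nonneg (k 2), sq_nonneg (k 3)]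
    have h1 : k 1 ^ 2 = 0 := by nlinarith [sq_nonneg (k 0), sq_nonneg (k 1), sq_nonneg (k 2), sq_nonneg (k 3)]
    have h2 : k 2 ^ 2 = 0 := by nlinarith [sq_nonneg (k 0), sq_nonneg (k 1), sq_nonneg (k 2), sq_nonneg (k 3)]
    have h3 : k 3 ^ 2 = 0 := by nlinarith [sq_nonneg (k 0), sq_nonneg (k 1), sq_nonneg (k 2), sq_nonneg (k 3)]
    apply hk
    funext i
    fin_cases i
    · exact pow_eq_zero_iff (two_ne_zero) |>.mp h0
    · exact pow_eq_zero_iff (two_ne_zero) |>.mp h1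
    · exact pow_eq_zero_iff (two_ne_zero) |>.mp h2
    · exact pow_eq_zero_iff (two_ne_zero) |>.mp h3
  have hSR : (0 : ℝ) < S := by exact_mod_cast hS0
  refine ⟨2 * C1 ^ 7 * S, by positivity, ?_⟩
  intro N _ j hj
  have hN : 0 < N := Nat.pos_of_ne_zero (NeZero.ne N)
  have hNR : (0 : ℝ) < N := by exact_mod_cast hN
  set a : ℤ := k 0 + k 1 * j with ha
  set b : ℤ := k 2 + k 3 * j with hb
  set g := Nat.gcd (Int.gcd a b) N with hg
  have hgN : g ∣ N := Nat.gcd_dvd_right _ _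
  have hg0 : 0 < g := Nat.pos_of_dvd_of_pos hgN hN
  have hga : (g : ℤ) ∣ a :=
    (Int.natCast_dvd_natCast.mpr (Nat.gcd_dvd_left _ _)).trans (Int.gcd_dvd_left a b)
  have hgb : (g : ℤ) ∣ b :=
    (Int.natCast_dvd_natCast.mpr (Nat.gcd_dvd_left _ _)).trans (Int.gcd_dvd_right a b)
  have hgS : (g : ℤ) ∣ S :=
    dvd_add (dvd_sq_add hj hgN _ _ hga) (dvd_sq_add hj hgN _ _ hgb)
  have hgle : (g : ℝ) ≤ S := by
    have := Int.le_of_dvd hS0 hgS
    exact_mod_cast this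
  -- totients
  obtain ⟨d, hd⟩ : ∃ d : ℝ, d = (N.divisors.card : ℝ) := ⟨_, rfl⟩
  have hd0 : 0 < d := by
    rw [hd]
    exact_mod_cast Finset.card_pos.mpr ⟨1, Nat.one_mem_divisors.mpr hN.ne'⟩
  have hdle : d ≤ C1 * (N : ℝ) ^ ((1 : ℝ) / 28) := by
    have := hdiv N hN.ne'
    have e : ((28 : ℕ) : ℝ) = 28 := by norm_num
    rw [e, ← hd] at this
    exact this
  have hφ : (N : ℝ) ≤ N.totient * d := by
    have := le_totient_mul_card_divisors N
    rw [hd]
    exact_mod_cast this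
  have hφ0 : (0 : ℝ) < N.totient := by exact_mod_cast Nat.totient_pos.mpr hN
  obtain ⟨N', hN'⟩ := hgN
  have hdivN : N / g = N' := by
    rw [hN']
    exact Nat.mul_div_cancel_left N' hg0
  have hN'0 : N' ≠ 0 := by
    rintro rfl
    omega
  have hφ' : (N' : ℝ) ≤ N'.totient * d := by
    have h1 := le_totient_mul_card_divisors N'
    have h2 : N'.divisors.card ≤ N.divisors.card := by
      apply Finset.card_le_card
      exact Nat.divisors_subset_of_dvd hN.ne' ⟨g, by rw [hN', mul_comm]⟩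
    have h3 : N' ≤ N'.totient * N.divisors.card := h1.trans (Nat.mul_le_mul_left _ h2)
    rw [hd]
    exact_mod_cast h3
  have hbound := kloo_bound N a b
  rw [← hg, hdivN, ← hd] at hbound
  set K := ‖kloo N (a : ZMod N) (b : ZMod N)‖ with hK
  have hK0 : 0 ≤ K := norm_nonneg _
  -- `N' K^4 ≤ 2 N^4 d^3`
  have h1 : (N' : ℝ) * K ^ 4 ≤ 2 * (N : ℝ) ^ 4 * d ^ 3 := by
    calc (N' : ℝ) * K ^ 4 ≤ (N'.totient * d) * K ^ 4 :=
          mul_le_mul_of_nonneg_right hφ' (by positivity)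
      _ = (N'.totient * K ^ 4) * d := by ring
      _ ≤ (2 * (N : ℝ) ^ 4 * d ^ 2) * d := mul_le_mul_of_nonneg_right hbound hd0.le
      _ = _ := by ring
  have hNg : (N : ℝ) = g * N' := by rw [hN']; push_cast; ring
  have h2 : (N : ℝ) * K ^ 4 ≤ g * (2 * (N : ℝ) ^ 4 * d ^ 3) := by
    rw [hNg] at h1 ⊢
    calc (g : ℝ) * N' * K ^ 4 = g * (N' * K ^ 4) := by ring
      _ ≤ _ := mul_le_mul_of_nonneg_left h1 (by positivity)
  have h3 : K ^ 4 ≤ g * (2 * (N : ℝ) ^ 3 * d ^ 3) := by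
    have : (N : ℝ) * K ^ 4 ≤ N * (g * (2 * (N : ℝ) ^ 3 * d ^ 3)) := by
      calc (N : ℝ) * K ^ 4 ≤ g * (2 * (N : ℝ) ^ 4 * d ^ 3) := h2
        _ = _ := by ring
    exact le_of_mul_le_mul_left this hNR
  -- final
  rw [div_pow, div_le_iff₀ (by positivity)]
  have h4 : d ^ 7 ≤ C1 ^ 7 * (N : ℝ) ^ ((1 : ℝ) / 4) := by
    calc d ^ 7 ≤ (C1 * (N : ℝ) ^ ((1 : ℝ) / 28)) ^ 7 := pow_le_pow_left₀ hd0.le hdle 7
      _ = C1 ^ 7 * (N : ℝ) ^ ((1 : ℝ) / 4) := by
        have e : (1 : ℝ) / 28 * ((7 : ℕ) : ℝ) = 1 / 4 := by norm_num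
        rw [mul_pow, ← Real.rpow_natCast ((N : ℝ) ^ ((1 : ℝ) / 28)), ← Real.rpow_mul hNR.le, e]
  have hφ4 : (N : ℝ) ^ 4 ≤ (N.totient : ℝ) ^ 4 * d ^ 4 := by
    rw [← mul_pow]
    exact pow_le_pow_left₀ hNR.le hφ 4
  have h5 : K ^ 4 * (N : ℝ) ≤ 2 * C1 ^ 7 * S * ((N : ℝ) ^ (-(3 / 4) : ℝ)) *
      (N.totient : ℝ) ^ 4 * N := by
    calc K ^ 4 * (N : ℝ) ≤ (g * (2 * (N : ℝ) ^ 3 * d ^ 3)) * N :=
          mul_le_mul_of_nonneg_right h3 hNR.le
      _ = 2 * g * d ^ 3 * (N : ℝ) ^ 4 := by ring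
      _ ≤ 2 * S * d ^ 3 * ((N.totient : ℝ) ^ 4 * d ^ 4) := by
          apply mul_le_mul _ hφ4 (by positivity) (by positivity)
          apply mul_le_mul_of_nonneg_right _ (by positivity)
          linarith
      _ = 2 * S * (N.totient : ℝ) ^ 4 * d ^ 7 := by ring
      _ ≤ 2 * S * (N.totient : ℝ) ^ 4 *
          (C1 ^ 7 * (N : ℝ) ^ ((1 : ℝ) / 4)) :=
          mul_le_mul_of_nonneg_left h4 (by positivity)
      _ = 2 * C1 ^ 7 * S * (N.totient : ℝ) ^ 4 *
          ((N : ℝ) ^ ((1 : ℝ) / 4)) := by ring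
      _ = 2 * C1 ^ 7 * S * (N.totient : ℝ) ^ 4 *
          ((N : ℝ) ^ (-(3 / 4) : ℝ) * N) := by
          congr 1
          have e : (N : ℝ) ^ (-(3 / 4) : ℝ) * N = (N : ℝ) ^ (-(3 / 4) : ℝ) * (N : ℝ) ^ (1 : ℝ) := by
            rw [Real.rpow_one]
          rw [e, ← Real.rpow_add hNR]
          congr 1
          norm_num
      _ = _ := by ring
  exact le_of_mul_le_mul_right h5 hNR

/-! ### averages -/

/-- `exp(2 π i x)` -/
noncomputable def e (x : ℝ) : ℂ := Complex.exp (2 * Real.pi * Complex.I * x)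

theorem e_add (x y : ℝ) : e (x + y) = e x * e y := by
  unfold e
  rw [← Complex.exp_add]
  congr 1
  push_cast
  ring

theorem e_zero : e 0 = 1 := by
  unfold e
  simp

theorem e_nat_mul (n : ℕ) (x : ℝ) : e (n * x) = e x ^ n := by
  unfold e
  rw [← Complex.exp_nat_mul]
  congr 1
  push_cast
  ring

/-- the four coordinates -/
noncomputable def pt (d : ℕ × ℤ) (u : (ZMod (d.1 + 1))ˣ) : Fin 4 → ℝ :=
  ![((u : ZMod (d.1 + 1)).val : ℝ) / (d.1 + 1 : ℕ),
    (d.2 : ℝ) * ((u : ZMod (d.1 + 1)).val : ℝ) / (d.1 + 1 : ℕ),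
    ((((u⁻¹ : (ZMod (d.1 + 1))ˣ) : ZMod (d.1 + 1))).val : ℝ) / (d.1 + 1 : ℕ),
    (d.2 : ℝ) * ((((u⁻¹ : (ZMod (d.1 + 1))ˣ) : ZMod (d.1 + 1))).val : ℝ) / (d.1 + 1 : ℕ)]

/-- averages over the units -/
noncomputable def avg (d : ℕ × ℤ) (F : (Fin 4 → ℝ) → ℂ) : ℂ :=
  ((Nat.totient (d.1 + 1) : ℂ))⁻¹ * ∑ u : (ZMod (d.1 + 1))ˣ, F (pt d u)

/-- the filter `N → ∞` on the data -/
def fil : Filter (ℕ × ℤ) :=
  comap Prod.fst atTop ⊓ 𝓟 {d | ((d.1 + 1 : ℕ) : ℤ) ∣ d.2 ^ 2 + 1}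

/-- exponentials -/
noncomputable def E (k : Fin 4 → ℤ) (x : Fin 4 → ℝ) : ℂ := ∏ t, e (k t * x t)

theorem sum_E (d : ℕ × ℤ) (k : Fin 4 → ℤ) :
    ∑ u : (ZMod (d.1 + 1))ˣ, E k (pt d u) =
      kloo (d.1 + 1) ((k 0 + k 1 * d.2 : ℤ) : ZMod (d.1 + 1))
        ((k 2 + k 3 * d.2 : ℤ) : ZMod (d.1 + 1)) := by
  unfold kloo
  apply Finset.sum_congr rfl
  intro u _
  set p : ℕ := (u : ZMod (d.1 + 1)).val with hp
  set c : ℕ := (((u⁻¹ : (ZMod (d.1 + 1))ˣ) : ZMod (d.1 + 1))).val with hc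
  have e1 : (u : ZMod (d.1 + 1)) = ((p : ℤ) : ZMod (d.1 + 1)) := by
    rw [hp, Int.cast_natCast, ZMod.natCast_zmod_val]
  have e2 : ((u⁻¹ : (ZMod (d.1 + 1))ˣ) : ZMod (d.1 + 1)) = ((c : ℤ) : ZMod (d.1 + 1)) := by
    rw [hc, Int.cast_natCast, ZMod.natCast_zmod_val]
  have e3 : ((k 0 + k 1 * d.2 : ℤ) : ZMod (d.1 + 1)) * (u : ZMod (d.1 + 1)) +
      ((k 2 + k 3 * d.2 : ℤ) : ZMod (d.1 + 1)) * ((u⁻¹ : (ZMod (d.1 + 1))ˣ) : ZMod (d.1 + 1)) =
      (((k 0 + k 1 * d.2) * p + (k 2 + k 3 * d.2) * c : ℤ) : ZMod (d.1 + 1)) := by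
    rw [e1, e2]
    push_cast
    ring
  rw [e3, ZMod.stdAddChar_coe]
  have hN : ((d.1 : ℂ) + 1) ≠ 0 := by exact_mod_cast Nat.succ_ne_zero d.1
  unfold E
  rw [Fin.prod_univ_four]
  rw [← e_add, ← e_add, ← e_add]
  unfold e
  congr 1
  simp only [pt, ← hp, ← hc, Matrix.cons_val_zero, Matrix.cons_val_one, Matrix.cons_val]
  push_cast
  field_simp
  ring

theorem tendsto_E (k : Fin 4 → ℤ) :
    Tendsto (fun d => avg d (E k)) fil (𝓝 (∏ t, if k t = 0 then (1 : ℂ) else 0)) := by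
  by_cases hk : k = 0
  · subst hk
    simp only [Pi.zero_apply, if_true, Finset.prod_const_one]
    have : ∀ d, avg d (E 0) = 1 := by
      intro d
      unfold avg
      have h1 : ∀ x, E 0 x = 1 := by
        intro x
        unfold E
        simp [e_zero]
      simp only [h1, Finset.sum_const, Finset.card_univ, ZMod.card_units_eq_totient]
      rw [nsmul_eq_mul, mul_one]
      apply inv_mul_cancel₀
      exact_mod_cast (Nat.totient_pos.mpr (Nat.succ_pos d.1)).ne'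
    simp only [this]
    exact tendsto_const_nhds
  · have hprod : (∏ t, if k t = 0 then (1 : ℂ) else 0) = 0 := by
      obtain ⟨t, ht⟩ := Function.ne_iff.mp hk
      apply Finset.prod_eq_zero (Finset.mem_univ t)
      rw [if_neg]
      exact ht
    rw [hprod]
    obtain ⟨C, hC, hb⟩ := kloo_small k hk
    have hlim : Tendsto (fun d : ℕ × ℤ => C * (((d.1 + 1 : ℕ) : ℝ) ^ (-(3 / 4) : ℝ))) fil (𝓝 0) := by
      have h1 : Tendsto (fun d : ℕ × ℤ => ((d.1 + 1 : ℕ) : ℝ)) fil atTop := by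
        apply tendsto_natCast_atTop_atTop.comp
        apply (tendsto_add_atTop_nat 1).comp
        exact tendsto_comap.mono_left inf_le_left
      have h2 := (tendsto_rpow_neg_atTop (show (0 : ℝ) < 3 / 4 by norm_num)).comp h1
      have h3 := h2.const_mul C
      simpa using h3
    have hev : ∀ᶠ d in fil, ‖avg d (E k)‖ ^ 4 ≤ C * (((d.1 + 1 : ℕ) : ℝ) ^ (-(3 / 4) : ℝ)) := by
      have : ∀ᶠ d : ℕ × ℤ in fil, ((d.1 + 1 : ℕ) : ℤ) ∣ d.2 ^ 2 + 1 := by
        apply Filter.Eventually.filter_mono inf_le_right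
        exact Filter.mem_principal_self _
      filter_upwards [this] with d hd
      have h4 := hb (d.1 + 1) d.2 hd
      unfold avg
      rw [sum_E, norm_mul, norm_inv, Complex.norm_natCast, mul_comm, ← div_eq_mul_inv]
      exact h4
    rw [tendsto_zero_iff_norm_tendsto_zero, Metric.tendsto_nhds]
    intro ε hε
    have h5 := hlim.eventually (gt_mem_nhds (show (0 : ℝ) < ε ^ 4 by positivity))
    filter_upwards [hev, h5] with d h6 h7
    rw [Real.dist_eq, sub_zero, abs_of_nonneg (norm_nonneg _)]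
    exact lt_of_pow_lt_pow_left₀ 4 hε.le (h6.trans_lt h7)

/-- products of trigonometric polynomials -/
theorem tendsto_prod {ι : Type*} [DecidableEq ι] (s : Fin 4 → Finset ι) (a : Fin 4 → ι → ℂ)
    (k : Fin 4 → ι → ℤ) :
    Tendsto (fun d => avg d (fun x => ∏ t, ∑ i ∈ s t, a t i * e (k t i * x t))) fil
      (𝓝 (∏ t, ∑ i ∈ s t, a t i * (if k t i = 0 then (1 : ℂ) else 0))) := by
  have h1 : ∀ d, avg d (fun x => ∏ t, ∑ i ∈ s t, a t i * e (k t i * x t)) =
      ∑ y ∈ Fintype.piFinset s, (∏ t, a t (y t)) * avg d (E (fun t => k t (y t))) := by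
    intro d
    unfold avg E
    simp only [Finset.prod_univ_sum, Finset.prod_mul_distrib]
    rw [Finset.sum_comm, Finset.mul_sum]
    apply Finset.sum_congr rfl
    intro y _
    rw [← Finset.mul_sum]
    ring
  simp only [h1]
  rw [Finset.prod_univ_sum]
  apply tendsto_finsetSum
  intro y _
  rw [Finset.prod_mul_distrib]
  exact (tendsto_E _).const_mul _

/-- the test function -/
noncomputable def f (m : ℕ) (a y : ℝ) : ℝ := (1 + Real.cos (2 * Real.pi * (y - a))) ^ m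

/-- its coefficients -/
noncomputable def cf (m : ℕ) (a : ℝ) (q : ℕ × ℕ) : ℂ :=
  (1 / 2) ^ m * (m.choose q.1) * (m.choose q.2) * e (-(((q.1 : ℤ) - q.2 : ℤ) * a))

theorem f_expand (m : ℕ) (a y : ℝ) :
    (f m a y : ℂ) = ∑ q ∈ range (m + 1) ×ˢ range (m + 1), cf m a q *
      e ((((q.1 : ℤ) - q.2 : ℤ) : ℝ) * y) := by
  set w := y - a with hw
  have h1 : ((1 + Real.cos (2 * Real.pi * w) : ℝ) : ℂ) = (1 / 2) * ((e w + 1) * (e (-w) + 1)) := by
    have e1 : e w * e (-w) = 1 := by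
      rw [← e_add, add_neg_cancel, e_zero]
    have e2 : e w + e (-w) = 2 * ((Real.cos (2 * Real.pi * w) : ℝ) : ℂ) := by
      unfold e
      push_cast
      rw [Complex.two_cos]
      congr 2 <;> ring
    calc ((1 + Real.cos (2 * Real.pi * w) : ℝ) : ℂ)
        = (1 / 2) * (1 + (2 * ((Real.cos (2 * Real.pi * w) : ℝ) : ℂ)) + 1) := by push_cast; ring
      _ = (1 / 2) * (e w * e (-w) + (e w + e (-w)) + 1) := by rw [e1, e2]
      _ = _ := by ring
  unfold f
  rw [← hw]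
  push_cast at h1 ⊢
  rw [h1, mul_pow, mul_pow, add_pow, add_pow, Finset.sum_mul_sum, Finset.mul_sum,
    Finset.sum_product]
  apply Finset.sum_congr rfl
  intro i _
  rw [Finset.mul_sum]
  apply Finset.sum_congr rfl
  intro l _
  simp only [one_pow, mul_one, cf]
  push_cast
  have e3 : e (-((((i : ℤ) - l : ℤ) : ℝ) * a)) * e ((((i : ℤ) - l : ℤ) : ℝ) * y) =
      e w ^ i * e (-w) ^ l := by
    rw [← e_add, ← e_nat_mul, ← e_nat_mul, ← e_add]
    congr 1
    rw [hw]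
    push_cast
    ring
  calc (1 / 2) ^ m * (e w ^ i * (m.choose i : ℂ) * (e (-w) ^ l * (m.choose l : ℂ)))
      = (1 / 2) ^ m * (m.choose i : ℂ) * (m.choose l : ℂ) * (e w ^ i * e (-w) ^ l) := by ring
    _ = _ := by
      rw [← e3]
      push_cast
      ring

/-- the mean of the test function -/
noncomputable def mu (m : ℕ) : ℝ := (1 / 2) ^ m * ∑ i ∈ range (m + 1), (m.choose i : ℝ) ^ 2

theorem mu_eq (m : ℕ) (a : ℝ) :
    ∑ q ∈ range (m + 1) ×ˢ range (m + 1), cf m a q *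
      (if ((q.1 : ℤ) - q.2 : ℤ) = 0 then (1 : ℂ) else 0) = (mu m : ℂ) := by
  rw [Finset.sum_product]
  unfold mu
  push_cast
  rw [Finset.mul_sum]
  apply Finset.sum_congr rfl
  intro i hi
  rw [Finset.sum_eq_single_of_mem i hi]
  · simp only [sub_self, if_true, mul_one, cf]
    simp only [Int.cast_zero, zero_mul, neg_zero, e_zero, mul_one]
    ring
  · intro l _ hl
    rw [if_neg, mul_zero]
    omega

theorem mu_zero : mu 0 = 1 := by
  unfold mu
  simp

theorem mu_lower (m : ℕ) : 2 ^ m / ((m : ℝ) + 1) ≤ mu m := by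
  unfold mu
  have h1 : (∑ i ∈ range (m + 1), (m.choose i : ℝ)) ^ 2 ≤
      ((range (m + 1)).card : ℝ) * ∑ i ∈ range (m + 1), (m.choose i : ℝ) ^ 2 :=
    sq_sum_le_card_mul_sum_sq
  have h2 : ∑ i ∈ range (m + 1), (m.choose i : ℝ) = 2 ^ m := by
    exact_mod_cast Nat.sum_range_choose m
  rw [h2, card_range] at h1
  push_cast at h1
  rw [div_le_iff₀ (by positivity)]
  have h3 : (1 / 2 : ℝ) ^ m * (2 ^ m) ^ 2 = 2 ^ m := by
    rw [sq, ← mul_assoc, ← mul_pow]
    norm_num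
  calc (2 : ℝ) ^ m = (1 / 2 : ℝ) ^ m * (2 ^ m) ^ 2 := h3.symm
    _ ≤ (1 / 2 : ℝ) ^ m * (((m : ℝ) + 1) * ∑ i ∈ range (m + 1), (m.choose i : ℝ) ^ 2) :=
        mul_le_mul_of_nonneg_left h1 (by positivity)
    _ = _ := by ring

/-- averages of real functions -/
noncomputable def avgR (d : ℕ × ℤ) (F : (Fin 4 → ℝ) → ℝ) : ℝ :=
  ((Nat.totient (d.1 + 1) : ℝ))⁻¹ * ∑ u : (ZMod (d.1 + 1))ˣ, F (pt d u)

theorem avgR_cast (d : ℕ × ℤ) (F : (Fin 4 → ℝ) → ℝ) :
    ((avgR d F : ℝ) : ℂ) = avg d (fun x => (F x : ℂ)) := by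
  unfold avgR avg
  push_cast
  rfl

theorem tendsto_f (m : Fin 4 → ℕ) (a : Fin 4 → ℝ) :
    Tendsto (fun d => avgR d (fun x => ∏ t, f (m t) (a t) (x t))) fil (𝓝 (∏ t, mu (m t))) := by
  have h := tendsto_prod (fun t => range (m t + 1) ×ˢ range (m t + 1))
    (fun t q => cf (m t) (a t) q) (fun _ q => ((q.1 : ℤ) - q.2 : ℤ))
  simp only [mu_eq] at h
  have h2 : Tendsto (fun d => ((avgR d (fun x => ∏ t, f (m t) (a t) (x t)) : ℝ) : ℂ)) fil
      (𝓝 ((∏ t, mu (m t) : ℝ) : ℂ)) := by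
    simp only [avgR_cast]
    push_cast
    simp only [f_expand]
    exact h
  have h3 := (Complex.continuous_re.tendsto _).comp h2
  rw [Complex.ofReal_re] at h3
  exact h3

theorem f_nonneg (m : ℕ) (a y : ℝ) : 0 ≤ f m a y := by
  unfold f
  apply pow_nonneg
  have := Real.neg_one_le_cos (2 * Real.pi * (y - a))
  linarith

theorem f_far {m : ℕ} {a y δ : ℝ} (hδ : 0 < δ) (hδ2 : δ ≤ 1 / 2)
    (h : δ ≤ |(y - a) - round (y - a)|) : f m a y ≤ (1 + Real.cos (2 * Real.pi * δ)) ^ m := by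
  unfold f
  have h1 : Real.cos (2 * Real.pi * (y - a)) =
      Real.cos (2 * Real.pi * |(y - a) - round (y - a)|) := by
    have e1 : 2 * Real.pi * (y - a) = 2 * Real.pi * ((y - a) - round (y - a)) +
        (round (y - a) : ℤ) * (2 * Real.pi) := by ring
    rw [e1, Real.cos_add_int_mul_two_pi]
    rcases abs_choice ((y - a) - round (y - a)) with h2 | h2
    · rw [h2]
    · rw [h2, mul_neg, Real.cos_neg]
  have h3 : |(y - a) - round (y - a)| ≤ 1 / 2 := abs_sub_round (y - a)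
  have hpi := Real.pi_pos
  have h2 : Real.cos (2 * Real.pi * (y - a)) ≤ Real.cos (2 * Real.pi * δ) := by
    rw [h1]
    apply Real.cos_le_cos_of_nonneg_of_le_pi
    · positivity
    · nlinarith
    · exact mul_le_mul_of_nonneg_left h (by positivity)
  apply pow_le_pow_left₀
  · have := Real.neg_one_le_cos (2 * Real.pi * (y - a))
    linarith
  · linarith

/-- choice of the exponent -/
theorem exists_m {δ : ℝ} (hδ : 0 < δ) (hδ2 : δ ≤ 1 / 2) :
    ∃ m : ℕ, 4 * (1 + Real.cos (2 * Real.pi * δ)) ^ m < mu m := by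
  set r := (1 + Real.cos (2 * Real.pi * δ)) / 2 with hr
  have hpi := Real.pi_pos
  have hr0 : 0 ≤ r := by
    have := Real.neg_one_le_cos (2 * Real.pi * δ)
    rw [hr]
    linarith
  have hr1 : r < 1 := by
    have : Real.cos (2 * Real.pi * δ) < Real.cos 0 := by
      apply Real.cos_lt_cos_of_nonneg_of_le_pi (le_refl _)
      · nlinarith
      · positivity
    rw [Real.cos_zero] at this
    rw [hr]
    linarith
  have h1 := tendsto_self_mul_const_pow_of_lt_one hr0 hr1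
  have h2 := tendsto_pow_atTop_nhds_zero_of_lt_one hr0 hr1
  have h3 := (h1.add h2).eventually (gt_mem_nhds (show (0 : ℝ) + 0 < 1 / 4 by norm_num))
  obtain ⟨m, hm⟩ := h3.exists
  refine ⟨m, ?_⟩
  refine lt_of_lt_of_le ?_ (mu_lower m)
  rw [lt_div_iff₀ (by positivity)]
  have e1 : (1 + Real.cos (2 * Real.pi * δ)) = 2 * r := by rw [hr]; ring
  rw [e1, mul_pow]
  have h4 : 4 * (((m : ℝ) * r ^ m) + r ^ m) < 1 := by linarith
  have h5 : (0 : ℝ) < 2 ^ m := by positivity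
  calc 4 * (2 ^ m * r ^ m) * ((m : ℝ) + 1) = 2 ^ m * (4 * (((m : ℝ) * r ^ m) + r ^ m)) := by ring
    _ < 2 ^ m * 1 := mul_lt_mul_of_pos_left h4 h5
    _ = 2 ^ m := mul_one _

/-- the main statement, for `δ ≤ 1/2` -/
theorem main (a : Fin 4 → ℝ) {δ : ℝ} (hδ : 0 < δ) (hδ2 : δ ≤ 1 / 2) :
    ∀ᶠ d in fil, ∃ u : (ZMod (d.1 + 1))ˣ, ∀ t, |(pt d u t - a t) - round (pt d u t - a t)| < δ := by
  obtain ⟨m, hm⟩ := exists_m hδ hδ2
  set c := (1 + Real.cos (2 * Real.pi * δ)) ^ m with hc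
  have hc0 : 0 ≤ c := by
    apply pow_nonneg
    have := Real.neg_one_le_cos (2 * Real.pi * δ)
    linarith
  have hmu : 0 < mu m := lt_of_le_of_lt (by positivity) hm
  have hA := tendsto_f (fun _ => m) a
  have hB : ∀ i : Fin 4, Tendsto (fun d => avgR d (fun x => ∏ t,
      f (Function.update (fun _ => m) i 0 t) (a t) (x t))) fil (𝓝 (mu m ^ 3)) := by
    intro i
    have h1 := tendsto_f (Function.update (fun _ => m) i 0) a
    have h2 : ∏ t, mu (Function.update (fun _ => m) i 0 t) = mu m ^ 3 := by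
      rw [← Finset.mul_prod_erase Finset.univ _ (Finset.mem_univ i)]
      rw [Function.update_self, mu_zero, one_mul]
      rw [Finset.prod_congr rfl (g := fun _ => mu m)]
      · rw [Finset.prod_const, Finset.card_erase_of_mem (Finset.mem_univ i)]
        simp
      · intro t ht
        rw [Function.update_of_ne (Finset.ne_of_mem_erase ht)]
    rw [h2] at h1
    exact h1
  have hC := hA.sub ((tendsto_finsetSum Finset.univ (fun i _ => hB i)).const_mul c)
  have hpos : 0 < (∏ t : Fin 4, mu ((fun _ => m) t)) - c * ∑ _i : Fin 4, mu m ^ 3 := by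
    simp only [Finset.prod_const, Finset.sum_const, Finset.card_univ, Fintype.card_fin]
    rw [nsmul_eq_mul]
    push_cast
    have : 4 * c * mu m ^ 3 < mu m * mu m ^ 3 := mul_lt_mul_of_pos_right hm (by positivity)
    nlinarith
  filter_upwards [hC.eventually (lt_mem_nhds hpos)] with d hd
  by_contra hcon
  push Not at hcon
  apply absurd hd
  push Not
  rw [sub_nonpos]
  unfold avgR
  have h1 : ∀ u : (ZMod (d.1 + 1))ˣ, ∏ t, f ((fun _ => m) t) (a t) (pt d u t) ≤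
      c * ∑ i : Fin 4, ∏ t, f (Function.update (fun _ => m) i 0 t) (a t) (pt d u t) := by
    intro u
    obtain ⟨i, hi⟩ := hcon u
    have h2 : f m (a i) (pt d u i) ≤ c := f_far hδ hδ2 hi
    have h3 : ∏ t, f (Function.update (fun _ => m) i 0 t) (a t) (pt d u t) =
        ∏ t ∈ Finset.univ.erase i, f m (a t) (pt d u t) := by
      rw [← Finset.mul_prod_erase Finset.univ _ (Finset.mem_univ i)]
      rw [Function.update_self]
      have : f 0 (a i) (pt d u i) = 1 := by unfold f; simp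
      rw [this, one_mul]
      apply Finset.prod_congr rfl
      intro t ht
      rw [Function.update_of_ne (Finset.ne_of_mem_erase ht)]
    calc ∏ t, f ((fun _ => m) t) (a t) (pt d u t)
        = f m (a i) (pt d u i) * ∏ t ∈ Finset.univ.erase i, f m (a t) (pt d u t) :=
          (Finset.mul_prod_erase Finset.univ _ (Finset.mem_univ i)).symm
      _ ≤ c * ∏ t ∈ Finset.univ.erase i, f m (a t) (pt d u t) :=
          mul_le_mul_of_nonneg_right h2 (Finset.prod_nonneg (fun t _ => f_nonneg _ _ _))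
      _ = c * ∏ t, f (Function.update (fun _ => m) i 0 t) (a t) (pt d u t) := by rw [h3]
      _ ≤ _ := by
          apply mul_le_mul_of_nonneg_left _ hc0
          exact Finset.single_le_sum (f := fun i => ∏ t,
            f (Function.update (fun _ => m) i 0 t) (a t) (pt d u t))
            (fun i _ => Finset.prod_nonneg (fun t _ => f_nonneg _ _ _)) (Finset.mem_univ i)
  rw [← Finset.mul_sum, Finset.sum_comm' (t' := Finset.univ) (s' := fun _ => Finset.univ)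
    (by simp)] 
  calc _ ≤ ((Nat.totient (d.1 + 1) : ℝ))⁻¹ * ∑ u : (ZMod (d.1 + 1))ˣ, c * ∑ i : Fin 4,
        ∏ t, f (Function.update (fun _ => m) i 0 t) (a t) (pt d u t) := by
        apply mul_le_mul_of_nonneg_left _ (by positivity)
        exact Finset.sum_le_sum (fun u _ => h1 u)
    _ = _ := by
        rw [← Finset.mul_sum]
        ring

end Pool.Agent.MDX.KLm

namespace Pool.Agent.MDX

open Filter Pool.Agent.Lib_helper94.MDS

theorem stmtKL : S_KL := by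
  intro a1 a2 a3 a4 δ hδ
  have h := KLm.main ![a1, a2, a3, a4] (δ := min δ (1 / 2)) (by positivity) (min_le_right _ _)
  rw [KLm.fil, Filter.eventually_inf_principal, Filter.eventually_comap,
    Filter.eventually_atTop] at h
  obtain ⟨n0, hn0⟩ := h
  refine ⟨n0 + 1, ?_⟩
  intro N hN hN1 j hj
  obtain ⟨n, rfl⟩ : ∃ n, N = n + 1 := ⟨N - 1, by omega⟩
  obtain ⟨u, hu⟩ := hn0 n (by omega) (n, j) rfl hj
  refine ⟨((u : ZMod (n + 1)).val : ℤ), ((((u⁻¹ : (ZMod (n + 1))ˣ) : ZMod (n + 1))).val : ℤ),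
    ?_, ?_, ?_, ?_, ?_⟩
  · rw [← ZMod.intCast_zmod_eq_zero_iff_dvd]
    push_cast
    rw [ZMod.natCast_zmod_val, ZMod.natCast_zmod_val, Units.inv_mul, sub_self]
  · have h1 := (hu 0).trans_le (min_le_left _ _)
    simpa [KLm.pt, distInt] using h1
  · have h1 := (hu 1).trans_le (min_le_left _ _)
    simpa [KLm.pt, distInt] using h1
  · have h1 := (hu 2).trans_le (min_le_left _ _)
    simpa [KLm.pt, distInt] using h1
  · have h1 := (hu 3).trans_le (min_le_left _ _)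
    simpa [KLm.pt, distInt] using h1

end Pool.Agent.MDX
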