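import Pool.Agent.MDX.Stmts

/-!
Module LAM of MP_85fa44_nt (helper63): the lattices of level `n` have all products `≥ c`, for every
`c < FS`, if `n` is large.
-/

namespace Pool.Agent.MDX

open Pool.Agent.Lib_helper94.MDS

noncomputable section

namespace Lamm

/-! ### iterates -/

lemma Vs_AI (v : V3) : Vs (AI v) = lam * Vs v := by
  have h := Vs_AV (AI v)
  rw [AV_AI] at h
  rw [h, ← mul_assoc, lam_mul_laI, one_mul]

lemma Hs_AI (v : V3) : Hs (AI v) = laI * Hs v := by
  have h := Hs_AV (AI v)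
  rw [AV_AI] at h
  rw [h, ← mul_assoc, mul_comm laI lam, lam_mul_laI, one_mul]

lemma x0_AI (v : V3) : x0 (AI v) = x0 v := by
  have h := x0_AV (AI v)
  rw [AV_AI] at h
  exact h.symm

lemma Vs_AIn (n : ℕ) (v : V3) : Vs (AI^[n] v) = lam ^ n * Vs v := by
  induction n generalizing v with
  | zero => simp
  | succ n ih =>
    rw [Function.iterate_succ_apply, ih, Vs_AI]
    ring

lemma Hs_AIn (n : ℕ) (v : V3) : Hs (AI^[n] v) = laI ^ n * Hs v := by
  induction n generalizing v with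
  | zero => simp
  | succ n ih =>
    rw [Function.iterate_succ_apply, ih, Hs_AI]
    ring

lemma x0_AIn (n : ℕ) (v : V3) : x0 (AI^[n] v) = x0 v := by
  induction n generalizing v with
  | zero => simp
  | succ n ih => rw [Function.iterate_succ_apply, ih, x0_AI]

lemma Vs_AVn (n : ℕ) (v : V3) : Vs (AV^[n] v) = laI ^ n * Vs v := by
  induction n generalizing v with
  | zero => simp
  | succ n ih =>
    rw [Function.iterate_succ_apply, ih, Vs_AV]
    ring

lemma Hs_AVn (n : ℕ) (v : V3) : Hs (AV^[n] v) = lam ^ n * Hs v := by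
  induction n generalizing v with
  | zero => simp
  | succ n ih =>
    rw [Function.iterate_succ_apply, ih, Hs_AV]
    ring

lemma x0_AVn (n : ℕ) (v : V3) : x0 (AV^[n] v) = x0 v := by
  induction n generalizing v with
  | zero => simp
  | succ n ih => rw [Function.iterate_succ_apply, ih, x0_AV]

lemma b_AVn (n : ℕ) (v : V3) :
    ((AV^[n] v).1 : ℝ) = lam ^ n * Hs v + cX * x0 v + cT * (laI ^ n * Vs v) := by
  rw [b_eq, Hs_AVn, x0_AVn, Vs_AVn]

lemma lamn_mul (n : ℕ) : lam ^ n * laI ^ n = 1 := by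
  rw [← mul_pow, lam_mul_laI, one_pow]

/-! ### constants -/

def h0 : ℝ := Hs (34, 32, 13)
def h1 : ℝ := Hs (55, 52, 21) + 4 / 17 * Hs (34, 31, 13)
def v0 : ℝ := Vs (34, 32, 13)
def v1 : ℝ := Vs (55, 52, 21) + 4 / 17 * Vs (34, 31, 13)
def hw : ℝ := Hs (34, 31, 13)
def vw : ℝ := Vs (34, 31, 13)
def muH : ℝ := h0 + ph * h1
def muV : ℝ := v0 + ph * v1
def KK : ℝ := muH * vw - muV * hw

lemma x0_g0 : x0 (34, 32, 13) = 0 := by unfold x0; norm_num
lemma x0_g1 : x0 (55, 52, 21) = 4 / 17 := by unfold x0; norm_num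
lemma x0_w2 : x0 (34, 31, 13) = -1 := by unfold x0; norm_num

lemma muN_eq (n : ℕ) : muN n = lam ^ n * muH + cT * (laI ^ n * muV) := by
  unfold muN
  rw [b_AVn, b_AVn, b_AVn, x0_g0, x0_g1, x0_w2]
  unfold muH muV h0 h1 v0 v1
  ring

lemma id0 (u : V3) : h0 * (Vs u + x0 u * vw) - v0 * (Hs u + x0 u * hw)
    = 13 * u.1 - 34 * u.2.2 := by
  unfold h0 v0 hw vw Hs Vs x0 bS gS
  have h := sD_sq
  push_cast
  ring_nf
  rw [h]
  ring

lemma id1 (u : V3) : h1 * (Vs u + x0 u * vw) - v1 * (Hs u + x0 u * hw)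
    = -(u.2.1 - 25 * u.1 + 63 * u.2.2) := by
  unfold h1 v1 hw vw Hs Vs x0 bS gS
  have h := sD_sq
  push_cast
  ring_nf
  rw [h]
  ring

/-! ### bounds -/

lemma ph_bounds : (1618033988749894848 / 10 ^ 18 : ℝ) < ph ∧ ph < 1618033988749894849 / 10 ^ 18 := by
  unfold ph Real.goldenRatio
  have h1 : (22360679774997896964 / 10 ^ 19 : ℝ) < Real.sqrt 5 := by
    apply Real.lt_sqrt_of_sq_lt
    norm_num
  have h2 : Real.sqrt 5 < (22360679774997896965 / 10 ^ 19 : ℝ) := by
    rw [Real.sqrt_lt' (by norm_num)]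
    norm_num
  norm_num at h1 h2 ⊢
  constructor <;> linarith

lemma v0_bounds : (-(11902897707739969 / 10 ^ 18) : ℝ) < v0 ∧
    v0 < -(11902897707739968 / 10 ^ 18) := by
  unfold v0 Vs bS gS
  have h1 := sD_lo
  have h2 := sD_hi
  norm_num at h1 h2 ⊢
  constructor <;> linarith

lemma v1_bounds : (7356395423893587 / 10 ^ 18 : ℝ) < v1 ∧ v1 < 7356395423893588 / 10 ^ 18 := by
  unfold v1 Vs bS gS
  have h1 := sD_lo
  have h2 := sD_hi
  norm_num at h1 h2 ⊢
  constructor <;> linarith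

lemma h0_bounds : (37572 / 10 ^ 3 : ℝ) < h0 ∧ h0 < 37573 / 10 ^ 3 := by
  unfold h0 Hs
  have h1 := sD_lo
  have h2 := sD_hi
  norm_num at h1 h2 ⊢
  constructor <;> linarith

lemma h1_bounds : (60792 / 10 ^ 3 : ℝ) < h1 ∧ h1 < 60793 / 10 ^ 3 := by
  unfold h1 Hs
  have h1 := sD_lo
  have h2 := sD_hi
  norm_num at h1 h2 ⊢
  constructor <;> linarith

lemma hw_bounds : (93 / 10 ^ 2 : ℝ) < hw ∧ hw < 94 / 10 ^ 2 := by
  unfold hw Hs
  have h1 := sD_lo
  have h2 := sD_hi
  norm_num at h1 h2 ⊢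
  constructor <;> linarith

lemma vw_bounds : (-(191052 / 10 ^ 11) : ℝ) < vw ∧ vw < -(191051 / 10 ^ 11) := by
  unfold vw Vs bS gS
  have h1 := sD_lo
  have h2 := sD_hi
  norm_num at h1 h2 ⊢
  constructor <;> linarith

lemma muV_bounds : (122 / 10 ^ 12 : ℝ) < muV ∧ muV < 123 / 10 ^ 12 := by
  unfold muV
  obtain ⟨a1, a2⟩ := ph_bounds
  obtain ⟨b1, b2⟩ := v1_bounds
  obtain ⟨c1, c2⟩ := v0_bounds
  have hl : (1618033988749894848 / 10 ^ 18 : ℝ) * (7356395423893587 / 10 ^ 18) < ph * v1 :=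
    mul_lt_mul'' a1 b1 (by norm_num) (by norm_num)
  have hu : ph * v1 < (1618033988749894849 / 10 ^ 18 : ℝ) * (7356395423893588 / 10 ^ 18) :=
    mul_lt_mul'' a2 b2 (le_trans (by norm_num) a1.le) (le_trans (by norm_num) b1.le)
  norm_num at hl hu c1 c2 ⊢
  constructor <;> linarith

lemma muH_bounds : (1359 / 10 : ℝ) < muH ∧ muH < 13595 / 10 ^ 2 := by
  unfold muH
  obtain ⟨a1, a2⟩ := ph_bounds
  obtain ⟨b1, b2⟩ := h1_bounds
  obtain ⟨c1, c2⟩ := h0_bounds
  have hl : (1618033988749894848 / 10 ^ 18 : ℝ) * (60792 / 10 ^ 3) < ph * h1 :=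
    mul_lt_mul'' a1 b1 (by norm_num) (by norm_num)
  have hu : ph * h1 < (1618033988749894849 / 10 ^ 18 : ℝ) * (60793 / 10 ^ 3) :=
    mul_lt_mul'' a2 b2 (le_trans (by norm_num) a1.le) (le_trans (by norm_num) b1.le)
  norm_num at hl hu c1 c2 ⊢
  constructor <;> linarith

lemma KK_bounds : |KK| ≤ 261 / 10 ^ 6 := by
  unfold KK
  obtain ⟨a1, a2⟩ := muH_bounds
  obtain ⟨b1, b2⟩ := vw_bounds
  obtain ⟨c1, c2⟩ := muV_bounds
  obtain ⟨d1, d2⟩ := hw_bounds
  have e1 : muH * vw < 0 := by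
    have : 0 < muH * -vw := mul_pos (by linarith) (by linarith)
    linarith
  have e2 : muH * -vw < (13595 / 10 ^ 2 : ℝ) * (191052 / 10 ^ 11) :=
    mul_lt_mul'' a2 (by linarith) (by linarith) (by linarith)
  have e3 : 0 < muV * hw := mul_pos (by linarith) (by linarith)
  have e4 : muV * hw < (123 / 10 ^ 12 : ℝ) * (94 / 10 ^ 2) :=
    mul_lt_mul'' c2 d2 (by linarith) (by linarith)
  rw [abs_le]
  norm_num at e2 e4 ⊢
  constructor <;> linarith

lemma mu1_eq : (34 : ℝ) + 63 * ph = muH + cT * muV := by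
  have h := muN_eq 0
  unfold muN at h
  norm_num at h
  linarith

/-! ### the form of level `n` -/

lemma laI_lt : laI < 26 / 10 ^ 9 := by
  have := laI_bounds.2
  norm_num at this ⊢
  linarith

lemma q_pos (n : ℕ) : 0 < laI ^ n := pow_pos laI_pos n

lemma q_le {n : ℕ} (hn : 1 ≤ n) : laI ^ n ≤ 26 / 10 ^ 9 := by
  obtain ⟨k, rfl⟩ : ∃ k, n = k + 1 := ⟨n - 1, by omega⟩
  have h1 : laI ^ k ≤ 1 := pow_le_one₀ laI_pos.le (by have := laI_lt; norm_num at this; linarith)
  rw [pow_succ]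
  have h2 := laI_lt
  have h3 := laI_pos
  nlinarith

lemma lamn_pos (n : ℕ) : 0 < lam ^ n := pow_pos lam_pos n

lemma muN_ge (n : ℕ) : 1359 / 10 * lam ^ n ≤ muN n := by
  rw [muN_eq]
  have h1 := muH_bounds.1
  have h2 := muV_bounds.1
  have h3 := cT_bounds.1
  have h4 := q_pos n
  have h5 := lamn_pos n
  have h6 : 0 ≤ cT * (laI ^ n * muV) := by
    norm_num at h2 h3
    have : 0 < cT := by linarith
    have : 0 < muV := by linarith
    positivity
  nlinarith

lemma muN_pos (n : ℕ) : 0 < muN n := lt_of_lt_of_le (by have := lamn_pos n; positivity) (muN_ge n)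

lemma thN_mul (n : ℕ) (v : V3) : muN n * thN n v =
    muN n * Vs v + (KK + cX * (laI ^ n * muV)) * x0 v - laI ^ n * muV * v.1 := by
  have hM := muN_pos n
  have hph : (0 : ℝ) < 34 + 63 * ph := by
    have := ph_bounds.1
    norm_num at this
    linarith
  set u := AI^[n] v with hu
  have e1 : muN n * thN n v = 13 * u.1 - 34 * u.2.2 - ph * (u.2.1 - 25 * u.1 + 63 * u.2.2) := by
    unfold thN th1
    rw [← hu]
    field_simp
  have e2 : (13 : ℝ) * u.1 - 34 * u.2.2 - ph * (u.2.1 - 25 * u.1 + 63 * u.2.2)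
      = muH * Vs u - muV * Hs u + KK * x0 u := by
    have i0 := id0 u
    have i1 := id1 u
    unfold KK muH muV
    linear_combination (-1) * i0 - ph * i1
  rw [e1, e2, hu, Vs_AIn, Hs_AIn, x0_AIn, muN_eq]
  have hb := b_eq v
  rw [hb]
  ring

/-- `θ_n = V* + a' x₀ - b' b`. -/
lemma thN_eq {n : ℕ} (hn : 1 ≤ n) : ∃ a' b' : ℝ, |a'| ≤ 193 / 10 ^ 8 * laI ^ n ∧ 0 ≤ b' ∧
    b' ≤ 1 / 10 ^ 12 * (laI ^ n) ^ 2 ∧ ∀ v : V3, thN n v = Vs v + a' * x0 v - b' * v.1 := by
  have hM := muN_pos n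
  have hMge := muN_ge n
  have hq := q_pos n
  have hq1 := q_le hn
  have hlam := lamn_pos n
  have hlq := lamn_mul n
  have hV1 := muV_bounds.1
  have hV2 := muV_bounds.2
  have hK := abs_le.mp KK_bounds
  have hcX := cX_bounds
  norm_num at hV1 hV2 hq1 hcX
  have hV0 : 0 < muV := by linarith
  -- `1 / M ≤ q / 135.9`
  have hinv : laI ^ n * muN n ≥ 1359 / 10 := by
    have : laI ^ n * (1359 / 10 * lam ^ n) ≤ laI ^ n * muN n :=
      mul_le_mul_of_nonneg_left hMge hq.le
    nlinarith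
  refine ⟨(KK + cX * (laI ^ n * muV)) / muN n, laI ^ n * muV / muN n, ?_, by positivity, ?_, ?_⟩
  · rw [abs_div, abs_of_pos hM, div_le_iff₀ hM]
    have h1 : |KK + cX * (laI ^ n * muV)| ≤ 2611 / 10 ^ 7 := by
      have h2 : laI ^ n * muV ≤ 1 / 10 ^ 17 := by
        have := mul_le_mul hq1 hV2.le hV0.le (by norm_num)
        refine this.trans ?_
        norm_num
      have h3 : 0 < laI ^ n * muV := by positivity
      have h4 : -(34 * (laI ^ n * muV)) ≤ cX * (laI ^ n * muV) := by nlinarith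
      have h5 : cX * (laI ^ n * muV) ≤ 0 := by nlinarith
      rw [abs_le]
      norm_num at h2 hK ⊢
      constructor <;> linarith
    refine h1.trans ?_
    have : 193 / 10 ^ 8 * laI ^ n * muN n = 193 / 10 ^ 8 * (laI ^ n * muN n) := by ring
    rw [this]
    norm_num
    linarith
  · rw [div_le_iff₀ hM]
    have : 1 / 10 ^ 12 * (laI ^ n) ^ 2 * muN n = 1 / 10 ^ 12 * (laI ^ n) * (laI ^ n * muN n) := by
      ring
    rw [this]
    have h1 : laI ^ n * muV ≤ laI ^ n * (1359 / 10 ^ 13) := by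
      apply mul_le_mul_of_nonneg_left _ hq.le
      norm_num
      linarith
    have h2 : 1 / 10 ^ 12 * (laI ^ n) * (1359 / 10) ≤ 1 / 10 ^ 12 * (laI ^ n) * (laI ^ n * muN n) :=
      mul_le_mul_of_nonneg_left hinv (by positivity)
    norm_num at h1 h2 ⊢
    linarith
  · intro v
    have h := thN_mul n v
    have : thN n v = (muN n * thN n v) / muN n := by field_simp
    rw [this, h]
    field_simp

/-! ### the four cases -/

lemma P_one {a' b' : ℝ} (hb' : 0 ≤ b') {v : V3} (hv : v.1 = 1) (hx : |x0 v| < 1) :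
    FS - 2 * (|a'| + b') ≤ (v.1 + x0 v * tS) * |Vs v + a' * x0 v - b' * v.1| := by
  obtain ⟨b, a, m⟩ := v
  simp only at hv
  subst hv
  have hx' := abs_lt.mp hx
  unfold x0 at hx'
  simp only [Int.cast_one] at hx'
  have ha1 : -1 < a := by
    have : (-1 : ℝ) < a := by linarith [hx'.1]
    exact_mod_cast this
  have ha2 : a < 2 := by
    have : (a : ℝ) < 2 := by linarith [hx'.2]
    exact_mod_cast this
  have ht := tS_bounds
  norm_num at ht
  have hA := abs_nonneg a'
  have hA1 := neg_abs_le a'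
  have hA2 := le_abs_self a'
  have hbS := bS_bounds
  have hpS := pS_bounds
  norm_num at hbS hpS
  rcases (show a = 0 ∨ a = 1 by omega) with rfl | rfl
  · -- `a = 0`
    have e1 : x0 ((1, 0, m) : V3) = -(16 / 17) := by unfold x0; norm_num
    have e2 : Vs ((1, 0, m) : V3) = bS - m := by unfold Vs; norm_num
    rw [e1, e2]
    have h1 : bS ≤ |bS - m| := by
      rcases le_or_gt m 0 with h | h
      · have : (m : ℝ) ≤ 0 := by exact_mod_cast h
        rw [abs_of_nonneg (by linarith)]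
        linarith
      · have : (1 : ℝ) ≤ m := by exact_mod_cast h
        rw [abs_of_nonpos (by linarith)]
        linarith
    have h2 : |bS - m| - (|a'| + b') ≤ |bS - m + a' * -(16 / 17) - b' * ((1 : ℤ) : ℝ)| := by
      have h3 : bS - m = (bS - m + a' * -(16 / 17) - b' * ((1 : ℤ) : ℝ)) + (a' * (16 / 17) + b') := by
        push_cast
        ring
      have h4 : |bS - m| ≤ |bS - m + a' * -(16 / 17) - b' * ((1 : ℤ) : ℝ)|
          + |a' * (16 / 17) + b'| := by
        conv_lhs => rw [h3]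
        exact abs_add_le _ _
      have h5 : |a' * (16 / 17) + b'| ≤ |a'| + b' := by
        rw [abs_le]
        constructor <;> linarith
      linarith
    have h3 : (1 - 16 * tS / 17) * bS = FS := tS_b
    have h4 : 0 ≤ 1 - 16 * tS / 17 := by linarith
    have h5 : 1 - 16 * tS / 17 ≤ 1 := by linarith
    have h6 : (1 - 16 * tS / 17) * (bS - (|a'| + b'))
        ≤ (1 - 16 * tS / 17) * |bS - m + a' * -(16 / 17) - b' * ((1 : ℤ) : ℝ)| :=
      mul_le_mul_of_nonneg_left (by linarith) h4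
    have h7 : (((1 : ℤ) : ℝ) + -(16 / 17) * tS) = 1 - 16 * tS / 17 := by push_cast; ring
    rw [h7]
    have h8 : (1 - 16 * tS / 17) * (|a'| + b') ≤ 1 * (|a'| + b') :=
      mul_le_mul_of_nonneg_right h5 (by linarith)
    nlinarith
  · -- `a = 1`
    have e1 : x0 ((1, 1, m) : V3) = 1 / 17 := by unfold x0; norm_num
    have e2 : Vs ((1, 1, m) : V3) = pS - m := by unfold Vs pS; norm_num
    rw [e1, e2]
    have h1 : pS ≤ |pS - m| := by
      rcases le_or_gt m 0 with h | h
      · have : (m : ℝ) ≤ 0 := by exact_mod_cast h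
        rw [abs_of_nonneg (by linarith)]
        linarith
      · have : (1 : ℝ) ≤ m := by exact_mod_cast h
        rw [abs_of_nonpos (by linarith)]
        linarith
    have h2 : |pS - m| - (|a'| + b') ≤ |pS - m + a' * (1 / 17) - b' * ((1 : ℤ) : ℝ)| := by
      have h3 : pS - m = (pS - m + a' * (1 / 17) - b' * ((1 : ℤ) : ℝ)) + (-(a' * (1 / 17)) + b') := by
        push_cast
        ring
      have h4 : |pS - m| ≤ |pS - m + a' * (1 / 17) - b' * ((1 : ℤ) : ℝ)|
          + |-(a' * (1 / 17)) + b'| := by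
        conv_lhs => rw [h3]
        exact abs_add_le _ _
      have h5 : |-(a' * (1 / 17)) + b'| ≤ |a'| + b' := by
        rw [abs_le]
        constructor <;> linarith
      linarith
    have h3 : (1 + tS / 17) * pS = FS := tS_p
    have h4 : 0 ≤ 1 + tS / 17 := by linarith
    have h5 : 1 + tS / 17 ≤ 2 := by linarith
    have h6 : (1 + tS / 17) * (pS - (|a'| + b'))
        ≤ (1 + tS / 17) * |pS - m + a' * (1 / 17) - b' * ((1 : ℤ) : ℝ)| :=
      mul_le_mul_of_nonneg_left (by linarith) h4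
    have h7 : (((1 : ℤ) : ℝ) + 1 / 17 * tS) = 1 + tS / 17 := by push_cast; ring
    rw [h7]
    have h8 : (1 + tS / 17) * (|a'| + b') ≤ 2 * (|a'| + b') :=
      mul_le_mul_of_nonneg_right h5 (by linarith)
    nlinarith

/-- the first factor -/
lemma fac_bounds {v : V3} (hx : |x0 v| < 1) :
    (v.1 : ℝ) - 1 ≤ v.1 + x0 v * tS ∧ (v.1 : ℝ) + x0 v * tS ≤ v.1 + 1 := by
  have hx' := abs_lt.mp hx
  have ht := tS_bounds
  norm_num at ht
  constructor <;> nlinarith

/-- comparison of the product with the one of `V*` -/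
lemma P_ge {a' b' : ℝ} (hb' : 0 ≤ b') {v : V3} (hv : 1 ≤ v.1) (hx : |x0 v| < 1) :
    (v.1 + x0 v * tS) * |Vs v| - (v.1 + 1) * (|a'| + b' * v.1)
      ≤ (v.1 + x0 v * tS) * |Vs v + a' * x0 v - b' * v.1| := by
  have hv' : (1 : ℝ) ≤ v.1 := by exact_mod_cast hv
  obtain ⟨f1, f2⟩ := fac_bounds hx
  have hE : |Vs v| ≤ |Vs v + a' * x0 v - b' * v.1| + (|a'| + b' * v.1) := by
    have h3 : Vs v = (Vs v + a' * x0 v - b' * v.1) + (-(a' * x0 v) + b' * v.1) := by ring
    have h4 : |Vs v| ≤ |Vs v + a' * x0 v - b' * v.1| + |-(a' * x0 v) + b' * v.1| := by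
      conv_lhs => rw [h3]
      exact abs_add_le _ _
    have h5 : |-(a' * x0 v) + b' * v.1| ≤ |a'| + b' * v.1 := by
      refine (abs_add_le _ _).trans ?_
      rw [abs_neg, abs_mul, abs_of_nonneg (by positivity : 0 ≤ b' * (v.1 : ℝ))]
      have : |a'| * |x0 v| ≤ |a'| * 1 := mul_le_mul_of_nonneg_left hx.le (abs_nonneg _)
      linarith
    linarith
  have hT : 0 ≤ (v.1 : ℝ) + x0 v * tS := by linarith
  have h6 := mul_le_mul_of_nonneg_left hE hT
  have h7 : ((v.1 : ℝ) + x0 v * tS) * (|a'| + b' * v.1) ≤ (v.1 + 1) * (|a'| + b' * v.1) :=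
    mul_le_mul_of_nonneg_right f2 (by positivity)
  nlinarith

/-- the middle range -/
lemma P_mid (h0 : S_S0) {a' b' q : ℝ} (hq0 : 0 < q) (hq : q ≤ 26 / 10 ^ 9)
    (ha' : |a'| ≤ 193 / 10 ^ 8 * q) (hb' : 0 ≤ b') (hb'' : b' ≤ 1 / 10 ^ 12 * q ^ 2)
    {v : V3} (hv : 2 ≤ v.1) (hv2 : v.1 ≤ 1340000000) (hx : |x0 v| < 1) :
    384 / 1000 ≤ (v.1 + x0 v * tS) * |Vs v + a' * x0 v - b' * v.1| := by
  have h1 := P_ge (a' := a') hb' (by omega : 1 ≤ v.1) hx
  have h2 := h0 v hv hv2 hx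
  have hv' : (2 : ℝ) ≤ v.1 := by exact_mod_cast hv
  have hv2' : (v.1 : ℝ) ≤ 1340000000 := by exact_mod_cast hv2
  have h3 : |a'| ≤ 6 / 10 ^ 14 := by
    refine ha'.trans ?_
    norm_num at hq ⊢
    linarith
  have h4 : b' * v.1 ≤ 1 / 10 ^ 16 := by
    have h5 : q ^ 2 ≤ 1 / 10 ^ 15 := by
      norm_num at hq ⊢
      nlinarith
    have h6 : b' ≤ 1 / 10 ^ 27 := by
      refine hb''.trans ?_
      norm_num at h5 ⊢
      linarith
    have h7 : b' * v.1 ≤ 1 / 10 ^ 27 * 1340000000 :=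
      mul_le_mul h6 hv2' (by linarith) (by norm_num)
    refine h7.trans ?_
    norm_num
  have h8 : ((v.1 : ℝ) + 1) * (|a'| + b' * v.1) ≤ 1340000001 * (6 / 10 ^ 14 + 1 / 10 ^ 16) :=
    mul_le_mul (by linarith) (by linarith) (by positivity) (by norm_num)
  norm_num at h8 h2 ⊢
  linarith

/-- the coordinate `b` and `H`, if `V*` is small -/
lemma H_close {v : V3} (hx : |x0 v| < 1) {w : ℝ} (hV : |Vs v| ≤ w) :
    |Hs v - v.1| ≤ 331 / 10 + 301 * w := by
  have h := b_eq v
  have hx' := abs_lt.mp hx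
  have hV' := abs_le.mp hV
  have hw : 0 ≤ w := (abs_nonneg _).trans hV
  have hc := cX_bounds
  have ht := cT_bounds
  norm_num at hc ht
  have h1 : |cX * x0 v| ≤ 331 / 10 := by
    rw [abs_mul]
    have : |cX| ≤ 331 / 10 := by rw [abs_le]; constructor <;> linarith
    calc |cX| * |x0 v| ≤ (331 / 10) * 1 := mul_le_mul this hx.le (abs_nonneg _) (by norm_num)
      _ = 331 / 10 := by ring
  have h2 : |cT * Vs v| ≤ 301 * w := by
    rw [abs_mul]
    have : |cT| ≤ 301 := by rw [abs_le]; constructor <;> linarith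
    exact mul_le_mul this hV (abs_nonneg _) (by norm_num)
  have h3 : Hs v - v.1 = -(cX * x0 v + cT * Vs v) := by rw [h]; ring
  rw [h3, abs_neg]
  refine (abs_add_le _ _).trans ?_
  linarith

lemma Vs_le {a' b' : ℝ} (hb' : 0 ≤ b') {v : V3} (hv : 1 ≤ v.1) (hx : |x0 v| < 1) :
    |Vs v| ≤ |Vs v + a' * x0 v - b' * v.1| + (|a'| + b' * v.1) := by
  have hv' : (1 : ℝ) ≤ v.1 := by exact_mod_cast hv
  have h3 : Vs v = (Vs v + a' * x0 v - b' * v.1) + (-(a' * x0 v) + b' * v.1) := by ring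
  have h4 : |Vs v| ≤ |Vs v + a' * x0 v - b' * v.1| + |-(a' * x0 v) + b' * v.1| := by
    conv_lhs => rw [h3]
    exact abs_add_le _ _
  have h5 : |-(a' * x0 v) + b' * v.1| ≤ |a'| + b' * v.1 := by
    refine (abs_add_le _ _).trans ?_
    rw [abs_neg, abs_mul, abs_of_nonneg (by positivity : 0 ≤ b' * (v.1 : ℝ))]
    have : |a'| * |x0 v| ≤ |a'| * 1 := mul_le_mul_of_nonneg_left hx.le (abs_nonneg _)
    linarith
  linarith

lemma ratio_ge (n : ℕ) : laI ^ n ≤ (34 + 63 * ph) / muN n := by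
  have hM := muN_pos n
  rw [le_div_iff₀ hM, mu1_eq, muN_eq]
  have hq := q_pos n
  have hl := lamn_pos n
  have hlq := lamn_mul n
  have hq1 : laI ^ n ≤ 1 :=
    pow_le_one₀ laI_pos.le (by have := laI_lt; norm_num at this; linarith)
  have h1 := muV_bounds.1
  have h2 := cT_bounds.1
  norm_num at h1 h2
  have h3 : 0 < cT * muV := mul_pos (by linarith) (by linarith)
  have e : laI ^ n * (lam ^ n * muH + cT * (laI ^ n * muV))
      = (lam ^ n * laI ^ n) * muH + (laI ^ n * laI ^ n) * (cT * muV) := by ring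
  rw [e, hlq]
  have h4 : laI ^ n * laI ^ n ≤ 1 := by nlinarith
  have h5 : (laI ^ n * laI ^ n) * (cT * muV) ≤ 1 * (cT * muV) :=
    mul_le_mul_of_nonneg_right h4 h3.le
  linarith

/-- the large range -/
lemma P_big (h1 : S_S1) (hI : S_I1) {n : ℕ} (hn : 1 ≤ n) {v : V3} (hv : 1340000000 < v.1)
    (hx : |x0 v| < 1) : 383 / 1000 ≤ (v.1 + x0 v * tS) * |thN n v| := by
  by_contra hcon
  push Not at hcon
  obtain ⟨a', b', ha', hb', hb'', hth⟩ := thN_eq hn
  have hq := q_pos n
  have hq1 := q_le hn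
  set q := laI ^ n with hqdef
  have hvR : (1340000000 : ℝ) < v.1 := by exact_mod_cast hv
  obtain ⟨f1, f2⟩ := fac_bounds hx
  set T := (v.1 : ℝ) + x0 v * tS with hT
  have hT0 : 1330000000 < T := by linarith
  -- `θ_n` and `V*` are small
  have hth1 : |thN n v| ≤ 1 / 10 ^ 9 := by
    by_contra h
    push Not at h
    have h2 : 1330000000 * (1 / 10 ^ 9) ≤ T * |thN n v| :=
      mul_le_mul hT0.le h.le (by norm_num) (by linarith)
    norm_num at h2
    linarith
  have ha1 : |a'| ≤ 1 / 10 ^ 9 := by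
    refine ha'.trans ?_
    norm_num at hq1 ⊢
    linarith
  have hb1 : b' ≤ 1 / 10 ^ 27 := by
    refine hb''.trans ?_
    have h5 : q ^ 2 ≤ 1 / 10 ^ 15 := by
      norm_num at hq1 ⊢
      nlinarith
    norm_num at h5 ⊢
    linarith
  have hVle := Vs_le (a' := a') hb' (by omega : 1 ≤ v.1) hx
  rw [← hth v] at hVle
  have hV : |Vs v| ≤ 2 / 10 ^ 9 + 1 / 10 ^ 27 * v.1 := by
    have : b' * v.1 ≤ 1 / 10 ^ 27 * v.1 := mul_le_mul_of_nonneg_right hb1 (by linarith)
    norm_num at hth1 ha1 ⊢ this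
    linarith
  have hHc := abs_le.mp (H_close hx hV)
  set H := Hs v with hH
  have hH1 : H ≤ v.1 + 34 + v.1 / 10 ^ 20 := by
    have := hHc.2
    norm_num at this ⊢
    linarith
  have hH2 : (v.1 : ℝ) - 34 - v.1 / 10 ^ 20 ≤ H := by
    have := hHc.1
    norm_num at this ⊢
    linarith
  have hHbig : 1339000000 ≤ H := by
    norm_num at hH2
    linarith
  have hTH : (9999 / 10000) * H ≤ T := by
    norm_num at hH1
    linarith
  have hbH : (v.1 : ℝ) + 1 ≤ 1001 / 1000 * H := by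
    norm_num at hH2
    linarith
  by_cases hc : 33 ≤ q * H
  · -- level `n` is reached: the golden tail
    have hu : Hs (AI^[n] v) = q * H := Hs_AIn n v
    have h2 := hI (AI^[n] v) (by rw [hu]; exact hc) (by rw [x0_AIn]; exact hx)
    rw [hu] at h2
    set th := |th1 (AI^[n] v)| with hth'
    have hthn : 0 ≤ th := abs_nonneg _
    have h3 : |thN n v| = (34 + 63 * ph) / muN n * th := by
      unfold thN
      have hph := ph_bounds.1
      norm_num at hph
      rw [abs_mul, abs_of_nonneg (div_nonneg (by linarith) (muN_pos n).le)]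
    have h4 : q * th ≤ |thN n v| := by
      rw [h3]
      exact mul_le_mul_of_nonneg_right (ratio_ge n) hthn
    have h5 : 9999 / 10000 * H * (q * th) ≤ T * |thN n v| :=
      mul_le_mul hTH h4 (by positivity) (by linarith)
    have h6 : (q * H - 1 / 100000) * th ≤ q * H * th :=
      mul_le_mul_of_nonneg_right (by linarith) hthn
    have h7 : 9999 / 10000 * H * (q * th) = 9999 / 10000 * (q * H * th) := by ring
    rw [h7] at h5
    linarith
  · push Not at hc
    -- the last level with `H ≥ 33`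
    have hex : ∃ k : ℕ, laI ^ k * H < 33 := ⟨n, hc⟩
    classical
    set k := Nat.find hex with hk
    have hk1 : laI ^ k * H < 33 := Nat.find_spec hex
    have hkn : k ≤ n := Nat.find_min' hex hc
    have hk0 : k ≠ 0 := by
      intro h0
      rw [h0] at hk1
      simp only [pow_zero, one_mul] at hk1
      linarith
    obtain ⟨j, hj⟩ := Nat.exists_eq_succ_of_ne_zero hk0
    have hj1 : 33 ≤ laI ^ j * H := by
      have := Nat.find_min hex (show j < Nat.find hex by omega)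
      linarith [not_lt.mp this]
    have hu : Hs (AI^[j] v) = laI ^ j * H := Hs_AIn j v
    have hlampos := lam_pos
    have hup : laI ^ j * H ≤ 1340000000 := by
      have h3 : laI * (laI ^ j * H) < 33 := by
        have : laI * (laI ^ j * H) = laI ^ k * H := by
          rw [hj, Nat.succ_eq_add_one, pow_succ]
          ring
        rw [this]
        exact hk1
      have h4 : lam * (laI * (laI ^ j * H)) < lam * 33 := mul_lt_mul_of_pos_left h3 hlampos
      rw [← mul_assoc, lam_mul_laI, one_mul] at h4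
      have h5 := lam_bounds.2
      linarith
    have h2 := h1 (AI^[j] v) (by rw [hu]; exact hj1) (by rw [hu]; exact hup)
      (by rw [x0_AIn]; exact hx)
    rw [hu, Vs_AIn, abs_mul, abs_of_pos (lamn_pos j)] at h2
    have hV0 : 0 ≤ |Vs v| := abs_nonneg _
    have h3 : (laI ^ j * H - 1 / 100000) * (lam ^ j * |Vs v|) ≤ H * |Vs v| := by
      have h4 : (laI ^ j * H - 1 / 100000) * (lam ^ j * |Vs v|)
          ≤ (laI ^ j * H) * (lam ^ j * |Vs v|) :=
        mul_le_mul_of_nonneg_right (by linarith) (mul_nonneg (lamn_pos j).le hV0)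
      have h5 : (laI ^ j * H) * (lam ^ j * |Vs v|) = (lam ^ j * laI ^ j) * (H * |Vs v|) := by ring
      rw [h5, lamn_mul, one_mul] at h4
      exact h4
    have hqH : q * H < 33 := hc
    have hqb : q * (v.1 + 1) ≤ 3304 / 100 := by
      have := mul_le_mul_of_nonneg_left hbH hq.le
      nlinarith
    have hE : ((v.1 : ℝ) + 1) * (|a'| + b' * v.1) ≤ 7 / 100000 := by
      have e1 : ((v.1 : ℝ) + 1) * |a'| ≤ (v.1 + 1) * (193 / 10 ^ 8 * q) :=
        mul_le_mul_of_nonneg_left ha' (by linarith)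
      have e2 : ((v.1 : ℝ) + 1) * (b' * v.1) ≤ (v.1 + 1) * ((1 / 10 ^ 12 * q ^ 2) * (v.1 + 1)) := by
        apply mul_le_mul_of_nonneg_left _ (by linarith)
        exact mul_le_mul hb'' (by linarith) (by linarith) (by positivity)
      have e3 : ((v.1 : ℝ) + 1) * (193 / 10 ^ 8 * q) = 193 / 10 ^ 8 * (q * (v.1 + 1)) := by ring
      have e4 : ((v.1 : ℝ) + 1) * ((1 / 10 ^ 12 * q ^ 2) * (v.1 + 1))
          = 1 / 10 ^ 12 * (q * (v.1 + 1)) ^ 2 := by ring
      have e5 : 0 ≤ q * ((v.1 : ℝ) + 1) := by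
        apply mul_nonneg hq.le
        linarith
      have e6 : (q * ((v.1 : ℝ) + 1)) ^ 2 ≤ 1100 := by nlinarith
      rw [e3] at e1
      rw [e4] at e2
      rw [mul_add]
      norm_num at e1 e2 ⊢
      linarith
    have hP := P_ge (a' := a') hb' (by omega : 1 ≤ v.1) hx
    rw [← hth v] at hP
    have h6 : 9999 / 10000 * H * |Vs v| ≤ T * |Vs v| := mul_le_mul_of_nonneg_right hTH hV0
    have h7 : 9999 / 10000 * H * |Vs v| = 9999 / 10000 * (H * |Vs v|) := by ring
    rw [h7] at h6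
    linarith

end Lamm

/-- LAM: the lattices of level `n` have all products `≥ c`, for every `c < FS`, if `n` is large. -/
theorem stmtLAM (h0 : S_S0) (h1 : S_S1) (hI : S_I1) : S_LAM := by
  intro c hc
  have hl1 : laI < 1 := by
    have := Lamm.laI_lt
    norm_num at this
    linarith
  obtain ⟨k, hk⟩ := exists_pow_lt_of_lt_one (sub_pos.mpr hc) hl1
  refine ⟨k + 1, fun n hn v hv hx => ?_⟩
  have hn1 : 1 ≤ n := by omega
  have hqk : laI ^ n ≤ laI ^ k := pow_le_pow_of_le_one laI_pos.le hl1.le (by omega)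
  have hq := Lamm.q_pos n
  have hq1 := Lamm.q_le hn1
  have hFS := FS_bounds.2
  norm_num at hFS
  rcases le_or_gt v.1 1340000000 with hb | hb
  · obtain ⟨a', b', ha', hb', hb'', hth⟩ := Lamm.thN_eq hn1
    rw [hth v]
    rcases (show v.1 = 1 ∨ 2 ≤ v.1 by omega) with hv1 | hv2
    · have h2 := Lamm.P_one (a' := a') hb' hv1 hx
      have h3 : 2 * (|a'| + b') ≤ laI ^ n := by
        have h4 : (laI ^ n) ^ 2 ≤ laI ^ n := by
          norm_num at hq1
          nlinarith
        norm_num at ha' hb'' ⊢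
        linarith
      linarith
    · have h2 := Lamm.P_mid h0 hq hq1 ha' hb' hb'' hv2 hb hx
      linarith
  · have h2 := Lamm.P_big h1 hI hn1 hb hx
    linarith

end

end Pool.Agent.MDX
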