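import Mathlib
import Pool.Agent.MDX.Stmts

/-!
Assembly of the lower bound: `S_LOW` from `S_END`, `S_CC`, `S_SOFT`.
-/

namespace Pool.Agent.MDX

open Pool.Agent.Lib_helper94.MDS

lemma FS_lt_inv_sqrt5 : FS < 1 / Real.sqrt 5 := by
  have h := FS_bounds.2
  have h5 : Real.sqrt 5 < 9 / 4 := by
    rw [Real.sqrt_lt' (by norm_num)]
    norm_num
  have h6 : 0 < Real.sqrt 5 := by positivity
  have h7 : (4 : ℝ) / 9 < 1 / Real.sqrt 5 := by
    rw [lt_div_iff₀ h6]
    linarith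
  norm_num at h
  linarith

theorem stmtLOW (hE : S_END) (hC : S_CC) (hS : S_SOFT) : S_LOW := by
  intro l hl0 hl1
  refine hS FS FS_pos ?_ l hl0 hl1
  intro c hc0 hc
  obtain ⟨ρ, α, Y, hα, hgood⟩ := hE ((c + FS) / 2) (by linarith)
  exact hC ρ α Y ((c + FS) / 2) hα hgood (by linarith)
    (by have := FS_lt_inv_sqrt5; linarith) c (by linarith)

end Pool.Agent.MDX
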