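import Pool.Agent.MDX.Stmts

/-!
Module MDX_S0: ladder scan of the optimal lattice, level 0 (29 rungs, 27 combinations each).
-/

set_option autoImplicit false

namespace Pool.Agent.MDX

namespace S0m

/-- scale -/
def S : ℤ := 10 ^ 41
/-- lower bound of `β*`, scaled -/
def bl : ℤ := 39320378507698302156292974967109797940444
/-- upper bound of `β*`, scaled -/
def bh : ℤ := 39320378507698302156292974967109797940445
/-- lower bound of `γ*`, scaled -/
def gl : ℤ := -1190098719766133442460102656043072401448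
/-- upper bound of `γ*`, scaled -/
def gh : ℤ := -1190098719766133442460102656043072401447
/-- bounds of `t*`, scaled by `10 ^ 28` -/
def tl : ℤ := 303206985789036058318176463
/-- bounds of `t*`, scaled by `10 ^ 28` -/
def th : ℤ := 303206985789036058318176464

/-- absolute value by cases -/
def ab (x : ℤ) : ℤ := if 0 ≤ x then x else -x

/-- maximum by cases -/
def mx (x y : ℤ) : ℤ := if x ≤ y then y else x

lemma ab_eq (x : ℤ) : ab x = |x| := by
  unfold ab
  split_ifs with h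
  · exact (abs_of_nonneg h).symm
  · exact (abs_of_neg (not_le.1 h)).symm

lemma mx_eq (x y : ℤ) : mx x y = max x y := by
  unfold mx
  split_ifs with h
  · exact (max_eq_right h).symm
  · exact (max_eq_left (not_le.1 h).le).symm

/-- the product check of a vector -/
def chk (v : V3) : Bool :=
  let x := 17 * v.2.1 - 16 * v.1
  let y := 170000000000000000000000000000 * v.1 + (if 0 ≤ x then x * tl else x * th)
  let Vl := v.1 * bl + v.2.1 * gl - v.2.2 * S
  let Vh := v.1 * bh + v.2.1 * gh - v.2.2 * S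
  (decide (0 ≤ Vl) && decide (3841 * 170000000000000000000000000000 * S ≤ 10000 * y * Vl)) ||
  (decide (Vh ≤ 0) && decide (3841 * 170000000000000000000000000000 * S ≤ 10000 * y * (-Vh)))

/-- the check of a combination -/
def okv (Y0 Y1 : ℤ) (v : V3) : Bool :=
  decide (17 ≤ 17 * v.2.1 - 16 * v.1) || decide (17 * v.2.1 - 16 * v.1 ≤ -17) ||
  decide (v.1 < Y0) || decide (Y1 < v.1) || (decide (0 ≤ v.2.1) && chk v)

/-- the check of a dual form: it is less than `2` on the relevant vectors -/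
def lin (Y0 Y1 : ℤ) (f : V3) : Bool :=
  let A := mx (ab (f.2.1 * S + f.2.2 * gl)) (ab (f.2.1 * S + f.2.2 * gh))
  let B := mx (ab (17 * S * f.1 + 16 * S * f.2.1 + f.2.2 * (17 * bl + 16 * gl)))
    (ab (17 * S * f.1 + 16 * S * f.2.1 + f.2.2 * (17 * bh + 16 * gh)))
  decide (1700 * (100 * Y0 - 4) * A + 100 * (100 * Y0 - 4) * Y1 * B + ab f.2.2 * 3841 * 17 * S <
    3400 * S * (100 * Y0 - 4))

/-- A rung of the ladder: the range of the first coordinate, a basis, the dual basis. -/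
structure Rung where
  /-- lower end -/
  Y0 : ℤ
  /-- upper end -/
  Y1 : ℤ
  /-- basis -/
  e1 : V3
  /-- basis -/
  e2 : V3
  /-- basis -/
  e3 : V3
  /-- dual basis -/
  f1 : V3
  /-- dual basis -/
  f2 : V3
  /-- dual basis -/
  f3 : V3

/-- value of a form -/
def ev (f v : V3) : ℤ := f.1 * v.1 + f.2.1 * v.2.1 + f.2.2 * v.2.2

/-- the combination -/
def comb (r : Rung) (i j k : ℤ) : V3 :=
  (i * r.e1.1 + j * r.e2.1 + k * r.e3.1, i * r.e1.2.1 + j * r.e2.2.1 + k * r.e3.2.1,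
    i * r.e1.2.2 + j * r.e2.2.2 + k * r.e3.2.2)

/-- the basis and the dual basis fit together -/
def idm (r : Rung) : Bool :=
  decide (r.e1.1 * r.f1.1 + r.e2.1 * r.f2.1 + r.e3.1 * r.f3.1 = 1) &&
  decide (r.e1.1 * r.f1.2.1 + r.e2.1 * r.f2.2.1 + r.e3.1 * r.f3.2.1 = 0) &&
  decide (r.e1.1 * r.f1.2.2 + r.e2.1 * r.f2.2.2 + r.e3.1 * r.f3.2.2 = 0) &&
  decide (r.e1.2.1 * r.f1.1 + r.e2.2.1 * r.f2.1 + r.e3.2.1 * r.f3.1 = 0) &&
  decide (r.e1.2.1 * r.f1.2.1 + r.e2.2.1 * r.f2.2.1 + r.e3.2.1 * r.f3.2.1 = 1) &&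
  decide (r.e1.2.1 * r.f1.2.2 + r.e2.2.1 * r.f2.2.2 + r.e3.2.1 * r.f3.2.2 = 0) &&
  decide (r.e1.2.2 * r.f1.1 + r.e2.2.2 * r.f2.1 + r.e3.2.2 * r.f3.1 = 0) &&
  decide (r.e1.2.2 * r.f1.2.1 + r.e2.2.2 * r.f2.2.1 + r.e3.2.2 * r.f3.2.1 = 0) &&
  decide (r.e1.2.2 * r.f1.2.2 + r.e2.2.2 * r.f2.2.2 + r.e3.2.2 * r.f3.2.2 = 1)

/-- the list `-1, 0, 1` -/
def tri : List ℤ := [-1, 0, 1]

/-- the check of a rung -/
def rok (r : Rung) : Bool :=
  decide (2 ≤ r.Y0) && decide (0 ≤ r.Y1) && idm r && lin r.Y0 r.Y1 r.f1 && lin r.Y0 r.Y1 r.f2 &&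
  lin r.Y0 r.Y1 r.f3 &&
  tri.all fun i => tri.all fun j => tri.all fun k => okv r.Y0 r.Y1 (comb r i j k)

/-- the rungs are adjacent -/
def chain : ℤ → List Rung → Bool
  | a, [] => decide (1340000000 < a)
  | a, r :: L => decide (r.Y0 = a) && chain (r.Y1 + 1) L

/-- the ladder -/
def ladder : List Rung := [
  ⟨2, 4, (3, 3, 1), (0, 1, 0), (-2, -2, -1),
    (1, 0, -2), (-1, 1, 0), (1, 0, -3)⟩,
  ⟨5, 10, (5, 5, 2), (0, 1, 0), (8, 8, 3),
    (-3, 0, 8), (-1, 1, 0), (2, 0, -5)⟩,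
  ⟨11, 22, (13, 12, 5), (0, 1, 0), (21, 20, 8),
    (-8, 0, 21), (-4, 1, 8), (5, 0, -13)⟩,
  ⟨23, 46, (34, 32, 13), (0, 1, 0), (21, 20, 8),
    (-8, 0, 21), (-4, 1, 8), (13, 0, -34)⟩,
  ⟨47, 94, (34, 31, 13), (55, 52, 21), (-34, -32, -13),
    (4, -1, -8), (13, 0, -34), (25, -1, -63)⟩,
  ⟨95, 190, (34, 31, 13), (89, 84, 34), (144, 136, 55),
    (4, -1, -8), (-63, 2, 160), (38, -1, -97)⟩,
  ⟨191, 382, (34, 31, 13), (267, 251, 102), (144, 136, 55),
    (67, -3, -168), (-63, 2, 160), (101, -3, -257)⟩,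
  ⟨383, 766, (34, 31, 13), (411, 387, 157), (-678, -638, -259),
    (67, -3, -168), (265, -8, -674), (164, -5, -417)⟩,
  ⟨767, 1534, (34, 31, 13), (1089, 1025, 416), (-678, -638, -259),
    (67, -3, -168), (265, -8, -674), (429, -13, -1091)⟩,
  ⟨1535, 3070, (34, 31, 13), (1767, 1663, 675), (2856, 2688, 1091),
    (67, -3, -168), (-1123, 34, 2856), (694, -21, -1765)⟩,
  ⟨3071, 6142, (34, 31, 13), (4623, 4351, 1766), (2856, 2688, 1091),
    (67, -3, -168), (-1123, 34, 2856), (1817, -55, -4621)⟩,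
  ⟨6143, 12286, (34, 31, 13), (7479, 7039, 2857), (-12102, -11390, -4623),
    (67, -3, -168), (4757, -144, -12098), (2940, -89, -7477)⟩,
  ⟨12287, 24574, (34, 31, 13), (19581, 18429, 7480), (-12102, -11390, -4623),
    (67, -3, -168), (4757, -144, -12098), (7697, -233, -19575)⟩,
  ⟨24575, 49150, (34, 31, 13), (31683, 29819, 12103), (19581, 18429, 7480),
    (67, -3, -168), (-7697, 233, 19575), (12454, -377, -31673)⟩,
  ⟨49151, 98302, (34, 31, 13), (51264, 48248, 19583), (-82913, -78036, -31673),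
    (-20084, 607, 51080), (32605, -987, -82921), (20151, -610, -51248)⟩,
  ⟨98303, 196606, (34, 31, 13), (134177, 126284, 51256), (-82913, -78036, -31673),
    (-20084, 607, 51080), (32605, -987, -82921), (52756, -1597, -134169)⟩,
  ⟨196607, 393214, (-217056, -204289, -82916), (217090, 204320, 82929), (351267, 330604, 134185),
    (-20084, 607, 51080), (-158201, 4788, 402339), (85361, -2584, -217090)⟩,
  ⟨393215, 786430, (-217056, -204289, -82916), (568357, 534924, 217114), (351267, 330604, 134185),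
    (-20084, 607, 51080), (-158201, 4788, 402339), (243562, -7372, -619429)⟩,
  ⟨786431, 1572862, (-217056, -204289, -82916), (919624, 865528, 351299), (-568357, -534924, -217114),
    (-20084, 607, 51080), (243562, -7372, -619429), (401763, -12160, -1021768)⟩,
  ⟨1572863, 3145726, (-1705037, -1604741, -651329), (-217056, -204289, -82916), (2624661, 2470269, 1002628),
    (1047088, -31692, -2662965), (-421847, 12767, 1072848), (645325, -19532, -1641197)⟩,
  ⟨3145727, 6291454, (-4329698, -4075010, -1653957), (-217056, -204289, -82916), (2624661, 2470269, 1002628),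
    (1047088, -31692, -2662965), (-421847, 12767, 1072848), (1692413, -51224, -4304162)⟩,
  ⟨6291455, 12582910, (-6954359, -6545279, -2656585), (-217056, -204289, -82916), (-11284057, -10620289, -4310542),
    (-4431914, 134140, 11271289), (-421847, 12767, 1072848), (2739501, -82916, -6967127)⟩,
  ⟨12582911, 25165822, (-6737303, -6340990, -2573669), (-18238416, -17165568, -6967127), (-11284057, -10620289, -4310542),
    (421847, -12767, -1072848), (-4853761, 146907, 12344137), (7593262, -229823, -19311264)⟩,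
  ⟨25165823, 50331646, (11501113, 10824578, 4393458), (-29522473, -27785857, -11277669), (47760889, 44951425, 18244796),
    (421847, -12767, -1072848), (19618438, -593786, -49893817), (12025176, -363963, -30582553)⟩,
  ⟨50331647, 100663294, (77283362, 72737282, 29522465), (-36259776, -34126847, -13851338), (47760889, 44951425, 18244796),
    (-19618438, 593786, 49893817), (421847, -12767, -1072848), (32065461, -970516, -81549218)⟩,
  ⟨100663295, 201326590, (125044251, 117688707, 47767261), (-36259776, -34126847, -13851338), (-77283362, -72737282, -29522465),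
    (32065461, -970516, -81549218), (421847, -12767, -1072848), (51683899, -1564302, -131443035)⟩,
  ⟨201326591, 402653182, (202327613, 190425989, 77289726), (-36259776, -34126847, -13851338), (327371864, 308114696, 125056987),
    (-135433259, 4099120, 344435288), (421847, -12767, -1072848), (83749360, -2534818, -212992253)⟩,
  ⟨402653183, 805306366, (565959253, 532667532, 216198051), (-36259776, -34126847, -13851338), (327371864, 308114696, 125056987),
    (-135433259, 4099120, 344435288), (-135011412, 4086353, 343362440), (219182619, -6633938, -557427541)⟩,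
  ⟨805306367, 1340000000, (893331117, 840782228, 341255038), (-36259776, -34126847, -13851338), (-1459290370, -1373449760, -557453089),
    (573798497, -17366996, -1459290370), (-135011412, 4086353, 343362440), (354615878, -10733058, -901862829)⟩]

lemma ladder_ok : ladder.all rok = true := by decide +kernel

lemma ladder_chain : chain 2 ladder = true := by decide +kernel

lemma S_cast : ((S : ℤ) : ℝ) = 10 ^ 41 := by
  unfold S
  norm_num

lemma bS_lo : ((bl : ℤ) : ℝ) ≤ S * bS := by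
  have h := bS_bounds.1
  rw [S_cast]
  unfold bl
  rw [div_lt_iff₀ (by positivity)] at h
  push_cast
  linarith

lemma bS_hi : (S : ℝ) * bS ≤ ((bh : ℤ) : ℝ) := by
  have h := bS_bounds.2
  rw [S_cast]
  unfold bh
  rw [lt_div_iff₀ (by positivity)] at h
  push_cast
  linarith

lemma gS_lo : ((gl : ℤ) : ℝ) ≤ S * gS := by
  have h := gS_bounds.1
  rw [S_cast]
  unfold gl
  rw [div_lt_iff₀ (by positivity)] at h
  push_cast
  linarith

lemma gS_hi : (S : ℝ) * gS ≤ ((gh : ℤ) : ℝ) := by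
  have h := gS_bounds.2
  rw [S_cast]
  unfold gh
  rw [lt_div_iff₀ (by positivity)] at h
  push_cast
  linarith

lemma tS_lo : ((tl : ℤ) : ℝ) ≤ 10 ^ 28 * tS := by
  have h := tS_bounds.1
  unfold tl
  rw [div_lt_iff₀ (by positivity)] at h
  push_cast
  linarith

lemma tS_hi : 10 ^ 28 * tS ≤ ((th : ℤ) : ℝ) := by
  have h := tS_bounds.2
  unfold th
  rw [lt_div_iff₀ (by positivity)] at h
  push_cast
  linarith

lemma tS_small : 0 < tS ∧ tS < 4 / 100 := by
  have h := tS_bounds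
  norm_num at h
  constructor <;> linarith [h.1, h.2]

/-- a linear function on an interval -/
lemma abs_lin_le (p q r lo hi : ℝ) (h1 : lo ≤ r) (h2 : r ≤ hi) :
    |p + q * r| ≤ max |p + q * lo| |p + q * hi| := by
  rcases le_total 0 q with hq | hq
  · have e1 := mul_le_mul_of_nonneg_left h1 hq
    have e2 := mul_le_mul_of_nonneg_left h2 hq
    exact abs_le_max_abs_abs (by linarith) (by linarith)
  · have e1 := mul_le_mul_of_nonpos_left h1 hq
    have e2 := mul_le_mul_of_nonpos_left h2 hq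
    rw [max_comm]
    exact abs_le_max_abs_abs (by linarith) (by linarith)

lemma x0_eq (v : V3) : x0 v = ((17 * v.2.1 - 16 * v.1 : ℤ) : ℝ) / 17 := by
  unfold x0
  push_cast
  ring

/-- soundness of the product check -/
lemma chk_sound (v : V3) (hb : 1 ≤ v.1) (ha : 0 ≤ v.2.1) (hx : |x0 v| < 1) (h : chk v = true) :
    3841 / 10000 ≤ (v.1 + x0 v * tS) * |Vs v| := by
  have hbR : (1 : ℝ) ≤ v.1 := by exact_mod_cast hb
  have haR : (0 : ℝ) ≤ v.2.1 := by exact_mod_cast ha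
  have ht := tS_small
  have hxl := (abs_lt.1 hx).1
  have hpos : 0 ≤ (v.1 : ℝ) + x0 v * tS := by nlinarith [ht.1, ht.2]
  have hSpos : (0 : ℝ) < (S : ℝ) := by rw [S_cast]; positivity
  -- lower bound for the first factor
  have hy : ((170000000000000000000000000000 * v.1 + (if 0 ≤ 17 * v.2.1 - 16 * v.1 then
      (17 * v.2.1 - 16 * v.1) * tl else (17 * v.2.1 - 16 * v.1) * th) : ℤ) : ℝ) ≤
      17 * 10 ^ 28 * (v.1 + x0 v * tS) := by
    rw [x0_eq v]
    have e1 := tS_lo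
    have e2 := tS_hi
    split_ifs with hs
    · have hsR : (0 : ℝ) ≤ ((17 * v.2.1 - 16 * v.1 : ℤ) : ℝ) := by exact_mod_cast hs
      have := mul_le_mul_of_nonneg_left e1 hsR
      push_cast at this ⊢
      linarith
    · have hsR : ((17 * v.2.1 - 16 * v.1 : ℤ) : ℝ) ≤ 0 := by exact_mod_cast (not_le.1 hs).le
      have := mul_le_mul_of_nonpos_left e2 hsR
      push_cast at this ⊢
      linarith
  have hVl : ((v.1 * bl + v.2.1 * gl - v.2.2 * S : ℤ) : ℝ) ≤ S * Vs v := by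
    have e1 := mul_le_mul_of_nonneg_left bS_lo (by linarith : (0 : ℝ) ≤ v.1)
    have e2 := mul_le_mul_of_nonneg_left gS_lo haR
    unfold Vs
    push_cast
    linarith
  have hVh : (S : ℝ) * Vs v ≤ ((v.1 * bh + v.2.1 * gh - v.2.2 * S : ℤ) : ℝ) := by
    have e1 := mul_le_mul_of_nonneg_left bS_hi (by linarith : (0 : ℝ) ≤ v.1)
    have e2 := mul_le_mul_of_nonneg_left gS_hi haR
    unfold Vs
    push_cast
    linarith
  unfold chk at h
  simp only [Bool.or_eq_true, Bool.and_eq_true, decide_eq_true_eq] at h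
  set y : ℤ := 170000000000000000000000000000 * v.1 + (if 0 ≤ 17 * v.2.1 - 16 * v.1 then
      (17 * v.2.1 - 16 * v.1) * tl else (17 * v.2.1 - 16 * v.1) * th) with hydef
  set Vl : ℤ := v.1 * bl + v.2.1 * gl - v.2.2 * S
  set Vh : ℤ := v.1 * bh + v.2.1 * gh - v.2.2 * S
  have hfin : ∀ W : ℝ, 0 ≤ W → W ≤ S * |Vs v| →
      3841 * 170000000000000000000000000000 * (S : ℝ) ≤ 10000 * (y : ℝ) * W →
      3841 / 10000 ≤ (v.1 + x0 v * tS) * |Vs v| := by
    intro W hW0 hW h1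
    have e1 : (y : ℝ) * W ≤ (17 * 10 ^ 28 * (v.1 + x0 v * tS)) * W :=
      mul_le_mul_of_nonneg_right hy hW0
    have e2 : (17 * 10 ^ 28 * (v.1 + x0 v * tS)) * W ≤
        (17 * 10 ^ 28 * (v.1 + x0 v * tS)) * (S * |Vs v|) :=
      mul_le_mul_of_nonneg_left hW (by positivity)
    have e3 : (3841 * (17 * 10 ^ 28)) * (S : ℝ) ≤
        (10000 * (17 * 10 ^ 28) * ((v.1 + x0 v * tS) * |Vs v|)) * S := by
      have : (3841 * (17 * 10 ^ 28) : ℝ) = 3841 * 170000000000000000000000000000 := by norm_num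
      rw [this]
      linarith
    have e4 := le_of_mul_le_mul_right e3 hSpos
    linarith
  rcases h with ⟨h0, h1⟩ | ⟨h0, h1⟩
  · apply hfin (Vl : ℝ) (by exact_mod_cast h0) _ (by exact_mod_cast h1)
    exact hVl.trans (mul_le_mul_of_nonneg_left (le_abs_self _) hSpos.le)
  · apply hfin (-(Vh : ℝ)) (by have : (Vh : ℝ) ≤ 0 := by exact_mod_cast h0
                               linarith) _ (by exact_mod_cast h1)
    have := mul_le_mul_of_nonneg_left (neg_abs_le (Vs v)) hSpos.le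
    linarith

/-- soundness of the check of a form -/
lemma lin_sound (Y0 Y1 : ℤ) (f v : V3) (hY0 : 2 ≤ Y0) (h : lin Y0 Y1 f = true)
    (hb0 : 0 ≤ v.1) (hb : v.1 ≤ Y1) (hx : |x0 v| < 1)
    (hV : (100 * (Y0 : ℝ) - 4) * |Vs v| ≤ 3841 / 100) : -1 ≤ ev f v ∧ ev f v ≤ 1 := by
  have hSpos : (0 : ℝ) < (S : ℝ) := by rw [S_cast]; positivity
  unfold lin at h
  simp only [decide_eq_true_eq, mx_eq, ab_eq] at h
  have hR : (1700 * (100 * (Y0 : ℝ) - 4) * max |(f.2.1 : ℝ) * S + f.2.2 * gl|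
      |(f.2.1 : ℝ) * S + f.2.2 * gh| + 100 * (100 * (Y0 : ℝ) - 4) * Y1 *
      max |17 * (S : ℝ) * f.1 + 16 * S * f.2.1 + f.2.2 * (17 * bl + 16 * gl)|
      |17 * (S : ℝ) * f.1 + 16 * S * f.2.1 + f.2.2 * (17 * bh + 16 * gh)| +
      |(f.2.2 : ℝ)| * 3841 * 17 * S < 3400 * S * (100 * (Y0 : ℝ) - 4)) := by
    exact_mod_cast h
  have hY0R : (2 : ℝ) ≤ Y0 := by exact_mod_cast hY0
  have hK : 0 < 100 * (Y0 : ℝ) - 4 := by linarith
  have hb0R : (0 : ℝ) ≤ v.1 := by exact_mod_cast hb0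
  have hbR : (v.1 : ℝ) ≤ Y1 := by exact_mod_cast hb
  -- the two coefficients
  have hA : |(f.2.1 : ℝ) * S + f.2.2 * (S * gS)| ≤ max |(f.2.1 : ℝ) * S + f.2.2 * gl|
      |(f.2.1 : ℝ) * S + f.2.2 * gh| := abs_lin_le _ _ _ _ _ gS_lo gS_hi
  have hB : |17 * (S : ℝ) * f.1 + 16 * S * f.2.1 + f.2.2 * (17 * (S * bS) + 16 * (S * gS))| ≤
      max |17 * (S : ℝ) * f.1 + 16 * S * f.2.1 + f.2.2 * (17 * bl + 16 * gl)|
      |17 * (S : ℝ) * f.1 + 16 * S * f.2.1 + f.2.2 * (17 * bh + 16 * gh)| := by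
    apply abs_lin_le
    · linarith [bS_lo, gS_lo]
    · linarith [bS_hi, gS_hi]
  set MA := max |(f.2.1 : ℝ) * S + f.2.2 * gl| |(f.2.1 : ℝ) * S + f.2.2 * gh|
  set MB := max |17 * (S : ℝ) * f.1 + 16 * S * f.2.1 + f.2.2 * (17 * bl + 16 * gl)|
      |17 * (S : ℝ) * f.1 + 16 * S * f.2.1 + f.2.2 * (17 * bh + 16 * gh)|
  have hMA : 0 ≤ MA := le_trans (abs_nonneg _) hA
  have hMB : 0 ≤ MB := le_trans (abs_nonneg _) hB
  have hid : 17 * S * (ev f v : ℝ) = 17 * (x0 v * ((f.2.1 : ℝ) * S + f.2.2 * (S * gS))) +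
      v.1 * (17 * (S : ℝ) * f.1 + 16 * S * f.2.1 + f.2.2 * (17 * (S * bS) + 16 * (S * gS))) -
      17 * S * (f.2.2 * Vs v) := by
    unfold ev x0 Vs
    push_cast
    ring
  have h1 : |x0 v * ((f.2.1 : ℝ) * S + f.2.2 * (S * gS))| ≤ MA := by
    rw [abs_mul]
    calc |x0 v| * |(f.2.1 : ℝ) * S + f.2.2 * (S * gS)| ≤ 1 * MA :=
          mul_le_mul hx.le hA (abs_nonneg _) (by norm_num)
      _ = MA := one_mul _
  have h2 : |v.1 * (17 * (S : ℝ) * f.1 + 16 * S * f.2.1 +
      f.2.2 * (17 * (S * bS) + 16 * (S * gS)))| ≤ Y1 * MB := by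
    rw [abs_mul, abs_of_nonneg hb0R]
    exact mul_le_mul hbR hB (abs_nonneg _) (by linarith)
  have h3 : (100 * (Y0 : ℝ) - 4) * |(f.2.2 : ℝ) * Vs v| ≤ |(f.2.2 : ℝ)| * (3841 / 100) := by
    rw [abs_mul]
    have := mul_le_mul_of_nonneg_left hV (abs_nonneg (f.2.2 : ℝ))
    linarith
  have h4 : |17 * (S : ℝ) * (ev f v : ℝ)| ≤ 17 * MA + Y1 * MB + 17 * S * |(f.2.2 : ℝ) * Vs v| := by
    rw [hid]
    have t1 := abs_sub (17 * (x0 v * ((f.2.1 : ℝ) * S + f.2.2 * (S * gS))) +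
      v.1 * (17 * (S : ℝ) * f.1 + 16 * S * f.2.1 + f.2.2 * (17 * (S * bS) + 16 * (S * gS))))
      (17 * S * (f.2.2 * Vs v))
    have t2 := abs_add_le (17 * (x0 v * ((f.2.1 : ℝ) * S + f.2.2 * (S * gS))))
      (v.1 * (17 * (S : ℝ) * f.1 + 16 * S * f.2.1 + f.2.2 * (17 * (S * bS) + 16 * (S * gS))))
    have t3 : |17 * (x0 v * ((f.2.1 : ℝ) * S + f.2.2 * (S * gS)))| =
        17 * |x0 v * ((f.2.1 : ℝ) * S + f.2.2 * (S * gS))| := by
      rw [abs_mul]; norm_num
    have t4 : |17 * S * (f.2.2 * Vs v)| = 17 * S * |(f.2.2 : ℝ) * Vs v| := by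
      rw [abs_mul, abs_of_pos (by positivity)]
    linarith
  have h5 : (100 * (Y0 : ℝ) - 4) * |17 * (S : ℝ) * (ev f v : ℝ)| <
      (100 * (Y0 : ℝ) - 4) * (34 * S) := by
    have s1 := mul_le_mul_of_nonneg_left h4 hK.le
    have s2 := mul_le_mul_of_nonneg_left h3 (by positivity : (0 : ℝ) ≤ 17 * S)
    nlinarith
  have h6 := lt_of_mul_lt_mul_left h5 hK.le
  rw [abs_mul, abs_of_pos (by positivity : (0 : ℝ) < 17 * S)] at h6
  have h7 : |(ev f v : ℝ)| < 2 := by
    have : 17 * (S : ℝ) * |(ev f v : ℝ)| < 17 * S * 2 := by linarith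
    exact lt_of_mul_lt_mul_left this (by positivity)
  have h8 : |ev f v| < 2 := by exact_mod_cast h7
  rw [abs_lt] at h8
  omega

/-- soundness of a rung -/
lemma rok_sound (r : Rung) (h : rok r = true) (v : V3) (h0 : r.Y0 ≤ v.1) (h1 : v.1 ≤ r.Y1)
    (hx : |x0 v| < 1) : 3841 / 10000 ≤ (v.1 + x0 v * tS) * |Vs v| := by
  unfold rok at h
  simp only [Bool.and_eq_true, decide_eq_true_eq, List.all_eq_true] at h
  obtain ⟨⟨⟨⟨⟨⟨hY0, hY1⟩, hid⟩, hl1⟩, hl2⟩, hl3⟩, hall⟩ := h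
  by_contra hcon
  push Not at hcon
  have hY0R : (2 : ℝ) ≤ r.Y0 := by exact_mod_cast hY0
  have h0R : (r.Y0 : ℝ) ≤ v.1 := by exact_mod_cast h0
  have ht := tS_small
  have hxl := abs_lt.1 hx
  have hV : (100 * (r.Y0 : ℝ) - 4) * |Vs v| ≤ 3841 / 100 := by
    have e1 : (r.Y0 : ℝ) - 4 / 100 ≤ v.1 + x0 v * tS := by nlinarith [ht.1, ht.2, hxl.1, hxl.2]
    have e2 := mul_le_mul_of_nonneg_right e1 (abs_nonneg (Vs v))
    linarith
  have hb0 : 0 ≤ v.1 := by omega
  have c1 := lin_sound r.Y0 r.Y1 r.f1 v hY0 hl1 hb0 h1 hx hV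
  have c2 := lin_sound r.Y0 r.Y1 r.f2 v hY0 hl2 hb0 h1 hx hV
  have c3 := lin_sound r.Y0 r.Y1 r.f3 v hY0 hl3 hb0 h1 hx hV
  have hv : v = comb r (ev r.f1 v) (ev r.f2 v) (ev r.f3 v) := by
    unfold idm at hid
    simp only [Bool.and_eq_true, decide_eq_true_eq] at hid
    obtain ⟨⟨⟨⟨⟨⟨⟨⟨i1, i2⟩, i3⟩, i4⟩, i5⟩, i6⟩, i7⟩, i8⟩, i9⟩ := hid
    unfold comb ev
    refine Prod.ext ?_ (Prod.ext ?_ ?_)
    · simp only
      linear_combination (-v.1) * i1 + (-v.2.1) * i2 + (-v.2.2) * i3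
    · simp only
      linear_combination (-v.1) * i4 + (-v.2.1) * i5 + (-v.2.2) * i6
    · simp only
      linear_combination (-v.1) * i7 + (-v.2.1) * i8 + (-v.2.2) * i9
  have mem : ∀ c : ℤ, -1 ≤ c ∧ c ≤ 1 → c ∈ tri := by
    intro c hc
    have : c = -1 ∨ c = 0 ∨ c = 1 := by omega
    unfold tri
    rcases this with h | h | h <;> simp [h]
  have hok := hall _ (mem _ c1) _ (mem _ c2) _ (mem _ c3)
  rw [← hv] at hok
  unfold okv at hok
  simp only [Bool.or_eq_true, Bool.and_eq_true, decide_eq_true_eq] at hok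
  rw [x0_eq v] at hxl
  have hx1 : (17 * v.2.1 - 16 * v.1 : ℤ) < 17 := by
    have : ((17 * v.2.1 - 16 * v.1 : ℤ) : ℝ) < 17 := by linarith [hxl.2]
    exact_mod_cast this
  have hx2 : -17 < (17 * v.2.1 - 16 * v.1 : ℤ) := by
    have : (-17 : ℝ) < ((17 * v.2.1 - 16 * v.1 : ℤ) : ℝ) := by linarith [hxl.1]
    exact_mod_cast this
  rcases hok with (((hok | hok) | hok) | hok) | ⟨hok, hok'⟩
  · omega
  · omega
  · omega
  · omega
  · have := chk_sound v (by omega) hok hx hok'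
    linarith

lemma chain_sound : ∀ (L : List Rung) (a : ℤ), chain a L = true → ∀ b : ℤ, a ≤ b →
    b ≤ 1340000000 → ∃ r ∈ L, r.Y0 ≤ b ∧ b ≤ r.Y1 := by
  intro L
  induction L with
  | nil =>
    intro a h b h1 h2
    simp only [chain, decide_eq_true_eq] at h
    omega
  | cons r L ih =>
    intro a h b h1 h2
    simp only [chain, Bool.and_eq_true, decide_eq_true_eq] at h
    rcases le_or_gt b r.Y1 with hb | hb
    · exact ⟨r, List.mem_cons_self, by omega, hb⟩
    · obtain ⟨s, hs, hs'⟩ := ih (r.Y1 + 1) h.2 b (by omega) h2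
      exact ⟨s, List.mem_cons_of_mem _ hs, hs'⟩

end S0m

open S0m in
theorem stmtS0 : S_S0 := by
  intro v h1 h2 hx
  obtain ⟨r, hr, hr0, hr1⟩ := chain_sound ladder 2 ladder_chain v.1 h1 h2
  exact rok_sound r (List.all_eq_true.1 ladder_ok r hr) v hr0 hr1 hx

end Pool.Agent.MDX
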