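import Mathlib
import Pool.Agent.MDX.Stmts

/-!
Module MDX_S1: the ladder scan of the optimal lattice, limit shape (`s1.txt`, 26 rungs), by an integer
checker (fixed point arithmetic with `41` decimal places) evaluated in the kernel.
-/

namespace Pool.Agent.MDX

namespace S1m

/-! ### The checker -/

/-- the scale `10 ^ 41` -/
def S : ℤ := 10 ^ 41
/-- `⌊S s*⌋` -/
def B0 : ℤ := 39320378507698302156292974967109797940444
/-- `⌊S γ*⌋` -/
def G0 : ℤ := -1190098719766133442460102656043072401448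
/-- the coefficient of `b` in `S H`, rounded down -/
def HB : ℤ := -14812533341858689728035019828711818009851555
/-- the coefficient of `a` in `S H`, rounded down -/
def HA : ℤ := 3663857564711780424782628676375072288940390
/-- the coefficient of `n` in `S H`, rounded down -/
def HN : ℤ := 30010762044859212425220215744886234549263013
/-- `⌊10 ^ 25 cT⌋` -/
def CT0 : ℤ := 3001076204485921242522021574
/-- `17 B0 + 16 G0` -/
def E17 : ℤ := 17 * B0 + 16 * G0

/-- absolute value, for the kernel -/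
def ab (x : ℤ) : ℤ := (x.natAbs : ℤ)

/-- the product of a vector is large, or the vector is not in the rung -/
def okv (Y0 Y1 b a n : ℤ) : Bool :=
  decide (17 ≤ ab (17 * a - 16 * b)) ||
  decide ((b * HB + a * HA + n * HN) + (ab b + ab a + ab n) < Y0 * S) ||
  decide (Y1 * S < (b * HB + a * HA + n * HN) - (ab b + ab a + ab n)) ||
  (decide (0 ≤ 100000 * ((b * HB + a * HA + n * HN) - (ab b + ab a + ab n)) - S) &&
    decide (0 ≤ ab (b * B0 + a * G0 - n * S) - (ab b + ab a + ab n)) &&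
    decide (38410 * S * S ≤ (100000 * ((b * HB + a * HA + n * HN) - (ab b + ab a + ab n)) - S) *
      (ab (b * B0 + a * G0 - n * S) - (ab b + ab a + ab n))))

/-- bound `17 S |β|` -/
def bB (f : V3) : ℤ := ab (17 * S * f.1 + 16 * S * f.2.1 + f.2.2 * E17) + 33 * ab f.2.2

/-- bound for `17 S P |α|` -/
def bA (f : V3) : ℤ :=
  ab (20633580 * (f.2.1 * S + f.2.2 * G0) -
    40134739 * (17 * S * f.1 + 16 * S * f.2.1 + f.2.2 * E17)) +
    20633580 * ab f.2.2 + 40134739 * (33 * ab f.2.2)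

/-- bound for `17 S Q |γ|` -/
def bG (f : V3) : ℤ :=
  ab (CT0 * (17 * S * f.1 + 16 * S * f.2.1 + f.2.2 * E17) - 10 ^ 25 * 17 * S * f.2.2) +
    (CT0 + 1) * (33 * ab f.2.2) + ab (17 * S * f.1 + 16 * S * f.2.1 + f.2.2 * E17)

/-- the coordinate form `f` has absolute value `< R + 1` on the rung -/
def cb (Y0 Y1 : ℤ) (f : V3) (R : ℤ) : Bool :=
  decide (bB f * Y1 * 1213740 * 10 ^ 25 * (100000 * Y0 - 1) +
    bA f * 10 ^ 25 * (100000 * Y0 - 1) + bG f * 1213740 * 38410 <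
      (R + 1) * 17 * S * 1213740 * 10 ^ 25 * (100000 * Y0 - 1))

/-- a rung of the ladder -/
structure Rung where
  /-- lower end -/
  Y0 : ℤ
  /-- upper end -/
  Y1 : ℤ
  /-- basis -/
  e1 : V3
  /-- basis -/
  e2 : V3
  /-- basis -/
  e3 : V3
  /-- dual basis -/
  f1 : V3
  /-- dual basis -/
  f2 : V3
  /-- dual basis -/
  f3 : V3
  /-- bound -/
  R1 : ℤ
  /-- bound -/
  R2 : ℤ
  /-- bound -/
  R3 : ℤ

/-- range of a coordinate -/
def rng (R : ℤ) : List ℤ := if R = 0 then [0] else [-1, 0, 1]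

/-- one rung is correct -/
def okr (r : Rung) : Bool :=
  decide (1 ≤ r.Y0) && decide (0 ≤ r.Y1) &&
  decide (r.R1 ≤ 1 ∧ r.R2 ≤ 1 ∧ r.R3 ≤ 1) &&
  decide (r.e1.1 * r.f1.1 + r.e2.1 * r.f2.1 + r.e3.1 * r.f3.1 = 1) &&
  decide (r.e1.1 * r.f1.2.1 + r.e2.1 * r.f2.2.1 + r.e3.1 * r.f3.2.1 = 0) &&
  decide (r.e1.1 * r.f1.2.2 + r.e2.1 * r.f2.2.2 + r.e3.1 * r.f3.2.2 = 0) &&
  decide (r.e1.2.1 * r.f1.1 + r.e2.2.1 * r.f2.1 + r.e3.2.1 * r.f3.1 = 0) &&
  decide (r.e1.2.1 * r.f1.2.1 + r.e2.2.1 * r.f2.2.1 + r.e3.2.1 * r.f3.2.1 = 1) &&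
  decide (r.e1.2.1 * r.f1.2.2 + r.e2.2.1 * r.f2.2.2 + r.e3.2.1 * r.f3.2.2 = 0) &&
  decide (r.e1.2.2 * r.f1.1 + r.e2.2.2 * r.f2.1 + r.e3.2.2 * r.f3.1 = 0) &&
  decide (r.e1.2.2 * r.f1.2.1 + r.e2.2.2 * r.f2.2.1 + r.e3.2.2 * r.f3.2.1 = 0) &&
  decide (r.e1.2.2 * r.f1.2.2 + r.e2.2.2 * r.f2.2.2 + r.e3.2.2 * r.f3.2.2 = 1) &&
  cb r.Y0 r.Y1 r.f1 r.R1 && cb r.Y0 r.Y1 r.f2 r.R2 && cb r.Y0 r.Y1 r.f3 r.R3 &&
  (rng r.R1).all fun i => (rng r.R2).all fun j => (rng r.R3).all fun k =>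
    okv r.Y0 r.Y1 (i * r.e1.1 + j * r.e2.1 + k * r.e3.1)
      (i * r.e1.2.1 + j * r.e2.2.1 + k * r.e3.2.1) (i * r.e1.2.2 + j * r.e2.2.2 + k * r.e3.2.2)

/-- the ladder from `Y` to `Z` -/
def okl : ℤ → ℤ → List Rung → Bool
  | Y, Z, [] => decide (Z ≤ Y)
  | Y, Z, r :: l => decide (r.Y0 = Y) && okr r && okl r.Y1 Z l

/-- the data -/
def rungs : List Rung :=
  [⟨33, 66, (34, 31, 13), (34, 32, 13), (55, 52, 21),
    (4, -1, -8), (-25, 1, 63), (13, 0, -34), 1, 1, 1⟩,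
  ⟨66, 132, (34, 31, 13), (89, 84, 34), (55, 52, 21),
    (4, -1, -8), (-25, 1, 63), (38, -1, -97), 1, 1, 1⟩,
  ⟨132, 264, (34, 31, 13), (144, 136, 55), (-267, -251, -102),
    (67, -3, -168), (101, -3, -257), (63, -2, -160), 1, 1, 1⟩,
  ⟨264, 528, (34, 31, 13), (411, 387, 157), (-267, -251, -102),
    (67, -3, -168), (101, -3, -257), (164, -5, -417), 1, 1, 1⟩,
  ⟨528, 1056, (34, 31, 13), (678, 638, 259), (411, 387, 157),
    (67, -3, -168), (-164, 5, 417), (265, -8, -674), 1, 1, 1⟩,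
  ⟨1056, 2112, (34, 31, 13), (1089, 1025, 416), (-1767, -1663, -675),
    (67, -3, -168), (694, -21, -1765), (429, -13, -1091), 1, 1, 1⟩,
  ⟨2112, 4224, (34, 31, 13), (2856, 2688, 1091), (-1767, -1663, -675),
    (67, -3, -168), (694, -21, -1765), (1123, -34, -2856), 1, 1, 1⟩,
  ⟨4224, 8448, (34, 31, 13), (4623, 4351, 1766), (7479, 7039, 2857),
    (67, -3, -168), (-2940, 89, 7477), (1817, -55, -4621), 1, 1, 1⟩,
  ⟨8448, 16896, (34, 31, 13), (12102, 11390, 4623), (7479, 7039, 2857),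
    (67, -3, -168), (-2940, 89, 7477), (4757, -144, -12098), 1, 1, 1⟩,
  ⟨16896, 33792, (34, 31, 13), (19581, 18429, 7480), (-31683, -29819, -12103),
    (67, -3, -168), (12454, -377, -31673), (7697, -233, -19575), 1, 1, 1⟩,
  ⟨33792, 67584, (34, 31, 13), (51264, 48248, 19583), (-31683, -29819, -12103),
    (67, -3, -168), (12454, -377, -31673), (20151, -610, -51248), 1, 1, 1⟩,
  ⟨67584, 135168, (34, 31, 13), (82913, 78036, 31673), (51264, 48248, 19583),
    (-20084, 607, 51080), (-20151, 610, 51248), (32605, -987, -82921), 1, 1, 1⟩,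
  ⟨135168, 270336, (34, 31, 13), (134177, 126284, 51256), (-217090, -204320, -82929),
    (-20084, 607, 51080), (85361, -2584, -217090), (52756, -1597, -134169), 1, 1, 1⟩,
  ⟨270336, 540672, (351267, 330604, 134185), (217056, 204289, 82916), (-217090, -204320, -82929),
    (85361, -2584, -217090), (20084, -607, -51080), (158201, -4788, -402339), 1, 1, 1⟩,
  ⟨540672, 1081344, (568357, 534924, 217114), (217056, 204289, 82916), (919624, 865528, 351299),
    (-401763, 12160, 1021768), (20084, -607, -51080), (243562, -7372, -619429), 1, 1, 1⟩,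
  ⟨1081344, 2162688, (1705037, 1604741, 651329), (217056, 204289, 82916), (919624, 865528, 351299),
    (-401763, 12160, 1021768), (421847, -12767, -1072848), (645325, -19532, -1641197), 1, 1, 1⟩,
  ⟨2162688, 4325376, (2624661, 2470269, 1002628), (217056, 204289, 82916), (-1705037, -1604741, -651329),
    (645325, -19532, -1641197), (421847, -12767, -1072848), (1047088, -31692, -2662965), 1, 1, 1⟩,
  ⟨4325376, 8650752, (4329698, 4075010, 1653957), (217056, 204289, 82916), (6954359, 6545279, 2656585),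
    (-2739501, 82916, 6967127), (421847, -12767, -1072848), (1692413, -51224, -4304162), 1, 1, 1⟩,
  ⟨8650752, 17301504, (11284057, 10620289, 4310542), (-6737303, -6340990, -2573669), (6954359, 6545279, 2656585),
    (-2739501, 82916, 6967127), (421847, -12767, -1072848), (4853761, -146907, -12344137), 1, 1, 1⟩,
  ⟨17301504, 34603008, (18238416, 17165568, 6967127), (11501113, 10824578, 4393458), (-29522473, -27785857, -11277669),
    (12025176, -363963, -30582553), (421847, -12767, -1072848), (7593262, -229823, -19311264), 1, 1, 1⟩,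
  ⟨34603008, 69206016, (47760889, 44951425, 18244796), (-36259776, -34126847, -13851338), (-29522473, -27785857, -11277669),
    (12447023, -376730, -31655401), (421847, -12767, -1072848), (19618438, -593786, -49893817), 1, 1, 1⟩,
  ⟨69206016, 138412032, (77283362, 72737282, 29522465), (-36259776, -34126847, -13851338), (125044251, 117688707, 47767261),
    (-51683899, 1564302, 131443035), (421847, -12767, -1072848), (32065461, -970516, -81549218), 1, 1, 1⟩,
  ⟨138412032, 276824064, (202327613, 190425989, 77289726), (-36259776, -34126847, -13851338), (125044251, 117688707, 47767261),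
    (-51683899, 1564302, 131443035), (421847, -12767, -1072848), (83749360, -2534818, -212992253), 1, 1, 1⟩,
  ⟨276824064, 553648128, (327371864, 308114696, 125056987), (-36259776, -34126847, -13851338), (-202327613, -190425989, -77289726),
    (83749360, -2534818, -212992253), (421847, -12767, -1072848), (135433259, -4099120, -344435288), 1, 1, 1⟩,
  ⟨553648128, 1107296256, (565959253, 532667532, 216198051), (-36259776, -34126847, -13851338), (893331117, 840782228, 341255038),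
    (-354615878, 10733058, 901862829), (-135011412, 4086353, 343362440), (219182619, -6633938, -557427541), 1, 1, 1⟩,
  ⟨1107296256, 1340000000, (1459290370, 1373449760, 557453089), (-36259776, -34126847, -13851338), (893331117, 840782228, 341255038),
    (-354615878, 10733058, 901862829), (-135011412, 4086353, 343362440), (573798497, -17366996, -1459290370), 0, 1, 0⟩]

/-! ### Soundness -/

noncomputable section

lemma ab_cast (x : ℤ) : ((ab x : ℤ) : ℝ) = |(x : ℝ)| := by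
  unfold ab
  rw [← Int.cast_abs, Int.abs_eq_natAbs]

lemma S_cast : ((S : ℤ) : ℝ) = 10 ^ 41 := by unfold S; norm_num

lemma S_pos : (0 : ℝ) < ((S : ℤ) : ℝ) := by rw [S_cast]; positivity

lemma B0_b : (B0 : ℝ) ≤ S * bS ∧ S * bS ≤ B0 + 1 := by
  have h := bS_bounds
  rw [S_cast]
  unfold B0
  norm_num at h ⊢
  constructor <;> linarith

lemma G0_b : (G0 : ℝ) ≤ S * gS ∧ S * gS ≤ G0 + 1 := by
  have h := gS_bounds
  rw [S_cast]
  unfold G0
  norm_num at h ⊢
  constructor <;> linarith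

/-- the coefficient of `b` in `H` -/
def hb : ℝ := -(9140033 / 606870) - 24847013 / 151093839930 * sD
/-- the coefficient of `a` in `H` -/
def ha : ℝ := 40134739 / 2427480 + 2002243 / 80583381296 * sD
/-- the coefficient of `n` in `H` -/
def hn : ℝ := 28019434 / 75546919965 * sD

lemma Hs_eq (v : V3) : Hs v = v.1 * hb + v.2.1 * ha + v.2.2 * hn := rfl

lemma HB_b : (HB : ℝ) ≤ S * hb ∧ S * hb ≤ HB + 1 := by
  have h1 := sD_lo
  have h2 := sD_hi
  rw [S_cast]
  unfold HB hb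
  norm_num at h1 h2 ⊢
  constructor <;> linarith

lemma HA_b : (HA : ℝ) ≤ S * ha ∧ S * ha ≤ HA + 1 := by
  have h1 := sD_lo
  have h2 := sD_hi
  rw [S_cast]
  unfold HA ha
  norm_num at h1 h2 ⊢
  constructor <;> linarith

lemma HN_b : (HN : ℝ) ≤ S * hn ∧ S * hn ≤ HN + 1 := by
  have h1 := sD_lo
  have h2 := sD_hi
  rw [S_cast]
  unfold HN hn
  norm_num at h1 h2 ⊢
  constructor <;> linarith

lemma CT_b : (CT0 : ℝ) ≤ 10 ^ 25 * cT ∧ 10 ^ 25 * cT ≤ CT0 + 1 := by
  have h := cT_bounds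
  unfold CT0
  norm_num at h ⊢
  constructor <;> linarith

/-- rounding error of an integer multiple -/
lemma err (m x y : ℝ) (h : y ≤ x ∧ x ≤ y + 1) : |m * x - m * y| ≤ |m| := by
  rw [← mul_sub, abs_mul]
  have : |x - y| ≤ 1 := abs_le.2 ⟨by linarith [h.1], by linarith [h.2]⟩
  calc |m| * |x - y| ≤ |m| * 1 := by gcongr
    _ = |m| := mul_one _

lemma H_err (b a n : ℤ) : |S * Hs (b, a, n) - (b * HB + a * HA + n * HN)| ≤
    |(b : ℝ)| + |(a : ℝ)| + |(n : ℝ)| := by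
  have h1 := abs_le.1 (err b _ _ HB_b)
  have h2 := abs_le.1 (err a _ _ HA_b)
  have h3 := abs_le.1 (err n _ _ HN_b)
  have e : S * Hs (b, a, n) = b * (S * hb) + a * (S * ha) + n * (S * hn) := by
    rw [Hs_eq]; ring
  rw [e, abs_le]
  constructor <;> linarith

lemma V_err (b a n : ℤ) : |S * Vs (b, a, n) - (b * B0 + a * G0 - n * S)| ≤
    |(b : ℝ)| + |(a : ℝ)| + |(n : ℝ)| := by
  have h1 := abs_le.1 (err b _ _ B0_b)
  have h2 := abs_le.1 (err a _ _ G0_b)
  have h3 := abs_nonneg (n : ℝ)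
  have e : S * Vs (b, a, n) = b * (S * bS) + a * (S * gS) - n * S := by
    unfold Vs; ring
  rw [e, abs_le]
  constructor <;> linarith

lemma okv_sound {Y0 Y1 b a n : ℤ} (h : okv Y0 Y1 b a n = true) (h1 : (Y0 : ℝ) ≤ Hs (b, a, n))
    (h2 : Hs (b, a, n) ≤ Y1) (h3 : |x0 (b, a, n)| < 1) :
    3841 / 10000 ≤ (Hs (b, a, n) - 1 / 100000) * |Vs (b, a, n)| := by
  have hS := S_pos
  have e1 := abs_le.1 (H_err b a n)
  have e2 := V_err b a n
  unfold okv at h
  simp only [Bool.or_eq_true, Bool.and_eq_true, decide_eq_true_eq] at h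
  rcases h with ((h | h) | h) | ⟨⟨q1, q2⟩, q3⟩
  · exfalso
    have q : (17 : ℝ) ≤ ((ab (17 * a - 16 * b) : ℤ) : ℝ) := by exact_mod_cast h
    rw [ab_cast] at q
    push_cast at q
    have e : (17 * (a : ℝ) - 16 * b) = 17 * x0 (b, a, n) := by unfold x0; ring
    rw [e, abs_mul, abs_of_pos (by norm_num : (0 : ℝ) < 17)] at q
    linarith
  · exfalso
    have q : (((b * HB + a * HA + n * HN) + (ab b + ab a + ab n) : ℤ) : ℝ) < ((Y0 * S : ℤ) : ℝ) := by
      exact_mod_cast h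
    push_cast [ab_cast] at q
    have : (S : ℝ) * Y0 ≤ S * Hs (b, a, n) := by gcongr
    linarith [e1.2]
  · exfalso
    have q : ((Y1 * S : ℤ) : ℝ) < (((b * HB + a * HA + n * HN) - (ab b + ab a + ab n) : ℤ) : ℝ) := by
      exact_mod_cast h
    push_cast [ab_cast] at q
    have : (S : ℝ) * Hs (b, a, n) ≤ S * Y1 := by gcongr
    linarith [e1.1]
  · have r1 : (0 : ℝ) ≤ ((100000 * ((b * HB + a * HA + n * HN) - (ab b + ab a + ab n)) - S : ℤ) : ℝ) := by
      exact_mod_cast q1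
    have r2 : (0 : ℝ) ≤ ((ab (b * B0 + a * G0 - n * S) - (ab b + ab a + ab n) : ℤ) : ℝ) := by
      exact_mod_cast q2
    have r3 : ((38410 * S * S : ℤ) : ℝ) ≤
        (((100000 * ((b * HB + a * HA + n * HN) - (ab b + ab a + ab n)) - S) *
      (ab (b * B0 + a * G0 - n * S) - (ab b + ab a + ab n)) : ℤ) : ℝ) := by exact_mod_cast q3
    push_cast [ab_cast] at r1 r2 r3
    set t : ℝ := 100000 * ((b * HB + a * HA + n * HN) - (|(b : ℝ)| + |(a : ℝ)| + |(n : ℝ)|)) - S with ht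
    set u : ℝ := |(b : ℝ) * B0 + a * G0 - n * S| - (|(b : ℝ)| + |(a : ℝ)| + |(n : ℝ)|) with hu
    have s1 : t ≤ 100000 * S * (Hs (b, a, n) - 1 / 100000) := by
      rw [ht]; linarith [e1.1]
    have s2 : u ≤ S * |Vs (b, a, n)| := by
      have h5 := abs_sub_abs_le_abs_sub ((b : ℝ) * B0 + a * G0 - n * S) (S * Vs (b, a, n))
      have h6 := abs_sub_comm ((b : ℝ) * B0 + a * G0 - n * S) (S * Vs (b, a, n))
      rw [abs_mul, abs_of_pos hS] at h5
      rw [hu]; linarith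
    have s3 : t * u ≤ (100000 * S * (Hs (b, a, n) - 1 / 100000)) * (S * |Vs (b, a, n)|) := by
      have := r1.trans s1
      exact mul_le_mul s1 s2 r2 this
    have s4 : 38410 * S * S ≤ 100000 * S * S * ((Hs (b, a, n) - 1 / 100000) * |Vs (b, a, n)|) := by
      calc (38410 * S * S : ℝ) ≤ t * u := r3
        _ ≤ _ := s3
        _ = _ := by ring
    have s5 : 0 < (100000 : ℝ) * S * S := by positivity
    by_contra hcon
    rw [not_le] at hcon
    have s6 := mul_lt_mul_of_pos_left hcon s5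
    have s7 : (100000 : ℝ) * S * S * (3841 / 10000) = 38410 * S * S := by ring
    linarith

/-- bounds for the three coefficients of a coordinate form -/
lemma coef (f : V3) :
    17 * S * |(f.1 : ℝ) + 16 * f.2.1 / 17 + f.2.2 * (bS + 16 / 17 * gS)| ≤ bB f ∧
    17 * S * 1213740 * |((f.1 : ℝ) + 16 * f.2.1 / 17 + f.2.2 * (bS + 16 / 17 * gS)) * cX +
      (f.2.1 + f.2.2 * gS)| ≤ bA f ∧
    17 * S * 10 ^ 25 * |((f.1 : ℝ) + 16 * f.2.1 / 17 + f.2.2 * (bS + 16 / 17 * gS)) * cT -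
      f.2.2| ≤ bG f := by
  have hS := S_pos
  set β : ℝ := (f.1 : ℝ) + 16 * f.2.1 / 17 + f.2.2 * (bS + 16 / 17 * gS) with hβ
  set βt : ℝ := 17 * S * f.1 + 16 * S * f.2.1 + f.2.2 * E17 with hβt
  set e : ℝ := f.2.2 * (17 * (S * bS) + 16 * (S * gS) - E17) with he
  have e1 : 17 * S * β = βt + e := by rw [hβ, hβt, he]; ring
  have e2 : |e| ≤ 33 * |(f.2.2 : ℝ)| := by
    rw [he, abs_mul, mul_comm]
    have : |17 * (S * bS) + 16 * (S * gS) - E17| ≤ 33 := by
      have h1 := B0_b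
      have h2 := G0_b
      have h3 : (E17 : ℝ) = 17 * B0 + 16 * G0 := by unfold E17; push_cast; ring
      rw [h3, abs_le]
      constructor <;> linarith [h1.1, h1.2, h2.1, h2.2]
    gcongr
  refine ⟨?_, ?_, ?_⟩
  · unfold bB
    push_cast [ab_cast]
    rw [← hβt]
    calc 17 * S * |β| = |17 * S * β| := by
          rw [abs_mul, abs_of_pos (by positivity : (0 : ℝ) < 17 * S)]
      _ = |βt + e| := by rw [e1]
      _ ≤ |βt| + |e| := abs_add_le _ _
      _ ≤ |βt| + 33 * |(f.2.2 : ℝ)| := by gcongr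
  · unfold bA
    push_cast [ab_cast]
    rw [← hβt]
    set g : ℝ := f.2.2 * (S * gS) - f.2.2 * G0 with hg
    have e3 : |g| ≤ |(f.2.2 : ℝ)| := err _ _ _ G0_b
    have e4 : 17 * S * 1213740 * (β * cX + (f.2.1 + f.2.2 * gS)) =
        (20633580 * (f.2.1 * S + f.2.2 * G0) - 40134739 * βt) + 20633580 * g -
          40134739 * e := by
      have : 17 * S * 1213740 * (β * cX + (f.2.1 + f.2.2 * gS)) =
        (17 * S * β) * (1213740 * cX) + 17 * S * 1213740 * (f.2.1 + f.2.2 * gS) := by ring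
      rw [this, e1, hg]
      have : (1213740 : ℝ) * cX = -40134739 := by unfold cX; norm_num
      rw [this]
      ring
    calc 17 * S * 1213740 * |β * cX + (f.2.1 + f.2.2 * gS)|
        = |17 * S * 1213740 * (β * cX + (f.2.1 + f.2.2 * gS))| := by
          rw [abs_mul (17 * (S : ℝ) * 1213740),
            abs_of_pos (by positivity : (0 : ℝ) < 17 * S * 1213740)]
      _ ≤ |20633580 * ((f.2.1 : ℝ) * S + f.2.2 * G0) - 40134739 * βt| + 20633580 * |g| +
          40134739 * |e| := by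
          rw [e4]
          refine (abs_sub _ _).trans ?_
          refine add_le_add ((abs_add_le _ _).trans (add_le_add le_rfl ?_)) ?_
          · rw [abs_mul, abs_of_pos (by norm_num : (0 : ℝ) < 20633580)]
          · rw [abs_mul, abs_of_pos (by norm_num : (0 : ℝ) < 40134739)]
      _ ≤ _ := by gcongr
  · unfold bG
    push_cast [ab_cast]
    rw [← hβt]
    obtain ⟨h1, h2⟩ := CT_b
    set θ : ℝ := 10 ^ 25 * cT - CT0 with hθ
    have e3 : |θ| ≤ 1 := abs_le.2 ⟨by rw [hθ]; linarith, by rw [hθ]; linarith⟩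
    have hC0 : (0 : ℝ) ≤ CT0 := by unfold CT0; norm_num
    have e4 : 17 * S * 10 ^ 25 * (β * cT - f.2.2) =
        (CT0 * βt - 10 ^ 25 * 17 * S * f.2.2) + CT0 * e + θ * βt + θ * e := by
      have : 17 * S * 10 ^ 25 * (β * cT - f.2.2) =
        (17 * S * β) * (10 ^ 25 * cT) - 17 * S * 10 ^ 25 * f.2.2 := by ring
      rw [this, e1, hθ]
      ring
    calc 17 * S * 10 ^ 25 * |β * cT - f.2.2|
        = |17 * S * 10 ^ 25 * (β * cT - f.2.2)| := by
          rw [abs_mul (17 * (S : ℝ) * 10 ^ 25),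
            abs_of_pos (by positivity : (0 : ℝ) < 17 * S * 10 ^ 25)]
      _ ≤ |CT0 * βt - 10 ^ 25 * 17 * S * f.2.2| + CT0 * |e| + |θ| * |βt| + |θ| * |e| := by
          rw [e4]
          refine (abs_add_le _ _).trans (add_le_add ?_ (abs_mul _ _).le)
          refine (abs_add_le _ _).trans (add_le_add ?_ (abs_mul _ _).le)
          refine (abs_add_le _ _).trans (add_le_add le_rfl ?_)
          rw [abs_mul, abs_of_nonneg hC0]
      _ ≤ |CT0 * βt - 10 ^ 25 * 17 * S * f.2.2| + CT0 * (33 * |(f.2.2 : ℝ)|) + 1 * |βt| +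
          1 * (33 * |(f.2.2 : ℝ)|) := by gcongr
      _ = _ := by ring_nf

lemma cb_sound {Y0 Y1 : ℤ} {f : V3} {R : ℤ} (hY0 : 1 ≤ Y0) (hY1 : 0 ≤ Y1)
    (h : cb Y0 Y1 f R = true) {v : V3} (h1 : (Y0 : ℝ) ≤ Hs v)
    (h2 : Hs v ≤ Y1) (h3 : |x0 v| < 1) (h4 : (Hs v - 1 / 100000) * |Vs v| < 3841 / 10000) :
    |f.1 * v.1 + f.2.1 * v.2.1 + f.2.2 * v.2.2| ≤ R := by
  have hS := S_pos
  obtain ⟨c1, c2, c3⟩ := coef f
  set β : ℝ := (f.1 : ℝ) + 16 * f.2.1 / 17 + f.2.2 * (bS + 16 / 17 * gS) with hβ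
  set α : ℝ := β * cX + (f.2.1 + f.2.2 * gS) with hα
  set γ : ℝ := β * cT - f.2.2 with hγ
  have hb := b_eq v
  set c : ℝ := f.1 * v.1 + f.2.1 * v.2.1 + f.2.2 * v.2.2 with hc
  have e : c = β * Hs v + α * x0 v + γ * Vs v := by
    have e1 : c = β * v.1 + (f.2.1 + f.2.2 * gS) * x0 v - f.2.2 * Vs v := by
      rw [hc, hβ]; unfold x0 Vs; ring
    rw [e1, hα, hγ]
    linear_combination β * hb
  have hY0' : (1 : ℝ) ≤ Y0 := by exact_mod_cast hY0
  have hY1' : (0 : ℝ) ≤ Y1 := by exact_mod_cast hY1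
  set W : ℝ := 100000 * Y0 - 1 with hW
  have hW0 : 0 < W := by rw [hW]; linarith
  have hV : W * |Vs v| ≤ 38410 := by
    have : W * |Vs v| ≤ 100000 * ((Hs v - 1 / 100000) * |Vs v|) := by
      rw [← mul_assoc]
      refine mul_le_mul_of_nonneg_right ?_ (abs_nonneg _)
      rw [hW]; linarith
    linarith
  have hH : |Hs v| ≤ Y1 := by rw [abs_of_nonneg (by linarith)]; exact h2
  have k1 : |c| ≤ |β| * Y1 + |α| + |γ| * |Vs v| := by
    rw [e]
    calc |β * Hs v + α * x0 v + γ * Vs v| ≤ |β * Hs v| + |α * x0 v| + |γ * Vs v| :=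
          (abs_add_le _ _).trans (add_le_add (abs_add_le _ _) le_rfl)
      _ = |β| * |Hs v| + |α| * |x0 v| + |γ| * |Vs v| := by rw [abs_mul, abs_mul, abs_mul]
      _ ≤ |β| * Y1 + |α| * 1 + |γ| * |Vs v| := by gcongr
      _ = _ := by rw [mul_one]
  have k2 : |c| * (17 * S * 1213740 * 10 ^ 25 * W) ≤
      bB f * Y1 * 1213740 * 10 ^ 25 * W + bA f * 10 ^ 25 * W + bG f * 1213740 * 38410 := by
    calc |c| * (17 * S * 1213740 * 10 ^ 25 * W)
        ≤ (|β| * Y1 + |α| + |γ| * |Vs v|) * (17 * S * 1213740 * 10 ^ 25 * W) := by gcongr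
      _ = (17 * S * |β|) * Y1 * 1213740 * 10 ^ 25 * W + (17 * S * 1213740 * |α|) * 10 ^ 25 * W +
          (17 * S * 10 ^ 25 * |γ|) * 1213740 * (W * |Vs v|) := by ring
      _ ≤ bB f * Y1 * 1213740 * 10 ^ 25 * W + bA f * 10 ^ 25 * W +
          (17 * S * 10 ^ 25 * |γ|) * 1213740 * 38410 := by gcongr
      _ ≤ _ := by gcongr
  have k3 : (((bB f * Y1 * 1213740 * 10 ^ 25 * (100000 * Y0 - 1) +
    bA f * 10 ^ 25 * (100000 * Y0 - 1) + bG f * 1213740 * 38410 : ℤ)) : ℝ) <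
      (((R + 1) * 17 * S * 1213740 * 10 ^ 25 * (100000 * Y0 - 1) : ℤ) : ℝ) := by
    unfold cb at h
    exact_mod_cast of_decide_eq_true h
  push_cast at k3
  have q25 : (10000000000000000000000000 : ℝ) = 10 ^ 25 := by norm_num
  rw [← hW, q25] at k3
  have k4 : |c| * (17 * S * 1213740 * 10 ^ 25 * W) < (R + 1) * (17 * S * 1213740 * 10 ^ 25 * W) := by
    refine k2.trans_lt (k3.trans_eq ?_)
    ring
  have k5 : |c| < R + 1 := lt_of_mul_lt_mul_right k4 (by positivity)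
  have k6 : ((|f.1 * v.1 + f.2.1 * v.2.1 + f.2.2 * v.2.2| : ℤ) : ℝ) < ((R + 1 : ℤ) : ℝ) := by
    push_cast
    exact k5
  have k7 : |f.1 * v.1 + f.2.1 * v.2.1 + f.2.2 * v.2.2| < R + 1 := by exact_mod_cast k6
  omega

lemma mem_rng {R c : ℤ} (h : |c| ≤ R) (hR : R ≤ 1) : c ∈ rng R := by
  have h1 := abs_le.1 h
  unfold rng
  split_ifs with h0
  · simp only [List.mem_singleton]; omega
  · simp only [List.mem_cons, List.not_mem_nil, or_false]; omega

lemma okr_sound {r : Rung} (h : okr r = true) (v : V3) (h1 : (r.Y0 : ℝ) ≤ Hs v)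
    (h2 : Hs v ≤ r.Y1) (h3 : |x0 v| < 1) :
    3841 / 10000 ≤ (Hs v - 1 / 100000) * |Vs v| := by
  by_contra h4
  rw [not_le] at h4
  unfold okr at h
  simp only [Bool.and_eq_true, decide_eq_true_eq] at h
  obtain ⟨⟨⟨⟨⟨⟨⟨⟨⟨⟨⟨⟨⟨⟨⟨a1, a2⟩, a3⟩, b1⟩, b2⟩, b3⟩, b4⟩, b5⟩, b6⟩, b7⟩, b8⟩, b9⟩, c1⟩, c2⟩, c3⟩, d⟩ := h
  obtain ⟨r1, r2, r3⟩ := a3
  have m1 := mem_rng (cb_sound a1 a2 c1 h1 h2 h3 h4) r1
  have m2 := mem_rng (cb_sound a1 a2 c2 h1 h2 h3 h4) r2
  have m3 := mem_rng (cb_sound a1 a2 c3 h1 h2 h3 h4) r3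
  rw [List.all_eq_true] at d
  have d1 := d _ m1
  rw [List.all_eq_true] at d1
  have d2 := d1 _ m2
  rw [List.all_eq_true] at d2
  have d3 := d2 _ m3
  obtain ⟨b, a, n⟩ := v
  have e1 : (r.f1.1 * b + r.f1.2.1 * a + r.f1.2.2 * n) * r.e1.1 +
      (r.f2.1 * b + r.f2.2.1 * a + r.f2.2.2 * n) * r.e2.1 +
      (r.f3.1 * b + r.f3.2.1 * a + r.f3.2.2 * n) * r.e3.1 = b := by
    linear_combination b * b1 + a * b2 + n * b3
  have e2 : (r.f1.1 * b + r.f1.2.1 * a + r.f1.2.2 * n) * r.e1.2.1 +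
      (r.f2.1 * b + r.f2.2.1 * a + r.f2.2.2 * n) * r.e2.2.1 +
      (r.f3.1 * b + r.f3.2.1 * a + r.f3.2.2 * n) * r.e3.2.1 = a := by
    linear_combination b * b4 + a * b5 + n * b6
  have e3 : (r.f1.1 * b + r.f1.2.1 * a + r.f1.2.2 * n) * r.e1.2.2 +
      (r.f2.1 * b + r.f2.2.1 * a + r.f2.2.2 * n) * r.e2.2.2 +
      (r.f3.1 * b + r.f3.2.1 * a + r.f3.2.2 * n) * r.e3.2.2 = n := by
    linear_combination b * b7 + a * b8 + n * b9
  simp only at d3
  rw [e1, e2, e3] at d3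
  exact absurd (okv_sound d3 h1 h2 h3) (not_le.2 h4)

lemma okl_sound' : ∀ (l : List Rung) (Y Z : ℤ), l ≠ [] → okl Y Z l = true → ∀ v : V3,
    (Y : ℝ) ≤ Hs v → Hs v ≤ Z → |x0 v| < 1 → 3841 / 10000 ≤ (Hs v - 1 / 100000) * |Vs v|
  | [], _, _, hne, _, _, _, _, _ => absurd rfl hne
  | [r], Y, Z, _, h, v, h1, h2, h3 => by
    unfold okl okl at h
    simp only [Bool.and_eq_true, decide_eq_true_eq] at h
    obtain ⟨⟨a1, a2⟩, a3⟩ := h
    have a4 : (Z : ℝ) ≤ r.Y1 := by exact_mod_cast a3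
    exact okr_sound a2 v (by rw [a1]; exact h1) (h2.trans a4) h3
  | r :: r' :: l, Y, Z, _, h, v, h1, h2, h3 => by
    rw [okl] at h
    simp only [Bool.and_eq_true, decide_eq_true_eq] at h
    obtain ⟨⟨a1, a2⟩, a3⟩ := h
    rcases le_total (Hs v) r.Y1 with h4 | h4
    · exact okr_sound a2 v (by rw [a1]; exact h1) h4 h3
    · exact okl_sound' (r' :: l) _ _ (List.cons_ne_nil _ _) a3 v h4 h2 h3

end

lemma data_ok : okl 33 1340000000 rungs = true := by decide +kernel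

end S1m

/-- **S1** -/
theorem stmtS1 : S_S1 := by
  intro v h1 h2 h3
  refine S1m.okl_sound' S1m.rungs 33 1340000000 (List.cons_ne_nil _ _) S1m.data_ok v ?_ ?_ h3
  · exact_mod_cast h1
  · exact_mod_cast h2

end Pool.Agent.MDX
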