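import Pool.Agent.MDX.Stmts

/-!
Module SOFT of MP_85fa44_nt (helper7): from dense large values to an interval of the spectrum.
Adaptation of `Lib_helper94/MDSStage.lean`.
-/

namespace Pool.Agent.MDX

open Pool.Agent.Lib_helper94.MDS
open Filter Topology

namespace Softm

/-- One step of the construction. -/
lemma stage {F : ℝ} (hF : 0 < F) (hlow : ∀ c : ℝ, 0 < c → c < F → LowHyp c)
    {lam : ℝ} (h0 : 0 ≤ lam) (h1 : lam ≤ F) {ε : ℝ} (hε : 0 < ε)
    {D : ℕ} (hD : 1 ≤ D) (P : ℤ) (y : ℝ) {r : ℝ} (hr : 0 < r) :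
    ∃ (D' : ℕ) (P' : ℤ) (y' r' : ℝ), D < D' ∧ 0 < r' ∧
      |(P' : ℝ) / D' - P / D| + r' ≤ r ∧ |y' - y| + r' ≤ r ∧
      ∀ p : ℝ × ℝ, |p.1 - P' / D'| ≤ r' → |p.2 - y'| ≤ r' →
        (∀ k : ℕ, D ≤ k → k < D' → g k p ≤ lam + ε) ∧
        (∃ k : ℕ, D ≤ k ∧ k < D' ∧ lam - ε ≤ g k p) := by
  -- a rational second coordinate near `y`
  obtain ⟨E0, hE0a, hE0b⟩ := exists_rat_btwn (show y < y + r / 2 by linarith)
  set E : ℕ := E0.den with hE
  have hEpos : 0 < E := E0.den_pos
  have hDR : (0 : ℝ) < D := by exact_mod_cast hD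
  have hER : (0 : ℝ) < E := by exact_mod_cast hEpos
  set η : ℝ := ε / (E * D) with hη
  have hη0 : 0 < η := by positivity
  -- the point with a large value
  set c : ℝ := max (F - ε / 4) (F / 2) with hc
  have hc0 : 0 < c := lt_of_lt_of_le (by linarith) (le_max_right _ _)
  have hcF : c < F := max_lt (by linarith) (by linarith)
  have hc1 : F - ε / 4 ≤ c := le_max_left _ _
  set δ : ℝ := min η (r / 2) / 2 with hδ
  have hmpos : 0 < min η (r / 2) := by positivity
  have hδ0 : 0 < δ := by positivity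
  obtain ⟨k0, hk0, p0, hp1, hp2, hp3⟩ := hlow c hc0 hcF ((P : ℝ) / D) y δ hδ0 (D + 1)
  have hk1 : 1 ≤ k0 := by omega
  have hcont0 := Metric.continuous_iff.mp (continuous_g hk1) p0 (ε / 4) (by positivity)
  obtain ⟨δ2, hδ2, hball2⟩ := hcont0
  -- the next denominator
  obtain ⟨M, hM⟩ := exists_nat_gt (1 / min δ δ2)
  set F' : ℕ := k0 + 1 + M with hF'
  have hF'pos : 0 < F' := by omega
  have hFR : (0 : ℝ) < F' := by exact_mod_cast hF'pos
  set a : ℤ := ⌊p0.1 * F'⌋ with ha
  have hmin : 0 < min δ δ2 := lt_min hδ0 hδ2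
  have hMF : (M : ℝ) ≤ F' := by
    have : M ≤ F' := by omega
    exact_mod_cast this
  have hinv : 1 / (F' : ℝ) < min δ δ2 := by
    rw [div_lt_iff₀ hFR]
    have h3 : 1 < M * min δ δ2 := by
      rw [div_lt_iff₀ hmin] at hM
      exact hM
    nlinarith
  have hapx : |(a : ℝ) / F' - p0.1| ≤ 1 / F' := by
    have e : (a : ℝ) / F' - p0.1 = (a - p0.1 * F') / F' := by
      field_simp
    rw [e, abs_div, abs_of_pos hFR]
    apply div_le_div_of_nonneg_right _ hFR.le
    have h3 := Int.floor_le (p0.1 * F')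
    have h4 := Int.lt_floor_add_one (p0.1 * F')
    rw [abs_le]
    constructor <;> linarith
  have hapx2 : |(a : ℝ) / F' - p0.1| < δ := hapx.trans_lt (hinv.trans_le (min_le_left _ _))
  have hapx3 : |(a : ℝ) / F' - p0.1| < δ2 := hapx.trans_lt (hinv.trans_le (min_le_right _ _))
  have hamin : |(a : ℝ) / F' - P / D| < min η (r / 2) := by
    have e : (a : ℝ) / F' - P / D = ((a : ℝ) / F' - p0.1) + (p0.1 - P / D) := by ring
    rw [e]
    have h3 := abs_add_le ((a : ℝ) / F' - p0.1) (p0.1 - P / D)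
    have h4 : δ + δ = min η (r / 2) := by rw [hδ]; ring
    linarith
  have haη : |(a : ℝ) / F' - P / D| < η := hamin.trans_le (min_le_left _ _)
  have har : |(a : ℝ) / F' - P / D| < r / 2 := hamin.trans_le (min_le_right _ _)
  have hbr : |p0.2 - y| < r / 2 := by
    have h3 : δ ≤ min η (r / 2) := by rw [hδ]; linarith
    exact hp2.trans_le (h3.trans (min_le_right _ _))
  have hDF : D < F' := by omega
  have hne : (Finset.Ico D F').Nonempty := ⟨D, by simp [hDF]⟩
  set x' : ℝ := (a : ℝ) / F' with hx'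
  -- the function whose value we prescribe
  set Φ : ℝ × ℝ → ℝ := fun p => (Finset.Ico D F').sup' hne (fun k => g k p) with hΦ
  have hΦc : Continuous Φ := by
    apply Continuous.finset_sup'_apply
    intro k hk
    rw [Finset.mem_Ico] at hk
    exact continuous_g (by omega)
  have hΦle : ∀ p c, (∀ k, D ≤ k → k < F' → g k p ≤ c) → Φ p ≤ c := by
    intro p c h
    apply Finset.sup'_le
    intro k hk
    rw [Finset.mem_Ico] at hk
    exact h k hk.1 hk.2
  have hleΦ : ∀ p k, D ≤ k → k < F' → g k p ≤ Φ p := by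
    intro p k h1 h2
    exact Finset.le_sup' (fun k => g k p) (Finset.mem_Ico.mpr ⟨h1, h2⟩)
  -- large value
  have hbig : F - ε / 2 ≤ Φ (x', p0.2) := by
    have hk : g k0 (x', p0.2) ≤ Φ (x', p0.2) := hleΦ _ _ (by omega) (by omega)
    refine le_trans ?_ hk
    have hd : dist (x', p0.2) p0 < δ2 := by
      rw [Prod.dist_eq, max_lt_iff]
      constructor
      · rw [Real.dist_eq]; exact hapx3
      · simp only [dist_self]; exact hδ2
    have h3 := hball2 _ hd
    rw [Real.dist_eq, abs_lt] at h3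
    linarith [h3.1]
  -- small value at the rational point
  have hsmall : Φ (x', (E0 : ℝ)) ≤ ε / 2 := by
    apply hΦle
    intro k hk1 hk2
    unfold g
    simp only
    rcases le_or_gt E k with hEk | hEk
    · have h3 := mMin_le (ξ := x') (ζ := (E0 : ℝ)) (Q := (k : ℝ)) (q := (E : ℤ))
        (by exact_mod_cast hEpos) (by exact_mod_cast hEk)
      have h4 : distInt (((E : ℤ) : ℝ) * (E0 : ℝ)) = 0 := by
        have e : ((E : ℤ) : ℝ) * (E0 : ℝ) = (E0.num : ℝ) := by
          have := Rat.den_mul_eq_num E0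
          rw [hE]; exact_mod_cast this
        rw [e]; exact distInt_int _
      rw [h4, mul_zero] at h3
      have h5 : ((k : ℝ) + 1) * mMin x' (E0 : ℝ) k ≤ ((k : ℝ) + 1) * 0 :=
        mul_le_mul_of_nonneg_left h3 (by positivity)
      linarith
    · have h3 := mMin_le (ξ := x') (ζ := (E0 : ℝ)) (Q := (k : ℝ)) (q := (D : ℤ))
        (by exact_mod_cast hD) (by exact_mod_cast hk1)
      have h4 : distInt (((D : ℤ) : ℝ) * x') ≤ D * η := by
        have h5 := distInt_le (((D : ℤ) : ℝ) * x') P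
        have e : ((D : ℤ) : ℝ) * x' - P = D * (x' - P / D) := by
          push_cast; field_simp
        rw [e, abs_mul, abs_of_pos hDR] at h5
        exact h5.trans (mul_le_mul_of_nonneg_left haη.le hDR.le)
      have h6 : distInt (((D : ℤ) : ℝ) * x') * distInt (((D : ℤ) : ℝ) * (E0 : ℝ)) ≤
          (D * η) * (1 / 2) :=
        mul_le_mul h4 (distInt_le_half _) (distInt_nonneg _) (by positivity)
      have h7 : ((k : ℝ) + 1) ≤ E := by exact_mod_cast hEk
      have h8 : ((k : ℝ) + 1) * mMin x' (E0 : ℝ) k ≤ E * ((D * η) * (1 / 2)) :=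
        mul_le_mul h7 (h3.trans h6) (mMin_nonneg _ _ _) hER.le
      have h9 : (E : ℝ) * ((D * η) * (1 / 2)) = ε / 2 := by
        rw [hη]; field_simp
      linarith
  -- intermediate value
  obtain ⟨y', hy', hΦ1, hΦ2⟩ : ∃ y' : ℝ, |y' - y| < r / 2 ∧ lam - ε / 2 ≤ Φ (x', y') ∧
      Φ (x', y') ≤ lam + ε / 2 := by
    have hE0y : |(E0 : ℝ) - y| < r / 2 := by
      rw [abs_lt]; constructor <;> linarith
    rcases le_or_gt lam (Φ (x', (E0 : ℝ))) with hc1 | hc1
    · exact ⟨E0, hE0y, by linarith, by linarith⟩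
    rcases le_or_gt (Φ (x', p0.2)) lam with hc2 | hc2
    · exact ⟨p0.2, hbr, by linarith, by linarith⟩
    have hcont : ContinuousOn (fun z : ℝ => Φ (x', z)) (Set.uIcc (E0 : ℝ) p0.2) :=
      (hΦc.comp (continuous_const.prodMk continuous_id)).continuousOn
    have hmem : lam ∈ Set.uIcc (Φ (x', (E0 : ℝ))) (Φ (x', p0.2)) := by
      rw [Set.mem_uIcc]; left; exact ⟨hc1.le, hc2.le⟩
    obtain ⟨z, hz, hz2⟩ := intermediate_value_uIcc hcont hmem
    refine ⟨z, ?_, ?_, ?_⟩
    · rw [abs_lt] at hE0y hbr ⊢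
      rw [Set.mem_uIcc] at hz
      rcases hz with hz | hz <;> constructor <;> linarith [hz.1, hz.2]
    · simp only at hz2; linarith
    · simp only at hz2; linarith
  -- robustness
  have hcontAt := Metric.continuous_iff.mp hΦc (x', y') (ε / 2) (by positivity)
  obtain ⟨δ, hδ, hball⟩ := hcontAt
  refine ⟨F', a, y', min (δ / 2) (r / 2), hDF, by positivity, ?_, ?_, ?_⟩
  · have := min_le_right (δ / 2) (r / 2)
    linarith
  · have := min_le_right (δ / 2) (r / 2)
    linarith
  · intro p hp1 hp2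
    have hm := min_le_left (δ / 2) (r / 2)
    have hd : dist p (x', y') < δ := by
      rw [Prod.dist_eq, max_lt_iff, Real.dist_eq, Real.dist_eq]
      constructor <;> simp only <;> linarith
    have h3 := hball p hd
    rw [Real.dist_eq, abs_lt] at h3
    constructor
    · intro k hk1 hk2
      have := hleΦ p k hk1 hk2
      linarith
    · obtain ⟨k, hk, hk2⟩ := Finset.exists_mem_eq_sup' hne (fun k => g k p)
      rw [Finset.mem_Ico] at hk
      refine ⟨k, hk.1, hk.2, ?_⟩
      have : Φ p = g k p := hk2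
      linarith

lemma exists_next {F : ℝ} (hF : 0 < F) (hlow : ∀ c : ℝ, 0 < c → c < F → LowHyp c)
    {lam : ℝ} (h0 : 0 ≤ lam) (h1 : lam ≤ F) {ε : ℝ} (hε : 0 < ε) (S : State) :
    ∃ S' : State, Rel lam ε S S' := by
  obtain ⟨D', P', y', r', hDD, hr', h2, h3, h4⟩ := stage hF hlow h0 h1 hε S.hD S.P S.y S.hr
  exact ⟨⟨D', P', y', r', by have := S.hD; omega, hr'⟩, hDD, h2, h3, h4⟩

end Softm

theorem stmtSOFT : S_SOFT := by
  intro F hF hlow0 lam h0 h1
  have hnext : ∀ (n : ℕ) (S : State), ∃ S' : State, Rel lam (1 / ((n : ℝ) + 1)) S S' :=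
    fun n S => Softm.exists_next hF hlow0 h0 h1 (by positivity) S
  choose nxt hnxt using hnext
  let S0 : State := ⟨1, 0, 0, 1, le_refl _, one_pos⟩
  let seq : ℕ → State := fun n => Nat.rec S0 (fun n S => nxt n S) n
  have hseq : ∀ n : ℕ, Rel lam (1 / ((n : ℝ) + 1)) (seq n) (seq (n + 1)) := fun n => hnxt n (seq n)
  -- the limit point
  have hx_mono : Monotone (fun n => ((seq n).P : ℝ) / (seq n).D - (seq n).r) := by
    apply monotone_nat_of_le_succ
    intro n
    have := (hseq n).2.1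
    have h3 := neg_abs_le (((seq (n + 1)).P : ℝ) / (seq (n + 1)).D - (seq n).P / (seq n).D)
    linarith
  have hx_anti : Antitone (fun n => ((seq n).P : ℝ) / (seq n).D + (seq n).r) := by
    apply antitone_nat_of_succ_le
    intro n
    have := (hseq n).2.1
    have h3 := le_abs_self (((seq (n + 1)).P : ℝ) / (seq (n + 1)).D - (seq n).P / (seq n).D)
    linarith
  have hy_mono : Monotone (fun n => (seq n).y - (seq n).r) := by
    apply monotone_nat_of_le_succ
    intro n
    have := (hseq n).2.2.1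
    have h3 := neg_abs_le ((seq (n + 1)).y - (seq n).y)
    linarith
  have hy_anti : Antitone (fun n => (seq n).y + (seq n).r) := by
    apply antitone_nat_of_succ_le
    intro n
    have := (hseq n).2.2.1
    have h3 := le_abs_self ((seq (n + 1)).y - (seq n).y)
    linarith
  have hxmem := Monotone.ciSup_mem_iInter_Icc_of_antitone hx_mono hx_anti
    (fun n => by have := (seq n).hr; simp only; linarith)
  have hymem := Monotone.ciSup_mem_iInter_Icc_of_antitone hy_mono hy_anti
    (fun n => by have := (seq n).hr; simp only; linarith)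
  set ξ := ⨆ n, (((seq n).P : ℝ) / (seq n).D - (seq n).r) with hξ
  set ζ := ⨆ n, ((seq n).y - (seq n).r) with hζ
  have hx : ∀ n, |ξ - (seq n).P / (seq n).D| ≤ (seq n).r := by
    intro n
    have := Set.mem_iInter.mp hxmem n
    rw [Set.mem_Icc] at this
    rw [abs_le]; constructor <;> linarith [this.1, this.2]
  have hy : ∀ n, |ζ - (seq n).y| ≤ (seq n).r := by
    intro n
    have := Set.mem_iInter.mp hymem n
    rw [Set.mem_Icc] at this
    rw [abs_le]; constructor <;> linarith [this.1, this.2]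
  have hup : ∀ n k : ℕ, (seq n).D ≤ k → k < (seq (n + 1)).D →
      g k (ξ, ζ) ≤ lam + 1 / ((n : ℝ) + 1) := fun n =>
    ((hseq n).2.2.2 (ξ, ζ) (hx (n + 1)) (hy (n + 1))).1
  have hlow : ∀ n : ℕ, ∃ k : ℕ, (seq n).D ≤ k ∧ k < (seq (n + 1)).D ∧
      lam - 1 / ((n : ℝ) + 1) ≤ g k (ξ, ζ) := fun n =>
    ((hseq n).2.2.2 (ξ, ζ) (hx (n + 1)) (hy (n + 1))).2
  have hDmono : StrictMono (fun n => (seq n).D) := strictMono_nat_of_lt_succ fun n => (hseq n).1
  have hDge : ∀ n, n ≤ (seq n).D := fun n => hDmono.id_le n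
  refine ⟨ξ, ζ, le_antisymm ?_ ?_⟩
  · -- upper bound
    apply le_of_forall_pos_le_add
    intro ε hε
    obtain ⟨n0, hn0⟩ := exists_nat_one_div_lt hε
    apply L_le_of_eventually
    filter_upwards [eventually_ge_atTop (((seq n0).D : ℕ) : ℝ)] with Q hQ
    have hQ0 : 0 ≤ Q := le_trans (by positivity) hQ
    set k := ⌊Q⌋₊ with hk
    have hkQ : (k : ℝ) ≤ Q := Nat.floor_le hQ0
    have hQk : Q < (k : ℝ) + 1 := Nat.lt_floor_add_one Q
    have hDk : (seq n0).D ≤ k := Nat.le_floor hQ
    -- the block containing `k`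
    obtain ⟨n, hn1, hn2, hn3⟩ : ∃ n, n0 ≤ n ∧ (seq n).D ≤ k ∧ k < (seq (n + 1)).D := by
      classical
      have hex : ∃ m, k < (seq m).D := ⟨k + 1, lt_of_lt_of_le (Nat.lt_succ_self k) (hDge (k + 1))⟩
      have hm := Nat.find_spec hex
      have hpos : n0 < Nat.find hex := by
        by_contra hcon
        push Not at hcon
        have := hDmono.monotone hcon
        omega
      refine ⟨Nat.find hex - 1, by omega, ?_, ?_⟩
      · have := Nat.find_min hex (m := Nat.find hex - 1) (by omega)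
        omega
      · have e : Nat.find hex - 1 + 1 = Nat.find hex := by omega
        rw [e]; exact hm
    have hk1 : 1 ≤ k := le_trans (seq n0).hD hDk
    have h3 := hup n k hn2 hn3
    have h4 : (1 : ℝ) / ((n : ℝ) + 1) ≤ 1 / ((n0 : ℝ) + 1) := by
      apply one_div_le_one_div_of_le (by positivity)
      have : (n0 : ℝ) ≤ n := by exact_mod_cast hn1
      linarith
    have h5 : mMin ξ ζ Q ≤ mMin ξ ζ (k : ℝ) := by
      apply le_mMin (by exact_mod_cast hk1)
      intro q hq1 hq2
      exact mMin_le hq1 (hq2.trans hkQ)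
    have h6 : Q * mMin ξ ζ Q ≤ ((k : ℝ) + 1) * mMin ξ ζ (k : ℝ) :=
      mul_le_mul hQk.le h5 (mMin_nonneg _ _ _) (by positivity)
    have h7 : ((k : ℝ) + 1) * mMin ξ ζ (k : ℝ) = g k (ξ, ζ) := rfl
    linarith
  · -- lower bound
    apply le_of_forall_pos_le_add
    intro ε hε
    have : lam - ε ≤ L ξ ζ := by
      apply le_L_of_frequently
      rw [frequently_atTop]
      intro A
      obtain ⟨n0, hn0⟩ := exists_nat_one_div_lt (show 0 < ε / 2 by positivity)
      obtain ⟨n1, hn1⟩ := exists_nat_ge A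
      set n := n0 + n1 with hn
      obtain ⟨k, hk1, hk2, hk3⟩ := hlow n
      have hDn := hDge n
      have hk0 : 1 ≤ k := le_trans (seq n).hD hk1
      have hkR : (1 : ℝ) ≤ k := by exact_mod_cast hk0
      refine ⟨(k : ℝ), ?_, ?_⟩
      · have : n1 ≤ k := by omega
        have : (n1 : ℝ) ≤ k := by exact_mod_cast this
        linarith
      · have h4 : (1 : ℝ) / ((n : ℝ) + 1) ≤ 1 / ((n0 : ℝ) + 1) := by
          apply one_div_le_one_div_of_le (by positivity)
          have : (n0 : ℝ) ≤ n := by rw [hn]; push_cast; linarith [Nat.cast_nonneg (α := ℝ) n1]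
          linarith
        have h5 := Q_mMin_le_half (ξ := ξ) (ζ := ζ) hkR
        have h7 : ((k : ℝ) + 1) * mMin ξ ζ (k : ℝ) = g k (ξ, ζ) := rfl
        have hkn : (n0 : ℝ) ≤ k := by
          have : n0 ≤ k := by omega
          exact_mod_cast this
        have h8 : mMin ξ ζ (k : ℝ) ≤ 1 / ((n0 : ℝ) + 1) := by
          rw [le_div_iff₀ (by positivity)]
          have hm0 := mMin_nonneg ξ ζ (k : ℝ)
          nlinarith
        have h9 : (k : ℝ) * mMin ξ ζ (k : ℝ) = g k (ξ, ζ) - mMin ξ ζ (k : ℝ) := by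
          rw [← h7]; ring
        rw [h9]
        linarith
    linarith

end Pool.Agent.MDX
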