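import Mathlib
import Pool.Agent.MDX.Low
import Pool.Agent.MDS.Up.Main
import Pool.Agent.MDX.Soft
import Pool.Agent.MDX.KL
import Pool.Agent.MDX.GF
import Pool.Agent.MDX.Gold
import Pool.Agent.MDX.CC
import Pool.Agent.MDX.S0
import Pool.Agent.MDX.S1
import Pool.Agent.MDX.I1
import Pool.Agent.MDX.Lam
import Pool.Agent.MDX.End

/-!
The final assembly: `mulDirichletSpectrum = [0, F]`.
-/

namespace Pool.Agent.MDX

open Pool.Agent.Lib_helper94.MDS

/-- the lower bound -/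
theorem stmtLow_all : S_LOW :=
  stmtLOW (stmtEND (stmtLAM stmtS0 stmtS1 stmtI1))
    (stmtCC stmtKL stmtGF stmtGLIM (stmtGOLD stmtGF)) stmtSOFT

/-- the multiplicative Dirichlet spectrum -/
theorem spectrum_eq : mulDirichletSpectrum = Set.Icc (0 : ℝ)
    (6209318411912960898313 / 16362765653983676769060 +
      8878546621181637349 / 2868687348925110243798061080 * Real.sqrt 654739973030) := by
  apply Set.Subset.antisymm
  · rintro l ⟨ξ, ζ, rfl⟩
    exact ⟨L_nonneg ξ ζ, Pool.Agent.MDS.Up.L_le ξ ζ⟩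
  · rintro l ⟨h0, h1⟩
    obtain ⟨ξ, ζ, h⟩ := stmtLow_all l h0 h1
    exact ⟨ξ, ζ, h⟩

end Pool.Agent.MDX
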