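import Pool.Agent.MDX.Stmts
import Pool.Agent.MDS.Low.Kloo

/-!
Module MDX_K4 of problem MP_85fa44_nt: Kloosterman's bound in the form `S_K4`,
from `kloo_bound` (helper93).
-/

namespace Pool.Agent.MDX

namespace K4m

open Finset

/-- `φ(g n) ≤ g φ(n)` -/
theorem totient_mul_le (g n : ℕ) : Nat.totient (g * n) ≤ g * Nat.totient n := by
  rcases Nat.eq_zero_or_pos g with hg | hg
  · subst hg
    simp
  rcases Nat.eq_zero_or_pos n with hn | hn
  · subst hn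
    simp
  have h1 := Nat.totient_eq_mul_prod_factors (g * n)
  have h2 := Nat.totient_eq_mul_prod_factors n
  have hsub : n.primeFactors ⊆ (g * n).primeFactors :=
    Nat.primeFactors_mono (Dvd.intro_left g rfl) (Nat.mul_pos hg hn).ne'
  have hf : ∀ p ∈ (g * n).primeFactors, (0 : ℚ) ≤ 1 - (p : ℚ)⁻¹ ∧ 1 - (p : ℚ)⁻¹ ≤ 1 := by
    intro p hp
    have hp1 : (1 : ℚ) ≤ (p : ℚ) := by
      exact_mod_cast (Nat.prime_of_mem_primeFactors hp).one_lt.le
    have h3 : (p : ℚ)⁻¹ ≤ 1 := inv_le_one_of_one_le₀ hp1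
    have h4 : (0 : ℚ) ≤ (p : ℚ)⁻¹ := inv_nonneg.mpr (by linarith)
    constructor <;> linarith
  have h3 : ∏ p ∈ (g * n).primeFactors, (1 - (p : ℚ)⁻¹) ≤
      ∏ p ∈ n.primeFactors, (1 - (p : ℚ)⁻¹) := by
    rw [← Finset.prod_sdiff hsub]
    have h4 : ∏ p ∈ (g * n).primeFactors \ n.primeFactors, (1 - (p : ℚ)⁻¹) ≤ 1 := by
      refine Finset.prod_le_one ?_ ?_
      · intro p hp
        exact (hf p (Finset.sdiff_subset hp)).1
      · intro p hp
        exact (hf p (Finset.sdiff_subset hp)).2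
    have h5 : (0 : ℚ) ≤ ∏ p ∈ n.primeFactors, (1 - (p : ℚ)⁻¹) :=
      Finset.prod_nonneg (fun p hp => (hf p (hsub hp)).1)
    calc _ ≤ 1 * ∏ p ∈ n.primeFactors, (1 - (p : ℚ)⁻¹) :=
          mul_le_mul_of_nonneg_right h4 h5
      _ = _ := one_mul _
  have h6 : (Nat.totient (g * n) : ℚ) ≤ (g : ℚ) * (Nat.totient n : ℚ) := by
    rw [h1, h2]
    push_cast
    have h7 : (0 : ℚ) ≤ (g : ℚ) * (n : ℚ) := by positivity
    calc (g : ℚ) * (n : ℚ) * ∏ p ∈ (g * n).primeFactors, (1 - (p : ℚ)⁻¹)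
        ≤ (g : ℚ) * (n : ℚ) * ∏ p ∈ n.primeFactors, (1 - (p : ℚ)⁻¹) :=
          mul_le_mul_of_nonneg_left h3 h7
      _ = _ := by ring
  exact_mod_cast h6

end K4m

theorem stmtK4 : S_K4 := by
  intro N _ a b
  have hN : 0 < N := Nat.pos_of_ne_zero (NeZero.ne N)
  have h := Pool.Agent.MDS.Low.kloo_bound N a b
  have hKS : KS N (a : ZMod N) (b : ZMod N) =
      Pool.Agent.MDS.Low.kloo N (a : ZMod N) (b : ZMod N) := rfl
  rw [hKS]
  set g := Nat.gcd (Int.gcd a b) N with hg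
  have hgN : g ∣ N := Nat.gcd_dvd_right _ _
  have hga : g ∣ Int.gcd a N := by
    have h1 : (g : ℤ) ∣ a := by
      refine dvd_trans (Int.natCast_dvd_natCast.mpr (Nat.gcd_dvd_left (Int.gcd a b) N)) ?_
      exact Int.gcd_dvd_left _ _
    exact Int.dvd_gcd h1 (Int.natCast_dvd_natCast.mpr hgN)
  have hgpos : 0 < Int.gcd a N := Int.gcd_pos_of_ne_zero_right _ (by exact_mod_cast hN.ne')
  have hgle : g ≤ Int.gcd a N := Nat.le_of_dvd hgpos hga
  have ht : (Nat.totient N : ℝ) ≤ (Int.gcd a N : ℝ) * (Nat.totient (N / g) : ℝ) := by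
    have h1 : Nat.totient N ≤ g * Nat.totient (N / g) := by
      conv_lhs => rw [← Nat.mul_div_cancel' hgN]
      exact K4m.totient_mul_le g (N / g)
    have h2 : Nat.totient N ≤ Int.gcd a N * Nat.totient (N / g) :=
      le_trans h1 (Nat.mul_le_mul_right _ hgle)
    exact_mod_cast h2
  set K := ‖Pool.Agent.MDS.Low.kloo N (a : ZMod N) (b : ZMod N)‖ with hK
  have hK0 : 0 ≤ K ^ 4 := by positivity
  calc K ^ 4 * (Nat.totient N : ℝ)
      ≤ K ^ 4 * ((Int.gcd a N : ℝ) * (Nat.totient (N / g) : ℝ)) :=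
        mul_le_mul_of_nonneg_left ht hK0
    _ = (Int.gcd a N : ℝ) * ((Nat.totient (N / g) : ℝ) * K ^ 4) := by ring
    _ ≤ _ := mul_le_mul_of_nonneg_left h (by positivity)

end Pool.Agent.MDX
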