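import Pool.Agent.MDX.Stmts

/-!
# Module MDX_U3: rigidity of `z`

A three dimensional branch and bound over `(e, a, b)`, `e = z - 16/17`, `a = γ - γ*`,
`b = β - β* + 16/17 (γ - γ*)`.  All numbers of the certificate are integers, in units `10^-41`.
-/

namespace Pool.Agent.MDX

open Pool.Agent.Lib_helper94.MDS

namespace U3m

/-- certificate trees -/
inductive Tr where
  | O : Tr
  | P : ℤ → ℤ → ℤ → Tr
  | S0 : ℤ → Tr → Tr → Tr
  | S1 : ℤ → Tr → Tr → Tr
  | S2 : ℤ → Tr → Tr → Tr

/-- the leaf `P`: window condition -/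
def chkW (elo ehi vb va vn : ℤ) : Bool :=
  (decide ((17 * va - 16 * vb) * 10 ^ 41 - 17 * vb * elo ≤ 169949 * 10 ^ 37) &&
    decide (-(169949 * 10 ^ 37) ≤ (17 * va - 16 * vb) * 10 ^ 41 - 17 * vb * ehi)) ||
  (decide (vb = 217056) && decide (va = 204289) && decide (vn = 82916) &&
    decide (ehi ≤ 92 * 10 ^ 34))

/-- the leaf `P`: upper bound of the linear form -/
def chkHi (alo ahi bhi vb va vn : ℤ) : Bool :=
  decide ((1000 * vb + 36) *
    (17 * (vb * 39320378507698302156292974967109797940444 +
        va * (-1190098719766133442460102656043072401448) - vn * 10 ^ 41) + 17 * (vb + va) +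
      max ((17 * va - 16 * vb) * alo) ((17 * va - 16 * vb) * ahi) + 17 * vb * bhi) <
    17000 * (3819828783029564823104858892 * 10 ^ 13))

/-- the leaf `P`: lower bound of the linear form -/
def chkLo (alo ahi blo vb va vn : ℤ) : Bool :=
  decide (-(17000 * (3819828783029564823104858892 * 10 ^ 13)) < (1000 * vb + 36) *
    (17 * (vb * 39320378507698302156292974967109797940444 +
        va * (-1190098719766133442460102656043072401448) - vn * 10 ^ 41) +
      min ((17 * va - 16 * vb) * alo) ((17 * va - 16 * vb) * ahi) + 17 * vb * blo))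

/-- the leaf `O` -/
def chkO (elo ahi bhi : ℤ) : Bool :=
  decide ((if 0 ≤ ahi then 2270151692 * ahi else 2270151691 * ahi) +
    10 * (if 0 ≤ bhi then 68538455016 * bhi else 68538455015 * bhi) < 65 * 10 ^ 8 * elo)

/-- the checker -/
def chk : Tr → ℤ → ℤ → ℤ → ℤ → ℤ → ℤ → Bool
  | .O, elo, _, _, ahi, _, bhi => chkO elo ahi bhi
  | .P vb va vn, elo, ehi, alo, ahi, blo, bhi =>
      decide (1 ≤ vb) && decide (0 ≤ va) && chkW elo ehi vb va vn &&
        chkHi alo ahi bhi vb va vn && chkLo alo ahi blo vb va vn
  | .S0 m l r, elo, ehi, alo, ahi, blo, bhi =>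
      chk l elo m alo ahi blo bhi && chk r m ehi alo ahi blo bhi
  | .S1 m l r, elo, ehi, alo, ahi, blo, bhi =>
      chk l elo ehi alo m blo bhi && chk r elo ehi m ahi blo bhi
  | .S2 m l r, elo, ehi, alo, ahi, blo, bhi =>
      chk l elo ehi alo ahi blo m && chk r elo ehi alo ahi m bhi

/-- the situation to be excluded -/
structure Hyp (e a b : ℝ) : Prop where
  hT : 65 / 1000 * e ≤ LAs * a + LBs * b
  hv : ∀ vb va vn : ℤ, 1 ≤ vb →
    (|x0 (vb, va, vn) - e * vb| ≤ 9997 / 10000 ∨
      (vb = 217056 ∧ va = 204289 ∧ vn = 82916 ∧ e ≤ 92 / 10 ^ 7)) →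
    FS ≤ (vb + 36 / 1000) * |Vs (vb, va, vn) + a * x0 (vb, va, vn) + b * vb|

lemma mul_mem {X u lo hi : ℝ} (h1 : lo ≤ u) (h2 : u ≤ hi) :
    min (X * lo) (X * hi) ≤ X * u ∧ X * u ≤ max (X * lo) (X * hi) := by
  rcases le_total 0 X with h | h
  · exact ⟨(min_le_left _ _).trans (mul_le_mul_of_nonneg_left h1 h),
      (mul_le_mul_of_nonneg_left h2 h).trans (le_max_right _ _)⟩
  · exact ⟨(min_le_right _ _).trans (mul_le_mul_of_nonpos_left h2 h),
      (mul_le_mul_of_nonpos_left h1 h).trans (le_max_left _ _)⟩

lemma sound_O {e a b : ℝ} (H : Hyp e a b) {elo ahi bhi : ℤ}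
    (h1 : (elo : ℝ) ≤ e * 10 ^ 41) (h4 : a * 10 ^ 41 ≤ ahi) (h6 : b * 10 ^ 41 ≤ bhi)
    (h : chkO elo ahi bhi = true) : False := by
  unfold chkO at h
  have h := of_decide_eq_true h
  have hR : ((((if 0 ≤ ahi then 2270151692 * ahi else 2270151691 * ahi) +
    10 * (if 0 ≤ bhi then 68538455016 * bhi else 68538455015 * bhi) : ℤ)) : ℝ) <
      ((65 * 10 ^ 8 * elo : ℤ) : ℝ) := by exact_mod_cast h
  have ha := LA_bounds
  have hb := LB_bounds
  have hT := H.hT
  have e1 : LAs * 10 ^ 11 * (a * 10 ^ 41) ≤
      (((if 0 ≤ ahi then 2270151692 * ahi else 2270151691 * ahi : ℤ)) : ℝ) := by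
    have hA1 : 2270151691 < LAs * 10 ^ 11 := by
      have := ha.1
      rw [div_lt_iff₀ (by norm_num)] at this
      exact this
    have hA2 : LAs * 10 ^ 11 < 2270151692 := by
      have := ha.2
      rw [lt_div_iff₀ (by norm_num)] at this
      exact this
    refine (mul_le_mul_of_nonneg_left h4 (by linarith)).trans ?_
    split_ifs with hs
    · push_cast
      have : (0 : ℝ) ≤ ahi := by exact_mod_cast hs
      nlinarith
    · push_cast
      have : (ahi : ℝ) ≤ 0 := by
        have : ahi ≤ 0 := by omega
        exact_mod_cast this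
      nlinarith
  have e2 : LBs * 10 ^ 10 * (b * 10 ^ 41) ≤
      (((if 0 ≤ bhi then 68538455016 * bhi else 68538455015 * bhi : ℤ)) : ℝ) := by
    have hA1 : 68538455015 < LBs * 10 ^ 10 := by
      have := hb.1
      rw [div_lt_iff₀ (by norm_num)] at this
      exact this
    have hA2 : LBs * 10 ^ 10 < 68538455016 := by
      have := hb.2
      rw [lt_div_iff₀ (by norm_num)] at this
      exact this
    refine (mul_le_mul_of_nonneg_left h6 (by linarith)).trans ?_
    split_ifs with hs
    · push_cast
      have : (0 : ℝ) ≤ bhi := by exact_mod_cast hs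
      nlinarith
    · push_cast
      have : (bhi : ℝ) ≤ 0 := by
        have : bhi ≤ 0 := by omega
        exact_mod_cast this
      nlinarith
  have e3 : 65 * 10 ^ 8 * (e * 10 ^ 41) ≤
      LAs * 10 ^ 11 * (a * 10 ^ 41) + 10 * (LBs * 10 ^ 10 * (b * 10 ^ 41)) := by
    have : 65 / 1000 * e * (10 ^ 11 * 10 ^ 41) ≤ (LAs * a + LBs * b) * (10 ^ 11 * 10 ^ 41) :=
      mul_le_mul_of_nonneg_right hT (by norm_num)
    calc 65 * 10 ^ 8 * (e * 10 ^ 41) = 65 / 1000 * e * (10 ^ 11 * 10 ^ 41) := by ring
      _ ≤ (LAs * a + LBs * b) * (10 ^ 11 * 10 ^ 41) := this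
      _ = _ := by ring
  have e4 : (65 * 10 ^ 8 * elo : ℝ) ≤ 65 * 10 ^ 8 * (e * 10 ^ 41) :=
    mul_le_mul_of_nonneg_left h1 (by norm_num)
  rw [Int.cast_add, Int.cast_mul] at hR
  push_cast at hR e1 e2
  linarith

lemma sound_P {e a b : ℝ} (H : Hyp e a b) {elo ehi alo ahi blo bhi vb va vn : ℤ}
    (h1 : (elo : ℝ) ≤ e * 10 ^ 41) (h2 : e * 10 ^ 41 ≤ ehi)
    (h3 : (alo : ℝ) ≤ a * 10 ^ 41) (h4 : a * 10 ^ 41 ≤ ahi)
    (h5 : (blo : ℝ) ≤ b * 10 ^ 41) (h6 : b * 10 ^ 41 ≤ bhi)
    (hvb : 1 ≤ vb) (hva : 0 ≤ va) (hW : chkW elo ehi vb va vn = true)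
    (hHi : chkHi alo ahi bhi vb va vn = true) (hLo : chkLo alo ahi blo vb va vn = true) :
    False := by
  have hvbR : (1 : ℝ) ≤ vb := by exact_mod_cast hvb
  have hvaR : (0 : ℝ) ≤ va := by exact_mod_cast hva
  have hp : (0 : ℝ) < 10 ^ 41 := by norm_num
  have hx : x0 (vb, va, vn) = (17 * va - 16 * vb) / 17 := by
    unfold x0
    ring
  have hwin : |x0 (vb, va, vn) - e * vb| ≤ 9997 / 10000 ∨
      (vb = 217056 ∧ va = 204289 ∧ vn = 82916 ∧ e ≤ 92 / 10 ^ 7) := by
    unfold chkW at hW
    rcases Bool.or_eq_true_iff.1 hW with hW | hW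
    · left
      obtain ⟨w1, w2⟩ := Bool.and_eq_true_iff.1 hW
      have w1 := of_decide_eq_true w1
      have w2 := of_decide_eq_true w2
      have w1R : ((17 * va - 16 * vb) * 10 ^ 41 - 17 * vb * elo : ℝ) ≤ 169949 * 10 ^ 37 := by
        exact_mod_cast w1
      have w2R : (-(169949 * 10 ^ 37) : ℝ) ≤
          (17 * va - 16 * vb) * 10 ^ 41 - 17 * vb * ehi := by exact_mod_cast w2
      have k1 : (17 * vb * elo : ℝ) ≤ 17 * vb * (e * 10 ^ 41) :=
        mul_le_mul_of_nonneg_left h1 (by linarith)
      have k2 : (17 * vb * (e * 10 ^ 41) : ℝ) ≤ 17 * vb * ehi :=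
        mul_le_mul_of_nonneg_left h2 (by linarith)
      have key : x0 (vb, va, vn) - e * vb =
          ((17 * va - 16 * vb) * 10 ^ 41 - 17 * vb * (e * 10 ^ 41)) / (17 * 10 ^ 41) := by
        rw [hx, eq_div_iff (by norm_num)]
        ring
      rw [key, abs_le, le_div_iff₀ (by norm_num), div_le_iff₀ (by norm_num)]
      constructor
      · refine le_trans (le_of_eq ?_) (w2R.trans (by linarith))
        norm_num
      · refine le_trans (by linarith) (w1R.trans (le_of_eq ?_))
        norm_num
    · right
      obtain ⟨hW, w4⟩ := Bool.and_eq_true_iff.1 hW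
      obtain ⟨hW, w3⟩ := Bool.and_eq_true_iff.1 hW
      obtain ⟨w1, w2⟩ := Bool.and_eq_true_iff.1 hW
      refine ⟨of_decide_eq_true w1, of_decide_eq_true w2, of_decide_eq_true w3, ?_⟩
      have w4 := of_decide_eq_true w4
      have w4R : (ehi : ℝ) ≤ 92 * 10 ^ 34 := by exact_mod_cast w4
      have : e * 10 ^ 41 ≤ 92 * 10 ^ 34 := h2.trans w4R
      rw [le_div_iff₀ (by norm_num)]
      have e1 : e * 10 ^ 41 = e * 10 ^ 7 * 10 ^ 34 := by ring
      rw [e1] at this
      exact le_of_mul_le_mul_right this (by norm_num)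
  have hFS := H.hv vb va vn hvb hwin
  set W := Vs (vb, va, vn) + a * x0 (vb, va, vn) + b * vb with hWdef
  -- bounds of `17 * 10^41 * W`
  have hB := bS_bounds
  have hG := gS_bounds
  have B1 : 39320378507698302156292974967109797940444 < bS * 10 ^ 41 := by
    have := hB.1
    rwa [div_lt_iff₀ hp] at this
  have B2 : bS * 10 ^ 41 < 39320378507698302156292974967109797940445 := by
    have := hB.2
    rwa [lt_div_iff₀ hp] at this
  have G1 : -1190098719766133442460102656043072401448 < gS * 10 ^ 41 := by
    have := hG.1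
    rwa [div_lt_iff₀ hp] at this
  have G2 : gS * 10 ^ 41 < -1190098719766133442460102656043072401447 := by
    have := hG.2
    rwa [lt_div_iff₀ hp] at this
  have hW17 : 17 * 10 ^ 41 * W = 17 * (vb * (bS * 10 ^ 41) + va * (gS * 10 ^ 41) - vn * 10 ^ 41) +
      (17 * va - 16 * vb) * (a * 10 ^ 41) + 17 * vb * (b * 10 ^ 41) := by
    rw [hWdef, hx]
    unfold Vs
    ring
  have M := mul_mem (X := (17 * va - 16 * vb : ℝ)) h3 h4
  have k5 : (17 * vb * blo : ℝ) ≤ 17 * vb * (b * 10 ^ 41) :=
    mul_le_mul_of_nonneg_left h5 (by linarith)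
  have k6 : (17 * vb * (b * 10 ^ 41) : ℝ) ≤ 17 * vb * bhi :=
    mul_le_mul_of_nonneg_left h6 (by linarith)
  have c1 : (vb : ℝ) * 39320378507698302156292974967109797940444 ≤ vb * (bS * 10 ^ 41) :=
    mul_le_mul_of_nonneg_left B1.le (by linarith)
  have c2 : (vb : ℝ) * (bS * 10 ^ 41) ≤ vb * 39320378507698302156292974967109797940445 :=
    mul_le_mul_of_nonneg_left B2.le (by linarith)
  have c3 : (va : ℝ) * (-1190098719766133442460102656043072401448) ≤ va * (gS * 10 ^ 41) :=
    mul_le_mul_of_nonneg_left G1.le hvaR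
  have c4 : (va : ℝ) * (gS * 10 ^ 41) ≤ va * (-1190098719766133442460102656043072401447) :=
    mul_le_mul_of_nonneg_left G2.le hvaR
  have hF := FS_bounds.1
  have hF' : (3819828783029564823104858892 * 10 ^ 13 : ℝ) < FS * 10 ^ 41 := by
    rw [div_lt_iff₀ (by norm_num)] at hF
    have : (3819828783029564823104858892 * 10 ^ 13 : ℝ) < FS * 10 ^ 28 * 10 ^ 13 :=
      mul_lt_mul_of_pos_right hF (by norm_num)
    calc (3819828783029564823104858892 * 10 ^ 13 : ℝ) < FS * 10 ^ 28 * 10 ^ 13 := this
      _ = FS * 10 ^ 41 := by ring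
  have hpos : (0 : ℝ) < 1000 * vb + 36 := by linarith
  have up : (1000 * vb + 36) * (17 * 10 ^ 41 * W) <
      17000 * (3819828783029564823104858892 * 10 ^ 13) := by
    unfold chkHi at hHi
    have h := of_decide_eq_true hHi
    have hR : (1000 * vb + 36 : ℝ) *
        (17 * (vb * 39320378507698302156292974967109797940444 +
          va * (-1190098719766133442460102656043072401448) - vn * 10 ^ 41) + 17 * (vb + va) +
        max ((17 * va - 16 * vb) * alo) ((17 * va - 16 * vb) * ahi) + 17 * vb * bhi) <
        17000 * (3819828783029564823104858892 * 10 ^ 13) := by exact_mod_cast h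
    push_cast at hR
    refine lt_of_le_of_lt (mul_le_mul_of_nonneg_left ?_ hpos.le) hR
    rw [hW17]
    linarith [M.2]
  have lo : -(17000 * (3819828783029564823104858892 * 10 ^ 13)) <
      (1000 * vb + 36) * (17 * 10 ^ 41 * W) := by
    unfold chkLo at hLo
    have h := of_decide_eq_true hLo
    have hR : (-(17000 * (3819828783029564823104858892 * 10 ^ 13)) : ℝ) < (1000 * vb + 36) *
        (17 * (vb * 39320378507698302156292974967109797940444 +
          va * (-1190098719766133442460102656043072401448) - vn * 10 ^ 41) +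
        min ((17 * va - 16 * vb) * alo) ((17 * va - 16 * vb) * ahi) + 17 * vb * blo) := by
      exact_mod_cast h
    push_cast at hR
    refine lt_of_lt_of_le hR (mul_le_mul_of_nonneg_left ?_ hpos.le)
    rw [hW17]
    linarith [M.1]
  have hab : |(1000 * vb + 36) * (17 * 10 ^ 41 * W)| < 17000 * (FS * 10 ^ 41) := by
    rw [abs_lt]
    constructor <;> linarith
  have e7 : |(1000 * vb + 36) * (17 * 10 ^ 41 * W)| =
      17000 * 10 ^ 41 * ((vb + 36 / 1000) * |W|) := by
    rw [abs_mul, abs_mul, abs_of_pos hpos, abs_of_pos (by norm_num : (0 : ℝ) < 17 * 10 ^ 41)]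
    ring
  rw [e7] at hab
  have : (17000 * 10 ^ 41 : ℝ) * FS ≤ 17000 * 10 ^ 41 * ((vb + 36 / 1000) * |W|) :=
    mul_le_mul_of_nonneg_left hFS (by norm_num)
  linarith

theorem sound {e a b : ℝ} (H : Hyp e a b) : ∀ (t : Tr) (elo ehi alo ahi blo bhi : ℤ),
    (elo : ℝ) ≤ e * 10 ^ 41 → e * 10 ^ 41 ≤ ehi → (alo : ℝ) ≤ a * 10 ^ 41 →
    a * 10 ^ 41 ≤ ahi → (blo : ℝ) ≤ b * 10 ^ 41 → b * 10 ^ 41 ≤ bhi →
    chk t elo ehi alo ahi blo bhi = true → False
  | .O, elo, ehi, alo, ahi, blo, bhi, h1, _, _, h4, _, h6, h => by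
    unfold chk at h
    exact sound_O H h1 h4 h6 h
  | .P vb va vn, elo, ehi, alo, ahi, blo, bhi, h1, h2, h3, h4, h5, h6, h => by
    unfold chk at h
    obtain ⟨h, w5⟩ := Bool.and_eq_true_iff.1 h
    obtain ⟨h, w4⟩ := Bool.and_eq_true_iff.1 h
    obtain ⟨h, w3⟩ := Bool.and_eq_true_iff.1 h
    obtain ⟨w1, w2⟩ := Bool.and_eq_true_iff.1 h
    exact sound_P H h1 h2 h3 h4 h5 h6 (of_decide_eq_true w1) (of_decide_eq_true w2) w3 w4 w5
  | .S0 m l r, elo, ehi, alo, ahi, blo, bhi, h1, h2, h3, h4, h5, h6, h => by
    unfold chk at h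
    obtain ⟨w1, w2⟩ := Bool.and_eq_true_iff.1 h
    rcases le_total (e * 10 ^ 41) (m : ℝ) with hm | hm
    · exact sound H l _ _ _ _ _ _ h1 hm h3 h4 h5 h6 w1
    · exact sound H r _ _ _ _ _ _ hm h2 h3 h4 h5 h6 w2
  | .S1 m l r, elo, ehi, alo, ahi, blo, bhi, h1, h2, h3, h4, h5, h6, h => by
    unfold chk at h
    obtain ⟨w1, w2⟩ := Bool.and_eq_true_iff.1 h
    rcases le_total (a * 10 ^ 41) (m : ℝ) with hm | hm
    · exact sound H l _ _ _ _ _ _ h1 h2 h3 hm h5 h6 w1
    · exact sound H r _ _ _ _ _ _ h1 h2 hm h4 h5 h6 w2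
  | .S2 m l r, elo, ehi, alo, ahi, blo, bhi, h1, h2, h3, h4, h5, h6, h => by
    unfold chk at h
    obtain ⟨w1, w2⟩ := Bool.and_eq_true_iff.1 h
    rcases le_total (b * 10 ^ 41) (m : ℝ) with hm | hm
    · exact sound H l _ _ _ _ _ _ h1 h2 h3 h4 h5 hm w1
    · exact sound H r _ _ _ _ _ _ h1 h2 h3 h4 hm h6 w2

/-- the certificate -/
def tree : Tr :=
(.S2 0
 (.S2 (-2500000000000000000000000000000000000)
 .O
 (.S1 0
 (.S2 (-1250000000000000000000000000000000000)
 .O
 (.S2 (-625000000000000000000000000000000000)
 .O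
 (.S1 (-100000000000000000000000000000000000000)
 .O
 (.S2 (-312500000000000000000000000000000000)
 .O
 (.S2 (-156250000000000000000000000000000000)
 .O
 (.S0 50000000000000000000000000000000000000
 (.S1 (-50000000000000000000000000000000000000)
 .O
 (.S2 (-78125000000000000000000000000000000)
 .O
 (.S2 (-39062500000000000000000000000000000)
 .O
 (.S0 25000000000000000000000000000000000000
 (.S1 (-25000000000000000000000000000000000000)
 .O
 (.S2 (-19531250000000000000000000000000000)
 .O
 (.S2 (-9765625000000000000000000000000000)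
 .O
 (.S0 12500000000000000000000000000000000000
 (.S1 (-12500000000000000000000000000000000000)
 .O
 (.S2 (-4882812500000000000000000000000000)
 .O
 (.S2 (-2441406250000000000000000000000000)
 .O
 (.S0 6250000000000000000000000000000000000
 (.S1 (-6250000000000000000000000000000000000)
 .O
 (.S2 (-1220703125000000000000000000000000)
 .O
 (.S2 (-610351562500000000000000000000000)
 .O
 (.S0 3125000000000000000000000000000000000
 (.S1 (-3125000000000000000000000000000000000)
 .O
 (.S2 (-305175781250000000000000000000000)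
 .O
 (.S2 (-152587890625000000000000000000000)
 .O
 (.S0 1562500000000000000000000000000000000
 (.S1 (-1562500000000000000000000000000000000)
 .O
 (.S2 (-76293945312500000000000000000000)
 .O
 (.S2 (-38146972656250000000000000000000)
 .O
 (.S0 920000000000000000000000000000000000
 (.S1 (-781250000000000000000000000000000000)
 .O
 (.S2 (-19073486328125000000000000000000)
 .O
 (.S2 (-9536743164062500000000000000000)
 .O
 (.S0 460000000000000000000000000000000000
 (.S1 (-390625000000000000000000000000000000)
 .O
 (.S2 (-4768371582031250000000000000000)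
 .O
 (.S2 (-2384185791015625000000000000000)
 .O
 (.S0 230000000000000000000000000000000000
 (.S1 (-195312500000000000000000000000000000)
 .O
 (.S2 (-1192092895507812500000000000000)
 .O
 (.S2 (-596046447753906250000000000000)
 .O
 (.S0 115000000000000000000000000000000000
 (.S1 (-97656250000000000000000000000000000)
 .O
 (.S2 (-298023223876953130000000000000)
 .O
 (.P 217056 204289 82916)))
 .O))))
 .O))))
 .O))))
 .O))))
 .O))))
 .O))))
 .O))))
 .O))))
 .O))))
 .O))))))
 (.S2 (-1250000000000000000000000000000000000)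
 .O
 (.S2 (-625000000000000000000000000000000000)
 (.P 178 167 68)
 (.S1 100000000000000000000000000000000000000
 (.S2 (-312500000000000000000000000000000000)
 (.S2 (-468750000000000000000000000000000000)
 .O
 (.P 411 387 157))
 (.S2 (-156250000000000000000000000000000000)
 (.P 411 387 157)
 (.S0 50000000000000000000000000000000000000
 (.S1 50000000000000000000000000000000000000
 (.S2 (-78125000000000000000000000000000000)
 (.P 411 387 157)
 (.S2 (-39062500000000000000000000000000000)
 (.S0 25000000000000000000000000000000000000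
 (.S1 25000000000000000000000000000000000000
 (.S2 (-58593750000000000000000000000000000)
 (.P 411 387 157)
 (.P 1089 1025 416))
 (.P 445 418 170))
 .O)
 (.S0 25000000000000000000000000000000000000
 (.S1 25000000000000000000000000000000000000
 (.S2 (-19531250000000000000000000000000000)
 (.P 1089 1025 416)
 (.S2 (-9765625000000000000000000000000000)
 (.P 1089 1025 416)
 (.S0 12500000000000000000000000000000000000
 (.S1 12500000000000000000000000000000000000
 (.S2 (-4882812500000000000000000000000000)
 (.P 2856 2688 1091)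
 (.S2 (-2441406250000000000000000000000000)
 (.P 2856 2688 1091)
 (.S0 6250000000000000000000000000000000000
 (.S1 6250000000000000000000000000000000000
 (.S2 (-1220703125000000000000000000000000)
 (.P 2856 2688 1091)
 (.S2 (-610351562500000000000000000000000)
 (.P 7479 7039 2857)
 (.S0 3125000000000000000000000000000000000
 (.S1 3125000000000000000000000000000000000
 (.S2 (-305175781250000000000000000000000)
 (.P 7479 7039 2857)
 (.S2 (-152587890625000000000000000000000)
 (.P 7479 7039 2857)
 (.S0 1562500000000000000000000000000000000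
 (.S1 1562500000000000000000000000000000000
 (.S2 (-76293945312500000000000000000000)
 (.P 19581 18429 7480)
 (.S2 (-38146972656250000000000000000000)
 (.P 19581 18429 7480)
 (.S0 920000000000000000000000000000000000
 (.S1 781250000000000000000000000000000000
 (.S2 (-19073486328125000000000000000000)
 (.P 19581 18429 7480)
 (.S2 (-9536743164062500000000000000000)
 (.P 51264 48248 19583)
 (.S0 460000000000000000000000000000000000
 (.S1 390625000000000000000000000000000000
 (.S2 (-4768371582031250000000000000000)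
 (.P 51264 48248 19583)
 (.S2 (-2384185791015625000000000000000)
 (.P 51264 48248 19583)
 (.S0 230000000000000000000000000000000000
 (.S1 195312500000000000000000000000000000
 (.S2 (-1192092895507812500000000000000)
 (.P 134177 126284 51256)
 (.S2 (-596046447753906250000000000000)
 (.P 134177 126284 51256)
 (.S0 115000000000000000000000000000000000
 (.S1 97656250000000000000000000000000000
 (.P 217056 204289 82916)
 (.P 134177 126284 51256))
 .O)))
 (.P 134177 126284 51256))
 .O)))
 (.P 51264 48248 19583))
 .O)))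
 (.S2 (-19073486328125000000000000000000)
 (.P 19581 18429 7480)
 (.P 12068 11359 4610)))
 .O)))
 (.S2 (-76293945312500000000000000000000)
 (.P 19581 18429 7480)
 (.P 12068 11359 4610)))
 .O)))
 (.S2 (-305175781250000000000000000000000)
 (.P 7479 7039 2857)
 (.P 4589 4320 1753)))
 .O)))
 (.S2 (-1220703125000000000000000000000000)
 (.P 2856 2688 1091)
 (.P 1733 1632 662)))
 .O)))
 (.S2 (-4882812500000000000000000000000000)
 (.P 2856 2688 1091)
 (.P 644 607 246)))
 .O)))
 (.S2 (-19531250000000000000000000000000000)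
 (.P 1089 1025 416)
 (.P 644 607 246)))
 .O)))
 (.S2 (-78125000000000000000000000000000000)
 (.P 411 387 157)
 (.P 233 220 89)))
 .O)))
 (.S2 (-312500000000000000000000000000000000)
 (.P 178 167 68)
 (.S2 (-156250000000000000000000000000000000)
 (.P 411 387 157)
 (.P 233 220 89))))))))
 (.S2 2500000000000000000000000000000000000
 (.S1 0
 (.S2 1250000000000000000000000000000000000
 (.S2 625000000000000000000000000000000000
 (.S1 (-100000000000000000000000000000000000000)
 (.S2 312500000000000000000000000000000000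
 .O
 (.P 267 251 102))
 (.S2 312500000000000000000000000000000000
 (.S2 156250000000000000000000000000000000
 (.S0 50000000000000000000000000000000000000
 (.S1 (-50000000000000000000000000000000000000)
 .O
 (.S2 78125000000000000000000000000000000
 (.S2 39062500000000000000000000000000000
 (.S0 25000000000000000000000000000000000000
 (.S1 (-25000000000000000000000000000000000000)
 .O
 (.S2 19531250000000000000000000000000000
 (.S2 9765625000000000000000000000000000
 (.S0 12500000000000000000000000000000000000
 (.S1 (-12500000000000000000000000000000000000)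
 .O
 (.S2 4882812500000000000000000000000000
 (.S2 2441406250000000000000000000000000
 (.S0 6250000000000000000000000000000000000
 (.S1 (-6250000000000000000000000000000000000)
 .O
 (.S2 1220703125000000000000000000000000
 (.S2 610351562500000000000000000000000
 (.S0 3125000000000000000000000000000000000
 (.S1 (-3125000000000000000000000000000000000)
 .O
 (.S2 305175781250000000000000000000000
 (.S2 152587890625000000000000000000000
 (.S0 1562500000000000000000000000000000000
 (.S1 (-1562500000000000000000000000000000000)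
 .O
 (.S2 76293945312500000000000000000000
 (.S2 38146972656250000000000000000000
 (.S0 920000000000000000000000000000000000
 (.S1 (-781250000000000000000000000000000000)
 .O
 (.S2 19073486328125000000000000000000
 (.S2 9536743164062500000000000000000
 (.S0 460000000000000000000000000000000000
 (.S1 (-390625000000000000000000000000000000)
 .O
 (.S2 4768371582031250000000000000000
 (.S2 2384185791015625000000000000000
 (.S0 230000000000000000000000000000000000
 (.S1 (-195312500000000000000000000000000000)
 .O
 (.S2 1192092895507812500000000000000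
 (.S2 596046447753906250000000000000
 (.S0 115000000000000000000000000000000000
 (.S1 (-97656250000000000000000000000000000)
 .O
 (.P 217056 204289 82916))
 .O)
 (.P 217090 204320 82929))
 (.P 82913 78036 31673)))
 .O)
 (.P 82913 78036 31673))
 (.P 82913 78036 31673)))
 .O)
 (.P 31683 29819 12103))
 (.P 31683 29819 12103)))
 .O)
 (.P 31649 29788 12090))
 (.P 12102 11390 4623)))
 .O)
 (.P 12102 11390 4623))
 (.S2 457763671875000000000000000000000
 (.P 12102 11390 4623)
 (.P 4623 4351 1766))))
 .O)
 (.P 4623 4351 1766))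
 (.P 4623 4351 1766)))
 .O)
 (.P 1767 1663 675))
 (.P 1767 1663 675)))
 .O)
 (.P 1767 1663 675))
 (.P 678 638 259)))
 .O)
 (.P 678 638 259))
 (.P 678 638 259)))
 .O)
 (.P 267 251 102))
 (.P 267 251 102)))
 (.S1 (-100000000000000000000000000000000000000)
 (.P 123 115 47)
 (.P 233 220 89)))
 (.P 89 84 34))
 (.S2 1250000000000000000000000000000000000
 (.S2 625000000000000000000000000000000000
 (.S1 100000000000000000000000000000000000000
 (.S2 312500000000000000000000000000000000
 (.S2 156250000000000000000000000000000000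
 (.S0 50000000000000000000000000000000000000
 (.S1 50000000000000000000000000000000000000
 (.S2 78125000000000000000000000000000000
 (.S2 39062500000000000000000000000000000
 (.S0 25000000000000000000000000000000000000
 (.S1 25000000000000000000000000000000000000
 (.S2 19531250000000000000000000000000000
 (.S2 9765625000000000000000000000000000
 (.S0 12500000000000000000000000000000000000
 (.S1 12500000000000000000000000000000000000
 (.S2 4882812500000000000000000000000000
 (.S2 2441406250000000000000000000000000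
 (.S0 6250000000000000000000000000000000000
 (.S1 6250000000000000000000000000000000000
 (.S2 1220703125000000000000000000000000
 (.S2 610351562500000000000000000000000
 (.S0 3125000000000000000000000000000000000
 (.S1 3125000000000000000000000000000000000
 (.S2 305175781250000000000000000000000
 (.S2 152587890625000000000000000000000
 (.S0 1562500000000000000000000000000000000
 (.S1 1562500000000000000000000000000000000
 (.S2 76293945312500000000000000000000
 (.S2 38146972656250000000000000000000
 (.S0 920000000000000000000000000000000000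
 (.S1 781250000000000000000000000000000000
 (.S2 19073486328125000000000000000000
 (.S2 9536743164062500000000000000000
 (.S0 460000000000000000000000000000000000
 (.S1 390625000000000000000000000000000000
 (.S2 4768371582031250000000000000000
 (.S2 2384185791015625000000000000000
 (.S0 230000000000000000000000000000000000
 (.S1 195312500000000000000000000000000000
 (.S2 1192092895507812500000000000000
 (.S2 596046447753906250000000000000
 (.S0 115000000000000000000000000000000000
 (.S1 97656250000000000000000000000000000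
 (.S2 298023223876953130000000000000
 (.P 217056 204289 82916)
 (.P 217090 204320 82929))
 (.P 31649 29788 12090))
 .O)
 (.P 217090 204320 82929))
 (.P 82913 78036 31673))
 (.P 31649 29788 12090))
 .O)
 (.P 82913 78036 31673))
 (.P 82913 78036 31673))
 (.P 31649 29788 12090))
 .O)
 (.P 31649 29788 12090))
 (.P 31649 29788 12090))
 (.P 31649 29788 12090))
 .O)
 (.P 31683 29819 12103))
 (.P 12068 11359 4610))
 (.P 12068 11359 4610))
 .O)
 (.P 12102 11390 4623))
 (.P 4589 4320 1753))
 (.P 4589 4320 1753))
 .O)
 (.P 4589 4320 1753))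
 (.P 4623 4351 1766))
 (.P 1733 1632 662))
 .O)
 (.P 1733 1632 662))
 (.P 1733 1632 662))
 (.P 1733 1632 662))
 .O)
 (.P 1767 1663 675))
 (.P 644 607 246))
 (.P 644 607 246))
 .O)
 (.P 644 607 246))
 (.P 678 638 259))
 (.P 233 220 89))
 (.S1 50000000000000000000000000000000000000
 .O
 (.P 233 220 89)))
 (.P 233 220 89))
 (.P 233 220 89))
 (.P 233 220 89))
 (.P 89 84 34))
 (.P 89 84 34)))
 (.P 89 84 34)))

theorem tree_ok : chk tree 0 (10 ^ 38) (-(2 * 10 ^ 38)) (2 * 10 ^ 38)
    (-(5 * 10 ^ 36)) (5 * 10 ^ 36) = true := by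
  decide +kernel

end U3m

open U3m in
/-- U3: rigidity of `z`. -/
theorem stmtU3 : S_U3 := by
  intro c z κ ε β γ hc hC hR hT
  by_contra hlt
  rw [not_le] at hlt
  set e := z - 16 / 17 with he
  set a := γ - gS with ha
  set b := (β - bS) + 16 / 17 * (γ - gS) with hb
  have hκ := hR.hκ
  have hε := hR.hε
  have hε0 := hC.hε0
  have hκ1 := hC.hκ1
  have hz := abs_le.1 hR.hz
  have haa := abs_le.1 hR.ha
  have hbb := abs_le.1 hR.hb
  have hFS := FS_bounds
  -- the inequality of a vector in the window
  have hpt : ∀ vb va vn : ℤ, 1 ≤ vb → |x0 (vb, va, vn) - e * vb| < κ →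
      FS ≤ (κ * vb + ε * (x0 (vb, va, vn) - e * vb)) *
        |Vs (vb, va, vn) + a * x0 (vb, va, vn) + b * vb| := by
    intro vb va vn hvb hw
    have e1 : ((vb, va, vn) : V3).2.1 - ((vb, va, vn) : V3).1 * z =
        x0 (vb, va, vn) - e * vb := by
      rw [he]
      unfold x0
      ring
    have h := hC.hpt (vb, va, vn) hvb (by rw [e1]; exact hw)
    rw [e1, form_eq] at h
    exact hc.trans h
  have hsimp : ∀ vb va vn : ℤ, 1 ≤ vb → |x0 (vb, va, vn) - e * vb| < κ →
      FS ≤ (vb + 36 / 1000) * |Vs (vb, va, vn) + a * x0 (vb, va, vn) + b * vb| := by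
    intro vb va vn hvb hw
    refine (hpt vb va vn hvb hw).trans (mul_le_mul_of_nonneg_right ?_ (abs_nonneg _))
    have hvbR : (1 : ℝ) ≤ vb := by exact_mod_cast hvb
    have hw' := abs_lt.1 hw
    have k1 : κ * vb ≤ 1 * vb := mul_le_mul_of_nonneg_right hκ1 (by linarith)
    have k2 : ε * (x0 (vb, va, vn) - e * vb) ≤ ε * 1 :=
      mul_le_mul_of_nonneg_left (by linarith [hw'.2]) hε0
    linarith
  rcases le_total e 0 with he0 | he0
  · -- `e ≤ 0`
    rw [abs_of_nonpos he0] at hlt
    have hx : x0 (34, 31, 13) = -1 := by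
      unfold x0
      norm_num
    have hw : |x0 (34, 31, 13) - e * ((34 : ℤ) : ℝ)| < κ := by
      rw [hx, abs_lt]
      push_cast
      constructor <;> linarith
    have h := hsimp 34 31 13 (by norm_num) hw
    have hV : |Vs (34, 31, 13) + a * x0 (34, 31, 13) + b * ((34 : ℤ) : ℝ)| ≤ 5 / 1000 := by
      rw [hx]
      have hB := bS_bounds
      have hG := gS_bounds
      have hVs : |Vs (34, 31, 13)| ≤ 1 / 10000 := by
        unfold Vs
        rw [abs_le]
        norm_num at hB hG ⊢
        constructor <;> linarith [hB.1, hB.2, hG.1, hG.2]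
      have hVs' := abs_le.1 hVs
      rw [abs_le]
      push_cast
      constructor <;> linarith [hbb.1, hbb.2, haa.1, haa.2]
    have h2 : (((34 : ℤ) : ℝ) + 36 / 1000) *
        |Vs (34, 31, 13) + a * x0 (34, 31, 13) + b * ((34 : ℤ) : ℝ)| ≤
        (((34 : ℤ) : ℝ) + 36 / 1000) * (5 / 1000) :=
      mul_le_mul_of_nonneg_left hV (by norm_num)
    have h3 := h.trans h2
    have h4 := hFS.1
    norm_num at h3 h4
    linarith
  · -- `e ≥ 0`
    rw [abs_of_nonneg he0] at hlt
    have hT' : 65 / 1000 * e ≤ LAs * a + LBs * b := by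
      have h1 : min (65 / 1000 * e) (94 / 1000 * e) = 65 / 1000 * e :=
        min_eq_left (by linarith)
      rw [h1] at hT
      have h2 : 0 ≤ (1 - κ) / FS := div_nonneg (by linarith) FS_pos.le
      have h3 : TT β γ = LAs * a + LBs * b := rfl
      linarith
    have H : Hyp e a b := by
      refine ⟨hT', ?_⟩
      rintro vb va vn hvb (hw | ⟨rfl, rfl, rfl, hw⟩)
      · exact hsimp vb va vn hvb (by linarith)
      · refine hsimp 217056 204289 82916 hvb ?_
        have hx : x0 (217056, 204289, 82916) = 1 := by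
          unfold x0
          norm_num
        rw [hx, abs_lt]
        push_cast
        rw [le_div_iff₀ (by norm_num)] at hw
        norm_num at hw
        constructor <;> linarith
    refine sound H tree 0 (10 ^ 38) (-(2 * 10 ^ 38)) (2 * 10 ^ 38)
      (-(5 * 10 ^ 36)) (5 * 10 ^ 36) ?_ ?_ ?_ ?_ ?_ ?_ tree_ok
    · push_cast
      positivity
    · push_cast
      have := hz.2
      nlinarith
    · push_cast
      have := haa.1
      nlinarith
    · push_cast
      have := haa.2
      nlinarith
    · push_cast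
      have := hbb.1
      nlinarith
    · push_cast
      have := hbb.2
      nlinarith

end Pool.Agent.MDX
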