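import Mathlib
import Pool.Agent.MDX.Stmts

/-!
U4: the renormalisation induction of the upper bound (MP_85fa44_nt).
-/

namespace Pool.Agent.MDX

namespace U4m

open Filter Topology

lemma x0_le (v : V3) (h : |x0 v| < 1) : |x0 v| ≤ 16 / 17 := by
  unfold x0 at h ⊢
  rw [abs_lt] at h
  have h1 : (17 * v.2.1 - 16 * v.1 : ℤ) < 17 := by
    have : ((17 * v.2.1 - 16 * v.1 : ℤ) : ℝ) < 17 := by push_cast; linarith [h.2]
    exact_mod_cast this
  have h2 : (-17 : ℤ) < 17 * v.2.1 - 16 * v.1 := by
    have : (-17 : ℝ) < ((17 * v.2.1 - 16 * v.1 : ℤ) : ℝ) := by push_cast; linarith [h.1]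
    exact_mod_cast this
  have h1' : ((17 * v.2.1 - 16 * v.1 : ℤ) : ℝ) ≤ ((16 : ℤ) : ℝ) :=
    Int.cast_le.mpr (by omega)
  have h2' : (((-16 : ℤ)) : ℝ) ≤ ((17 * v.2.1 - 16 * v.1 : ℤ) : ℝ) :=
    Int.cast_le.mpr (by omega)
  push_cast at h1' h2'
  rw [abs_le]
  constructor <;> linarith

lemma x0_iter (n : ℕ) (v : V3) : x0 (AV^[n] v) = x0 v := by
  induction n generalizing v with
  | zero => rfl
  | succ n ih => rw [Function.iterate_succ_apply', x0_AV, ih]

lemma Vs_iter (n : ℕ) (v : V3) : Vs (AV^[n] v) = laI ^ n * Vs v := by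
  induction n generalizing v with
  | zero => simp
  | succ n ih => rw [Function.iterate_succ_apply', Vs_AV, ih]; ring

lemma Hs_iter (n : ℕ) (v : V3) : Hs (AV^[n] v) = lam ^ n * Hs v := by
  induction n generalizing v with
  | zero => simp
  | succ n ih => rw [Function.iterate_succ_apply', Hs_AV, ih]; ring

lemma lam_laI_pow (n : ℕ) : lam ^ n * laI ^ n = 1 := by
  rw [← mul_pow, lam_mul_laI, one_pow]

lemma b_iter (n : ℕ) (v : V3) : ((AV^[n] v).1 : ℝ) = UU (laI ^ n) v / laI ^ n := by
  have hm : 0 < laI ^ n := pow_pos laI_pos n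
  rw [b_eq, x0_iter, Vs_iter, Hs_iter]
  unfold UU
  have h := lam_laI_pow n
  field_simp
  linear_combination (Hs v) * h

/-- the basic lower bound of `T` -/
lemma T_lower {κ e T : ℝ} (he : 34 * |e| ≤ 1 - κ)
    (hT : (1 - κ) / FS + min (65 / 1000 * e) (94 / 1000 * e) ≤ T) :
    26 / 10 * (1 - κ) ≤ T := by
  have hF := FS_bounds
  have hFp := FS_pos
  have hκ : 0 ≤ 1 - κ := le_trans (by positivity) he
  have h1 : 261 / 100 * (1 - κ) ≤ (1 - κ) / FS := by
    rw [le_div_iff₀ hFp]
    have : FS * (261 / 100) ≤ 1 := by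
      have := hF.2
      norm_num at this
      linarith
    nlinarith
  have h2 : -(94 / 1000 * |e|) ≤ min (65 / 1000 * e) (94 / 1000 * e) := by
    apply le_min
    · have := neg_abs_le e
      have := abs_nonneg e
      linarith
    · have := neg_abs_le e
      linarith
  linarith

/-- the inequality of the points of the window -/
lemma window {c z κ ε β γ : ℝ} (hc : FS ≤ c) (hC : Cfg c z κ ε β γ) (hR : Ropt z κ ε β γ)
    (he : 34 * |z - 16 / 17| ≤ 1 - κ) (hT : 26 / 10 * (1 - κ) ≤ TT β γ)
    (v : V3) (hv : 1 ≤ v.1) (hx : |x0 v| < 1) (hTv : TT β γ * (v.1 + 34) ≤ 5) :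
    FS ≤ (v.1 + 36 / 1000) *
      |Vs v + (γ - gS) * x0 v + ((β - bS) + 16 / 17 * (γ - gS)) * v.1| := by
  have hv' : (1 : ℝ) ≤ v.1 := by exact_mod_cast hv
  have hx' := x0_le v hx
  have e1 : (v.2.1 : ℝ) - v.1 * z = x0 v - (z - 16 / 17) * v.1 := by unfold x0; ring
  have hw : (1 - κ) * (v.1 + 34) < 2 := by
    have : 26 / 10 * (1 - κ) * (v.1 + 34) ≤ TT β γ * (v.1 + 34) :=
      mul_le_mul_of_nonneg_right hT (by linarith)
    nlinarith
  have h2 : |(v.2.1 : ℝ) - v.1 * z| < κ := by
    rw [e1]
    have h3 : |(z - 16 / 17) * v.1| ≤ (1 - κ) / 34 * v.1 := by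
      rw [abs_mul, abs_of_pos (by linarith : (0 : ℝ) < v.1)]
      apply mul_le_mul_of_nonneg_right _ (by linarith)
      linarith
    have h4 := abs_sub (x0 v) ((z - 16 / 17) * v.1)
    nlinarith
  have h5 := hC.hpt v hv h2
  rw [form_eq] at h5
  refine hc.trans (h5.trans ?_)
  apply mul_le_mul_of_nonneg_right _ (abs_nonneg _)
  have h6 : (v.2.1 : ℝ) - v.1 * z ≤ 1 := le_trans (le_abs_self _) (h2.le.trans hC.hκ1)
  have h7 : ε * ((v.2.1 : ℝ) - v.1 * z) ≤ ε * 1 := mul_le_mul_of_nonneg_left h6 hC.hε0
  have h8 := hR.hε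
  have h9 : κ * v.1 ≤ 1 * v.1 := mul_le_mul_of_nonneg_right hC.hκ1 (by linarith)
  linarith

lemma laI_lt : laI < 1 / 1000 := by
  have := laI_bounds.2
  norm_num at this ⊢
  linarith

lemma zero_of_pow {x C : ℝ} (h : ∀ n : ℕ, 1 ≤ n → |x| ≤ laI ^ n / C) : x = 0 := by
  have h1 : Tendsto (fun n : ℕ => laI ^ n / C) atTop (𝓝 (0 / C)) :=
    (tendsto_pow_atTop_nhds_zero_of_lt_one laI_pos.le (by have := laI_lt; linarith)).div_const C
  rw [zero_div] at h1
  have h2 : |x| ≤ 0 := by
    apply ge_of_tendsto h1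
    filter_upwards [eventually_ge_atTop 1] with n hn
    exact h n hn
  exact abs_eq_zero.mp (le_antisymm h2 (abs_nonneg _))

end U4m

open U4m in
/-- U4: the renormalisation induction. -/
theorem stmtU4 (hO : S_OBJ) (h3 : S_U3) (h1 : S_C1) (h2 : S_C2) : S_U4 := by
  intro c z κ ε β γ hc hC hR
  have hOb := hO c z κ ε β γ hc hC hR
  have he := h3 c z κ ε β γ hc hC hR hOb
  have hT := T_lower he hOb
  have hκ1 : 0 ≤ 1 - κ := by linarith [hC.hκ1]
  have hT0 : 0 ≤ TT β γ := le_trans (by positivity) hT
  have hW0 := window hc hC hR he hT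
  obtain ⟨a, ha⟩ : ∃ a, a = γ - gS := ⟨_, rfl⟩
  obtain ⟨b, hb⟩ : ∃ b, b = (β - bS) + 16 / 17 * (γ - gS) := ⟨_, rfl⟩
  have hTab : TT β γ = LAs * a + LBs * b := by unfold TT; rw [ha, hb]
  have hW : ∀ v : V3, 1 ≤ v.1 → |x0 v| < 1 → TT β γ * (v.1 + 34) ≤ 5 →
      FS ≤ (v.1 + 36 / 1000) * |Vs v + a * x0 v + b * v.1| := by
    intro v hv hx hTv
    rw [ha, hb]
    exact hW0 v hv hx hTv
  clear hW0
  have hC1 := h1 a b (by rw [ha]; exact hR.ha) (by rw [hb]; exact hR.hb) (by rw [← hTab]; exact hT0)
    (by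
      intro v hv hx hTv
      exact hW v (by omega) hx (by rw [hTab]; exact hTv))
  have key : ∀ n : ℕ, |a| ≤ laI ^ (n + 1) / 10000 ∧ |b| ≤ (laI ^ (n + 1)) ^ 2 / 1000000 := by
    intro n
    induction n with
    | zero => simpa using hC1
    | succ n ih =>
      have hm : 0 < laI ^ (n + 1) := pow_pos laI_pos _
      have hm1 : laI ^ (n + 1) ≤ laI := by
        have h := pow_le_one₀ laI_pos.le (by have := laI_lt; linarith : laI ≤ 1) (n := n)
        rw [pow_succ]
        nlinarith [laI_pos]
      have hmid : lam ^ (n + 1) * laI ^ (n + 1) = 1 := lam_laI_pow (n + 1)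
      have hlam : (38000000 : ℝ) ≤ lam ^ (n + 1) := by
        have hl := lam_bounds.1
        norm_num at hl
        have h := one_le_pow₀ (by linarith : (1 : ℝ) ≤ lam) (n := n)
        rw [pow_succ]
        nlinarith
      generalize hμ : laI ^ (n + 1) = μ at *
      have hA : |a / μ| ≤ 1 / 10000 := by
        rw [abs_div, abs_of_pos hm, div_le_iff₀ hm]
        linarith [ih.1]
      have hB : |b / μ ^ 2| ≤ 1 / 1000000 := by
        rw [abs_div, abs_of_pos (pow_pos hm 2), div_le_iff₀ (pow_pos hm 2)]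
        linarith [ih.2]
      have hTm : LAs * (a / μ) + LBs * (b / μ ^ 2) * μ = TT β γ / μ := by
        rw [hTab]
        field_simp
      have hC2 := h2 μ (a / μ) (b / μ ^ 2) hm hm1 hA hB (by rw [hTm]; positivity)
        (by
          intro v hH hx hV hTv
          rw [hTm] at hTv
          have hbv := b_iter (n + 1) v
          have hxv := x0_iter (n + 1) v
          have hVv := Vs_iter (n + 1) v
          rw [hμ] at hbv hVv
          have hb0 := b_eq (AV^[n + 1] v)
          rw [Hs_iter, hxv, hVv] at hb0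
          have hpos : 1 ≤ (AV^[n + 1] v).1 := by
            have : (1 : ℝ) ≤ (AV^[n + 1] v).1 := by
              rw [hb0]
              have q1 : (38000000 : ℝ) ≤ lam ^ (n + 1) * Hs v := by nlinarith
              have q2 : -34 ≤ cX * x0 v := by
                have hcX := cX_bounds
                norm_num at hcX
                have : |cX * x0 v| ≤ 34 * 1 := by
                  rw [abs_mul]
                  apply mul_le_mul _ hx.le (abs_nonneg _) (by norm_num)
                  rw [abs_le]
                  constructor <;> linarith [hcX.1, hcX.2]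
                have := neg_abs_le (cX * x0 v)
                linarith
              have q3 : -301 ≤ cT * (μ * Vs v) := by
                have hcT := cT_bounds
                norm_num at hcT
                have : |cT * (μ * Vs v)| ≤ 301 * (1 * 1) := by
                  rw [abs_mul, abs_mul]
                  apply mul_le_mul _ _ (by positivity) (by norm_num)
                  · rw [abs_le]
                    constructor <;> linarith [hcT.1, hcT.2]
                  · apply mul_le_mul _ hV (abs_nonneg _) (by norm_num)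
                    rw [abs_of_pos hm]
                    have := laI_lt
                    linarith
                have := neg_abs_le (cT * (μ * Vs v))
                linarith
              linarith
            exact_mod_cast this
          have hW' := hW (AV^[n + 1] v) hpos (by rw [hxv]; exact hx)
            (by
              rw [hbv]
              have : TT β γ * (UU μ v / μ + 34) = TT β γ / μ * (UU μ v + 34 * μ) := by
                field_simp
              rw [this]
              exact hTv)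
          rw [hbv, hxv, hVv] at hW'
          have e1 : (UU μ v / μ + 36 / 1000) = (UU μ v + 36 / 1000 * μ) / μ := by
            field_simp
          have e2 : μ * Vs v + a * x0 v + b * (UU μ v / μ) =
              μ * (Vs v + a / μ * x0 v + b / μ ^ 2 * UU μ v) := by
            field_simp
          rw [e1, e2, abs_mul, abs_of_pos hm] at hW'
          have e3 : (UU μ v + 36 / 1000 * μ) / μ *
              (μ * |Vs v + a / μ * x0 v + b / μ ^ 2 * UU μ v|) =
              (UU μ v + 36 / 1000 * μ) * |Vs v + a / μ * x0 v + b / μ ^ 2 * UU μ v| := by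
            field_simp
          rw [e3] at hW'
          exact hW')
      rw [pow_succ, hμ]
      obtain ⟨r1, r2⟩ := hC2
      rw [abs_div, abs_of_pos hm, div_le_iff₀ hm] at r1
      rw [abs_div, abs_of_pos (pow_pos hm 2), div_le_iff₀ (pow_pos hm 2)] at r2
      constructor
      · linarith
      · rw [mul_pow]
        linarith
  have ha0 : a = 0 := by
    apply zero_of_pow (C := 10000)
    intro n hn
    obtain ⟨m, rfl⟩ : ∃ m, n = m + 1 := ⟨n - 1, by omega⟩
    exact (key m).1
  have hb0 : b = 0 := by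
    apply zero_of_pow (C := 1000000)
    intro n hn
    obtain ⟨m, rfl⟩ : ∃ m, n = m + 1 := ⟨n - 1, by omega⟩
    refine (key m).2.trans ?_
    apply div_le_div_of_nonneg_right _ (by norm_num)
    have hm : 0 < laI ^ (m + 1) := pow_pos laI_pos _
    have : laI ^ (m + 1) ≤ 1 := pow_le_one₀ laI_pos.le (by have := laI_lt; linarith)
    nlinarith
  have hTz : TT β γ = 0 := by rw [hTab, ha0, hb0]; ring
  have hκ : κ = 1 := by
    have := hC.hκ1
    linarith
  have hz : z = 16 / 17 := by
    have h4 : |z - 16 / 17| ≤ 0 := by rw [hκ] at he; linarith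
    have := abs_eq_zero.mp (le_antisymm h4 (abs_nonneg _))
    linarith
  have hγ : γ = gS := by linarith
  have hβ : β = bS := by rw [hγ] at hb; linarith
  have g1 := hC.h11 0
  have g2 := hC.h10 0
  rw [hκ, hz, hβ, hγ] at g1
  rw [hκ, hz, hβ] at g2
  have hpp := pS_pos
  have hbp := bS_pos
  have hFp := FS_pos
  have epS : bS + gS - ((0 : ℤ) : ℝ) = pS := by unfold pS; push_cast; ring
  have ebS : bS - ((0 : ℤ) : ℝ) = bS := by push_cast; ring
  rw [epS, abs_of_pos hpp] at g1
  rw [ebS, abs_of_pos hbp] at g2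
  have k1 : c / pS ≤ 1 + ε * (1 - 16 / 17) := by rw [div_le_iff₀ hpp]; exact g1
  have k2 : c / bS ≤ 1 - ε * (16 / 17) := by rw [div_le_iff₀ hbp]; exact g2
  have hinv := FS_inv
  have k3 : c / FS = 16 / 17 * (c / pS) + 1 / 17 * (c / bS) := by
    have : c / FS = c * (1 / FS) := by ring
    rw [this, ← hinv]
    ring
  have k4 : c / FS ≤ 1 := by rw [k3]; nlinarith
  rw [div_le_one hFp] at k4
  exact le_antisymm k4 hc

end Pool.Agent.MDX
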